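import Pool.Agent.H96.EB.Defs

/-!
# [H96 EB BAS] Coordinates with respect to a basis, counting

PROOF. `ν = gau X Y θ = max |S| |T|` with the linear forms `S v = v.1/X`, `T v = (v.2 - θ v.1)/Y`.
`gau_pos`: `ν v = 0` gives `v.1 = 0`, then `v.2 = 0`. `gau_comb`: triangle inequality. `gau_det`: `u.1 v.2 - u.2 v.1 = X Y (S u T v - T u S v)` (expand; `field_simp; ring`), so its absolute value is `<= 2 X Y ν(u) ν(v)`.
`bas_lo`: `gau_det` for `(v1,v2)`. `bas_co`: `|det(v,v2)| ν(v1) <= 2XY ν(v) ν(v2) ν(v1) <= 2XY ν(v) * 2/(XY) = 4 ν(v)`, the same for `det(v1,v)`.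
`bas_fin`: if `ν(v) <= t` then `a = det(v,v2)`, `b = det(v1,v)` satisfy `v = a v1 + b v2` (Cramer, from `det(v1,v2) = 1`: `ring`/`linear_combination`) and `|a| <= 4t/l1`, `|b| <= 4t/l2` (`bas_co`), so `v` is in the image of the box
`Icc (-⌊4t/l1⌋) ⌊4t/l1⌋ ×ˢ Icc (-⌊4t/l2⌋) ⌊4t/l2⌋` under `(a,b) ↦ (a v1.1 + b v2.1, a v1.2 + b v2.2)`. `S` = the elements of the image with `ν <= t`; card `<= (2⌊4t/l1⌋ + 1)(2⌊4t/l2⌋ + 1)`.
-/

namespace Pool.Agent.H96.EB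

theorem gau_nonneg (X Y θ : ℝ) (hX : 0 < X) (v : ℤ × ℤ) : 0 ≤ gau X Y θ v := by
  unfold gau
  exact le_max_of_le_left (div_nonneg (abs_nonneg _) hX.le)

theorem gau_x (X Y θ : ℝ) (hX : 0 < X) (v : ℤ × ℤ) : |(v.1 : ℝ)| ≤ X * gau X Y θ v := by
  have h : |(v.1 : ℝ)| / X ≤ gau X Y θ v := le_max_left _ _
  rw [div_le_iff₀ hX] at h
  linarith

theorem gau_y (X Y θ : ℝ) (hY : 0 < Y) (v : ℤ × ℤ) : |(v.2 : ℝ) - θ * v.1| ≤ Y * gau X Y θ v := by
  have h : |(v.2 : ℝ) - θ * v.1| / Y ≤ gau X Y θ v := le_max_right _ _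
  rw [div_le_iff₀ hY] at h
  linarith

theorem gau_le (X Y θ : ℝ) (hX : 0 < X) (hY : 0 < Y) (v : ℤ × ℤ) (t : ℝ) (h1 : |(v.1 : ℝ)| ≤ X * t)
    (h2 : |(v.2 : ℝ) - θ * v.1| ≤ Y * t) : gau X Y θ v ≤ t := by
  refine max_le ?_ ?_
  · rw [div_le_iff₀ hX]
    linarith
  · rw [div_le_iff₀ hY]
    linarith

theorem gau_pos (X Y θ : ℝ) (hX : 0 < X) (hY : 0 < Y) (v : ℤ × ℤ) (hv : v ≠ 0) :
    0 < gau X Y θ v := by
  rcases lt_or_eq_of_le (gau_nonneg X Y θ hX v) with h | h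
  · exact h
  · exfalso
    have h1 := gau_x X Y θ hX v
    have h2 := gau_y X Y θ hY v
    rw [← h, mul_zero] at h1 h2
    have h3 : (v.1 : ℝ) = 0 := abs_nonpos_iff.mp h1
    have h4 : (v.2 : ℝ) - θ * v.1 = 0 := abs_nonpos_iff.mp h2
    rw [h3, mul_zero, sub_zero] at h4
    apply hv
    ext
    · exact_mod_cast h3
    · exact_mod_cast h4

theorem gau_comb (X Y θ : ℝ) (hX : 0 < X) (hY : 0 < Y) (a b : ℤ) (v1 v2 : ℤ × ℤ) :
    gau X Y θ (a * v1.1 + b * v2.1, a * v1.2 + b * v2.2) ≤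
      |(a : ℝ)| * gau X Y θ v1 + |(b : ℝ)| * gau X Y θ v2 := by
  apply gau_le X Y θ hX hY
  · have e : (((a * v1.1 + b * v2.1 : ℤ)) : ℝ) = (a : ℝ) * v1.1 + b * v2.1 := by push_cast; ring
    show |(((a * v1.1 + b * v2.1 : ℤ)) : ℝ)| ≤ _
    rw [e]
    calc |(a : ℝ) * v1.1 + b * v2.1| ≤ |(a : ℝ) * v1.1| + |(b : ℝ) * v2.1| := abs_add_le _ _
      _ = |(a : ℝ)| * |(v1.1 : ℝ)| + |(b : ℝ)| * |(v2.1 : ℝ)| := by rw [abs_mul, abs_mul]
      _ ≤ |(a : ℝ)| * (X * gau X Y θ v1) + |(b : ℝ)| * (X * gau X Y θ v2) := by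
          gcongr
          · exact gau_x X Y θ hX v1
          · exact gau_x X Y θ hX v2
      _ = _ := by ring
  · have e : (((a * v1.2 + b * v2.2 : ℤ)) : ℝ) - θ * ((a * v1.1 + b * v2.1 : ℤ) : ℝ) =
        (a : ℝ) * (v1.2 - θ * v1.1) + b * (v2.2 - θ * v2.1) := by push_cast; ring
    show |(((a * v1.2 + b * v2.2 : ℤ)) : ℝ) - θ * ((a * v1.1 + b * v2.1 : ℤ) : ℝ)| ≤ _
    rw [e]
    calc |(a : ℝ) * (v1.2 - θ * v1.1) + b * (v2.2 - θ * v2.1)|
        ≤ |(a : ℝ) * (v1.2 - θ * v1.1)| + |(b : ℝ) * (v2.2 - θ * v2.1)| := abs_add_le _ _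
      _ = |(a : ℝ)| * |((v1.2 : ℝ) - θ * v1.1)| + |(b : ℝ)| * |((v2.2 : ℝ) - θ * v2.1)| := by
          rw [abs_mul, abs_mul]
      _ ≤ |(a : ℝ)| * (Y * gau X Y θ v1) + |(b : ℝ)| * (Y * gau X Y θ v2) := by
          gcongr
          · exact gau_y X Y θ hY v1
          · exact gau_y X Y θ hY v2
      _ = _ := by ring

theorem gau_det (X Y θ : ℝ) (hX : 0 < X) (hY : 0 < Y) (u v : ℤ × ℤ) :
    |((u.1 * v.2 - u.2 * v.1 : ℤ) : ℝ)| ≤ 2 * (X * Y) * gau X Y θ u * gau X Y θ v := by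
  have e : ((u.1 * v.2 - u.2 * v.1 : ℤ) : ℝ) =
      (u.1 : ℝ) * (v.2 - θ * v.1) - (u.2 - θ * u.1) * v.1 := by push_cast; ring
  rw [e]
  have hu := gau_nonneg X Y θ hX u
  have hv := gau_nonneg X Y θ hX v
  calc |(u.1 : ℝ) * (v.2 - θ * v.1) - (u.2 - θ * u.1) * v.1|
      ≤ |(u.1 : ℝ) * (v.2 - θ * v.1)| + |((u.2 : ℝ) - θ * u.1) * v.1| := abs_sub _ _
    _ = |(u.1 : ℝ)| * |((v.2 : ℝ) - θ * v.1)| + |((u.2 : ℝ) - θ * u.1)| * |(v.1 : ℝ)| := by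
        rw [abs_mul, abs_mul]
    _ ≤ (X * gau X Y θ u) * (Y * gau X Y θ v) + (Y * gau X Y θ u) * (X * gau X Y θ v) := by
        have h1 := gau_x X Y θ hX u
        have h2 := gau_y X Y θ hY u
        have h3 := gau_x X Y θ hX v
        have h4 := gau_y X Y θ hY v
        gcongr
    _ = _ := by ring

theorem bas_lo (X Y θ : ℝ) (hX : 0 < X) (hY : 0 < Y) (v1 v2 : ℤ × ℤ)
    (hdet : v1.1 * v2.2 - v1.2 * v2.1 = 1) : 1 ≤ 2 * (X * Y) * (gau X Y θ v1 * gau X Y θ v2) := by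
  have h := gau_det X Y θ hX hY v1 v2
  rw [hdet] at h
  simp only [Int.cast_one, abs_one] at h
  linarith

theorem bas_co (X Y θ : ℝ) (hX : 0 < X) (hY : 0 < Y) (v1 v2 : ℤ × ℤ)
    (hdet : v1.1 * v2.2 - v1.2 * v2.1 = 1) (hl : gau X Y θ v1 * gau X Y θ v2 ≤ 2 / (X * Y))
    (v : ℤ × ℤ) : |((v.1 * v2.2 - v.2 * v2.1 : ℤ) : ℝ)| * gau X Y θ v1 ≤ 4 * gau X Y θ v ∧
      |((v1.1 * v.2 - v1.2 * v.1 : ℤ) : ℝ)| * gau X Y θ v2 ≤ 4 * gau X Y θ v := by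
  have hXY : 0 < X * Y := mul_pos hX hY
  have h1 := gau_nonneg X Y θ hX v1
  have h2 := gau_nonneg X Y θ hX v2
  have h := gau_nonneg X Y θ hX v
  have hl2 : (X * Y) * (gau X Y θ v1 * gau X Y θ v2) ≤ 2 := by
    rw [le_div_iff₀ hXY] at hl
    linarith
  have hl3 : gau X Y θ v * ((X * Y) * (gau X Y θ v1 * gau X Y θ v2)) ≤ gau X Y θ v * 2 :=
    mul_le_mul_of_nonneg_left hl2 h
  constructor
  · have a := gau_det X Y θ hX hY v v2
    have b := mul_le_mul_of_nonneg_right a h1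
    linarith
  · have a := gau_det X Y θ hX hY v1 v
    have b := mul_le_mul_of_nonneg_right a h2
    linarith

theorem bas_fin (X Y θ : ℝ) (hX : 0 < X) (hY : 0 < Y) (v1 v2 : ℤ × ℤ)
    (hdet : v1.1 * v2.2 - v1.2 * v2.1 = 1) (hl : gau X Y θ v1 * gau X Y θ v2 ≤ 2 / (X * Y))
    (t : ℝ) (ht : 0 ≤ t) : ∃ S : Finset (ℤ × ℤ), (∀ v, v ∈ S ↔ gau X Y θ v ≤ t) ∧
      (S.card : ℝ) ≤ (8 * t / gau X Y θ v1 + 1) * (8 * t / gau X Y θ v2 + 1) := by
  classical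
  have n1 : v1 ≠ 0 := by
    rintro rfl
    simp at hdet
  have n2 : v2 ≠ 0 := by
    rintro rfl
    simp at hdet
  have p1 := gau_pos X Y θ hX hY v1 n1
  have p2 := gau_pos X Y θ hX hY v2 n2
  set l1 := gau X Y θ v1 with hl1
  set l2 := gau X Y θ v2 with hl2
  set A : ℤ := ⌊4 * t / l1⌋ with hA
  set B : ℤ := ⌊4 * t / l2⌋ with hB
  have hA0 : 0 ≤ A := Int.floor_nonneg.mpr (by positivity)
  have hB0 : 0 ≤ B := Int.floor_nonneg.mpr (by positivity)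
  set f : ℤ × ℤ → ℤ × ℤ := fun q => (q.1 * v1.1 + q.2 * v2.1, q.1 * v1.2 + q.2 * v2.2) with hf
  refine ⟨((Finset.Icc (-A) A ×ˢ Finset.Icc (-B) B).image f).filter (fun v => gau X Y θ v ≤ t),
    ?_, ?_⟩
  · intro v
    constructor
    · intro h
      exact (Finset.mem_filter.mp h).2
    · intro h
      refine Finset.mem_filter.mpr ⟨Finset.mem_image.mpr ?_, h⟩
      have hc := bas_co X Y θ hX hY v1 v2 hdet hl v
      refine ⟨(v.1 * v2.2 - v.2 * v2.1, v1.1 * v.2 - v1.2 * v.1), ?_, ?_⟩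
      · rw [Finset.mem_product, Finset.mem_Icc, Finset.mem_Icc, ← abs_le, ← abs_le]
        constructor
        · show |v.1 * v2.2 - v.2 * v2.1| ≤ A
          rw [hA, Int.le_floor, le_div_iff₀ p1, Int.cast_abs]
          exact hc.1.trans (by linarith)
        · show |v1.1 * v.2 - v1.2 * v.1| ≤ B
          rw [hB, Int.le_floor, le_div_iff₀ p2, Int.cast_abs]
          exact hc.2.trans (by linarith)
      · rw [hf]
        ext
        · show (v.1 * v2.2 - v.2 * v2.1) * v1.1 + (v1.1 * v.2 - v1.2 * v.1) * v2.1 = v.1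
          linear_combination v.1 * hdet
        · show (v.1 * v2.2 - v.2 * v2.1) * v1.2 + (v1.1 * v.2 - v1.2 * v.1) * v2.2 = v.2
          linear_combination v.2 * hdet
  · have c1 : (((Finset.Icc (-A) A ×ˢ Finset.Icc (-B) B).image f).filter
        (fun v => gau X Y θ v ≤ t)).card ≤ (Finset.Icc (-A) A ×ˢ Finset.Icc (-B) B).card :=
      (Finset.card_filter_le _ _).trans Finset.card_image_le
    have c2 : ((Finset.Icc (-A) A ×ˢ Finset.Icc (-B) B).card : ℝ) = (2 * A + 1) * (2 * B + 1) := by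
      rw [Finset.card_product, Int.card_Icc, Int.card_Icc]
      have e1 : ((A + 1 - -A).toNat : ℝ) = 2 * A + 1 := by
        have : ((A + 1 - -A).toNat : ℤ) = 2 * A + 1 := by omega
        exact_mod_cast this
      have e2 : ((B + 1 - -B).toNat : ℝ) = 2 * B + 1 := by
        have : ((B + 1 - -B).toNat : ℤ) = 2 * B + 1 := by omega
        exact_mod_cast this
      rw [Nat.cast_mul, e1, e2]
    have c3 : (A : ℝ) ≤ 4 * t / l1 := Int.floor_le _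
    have c4 : (B : ℝ) ≤ 4 * t / l2 := Int.floor_le _
    have c5 : (0 : ℝ) ≤ A := by exact_mod_cast hA0
    have c6 : (0 : ℝ) ≤ B := by exact_mod_cast hB0
    calc ((((Finset.Icc (-A) A ×ˢ Finset.Icc (-B) B).image f).filter
        (fun v => gau X Y θ v ≤ t)).card : ℝ) ≤ ((Finset.Icc (-A) A ×ˢ Finset.Icc (-B) B).card : ℝ) := by
          exact_mod_cast c1
      _ = (2 * A + 1) * (2 * B + 1) := c2
      _ ≤ (8 * t / l1 + 1) * (8 * t / l2 + 1) := by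
          have d1 : 2 * (A : ℝ) + 1 ≤ 8 * t / l1 + 1 := by
            have : 8 * t / l1 = 2 * (4 * t / l1) := by ring
            linarith
          have d2 : 2 * (B : ℝ) + 1 ≤ 8 * t / l2 + 1 := by
            have : 8 * t / l2 = 2 * (4 * t / l2) := by ring
            linarith
          exact mul_le_mul d1 d2 (by linarith) (by linarith)

end Pool.Agent.H96.EB
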