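import Pool.Agent.H96.EB.Defs

/-!
# [H96 EB RED] Reduced bases of `Z^2` for a gauge

PROOF. Write `ν = gau X Y θ`, `S v = v.1/X`, `T v = (v.2 - θ v.1)/Y`, so `ν = max |S| |T|`, and `det (u,v) := u.1 v.2 - u.2 v.1 = X Y (S u T v - T u S v)`.
(1) Finiteness: `ν v <= t` gives `|v.1| <= t X`, `|v.2| <= t Y + |θ| t X`; so among the nonzero `v` with `ν v <= ν (1,0)` (finite, nonempty) there is `v1` with minimal `ν`; it is minimal
among all nonzero `v`. `ν v1 > 0` (`ν v = 0` gives `v.1 = 0`, `v.2 = 0`).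
(2) `gcd(v1.1, v1.2) = 1`: if `d >= 2` divides both, `v1 = d u`, `u ≠ 0`, `ν u = ν v1/d < ν v1`. By Bezout there is `u` with `det (v1,u) = 1`, and all `v2 = u + n v1`, `n` an integer, have this too.
(3) Let `l1 = ν v1`. Case `|S v1| = l1`: choose `n` with `|S v2| <= l1/2` (`n = - round (S u/S v1)`; `S` is additive). Then `1 = X Y (S v1 T v2 - T v1 S v2)`, so with `D = 1/(XY)`:
`l1 |T v2| <= D + |T v1| |S v2| <= D + l1^2/2`. As `v2 ≠ 0`, `ν v2 >= l1`, and `|S v2| <= l1/2 < l1`, so `ν v2 = |T v2| =: l2 >= l1`; hence `l1 l2 <= D + l1^2/2 <= D + l1 l2/2`, i.e. `l1 l2 <= 2D`.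
Case `|T v1| = l1`: the same with `S` and `T` exchanged (`n = - round (T u/T v1)`).
-/

namespace Pool.Agent.H96.EB

private theorem red_core (s1 t1 su tu D l : ℝ) (hl : 0 < l) (hs : |s1| = l) (ht : |t1| ≤ l)
    (hD : |s1 * tu - t1 * su| = D) : ∃ n : ℤ,
    l ≤ max |su + n * s1| |tu + n * t1| → l * max |su + n * s1| |tu + n * t1| ≤ 2 * D := by
  have hs0 : s1 ≠ 0 := by
    intro h
    rw [h, abs_zero] at hs
    linarith
  refine ⟨-round (su / s1), ?_⟩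
  obtain ⟨n, hn⟩ : ∃ n : ℤ, n = -round (su / s1) := ⟨_, rfl⟩
  rw [← hn]
  have h1 : |su + n * s1| ≤ l / 2 := by
    have h2 : su + n * s1 = (su / s1 - round (su / s1)) * s1 := by
      rw [hn]
      push_cast
      field_simp
      ring
    rw [h2, abs_mul, hs]
    have h3 := abs_sub_round (su / s1)
    nlinarith
  have h2 : l * |tu + n * t1| ≤ D + l * l / 2 := by
    have h3 : l * |tu + n * t1| = |(s1 * tu - t1 * su) + t1 * (su + n * s1)| := by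
      rw [← hs, ← abs_mul]
      congr 1
      ring
    rw [h3]
    refine (abs_add_le _ _).trans ?_
    rw [hD, abs_mul]
    have h4 : |t1| * |su + n * s1| ≤ l * (l / 2) :=
      mul_le_mul ht h1 (abs_nonneg _) hl.le
    linarith
  intro h3
  have h4 : l ≤ |tu + n * t1| := by
    rcases le_max_iff.mp h3 with h5 | h5
    · linarith
    · exact h5
  have h5 : max |su + n * s1| |tu + n * t1| = |tu + n * t1| := max_eq_right (by linarith)
  rw [h5]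
  nlinarith

private theorem red_pos (X Y θ : ℝ) (hX : 0 < X) (hY : 0 < Y) (v : ℤ × ℤ) (hv : v ≠ 0) :
    0 < gau X Y θ v := by
  unfold gau
  by_cases h : v.1 = 0
  · have h2 : v.2 ≠ 0 := by
      intro h2
      exact hv (Prod.ext h h2)
    refine lt_max_of_lt_right ?_
    rw [h, Int.cast_zero, mul_zero, sub_zero]
    have h3 : (v.2 : ℝ) ≠ 0 := by exact_mod_cast h2
    positivity
  · refine lt_max_of_lt_left ?_
    have h3 : (v.1 : ℝ) ≠ 0 := by exact_mod_cast h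
    positivity

private theorem red_fin (X Y θ t : ℝ) (hX : 0 < X) (hY : 0 < Y) :
    {v : ℤ × ℤ | gau X Y θ v ≤ t}.Finite := by
  have h1 : ∀ v : ℤ × ℤ, gau X Y θ v ≤ t →
      |(v.1 : ℝ)| ≤ t * X ∧ |(v.2 : ℝ)| ≤ t * Y + |θ| * (t * X) := by
    intro v hv
    unfold gau at hv
    obtain ⟨h2, h3⟩ := max_le_iff.mp hv
    rw [div_le_iff₀ hX] at h2
    rw [div_le_iff₀ hY] at h3
    refine ⟨h2, ?_⟩
    have h4 : (v.2 : ℝ) = ((v.2 : ℝ) - θ * v.1) + θ * v.1 := by ring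
    rw [h4]
    refine (abs_add_le _ _).trans ?_
    rw [abs_mul]
    have h5 : |θ| * |(v.1 : ℝ)| ≤ |θ| * (t * X) := mul_le_mul_of_nonneg_left h2 (abs_nonneg _)
    linarith
  refine Set.Finite.subset ((Set.finite_Icc (-⌈t * X⌉) ⌈t * X⌉).prod
    (Set.finite_Icc (-⌈t * Y + |θ| * (t * X)⌉) ⌈t * Y + |θ| * (t * X)⌉)) ?_
  intro v hv
  obtain ⟨h2, h3⟩ := h1 v hv
  obtain ⟨h4, h5⟩ := abs_le.mp (h2.trans (Int.le_ceil _))
  obtain ⟨h6, h7⟩ := abs_le.mp (h3.trans (Int.le_ceil _))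
  exact ⟨⟨by exact_mod_cast h4, by exact_mod_cast h5⟩, ⟨by exact_mod_cast h6, by exact_mod_cast h7⟩⟩

private theorem red_min (X Y θ : ℝ) (hX : 0 < X) (hY : 0 < Y) : ∃ v1 : ℤ × ℤ, v1 ≠ 0 ∧
    ∀ v : ℤ × ℤ, v ≠ 0 → gau X Y θ v1 ≤ gau X Y θ v := by
  have hf : {v : ℤ × ℤ | gau X Y θ v ≤ gau X Y θ (1, 0) ∧ v ≠ 0}.Finite :=
    (red_fin X Y θ _ hX hY).subset fun v hv => hv.1
  obtain ⟨v1, h1, h2⟩ := Set.exists_min_image _ (gau X Y θ) hf ⟨(1, 0), le_rfl, by simp⟩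
  refine ⟨v1, h1.2, fun v hv => ?_⟩
  rcases le_or_gt (gau X Y θ v) (gau X Y θ (1, 0)) with h | h
  · exact h2 v ⟨h, hv⟩
  · exact h1.1.trans h.le

private theorem red_gcd (X Y θ : ℝ) (hX : 0 < X) (hY : 0 < Y) (v1 : ℤ × ℤ) (h0 : v1 ≠ 0)
    (hm : ∀ v : ℤ × ℤ, v ≠ 0 → gau X Y θ v1 ≤ gau X Y θ v) : IsCoprime v1.1 v1.2 := by
  rw [Int.isCoprime_iff_gcd_eq_one]
  obtain ⟨a, ha⟩ := Int.gcd_dvd_left v1.1 v1.2
  obtain ⟨b, hb⟩ := Int.gcd_dvd_right v1.1 v1.2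
  obtain ⟨d, hd⟩ : ∃ d : ℕ, d = Int.gcd v1.1 v1.2 := ⟨_, rfl⟩
  rw [← hd] at ha hb ⊢
  have hd0 : d ≠ 0 := by
    intro h
    rw [h] at ha hb
    apply h0
    apply Prod.ext
    · rw [ha]
      simp
    · rw [hb]
      simp
  by_contra hd1
  have hd2 : (2 : ℝ) ≤ d := by
    have : 2 ≤ d := by omega
    exact_mod_cast this
  have hu : ((a, b) : ℤ × ℤ) ≠ 0 := by
    intro h
    have h1 : a = 0 := congrArg Prod.fst h
    have h2 : b = 0 := congrArg Prod.snd h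
    apply h0
    apply Prod.ext
    · rw [ha, h1]
      simp
    · rw [hb, h2]
      simp
  have h1 := hm (a, b) hu
  have h2 := red_pos X Y θ hX hY (a, b) hu
  have h3 : gau X Y θ v1 = d * gau X Y θ (a, b) := by
    unfold gau
    rw [mul_max_of_nonneg _ _ (Nat.cast_nonneg d)]
    have h4 : (v1.1 : ℝ) = d * (a : ℝ) := by
      rw [ha]
      push_cast
      ring
    have h5 : (v1.2 : ℝ) = d * (b : ℝ) := by
      rw [hb]
      push_cast
      ring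
    have h6 : (d : ℝ) * (b : ℝ) - θ * (d * (a : ℝ)) = d * (b - θ * a) := by ring
    rw [h4, h5, h6, abs_mul, abs_mul, Nat.abs_cast, mul_div_assoc, mul_div_assoc]
  rw [h3] at h1
  nlinarith

theorem red (X Y θ : ℝ) (hX : 0 < X) (hY : 0 < Y) : ∃ v1 v2 : ℤ × ℤ,
    v1.1 * v2.2 - v1.2 * v2.1 = 1 ∧ (∀ v : ℤ × ℤ, v ≠ 0 → gau X Y θ v1 ≤ gau X Y θ v) ∧
    gau X Y θ v1 ≤ gau X Y θ v2 ∧ gau X Y θ v1 * gau X Y θ v2 ≤ 2 / (X * Y) := by
  obtain ⟨v1, h0, hm⟩ := red_min X Y θ hX hY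
  obtain ⟨a, b, hab⟩ := red_gcd X Y θ hX hY v1 h0 hm
  have hl := red_pos X Y θ hX hY v1 h0
  -- the coordinates
  have hg : ∀ v : ℤ × ℤ, gau X Y θ v = max |(v.1 : ℝ) / X| |((v.2 : ℝ) - θ * v.1) / Y| := by
    intro v
    unfold gau
    rw [abs_div, abs_div, abs_of_pos hX, abs_of_pos hY]
  have hdet : ∀ n : ℤ, v1.1 * (a + n * v1.2) - v1.2 * (-b + n * v1.1) = 1 := by
    intro n
    linear_combination hab
  have hne : ∀ n : ℤ, ((-b + n * v1.1, a + n * v1.2) : ℤ × ℤ) ≠ 0 := by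
    intro n h
    have h1 : -b + n * v1.1 = 0 := congrArg Prod.fst h
    have h2 : a + n * v1.2 = 0 := congrArg Prod.snd h
    have h3 := hdet n
    rw [h1, h2] at h3
    simp at h3
  have hS : ∀ n : ℤ, (((-b + n * v1.1 : ℤ) : ℝ)) / X =
      (-b : ℝ) / X + n * ((v1.1 : ℝ) / X) := by
    intro n
    push_cast
    ring
  have hT : ∀ n : ℤ, (((a + n * v1.2 : ℤ) : ℝ) - θ * ((-b + n * v1.1 : ℤ) : ℝ)) / Y =
      ((a : ℝ) - θ * (-b)) / Y + n * (((v1.2 : ℝ) - θ * v1.1) / Y) := by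
    intro n
    push_cast
    ring
  have habR : (a : ℝ) * v1.1 + b * v1.2 = 1 := by exact_mod_cast hab
  have hD : (v1.1 : ℝ) / X * (((a : ℝ) - θ * (-b)) / Y) -
      ((v1.2 : ℝ) - θ * v1.1) / Y * ((-b : ℝ) / X) = 1 / (X * Y) := by
    have h1 : (v1.1 : ℝ) / X * (((a : ℝ) - θ * (-b)) / Y) -
        ((v1.2 : ℝ) - θ * v1.1) / Y * ((-b : ℝ) / X) = ((a : ℝ) * v1.1 + b * v1.2) / (X * Y) := by
      field_simp
      ring
    rw [h1, habR]
  have hDp : 0 < 1 / (X * Y) := by positivity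
  rcases le_total |((v1.2 : ℝ) - θ * v1.1) / Y| |(v1.1 : ℝ) / X| with hc | hc
  · have hl1 : gau X Y θ v1 = |(v1.1 : ℝ) / X| := by rw [hg, max_eq_left hc]
    obtain ⟨n, hn⟩ := red_core ((v1.1 : ℝ) / X) (((v1.2 : ℝ) - θ * v1.1) / Y) ((-b : ℝ) / X)
      (((a : ℝ) - θ * (-b)) / Y) (1 / (X * Y)) (gau X Y θ v1) hl hl1.symm (by rw [hl1]; exact hc)
      (by rw [hD, abs_of_pos hDp])
    have h2 := hm _ (hne n)
    have h3 : gau X Y θ (-b + n * v1.1, a + n * v1.2) = max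
        |(-b : ℝ) / X + n * ((v1.1 : ℝ) / X)|
        |((a : ℝ) - θ * (-b)) / Y + n * (((v1.2 : ℝ) - θ * v1.1) / Y)| := by
      rw [hg, ← hS, ← hT]
    refine ⟨v1, (-b + n * v1.1, a + n * v1.2), hdet n, hm, h2, ?_⟩
    rw [h3] at h2 ⊢
    refine (hn h2).trans (le_of_eq ?_)
    ring
  · have hl1 : gau X Y θ v1 = |((v1.2 : ℝ) - θ * v1.1) / Y| := by rw [hg, max_eq_right hc]
    obtain ⟨n, hn⟩ := red_core (((v1.2 : ℝ) - θ * v1.1) / Y) ((v1.1 : ℝ) / X)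
      (((a : ℝ) - θ * (-b)) / Y) ((-b : ℝ) / X)
      (1 / (X * Y)) (gau X Y θ v1) hl hl1.symm (by rw [hl1]; exact hc)
      (by rw [abs_sub_comm, hD, abs_of_pos hDp])
    have h2 := hm _ (hne n)
    have h3 : gau X Y θ (-b + n * v1.1, a + n * v1.2) = max
        |((a : ℝ) - θ * (-b)) / Y + n * (((v1.2 : ℝ) - θ * v1.1) / Y)|
        |(-b : ℝ) / X + n * ((v1.1 : ℝ) / X)| := by
      rw [hg, max_comm, ← hS, ← hT]
    refine ⟨v1, (-b + n * v1.1, a + n * v1.2), hdet n, hm, h2, ?_⟩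
    rw [h3] at h2 ⊢
    refine (hn h2).trans (le_of_eq ?_)
    ring

end Pool.Agent.H96.EB
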