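import Pool.Agent.H96.EB.Def2

/-!
# [H96 EB WIN] Averages over short windows

PROOF. `win1`: `Σ_{a < s <= c-H} Σ_{s < b <= s+H} u b = Σ_{a < b <= c} n(b) u b`, `n(b) = #{s : a < s <= c-H, b-H <= s <= b-1}`, `0 <= n(b) <= H`, and `n(b) = H` if `a + H < b <= c-H` (then `[b-H,b-1] ⊆ (a,c-H]`). So `‖H Σ u - Σ_s Σ u‖ <= H Σ_{b not in (a+H,c-H]} ‖u b‖`.
`win2`: `γ = t/q + θ`: `ee(γ p b) = ee(t p b/q) ee(θ p s) ee(θ p (b-s))`. `‖ee(θ p(b-s)) - 1‖ <= 2π |θ| p (b-s) <= 2π |θ| p H`; the main part is `Σ_{r<q} ee(t p r/q) Σ_{b ≡ r} β b` times a number of norm 1 (`ee(t p b/q)` depends on `b % q` only).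
-/

namespace Pool.Agent.H96.EB

open Finset Pool.Agent.H24.AB

theorem win1 (a c : ℤ) (H : ℕ) (hH : 1 ≤ H) (u : ℤ → ℂ) :
    (H : ℝ) * ‖∑ b ∈ Ioc a c, u b‖ ≤
      ∑ s ∈ Ioc a (c - H), ‖∑ b ∈ Ioc s (s + H), u b‖ +
        (H : ℝ) * ∑ b ∈ (Ioc a c).filter (fun b => ¬ (a + H < b ∧ b ≤ c - H)), ‖u b‖ := by
  classical
  set T : ℤ → Finset ℤ := fun b => (Ioc a (c - H)).filter (fun s => s < b ∧ b ≤ s + H) with hT
  have hcard : ∀ b, (T b).card ≤ H := by
    intro b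
    have hsub : T b ⊆ Ico (b - H) b := by
      intro s hs
      obtain ⟨_, h2⟩ := mem_filter.1 hs
      rw [mem_Ico]
      omega
    have h1 := card_le_card hsub
    rw [Int.card_Ico] at h1
    omega
  have hcard2 : ∀ b, a + H < b → b ≤ c - H → (T b).card = H := by
    intro b h1 h2
    have he : T b = Ico (b - H) b := by
      ext s
      rw [hT, mem_filter, mem_Ioc, mem_Ico]
      omega
    rw [he, Int.card_Ico]
    omega
  have hswap : ∑ s ∈ Ioc a (c - H), ∑ b ∈ Ioc s (s + H), u b =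
      ∑ b ∈ Ioc a c, ((T b).card : ℂ) * u b := by
    have h1 : ∑ s ∈ Ioc a (c - H), ∑ b ∈ Ioc s (s + H), u b = ∑ b ∈ Ioc a c, ∑ s ∈ T b, u b := by
      apply sum_comm'
      intro s b
      rw [hT, mem_filter, mem_Ioc, mem_Ioc, mem_Ioc]
      omega
    rw [h1]
    refine sum_congr rfl fun b _ => ?_
    rw [sum_const, nsmul_eq_mul]
  have hdiff : (H : ℂ) * ∑ b ∈ Ioc a c, u b = ∑ s ∈ Ioc a (c - H), ∑ b ∈ Ioc s (s + H), u b +
      ∑ b ∈ Ioc a c, ((H : ℂ) - (T b).card) * u b := by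
    rw [hswap, mul_sum, ← sum_add_distrib]
    refine sum_congr rfl fun b _ => ?_
    ring
  have h1 : (H : ℝ) * ‖∑ b ∈ Ioc a c, u b‖ = ‖(H : ℂ) * ∑ b ∈ Ioc a c, u b‖ := by
    rw [norm_mul, Complex.norm_natCast]
  rw [h1, hdiff]
  refine (norm_add_le _ _).trans (add_le_add (norm_sum_le _ _) ?_)
  refine (norm_sum_le _ _).trans ?_
  rw [mul_sum, sum_filter]
  refine sum_le_sum fun b _ => ?_
  have hn : ‖(H : ℂ) - ((T b).card : ℂ)‖ = (H : ℝ) - (T b).card := by
    have h2 : (H : ℂ) - ((T b).card : ℂ) = (((H : ℝ) - ((T b).card : ℝ) : ℝ) : ℂ) := by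
      push_cast
      rfl
    rw [h2, Complex.norm_real, Real.norm_eq_abs, abs_of_nonneg]
    have : ((T b).card : ℝ) ≤ H := by exact_mod_cast hcard b
    linarith
  rw [norm_mul, hn]
  by_cases hb : a + H < b ∧ b ≤ c - H
  · rw [if_neg (not_not.2 hb), hcard2 b hb.1 hb.2, sub_self, zero_mul]
  · rw [if_pos hb]
    apply mul_le_mul_of_nonneg_right _ (norm_nonneg _)
    have : (0 : ℝ) ≤ ((T b).card : ℝ) := Nat.cast_nonneg _
    linarith

private theorem win_ee (x : ℝ) : ‖ee x - 1‖ ≤ 2 * Real.pi * |x| := by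
  have h : ee x = Complex.exp (Complex.I * ((2 * Real.pi * x : ℝ) : ℂ)) := by
    unfold ee
    congr 1
    push_cast
    ring
  rw [h]
  refine (Real.norm_exp_I_mul_ofReal_sub_one_le).trans ?_
  rw [Real.norm_eq_abs, abs_mul, abs_of_pos (by positivity : (0 : ℝ) < 2 * Real.pi)]

theorem win2 (β : ℤ → ℝ) (p q H : ℕ) (t : ℤ) (θ γ : ℝ) (hq : 1 ≤ q) (hγ : γ = t / q + θ) (s : ℤ) :
    ‖∑ b ∈ Ioc s (s + H), (β b : ℂ) * ee (γ * (p * b))‖ ≤
      ∑ r ∈ range q, |∑ b ∈ (Ioc s (s + H)).filter (fun b : ℤ => b % (q : ℤ) = (r : ℤ)), β b| +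
        2 * Real.pi * |θ| * p * H * ∑ b ∈ Ioc s (s + H), |β b| := by
  classical
  have hqz : (0 : ℤ) < q := by exact_mod_cast hq
  have hqR : (q : ℝ) ≠ 0 := by
    have : (0 : ℝ) < q := by exact_mod_cast hq
    exact this.ne'
  have e1 : ∑ b ∈ Ioc s (s + H), (β b : ℂ) * ee (γ * (p * b)) =
      ee (θ * p * s) * (∑ b ∈ Ioc s (s + H), (β b : ℂ) * ee (t * p * b / q) +
        ∑ b ∈ Ioc s (s + H), (β b : ℂ) * ee (t * p * b / q) *
          (ee (θ * p * ((b : ℝ) - s)) - 1)) := by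
    rw [← sum_add_distrib, mul_sum]
    refine sum_congr rfl fun b _ => ?_
    have h1 : γ * (p * b) = θ * p * s + (t * p * b / q + θ * p * ((b : ℝ) - s)) := by
      rw [hγ]
      ring
    rw [h1, ee_add, ee_add]
    ring
  rw [e1, norm_mul, ee_norm, one_mul]
  refine (norm_add_le _ _).trans (add_le_add ?_ ?_)
  · have h1 : ∀ b ∈ Ioc s (s + H), (b % (q : ℤ)).toNat ∈ range q := by
      intro b _
      have e1 := Int.emod_nonneg b hqz.ne'
      have e2 := Int.emod_lt_of_pos b hqz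
      rw [mem_range]
      omega
    rw [← sum_fiberwise_of_maps_to h1]
    refine (norm_sum_le _ _).trans (sum_le_sum fun r _ => ?_)
    have h2 : (Ioc s (s + H)).filter (fun b => (b % (q : ℤ)).toNat = r) =
        (Ioc s (s + H)).filter (fun b : ℤ => b % (q : ℤ) = (r : ℤ)) := by
      refine filter_congr fun b _ => ?_
      have e1 := Int.emod_nonneg b hqz.ne'
      omega
    rw [h2]
    have h3 : ∑ b ∈ (Ioc s (s + H)).filter (fun b : ℤ => b % (q : ℤ) = (r : ℤ)),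
        (β b : ℂ) * ee (t * p * b / q) =
        ((∑ b ∈ (Ioc s (s + H)).filter (fun b : ℤ => b % (q : ℤ) = (r : ℤ)), β b : ℝ) : ℂ) *
          ee (t * p * r / q) := by
      push_cast
      rw [sum_mul]
      refine sum_congr rfl fun b hb => ?_
      congr 1
      obtain ⟨_, hb2⟩ := mem_filter.1 hb
      have h4 := Int.emod_add_mul_ediv b q
      rw [hb2] at h4
      have h5 : (b : ℝ) = r + q * ((b / (q : ℤ) : ℤ) : ℝ) := by exact_mod_cast h4.symm
      have h6 : (t : ℝ) * p * b / q = t * p * r / q + ((t * p * (b / (q : ℤ)) : ℤ) : ℝ) := by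
        push_cast
        nth_rewrite 1 [h5]
        field_simp
      rw [h6, ee_add, ee_int, mul_one]
    rw [h3, norm_mul, ee_norm, mul_one, Complex.norm_real, Real.norm_eq_abs]
  · refine (norm_sum_le _ _).trans ?_
    rw [mul_sum]
    refine sum_le_sum fun b hb => ?_
    rw [mem_Ioc] at hb
    rw [norm_mul, norm_mul, ee_norm, mul_one, Complex.norm_real, Real.norm_eq_abs]
    have h1 := win_ee (θ * p * ((b : ℝ) - s))
    have h2 : |θ * p * ((b : ℝ) - s)| ≤ |θ| * p * H := by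
      rw [abs_mul, abs_mul]
      have h3 : |(b : ℝ) - s| ≤ H := by
        have h4 : |b - s| ≤ (H : ℤ) := by
          rw [abs_le]
          omega
        exact_mod_cast h4
      have h4 : |(p : ℝ)| = p := abs_of_nonneg (Nat.cast_nonneg _)
      rw [h4]
      apply mul_le_mul_of_nonneg_left h3
      positivity
    have h3 : ‖ee (θ * p * ((b : ℝ) - s)) - 1‖ ≤ 2 * Real.pi * |θ| * p * H := by
      refine h1.trans ?_
      calc 2 * Real.pi * |θ * p * ((b : ℝ) - s)| ≤ 2 * Real.pi * (|θ| * p * H) :=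
            mul_le_mul_of_nonneg_left h2 (by positivity)
        _ = 2 * Real.pi * |θ| * p * H := by ring
    calc |β b| * ‖ee (θ * p * ((b : ℝ) - s)) - 1‖ ≤ |β b| * (2 * Real.pi * |θ| * p * H) :=
          mul_le_mul_of_nonneg_left h3 (abs_nonneg _)
      _ = 2 * Real.pi * |θ| * p * H * |β b| := by ring

end Pool.Agent.H96.EB
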