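import Pool.Agent.H96.EB.Mul
import Pool.Agent.H96.EB.Win

/-!
# [H96 EB LOW] Low frequencies

PROOF. `θ = γ - t/q`, `|θ| <= Q0/(qK) <= Q0/K`. `Fh K (Ff M M' PP β) γ = Σ_m Σ_p Σ_{b ∈ I(m,p)} β b ee(γ (p b - m^3))`, `I(m,p) = {b : m^3 < pb <= m^3+K} = Ioc (m^3/p) ((m^3+K)/p)` (floors; `k = pb - m^3`), so
`‖Fh‖ <= Σ_{m,p} ‖Σ_{b ∈ I} β b ee(γ p b)‖`. Put `κ = P H/K`. `win1` with `u b = β b ee(γ p b)` and `win2` in the windows (`s ∈ I`, `s + H ∈ I`): `H ‖Σ_I‖ <= Σ_{s ∈ I} (w(s) + 2π |θ| p H w1(s)) + H Σ_{b ∈ I'} |β b|`, `w s = Σ_{r<q} |Σ_{b ≡ r} β b|`, `w1 s = Σ_{s<b<=s+H} |β b|`,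
`I' = {b ∈ I : b <= a+H or b > c-H}`, `card I' <= 2H`, `card I <= K/p + 1 <= 2K/P` (`P <= K`). And `Σ_{s ∈ Ioc a (c-H)} w1 s <= H Σ_{b ∈ I} |β b|`. Sum over `(m,p)`, divide by `H`, `mul_sum` three times:
(i) `(1/H) ΣΣ_{s ∈ I} w s <= (1/H) sqrt(η M^3/P H^2) sqrt(1000 * 2K/P * P^2 K/M) = sqrt(2000 η) K M`; (ii) `2π|θ| p H ΣΣ_{b ∈ I} |β b| <= 4π Q0 κ sqrt(D M^3/P) sqrt(2000 P K^2/M) = 4π Q0 κ sqrt(2000 D) K M` (`p <= 2P`);
(iii) `ΣΣ_{b ∈ I'} |β b| <= sqrt(D M^3/P) sqrt(1000 * 2H * P^2 K/M) = sqrt(2000 D) K M sqrt κ` (`M^2 P K H = K^2 M^2 κ`). Total `<= 1000 K M (sqrt η + Q0 κ sqrt D + sqrt (D κ))`.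
-/

namespace Pool.Agent.H96.EB

open Finset Pool.Agent.H24.AB

private theorem low_mem {m b : ℤ} {p : ℕ} (hp : 1 ≤ p) (K : ℕ) :
    b ∈ Ioc (m ^ 3 / (p : ℤ)) ((m ^ 3 + K) / (p : ℤ)) ↔
      m ^ 3 < p * b ∧ (p : ℤ) * b ≤ m ^ 3 + K := by
  have hp' : (0 : ℤ) < p := by exact_mod_cast hp
  rw [mem_Ioc, Int.ediv_lt_iff_lt_mul hp', Int.le_ediv_iff_mul_le hp', mul_comm b]

private theorem low_fh (K M M' : ℕ) (PP : Finset ℕ) (hPP : ∀ p ∈ PP, 1 ≤ p) (β : ℤ → ℝ)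
    (γ : ℝ) : Fh K (Ff M M' PP β) γ = ∑ m ∈ Ioc (M : ℤ) M', ∑ p ∈ PP,
      ∑ b ∈ Ioc (m ^ 3 / (p : ℤ)) ((m ^ 3 + K) / (p : ℤ)),
        (β b : ℂ) * ee (γ * (p * b - m ^ 3)) := by
  unfold Fh Ff
  have h1 : ∀ k ∈ Icc (1 : ℤ) K, ((∑ m ∈ Ioc (M : ℤ) M', ∑ p ∈ PP,
      if (p : ℤ) ∣ m ^ 3 + k then β ((m ^ 3 + k) / p) else 0 : ℝ) : ℂ) * ee (γ * k) =
      ∑ m ∈ Ioc (M : ℤ) M', ∑ p ∈ PP,
        (if (p : ℤ) ∣ m ^ 3 + k then (β ((m ^ 3 + k) / p) : ℂ) * ee (γ * k) else 0) := by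
    intro k _
    rw [Complex.ofReal_sum, Finset.sum_mul]
    refine sum_congr rfl fun m _ => ?_
    rw [Complex.ofReal_sum, Finset.sum_mul]
    refine sum_congr rfl fun p _ => ?_
    split_ifs <;> simp
  rw [sum_congr rfl h1, sum_comm]
  refine sum_congr rfl fun m _ => ?_
  rw [sum_comm]
  refine sum_congr rfl fun p hp => ?_
  have hp1 := hPP p hp
  have hp' : (0 : ℤ) < p := by exact_mod_cast hp1
  rw [← sum_filter]
  refine sum_bij' (fun k _ => (m ^ 3 + k) / (p : ℤ)) (fun b _ => (p : ℤ) * b - m ^ 3)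
    ?_ ?_ ?_ ?_ ?_
  · intro k hk
    rw [mem_filter, mem_Icc] at hk
    obtain ⟨⟨h2, h3⟩, j, hj⟩ := hk
    rw [low_mem hp1, hj, Int.mul_ediv_cancel_left _ hp'.ne']
    constructor <;> linarith
  · intro b hb
    rw [low_mem hp1] at hb
    rw [mem_filter, mem_Icc]
    refine ⟨⟨by linarith, by linarith⟩, b, by ring⟩
  · intro k hk
    rw [mem_filter, mem_Icc] at hk
    obtain ⟨⟨h2, h3⟩, j, hj⟩ := hk
    show (p : ℤ) * ((m ^ 3 + k) / (p : ℤ)) - m ^ 3 = k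
    rw [hj, Int.mul_ediv_cancel_left _ hp'.ne']
    linarith
  · intro b hb
    show (m ^ 3 + ((p : ℤ) * b - m ^ 3)) / (p : ℤ) = b
    rw [show m ^ 3 + ((p : ℤ) * b - m ^ 3) = (p : ℤ) * b by ring,
      Int.mul_ediv_cancel_left _ hp'.ne']
  · intro k hk
    rw [mem_filter, mem_Icc] at hk
    obtain ⟨⟨h2, h3⟩, j, hj⟩ := hk
    rw [hj, Int.mul_ediv_cancel_left _ hp'.ne']
    congr 2
    have h4 : ((m : ℝ) ^ 3 + k) = p * j := by exact_mod_cast hj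
    linear_combination γ * h4

private theorem low_norm (K M M' : ℕ) (PP : Finset ℕ) (hPP : ∀ p ∈ PP, 1 ≤ p) (β : ℤ → ℝ)
    (γ : ℝ) : ‖Fh K (Ff M M' PP β) γ‖ ≤ ∑ m ∈ Ioc (M : ℤ) M', ∑ p ∈ PP,
      ‖∑ b ∈ Ioc (m ^ 3 / (p : ℤ)) ((m ^ 3 + K) / (p : ℤ)), (β b : ℂ) * ee (γ * (p * b))‖ := by
  rw [low_fh K M M' PP hPP]
  refine (norm_sum_le _ _).trans (sum_le_sum fun m _ => ?_)
  refine (norm_sum_le _ _).trans (sum_le_sum fun p _ => ?_)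
  have h1 : ∑ b ∈ Ioc (m ^ 3 / (p : ℤ)) ((m ^ 3 + K) / (p : ℤ)),
        (β b : ℂ) * ee (γ * (p * b - m ^ 3)) = ee (-(γ * m ^ 3)) *
      ∑ b ∈ Ioc (m ^ 3 / (p : ℤ)) ((m ^ 3 + K) / (p : ℤ)), (β b : ℂ) * ee (γ * (p * b)) := by
    rw [Finset.mul_sum]
    refine sum_congr rfl fun b _ => ?_
    rw [show γ * ((p : ℝ) * b - (m : ℝ) ^ 3) = -(γ * m ^ 3) + γ * (p * b) by ring, ee_add]
    ring
  rw [h1, norm_mul, ee_norm, one_mul]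

private theorem low_dc (a c : ℤ) (H : ℕ) (g : ℤ → ℝ) (hg : ∀ b, 0 ≤ g b) :
    ∑ s ∈ Ioc a (c - H), ∑ b ∈ Ioc s (s + H), g b ≤ (H : ℝ) * ∑ b ∈ Ioc a c, g b := by
  have h1 : ∀ s ∈ Ioc a (c - H), ∑ b ∈ Ioc s (s + H), g b =
      ∑ b ∈ Ioc a c, if b ∈ Ioc s (s + (H : ℤ)) then g b else 0 := by
    intro s hs
    rw [← sum_filter]
    refine sum_congr ?_ fun _ _ => rfl
    ext b
    rw [mem_Ioc] at hs
    simp only [mem_filter, mem_Ioc]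
    constructor
    · intro h
      refine ⟨⟨by linarith [h.1], by linarith [h.2]⟩, h⟩
    · intro h
      exact h.2
  rw [sum_congr rfl h1, sum_comm, Finset.mul_sum]
  refine sum_le_sum fun b _ => ?_
  rw [← sum_filter, sum_const, nsmul_eq_mul]
  refine mul_le_mul_of_nonneg_right ?_ (hg b)
  have h2 : (Ioc a (c - H)).filter (fun s => b ∈ Ioc s (s + (H : ℤ))) ⊆ Ico (b - H) b := by
    intro s hs
    rw [mem_filter, mem_Ioc, mem_Ioc] at hs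
    rw [mem_Ico]
    constructor <;> linarith [hs.2.1, hs.2.2]
  have h3 := card_le_card h2
  rw [Int.card_Ico] at h3
  have h4 : (b - (b - (H : ℤ))).toNat = H := by
    rw [sub_sub_cancel]
    exact Int.toNat_natCast H
  rw [h4] at h3
  exact_mod_cast h3

private theorem low_one (β : ℤ → ℝ) (p q H : ℕ) (t : ℤ) (θ γ : ℝ) (hq : 1 ≤ q) (hH : 1 ≤ H)
    (hγ : γ = t / q + θ) (a c : ℤ) :
    (H : ℝ) * ‖∑ b ∈ Ioc a c, (β b : ℂ) * ee (γ * (p * b))‖ ≤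
      ∑ s ∈ Ioc a (c - H), ∑ r ∈ range q,
        |∑ b ∈ (Ioc s (s + H)).filter (fun b : ℤ => b % (q : ℤ) = (r : ℤ)), β b| +
      2 * Real.pi * |θ| * p * H * (H * ∑ b ∈ Ioc a c, |β b|) +
      (H : ℝ) * ∑ b ∈ (Ioc a c).filter (fun b => ¬ (a + H < b ∧ b ≤ c - H)), |β b| := by
  refine (win1 a c H hH (fun b => (β b : ℂ) * ee (γ * (p * b)))).trans ?_
  have h1 : ∀ b : ℤ, ‖(β b : ℂ) * ee (γ * (p * b))‖ = |β b| := by
    intro b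
    rw [norm_mul, ee_norm, mul_one, Complex.norm_real, Real.norm_eq_abs]
  simp only [h1]
  refine add_le_add ?_ le_rfl
  refine (sum_le_sum fun s _ => win2 β p q H t θ γ hq hγ s).trans ?_
  rw [sum_add_distrib, ← Finset.mul_sum]
  refine add_le_add le_rfl ?_
  refine mul_le_mul_of_nonneg_left (low_dc a c H (fun b => |β b|) fun b => abs_nonneg _) ?_
  positivity

private theorem low_card {m : ℤ} {p P K : ℕ} (hP : 1 ≤ P) (hPK : P ≤ K) (hp : P < p) :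
    ((Ioc (m ^ 3 / (p : ℤ)) ((m ^ 3 + K) / (p : ℤ))).card : ℝ) ≤ 2 * K / P := by
  have hp' : (0 : ℤ) < p := by
    have : 0 < p := by omega
    exact_mod_cast this
  have hP0 : (0 : ℝ) < P := by exact_mod_cast hP
  have hp0 : (0 : ℝ) < p := by exact_mod_cast hp'
  have hPp : (P : ℝ) ≤ p := by exact_mod_cast hp.le
  have hPK' : (P : ℝ) ≤ K := by exact_mod_cast hPK
  have hac : m ^ 3 / (p : ℤ) ≤ (m ^ 3 + K) / (p : ℤ) :=
    Int.ediv_le_ediv hp' (by linarith [Int.natCast_nonneg K])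
  rw [Int.card_Ioc]
  have h1 : ((((m ^ 3 + K) / (p : ℤ) - m ^ 3 / (p : ℤ)).toNat : ℤ) : ℝ) =
      (((m ^ 3 + K) / (p : ℤ) - m ^ 3 / (p : ℤ) : ℤ) : ℝ) := by
    rw [Int.toNat_of_nonneg (by linarith)]
  have h2 : (p : ℤ) * ((m ^ 3 + K) / (p : ℤ)) ≤ m ^ 3 + K := Int.mul_ediv_self_le hp'.ne'
  have h3 : m ^ 3 < (m ^ 3 / (p : ℤ) + 1) * (p : ℤ) := Int.lt_ediv_add_one_mul_self _ hp'
  have h4 : (p : ℤ) * ((m ^ 3 + K) / (p : ℤ) - m ^ 3 / (p : ℤ)) ≤ K + p := by linarith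
  have h5 : (p : ℝ) * (((m ^ 3 + K) / (p : ℤ) - m ^ 3 / (p : ℤ) : ℤ) : ℝ) ≤ K + p := by
    exact_mod_cast h4
  have h6 : (((m ^ 3 + K) / (p : ℤ) - m ^ 3 / (p : ℤ) : ℤ) : ℝ) ≤ K / p + 1 := by
    rw [div_add_one hp0.ne', le_div_iff₀ hp0]
    linarith
  rw [Int.cast_natCast] at h1
  rw [h1]
  refine h6.trans ?_
  have h7 : (K : ℝ) / p ≤ K / P := by gcongr
  have h8 : (1 : ℝ) ≤ K / P := by
    rw [le_div_iff₀ hP0, one_mul]
    exact hPK'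
  calc (K : ℝ) / p + 1 ≤ K / P + K / P := add_le_add h7 h8
    _ = 2 * K / P := by ring

private theorem low_card3 (a c : ℤ) (H : ℕ) :
    (((Ioc a c).filter (fun b => ¬ (a + H < b ∧ b ≤ c - H))).card : ℝ) ≤ 2 * H := by
  have h1 : (Ioc a c).filter (fun b => ¬ (a + H < b ∧ b ≤ c - H)) ⊆
      Ioc a (a + H) ∪ Ioc (c - H) c := by
    intro b hb
    rw [mem_filter, mem_Ioc] at hb
    rw [mem_union, mem_Ioc, mem_Ioc]
    by_cases h : a + (H : ℤ) < b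
    · right
      refine ⟨?_, hb.1.2⟩
      by_contra h2
      exact hb.2 ⟨h, by linarith⟩
    · left
      exact ⟨hb.1.1, by linarith⟩
  have h2 := (card_le_card h1).trans (card_union_le _ _)
  rw [Int.card_Ioc, Int.card_Ioc] at h2
  have h3 : (a + (H : ℤ) - a).toNat = H := by
    rw [add_sub_cancel_left]
    exact Int.toNat_natCast H
  have h4 : (c - (c - (H : ℤ))).toNat = H := by
    rw [sub_sub_cancel]
    exact Int.toNat_natCast H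
  rw [h3, h4] at h2
  have h5 : (((Ioc a c).filter (fun b => ¬ (a + H < b ∧ b ≤ c - H))).card : ℝ) ≤ (H + H : ℕ) := by
    exact_mod_cast h2
  push_cast at h5
  linarith

theorem low (K M M' P H q : ℕ) (PP : Finset ℕ) (hM : 1 ≤ M) (hM' : M' ≤ 2 * M + 1) (hK : 1 ≤ K)
    (hKM : K ≤ 8 * M ^ 3) (hP : 1 ≤ P) (hPK : P ≤ K)
    (hPP : ∀ p ∈ PP, p.Prime ∧ P < p ∧ p ≤ 2 * P)
    (hbig : 1600 * (P : ℝ) * (M : ℝ) ^ 3 ≤ (K : ℝ) ^ 2) (hMP : (M : ℝ) ^ 2 ≤ P * K) (hH : 1 ≤ H)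
    (hq : 1 ≤ q) (Q0 η D : ℝ) (hQ0 : 1 ≤ Q0) (hη : 0 ≤ η) (hD : 0 ≤ D) (β : ℤ → ℝ) (B : Finset ℤ)
    (hB : ∀ m ∈ Ioc (M : ℤ) M', ∀ p ∈ PP, ∀ b : ℤ, m ^ 3 < p * b → p * b ≤ m ^ 3 + K → b ∈ B)
    (hw : ∑ s ∈ B, (∑ r ∈ range q, |∑ b ∈ (Ioc s (s + H)).filter
      (fun b : ℤ => b % (q : ℤ) = (r : ℤ)), β b|) ^ 2 ≤ η * ((M : ℝ) ^ 3 / P) * (H : ℝ) ^ 2)
    (hβ : ∑ b ∈ B, β b ^ 2 ≤ D * ((M : ℝ) ^ 3 / P)) (t : ℤ) (γ : ℝ)
    (hγ : |γ - t / q| ≤ Q0 / (q * K)) :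
    ‖Fh K (Ff M M' PP β) γ‖ ≤ 1000 * K * M *
      (Real.sqrt η + Q0 * ((P : ℝ) * H / K) * Real.sqrt D + Real.sqrt (D * ((P : ℝ) * H / K))) := by
  have hP0 : (0 : ℝ) < P := by exact_mod_cast hP
  have hM0 : (0 : ℝ) < M := by exact_mod_cast hM
  have hK0 : (0 : ℝ) < K := by exact_mod_cast hK
  have hH0 : (0 : ℝ) < H := by exact_mod_cast hH
  have hq0 : (0 : ℝ) < q := by exact_mod_cast hq
  have hq1 : (1 : ℝ) ≤ q := by exact_mod_cast hq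
  have hp1 : ∀ p ∈ PP, 1 ≤ p := fun p hp => by
    have := (hPP p hp).2.1
    omega
  set κ : ℝ := (P : ℝ) * H / K with hκ
  have hκ0 : 0 ≤ κ := by positivity
  set w : ℤ → ℝ := fun s => ∑ r ∈ range q,
    |∑ b ∈ (Ioc s (s + H)).filter (fun b : ℤ => b % (q : ℤ) = (r : ℤ)), β b| with hw'
  have hw0 : ∀ s, 0 ≤ w s := fun s => sum_nonneg fun r _ => abs_nonneg _
  set E1 : ℤ → ℕ → Finset ℤ := fun m p =>
    Ioc (m ^ 3 / (p : ℤ)) ((m ^ 3 + K) / (p : ℤ) - H) with hE1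
  set E2 : ℤ → ℕ → Finset ℤ := fun m p =>
    Ioc (m ^ 3 / (p : ℤ)) ((m ^ 3 + K) / (p : ℤ)) with hE2
  set E3 : ℤ → ℕ → Finset ℤ := fun m p =>
    (E2 m p).filter (fun b => ¬ (m ^ 3 / (p : ℤ) + H < b ∧ b ≤ (m ^ 3 + K) / (p : ℤ) - H))
    with hE3
  have hE12 : ∀ m p, E1 m p ⊆ E2 m p := fun m p =>
    Ioc_subset_Ioc_right (by linarith [Int.natCast_nonneg H])
  have hE32 : ∀ m p, E3 m p ⊆ E2 m p := fun m p => filter_subset _ _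
  have hin2 : ∀ m ∈ Ioc (M : ℤ) M', ∀ p ∈ PP, ∀ b ∈ E2 m p,
      m ^ 3 < p * b ∧ p * b ≤ m ^ 3 + K := fun m _ p hp b hb => (low_mem (hp1 p hp) K).1 hb
  have hB2 : ∀ m ∈ Ioc (M : ℤ) M', ∀ p ∈ PP, E2 m p ⊆ B := fun m hm p hp b hb =>
    hB m hm p hp b (hin2 m hm p hp b hb).1 (hin2 m hm p hp b hb).2
  have hc2 : ∀ m ∈ Ioc (M : ℤ) M', ∀ p ∈ PP, ((E2 m p).card : ℝ) ≤ 2 * K / P :=
    fun m _ p hp => low_card hP hPK (hPP p hp).2.1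
  have hc1 : ∀ m ∈ Ioc (M : ℤ) M', ∀ p ∈ PP, ((E1 m p).card : ℝ) ≤ 2 * K / P :=
    fun m hm p hp => le_trans (by exact_mod_cast card_le_card (hE12 m p)) (hc2 m hm p hp)
  have hc3 : ∀ m ∈ Ioc (M : ℤ) M', ∀ p ∈ PP, ((E3 m p).card : ℝ) ≤ 2 * H :=
    fun m _ p _ => low_card3 _ _ H
  have s45 : ∀ x y z : ℝ, 0 ≤ z → x * y ≤ 2025 * z ^ 2 → 0 ≤ x →
      Real.sqrt x * Real.sqrt y ≤ 45 * z := by
    intro x y z hz h hx
    rw [← Real.sqrt_mul hx, Real.sqrt_le_iff]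
    refine ⟨by positivity, ?_⟩
    calc x * y ≤ 2025 * z ^ 2 := h
      _ = (45 * z) ^ 2 := by ring
  have hsD := Real.sq_sqrt hD
  have hsη := Real.sq_sqrt hη
  have hsDκ := Real.sq_sqrt (mul_nonneg hD hκ0)
  -- the three sums
  have hS1 : ∑ m ∈ Ioc (M : ℤ) M', ∑ p ∈ PP, ∑ s ∈ E1 m p, w s ≤
      45 * (H * K * M * Real.sqrt η) := by
    refine (mul_sum K M M' P PP hM hM' hK hKM hP hPP hbig hMP E1 (2 * K / P) (by positivity)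
      (fun m hm p hp b hb => hin2 m hm p hp b (hE12 m p hb)) hc1 B
      (fun m hm p hp => (hE12 m p).trans (hB2 m hm p hp)) w hw0).trans ?_
    refine s45 _ _ _ (by positivity) ?_ (sum_nonneg fun s _ => by positivity)
    calc (∑ b ∈ B, w b ^ 2) * (1000 * (2 * K / P) * ((P : ℝ) ^ 2 * K / M)) ≤
        (η * ((M : ℝ) ^ 3 / P) * (H : ℝ) ^ 2) *
          (1000 * (2 * K / P) * ((P : ℝ) ^ 2 * K / M)) := by gcongr
      _ = 2000 * (H * K * M) ^ 2 * η := by field_simp; ring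
      _ ≤ 2025 * (H * K * M) ^ 2 * η := by gcongr; norm_num
      _ = 2025 * (H * K * M * Real.sqrt η) ^ 2 := by rw [mul_pow _ (Real.sqrt η), hsη]; ring
  have hβ' : ∑ b ∈ B, |β b| ^ 2 ≤ D * ((M : ℝ) ^ 3 / P) := by
    simpa only [sq_abs] using hβ
  have hS2 : ∑ m ∈ Ioc (M : ℤ) M', ∑ p ∈ PP, ∑ b ∈ E2 m p, |β b| ≤
      45 * (K * M * Real.sqrt D) := by
    refine (mul_sum K M M' P PP hM hM' hK hKM hP hPP hbig hMP E2 (2 * K / P) (by positivity)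
      hin2 hc2 B hB2 (fun b => |β b|) (fun b => abs_nonneg _)).trans ?_
    refine s45 _ _ _ (by positivity) ?_ (sum_nonneg fun s _ => by positivity)
    calc (∑ b ∈ B, |β b| ^ 2) * (1000 * (2 * K / P) * ((P : ℝ) ^ 2 * K / M)) ≤
        (D * ((M : ℝ) ^ 3 / P)) *
          (1000 * (2 * K / P) * ((P : ℝ) ^ 2 * K / M)) := by gcongr
      _ = 2000 * (K * M) ^ 2 * D := by field_simp; ring
      _ ≤ 2025 * (K * M) ^ 2 * D := by gcongr; norm_num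
      _ = 2025 * (K * M * Real.sqrt D) ^ 2 := by rw [mul_pow _ (Real.sqrt D), hsD]; ring
  have hS3 : ∑ m ∈ Ioc (M : ℤ) M', ∑ p ∈ PP, ∑ b ∈ E3 m p, |β b| ≤
      45 * (K * M * Real.sqrt (D * κ)) := by
    refine (mul_sum K M M' P PP hM hM' hK hKM hP hPP hbig hMP E3 (2 * H) (by positivity)
      (fun m hm p hp b hb => hin2 m hm p hp b (hE32 m p hb)) hc3 B
      (fun m hm p hp => (hE32 m p).trans (hB2 m hm p hp)) (fun b => |β b|)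
      (fun b => abs_nonneg _)).trans ?_
    refine s45 _ _ _ (by positivity) ?_ (sum_nonneg fun s _ => by positivity)
    calc (∑ b ∈ B, |β b| ^ 2) * (1000 * (2 * H) * ((P : ℝ) ^ 2 * K / M)) ≤
        (D * ((M : ℝ) ^ 3 / P)) *
          (1000 * (2 * H) * ((P : ℝ) ^ 2 * K / M)) := by gcongr
      _ = 2000 * (K * M) ^ 2 * (D * κ) := by rw [hκ]; field_simp; ring
      _ ≤ 2025 * (K * M) ^ 2 * (D * κ) := by gcongr; norm_num
      _ = 2025 * (K * M * Real.sqrt (D * κ)) ^ 2 := by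
        rw [mul_pow _ (Real.sqrt (D * κ)), hsDκ]; ring
  -- the windows
  have hθ : |γ - t / q| ≤ Q0 / K := by
    refine hγ.trans ?_
    have : (K : ℝ) ≤ q * K := by nlinarith
    gcongr
  have hone : ∀ m ∈ Ioc (M : ℤ) M', ∀ p ∈ PP,
      (H : ℝ) * ‖∑ b ∈ E2 m p, (β b : ℂ) * ee (γ * (p * b))‖ ≤
        ∑ s ∈ E1 m p, w s + 4 * Real.pi * Q0 * κ * H * ∑ b ∈ E2 m p, |β b| +
          (H : ℝ) * ∑ b ∈ E3 m p, |β b| := by
    intro m hm p hp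
    refine (low_one β p q H t (γ - t / q) γ hq hH (by ring) _ _).trans ?_
    refine add_le_add (add_le_add le_rfl ?_) le_rfl
    have hS : 0 ≤ ∑ b ∈ E2 m p, |β b| := sum_nonneg fun b _ => abs_nonneg _
    have hp2 : (p : ℝ) ≤ 2 * P := by exact_mod_cast (hPP p hp).2.2
    calc 2 * Real.pi * |γ - t / q| * p * H * (H * ∑ b ∈ E2 m p, |β b|) ≤
        2 * Real.pi * (Q0 / K) * (2 * P) * H * (H * ∑ b ∈ E2 m p, |β b|) := by gcongr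
      _ = 4 * Real.pi * Q0 * κ * H * ∑ b ∈ E2 m p, |β b| := by rw [hκ]; ring
  have hH1 : (H : ℝ) * ‖Fh K (Ff M M' PP β) γ‖ ≤
      45 * (H * K * M * Real.sqrt η) +
        4 * Real.pi * Q0 * κ * H * (45 * (K * M * Real.sqrt D)) +
        H * (45 * (K * M * Real.sqrt (D * κ))) := by
    calc (H : ℝ) * ‖Fh K (Ff M M' PP β) γ‖ ≤ H * ∑ m ∈ Ioc (M : ℤ) M', ∑ p ∈ PP,
          ‖∑ b ∈ E2 m p, (β b : ℂ) * ee (γ * (p * b))‖ := by
          refine mul_le_mul_of_nonneg_left (low_norm K M M' PP hp1 β γ) hH0.le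
      _ = ∑ m ∈ Ioc (M : ℤ) M', ∑ p ∈ PP,
          (H : ℝ) * ‖∑ b ∈ E2 m p, (β b : ℂ) * ee (γ * (p * b))‖ := by
          simp only [Finset.mul_sum]
      _ ≤ ∑ m ∈ Ioc (M : ℤ) M', ∑ p ∈ PP, (∑ s ∈ E1 m p, w s +
            4 * Real.pi * Q0 * κ * H * ∑ b ∈ E2 m p, |β b| +
            (H : ℝ) * ∑ b ∈ E3 m p, |β b|) :=
          sum_le_sum fun m hm => sum_le_sum fun p hp => hone m hm p hp
      _ = ∑ m ∈ Ioc (M : ℤ) M', ∑ p ∈ PP, ∑ s ∈ E1 m p, w s +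
            4 * Real.pi * Q0 * κ * H * (∑ m ∈ Ioc (M : ℤ) M', ∑ p ∈ PP, ∑ b ∈ E2 m p, |β b|) +
            (H : ℝ) * ∑ m ∈ Ioc (M : ℤ) M', ∑ p ∈ PP, ∑ b ∈ E3 m p, |β b| := by
          simp only [sum_add_distrib, Finset.mul_sum]
      _ ≤ _ := by gcongr
  have hpi : Real.pi ≤ 3.15 := Real.pi_lt_d2.le
  have hfin : (H : ℝ) * ‖Fh K (Ff M M' PP β) γ‖ ≤ H * (1000 * K * M *
      (Real.sqrt η + Q0 * κ * Real.sqrt D + Real.sqrt (D * κ))) := by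
    refine hH1.trans ?_
    have e1 : 45 * (H * K * M * Real.sqrt η) ≤ H * (1000 * K * M * Real.sqrt η) := by
      have : 0 ≤ (H : ℝ) * K * M * Real.sqrt η := by positivity
      linarith
    have e2 : 4 * Real.pi * Q0 * κ * H * (45 * (K * M * Real.sqrt D)) ≤
        H * (1000 * K * M * (Q0 * κ * Real.sqrt D)) := by
      have h0 : 0 ≤ Q0 * κ * H * (K * M * Real.sqrt D) := by positivity
      have h1 : (180 * Real.pi) * (Q0 * κ * H * (K * M * Real.sqrt D)) ≤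
          1000 * (Q0 * κ * H * (K * M * Real.sqrt D)) := by
        refine mul_le_mul_of_nonneg_right ?_ h0
        linarith
      linarith
    have e3 : H * (45 * (K * M * Real.sqrt (D * κ))) ≤
        H * (1000 * K * M * Real.sqrt (D * κ)) := by
      have : 0 ≤ (H : ℝ) * (K * M * Real.sqrt (D * κ)) := by positivity
      linarith
    calc _ ≤ H * (1000 * K * M * Real.sqrt η) + H * (1000 * K * M * (Q0 * κ * Real.sqrt D)) +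
          H * (1000 * K * M * Real.sqrt (D * κ)) := add_le_add (add_le_add e1 e2) e3
      _ = _ := by ring
  exact le_of_mul_le_mul_left hfin hH0

end Pool.Agent.H96.EB
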