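import Pool.Agent.H96.EB.Def2

/-!
# [H96 EB PAR] Two Parseval identities

PROOF. `par1`: `‖Gc K g p a α‖^2 = Σ_{k,k'} g k g k' ee(α (k-k')/p)` over `k, k' ≡ a mod p`; `(k-k')/p` is an integer of absolute value `< N` (`|k-k'| < K <= N`), and `(1/N) Σ_{j<N} ee(j n/N) = 1[n = 0]` for integers `|n| < N`. So the mean is `Σ_a Σ_{k ≡ a} g k^2 = VV`.
`par2`: `Fh K g ((α+i)/p) = Σ_k g k ee(α k/p) ee(i k/p) = Σ_{a<p} ee(i a/p) Gc K g p a α` (`ee(i k/p) = ee(i a/p)` for `k % p = a`); `Σ_{i<p} ee(i (a-a')/p) = p 1[a = a']` for `a, a' < p`.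
-/

namespace Pool.Agent.H96.EB

open Finset Pool.Agent.H24.AB

private theorem par_pow (n : ℕ) (θ : ℝ) : ee (n * θ) = ee θ ^ n := by
  induction n with
  | zero => simp [ee_zero]
  | succ n ih =>
    rw [pow_succ, ← ih, ← ee_add]
    congr 1
    push_cast
    ring

private theorem par_orth (N : ℕ) (hN : 1 ≤ N) (n : ℤ) (hn : |n| < N) :
    ∑ j ∈ range N, ee ((j : ℝ) / N * n) = if n = 0 then (N : ℂ) else 0 := by
  have hN0 : (N : ℝ) ≠ 0 := by
    have : (0 : ℝ) < N := by exact_mod_cast hN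
    exact this.ne'
  split_ifs with h
  · subst h
    simp [ee_zero]
  · have h1 : ∀ j ∈ range N, ee ((j : ℝ) / N * n) = ee ((n : ℝ) / N) ^ j := by
      intro j _
      rw [← par_pow]
      congr 1
      ring
    rw [sum_congr rfl h1]
    have h2 : ee ((n : ℝ) / N) ≠ 1 := by
      intro h3
      unfold ee at h3
      rw [Complex.exp_eq_one_iff] at h3
      obtain ⟨m, hm⟩ := h3
      have h4 : (2 * Real.pi * Complex.I : ℂ) ≠ 0 := by
        simp [Real.pi_ne_zero]
      have h5 : ((((n : ℝ) / N : ℝ)) : ℂ) = (m : ℂ) := by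
        apply mul_right_cancel₀ h4
        rw [← hm]
        ring
      have h6 : (n : ℝ) / N = m := by
        have : ((((n : ℝ) / N : ℝ)) : ℂ) = ((m : ℝ) : ℂ) := by
          rw [h5]
          push_cast
          rfl
        exact_mod_cast this
      rw [div_eq_iff hN0] at h6
      have h7 : n = m * N := by exact_mod_cast h6
      rw [h7, abs_mul] at hn
      have h8 : |(N : ℤ)| = N := abs_of_nonneg (by positivity)
      rw [h8] at hn
      have h9 : |m| < 1 := by
        by_contra hc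
        push Not at hc
        have hNz : (0 : ℤ) < N := by exact_mod_cast hN
        have : (N : ℤ) ≤ |m| * N := by nlinarith
        omega
      have h10 : m = 0 := Int.abs_lt_one_iff.mp h9
      rw [h10, zero_mul] at h7
      exact h h7
    rw [geom_sum_eq h2, ← par_pow]
    have h3 : (N : ℝ) * ((n : ℝ) / N) = ((n : ℤ) : ℝ) := by
      field_simp
    rw [h3, ee_int, sub_self, zero_div]

private theorem par_gen {ι : Type*} [DecidableEq ι] (N : ℕ) (S : Finset ι) (G : ι → ℂ)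
    (φ : ι → ℝ) (h : ∀ k ∈ S, ∀ k' ∈ S, ∑ j ∈ range N, ee ((j : ℝ) / N * (φ k - φ k')) =
      if k = k' then (N : ℂ) else 0) :
    ∑ j ∈ range N, ‖∑ k ∈ S, G k * ee ((j : ℝ) / N * φ k)‖ ^ 2 = N * ∑ k ∈ S, ‖G k‖ ^ 2 := by
  have h0 : ((∑ j ∈ range N, ‖∑ k ∈ S, G k * ee ((j : ℝ) / N * φ k)‖ ^ 2 : ℝ) : ℂ) =
      ((N * ∑ k ∈ S, ‖G k‖ ^ 2 : ℝ) : ℂ) := by
    push_cast
    have h1 : ∀ j ∈ range N, ((‖∑ k ∈ S, G k * ee ((j : ℝ) / N * φ k)‖ : ℝ) : ℂ) ^ 2 =
        ∑ k ∈ S, ∑ k' ∈ S, G k * (starRingEnd ℂ) (G k') * ee ((j : ℝ) / N * (φ k - φ k')) := by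
      intro j _
      rw [← Complex.mul_conj', map_sum, sum_mul_sum]
      refine sum_congr rfl fun k _ => sum_congr rfl fun k' _ => ?_
      rw [map_mul, ee_conj]
      have e : (j : ℝ) / N * (φ k - φ k') = (j : ℝ) / N * φ k + -((j : ℝ) / N * φ k') := by ring
      rw [e, ee_add]
      ring
    rw [sum_congr rfl h1, sum_comm, mul_sum]
    refine sum_congr rfl fun k hk => ?_
    rw [sum_comm]
    have h2 : ∀ k' ∈ S, ∑ j ∈ range N, G k * (starRingEnd ℂ) (G k') *
        ee ((j : ℝ) / N * (φ k - φ k')) =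
        if k = k' then G k * (starRingEnd ℂ) (G k') * N else 0 := by
      intro k' hk'
      rw [← mul_sum, h k hk k' hk']
      split_ifs
      · rfl
      · rw [mul_zero]
    rw [sum_congr rfl h2, sum_ite_eq, if_pos hk, Complex.mul_conj']
    ring
  exact_mod_cast h0

private theorem par_cls (K p : ℕ) (hp : 1 ≤ p) {M : Type*} [AddCommMonoid M] (f : ℤ → M) :
    ∑ a ∈ range p, ∑ k ∈ (Icc (1 : ℤ) K).filter (fun k : ℤ => k % (p : ℤ) = (a : ℤ)), f k =
      ∑ k ∈ Icc (1 : ℤ) K, f k := by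
  have hpz : (0 : ℤ) < p := by exact_mod_cast hp
  have h1 : ∀ k ∈ Icc (1 : ℤ) K, (k % (p : ℤ)).toNat ∈ range p := by
    intro k _
    have e1 := Int.emod_nonneg k hpz.ne'
    have e2 := Int.emod_lt_of_pos k hpz
    rw [mem_range]
    omega
  rw [← sum_fiberwise_of_maps_to h1]
  refine sum_congr rfl fun a _ => sum_congr ?_ fun _ _ => rfl
  refine filter_congr fun k _ => ?_
  have e1 := Int.emod_nonneg k hpz.ne'
  omega

theorem par1 (K N p : ℕ) (g : ℤ → ℝ) (hp : 1 ≤ p) (hN : 1 ≤ N) (hKN : K ≤ N) :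
    (1 / (N : ℝ)) * ∑ j ∈ range N, Aa K g p ((j : ℝ) / N) = VV K g := by
  have hN0 : (N : ℝ) ≠ 0 := by
    have : (0 : ℝ) < N := by exact_mod_cast hN
    exact this.ne'
  have hpR : (p : ℝ) ≠ 0 := by
    have : (0 : ℝ) < p := by exact_mod_cast hp
    exact this.ne'
  have hpz : (0 : ℤ) < p := by exact_mod_cast hp
  unfold Aa
  rw [sum_comm]
  have h1 : ∀ a ∈ range p, ∑ j ∈ range N, ‖Gc K g p a ((j : ℝ) / N)‖ ^ 2 =
      N * ∑ k ∈ (Icc (1 : ℤ) K).filter (fun k : ℤ => k % (p : ℤ) = (a : ℤ)), g k ^ 2 := by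
    intro a _
    have h2 := par_gen N ((Icc (1 : ℤ) K).filter (fun k : ℤ => k % (p : ℤ) = (a : ℤ)))
      (fun k => (g k : ℂ)) (fun k => (k : ℝ) / p) ?_
    · unfold Gc
      rw [h2]
      congr 1
      refine sum_congr rfl fun k _ => ?_
      rw [Complex.norm_real, Real.norm_eq_abs, sq_abs]
    · intro k hk k' hk'
      obtain ⟨hk1, hk2⟩ := mem_filter.1 hk
      obtain ⟨hk3, hk4⟩ := mem_filter.1 hk'
      rw [mem_Icc] at hk1 hk3
      obtain ⟨n, hn⟩ : (p : ℤ) ∣ k - k' :=
        Int.ModEq.dvd (show k' ≡ k [ZMOD p] from hk4.trans hk2.symm)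
      have e : (k : ℝ) / p - (k' : ℝ) / p = ((n : ℤ) : ℝ) := by
        have : (k : ℝ) - k' = p * n := by exact_mod_cast hn
        rw [← sub_div, this]
        field_simp
      have hnN : |n| < N := by
        have h3 : |k - k'| < N := by
          rw [abs_lt]
          omega
        rw [hn, abs_mul, abs_of_pos hpz] at h3
        have h4 : |n| ≤ p * |n| := by
          have := abs_nonneg n
          nlinarith
        omega
      simp only [e]
      rw [par_orth N hN n hnN]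
      by_cases hkk : k = k'
      · subst hkk
        have hn0 : n = 0 := by
          rw [sub_self] at hn
          rcases mul_eq_zero.1 hn.symm with h3 | h3
          · omega
          · exact h3
        rw [if_pos hn0, if_pos rfl]
      · have hn0 : n ≠ 0 := by
          intro h3
          rw [h3, mul_zero] at hn
          apply hkk
          omega
        rw [if_neg hn0, if_neg hkk]
  rw [sum_congr rfl h1, ← mul_sum, par_cls K p hp]
  unfold VV
  field_simp

theorem par2 (K p : ℕ) (g : ℤ → ℝ) (hp : 1 ≤ p) (α : ℝ) :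
    Aa K g p α = (1 / (p : ℝ)) * ∑ i ∈ range p, ‖Fh K g ((α + i) / p)‖ ^ 2 := by
  have hpR : (p : ℝ) ≠ 0 := by
    have : (0 : ℝ) < p := by exact_mod_cast hp
    exact this.ne'
  have hpz : (0 : ℤ) < p := by exact_mod_cast hp
  have h1 : ∀ i ∈ range p, Fh K g ((α + i) / p) =
      ∑ a ∈ range p, Gc K g p a α * ee ((i : ℝ) / p * (a : ℝ)) := by
    intro i _
    unfold Fh
    rw [← par_cls K p hp]
    refine sum_congr rfl fun a _ => ?_
    unfold Gc
    rw [sum_mul]
    refine sum_congr rfl fun k hk => ?_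
    obtain ⟨hk1, hk2⟩ := mem_filter.1 hk
    rw [mul_assoc, ← ee_add]
    congr 1
    have h3 := Int.emod_add_mul_ediv k p
    rw [hk2] at h3
    have h4 : (k : ℝ) = a + p * ((k / (p : ℤ) : ℤ) : ℝ) := by exact_mod_cast h3.symm
    have h5 : (α + i) / p * k = α * ((k : ℝ) / p) + (i : ℝ) / p * a +
        ((i * (k / (p : ℤ)) : ℤ) : ℝ) := by
      push_cast
      have h6 : (i : ℝ) / p * k = (i : ℝ) / p * a + i * ((k / (p : ℤ) : ℤ) : ℝ) := by
        rw [h4]
        have h7 : ((a : ℝ) + p * ((k / (p : ℤ) : ℤ) : ℝ)) = a + p * ((k / (p : ℤ) : ℤ) : ℝ) := rfl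
        rw [← h4]
        nth_rewrite 1 [h4]
        field_simp
      have h8 : (α + i) / p * k = α * ((k : ℝ) / p) + (i : ℝ) / p * k := by
        field_simp
      rw [h8, h6]
      ring
    rw [h5, ee_add _ ((i * (k / (p : ℤ)) : ℤ) : ℝ), ee_int, mul_one]
  have h2 := par_gen p (range p) (fun a => Gc K g p a α) (fun a => (a : ℝ)) ?_
  · rw [sum_congr rfl fun i hi => by rw [h1 i hi]]
    rw [h2]
    unfold Aa
    field_simp
  · intro a ha b hb
    rw [mem_range] at ha hb
    have e : (a : ℝ) - b = (((a : ℤ) - b : ℤ) : ℝ) := by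
      push_cast
      ring
    simp only [e]
    rw [par_orth p hp _ (by rw [abs_lt]; omega)]
    by_cases hab : a = b
    · subst hab
      rw [if_pos (by ring), if_pos rfl]
    · rw [if_neg (by omega), if_neg hab]

end Pool.Agent.H96.EB
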