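import Pool.Agent.H96.EB.Def2

/-!
# [H96 EB SPC] Spacing of the shifted fractions

PROOF. `x = (a+iq)/(pq) + β/p`, `x' = (a+i'q)/(p'q) + β/p'`. CASE `p = p'`: `i ≠ i'`, `x - x' - n = (i-i')/p - n` is a nonzero multiple of `1/p` (`|i-i'| < p`), so `>= 1/p >= 1/(2P) >= 1/(8P^2 q)`.
CASE `p ≠ p'`: `u = a+iq`, `u' = a+i'q`: `u/(pq) - u'/(p'q) - n = (u p' - u' p - n p p' q)/(p p' q)`, the numerator is an integer `≡ u p' mod p`, not `0` mod `p` (`p ∤ u`, `p ≠ p'` primes), so the absolute value is `>= 1/(p p' q) >= 1/(4P^2 q)`.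
`|β/p - β/p'| <= |β|/(2P)` (`|1/p - 1/p'| <= 1/P - 1/(2P)`) `<= Q0 P/(qK)/(2P) = Q0/(2qK) <= 1/(8P^2 q)` (`4P^2 Q0 <= K`). Difference `>= 1/(8P^2 q)`.
-/

namespace Pool.Agent.H96.EB

theorem spc (P K q p p' i i' : ℕ) (a : ℤ) (Q0 β : ℝ) (hP : 1 ≤ P) (hq : 1 ≤ q) (hK : 1 ≤ K)
    (hQ0 : 1 ≤ Q0) (hb : 4 * (P : ℝ) ^ 2 * Q0 ≤ K) (hβ : |β| ≤ Q0 * P / (q * K)) (hp : p.Prime)
    (hp' : p'.Prime) (h1 : P < p) (h2 : p ≤ 2 * P) (h3 : P < p') (h4 : p' ≤ 2 * P) (hi : i < p)
    (hi' : i' < p') (hd : ¬ (p : ℤ) ∣ a + i * q) (hd' : ¬ (p' : ℤ) ∣ a + i' * q)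
    (hne : (p, i) ≠ (p', i')) (n : ℤ) :
    1 / (8 * (P : ℝ) ^ 2 * q) ≤
      |(((a : ℝ) + i * q) / (p * q) + β / p) - (((a : ℝ) + i' * q) / (p' * q) + β / p') - n| := by
  have hP0 : (1 : ℝ) ≤ P := by exact_mod_cast hP
  have hP00 : (0 : ℝ) < P := by linarith
  have hq0 : (1 : ℝ) ≤ q := by exact_mod_cast hq
  have hq00 : (0 : ℝ) < q := by linarith
  have hK0 : (0 : ℝ) < K := by exact_mod_cast hK
  have hp0 : (0 : ℝ) < p := by exact_mod_cast hp.pos
  have hp0' : (0 : ℝ) < p' := by exact_mod_cast hp'.pos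
  have h2r : (p : ℝ) ≤ 2 * P := by exact_mod_cast h2
  have h4r : (p' : ℝ) ≤ 2 * P := by exact_mod_cast h4
  have h1r : (P : ℝ) ≤ p := by exact_mod_cast h1.le
  have h3r : (P : ℝ) ≤ p' := by exact_mod_cast h3.le
  by_cases hpp : p = p'
  · subst hpp
    have hii : i ≠ i' := fun h => hne (by rw [h])
    have e : (((a : ℝ) + i * q) / (p * q) + β / p) - (((a : ℝ) + i' * q) / (p * q) + β / p) - n =
        (((i : ℤ) - i' - n * p : ℤ) : ℝ) / p := by
      push_cast
      field_simp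
      ring
    rw [e, abs_div, abs_of_pos hp0]
    have hz : (i : ℤ) - i' - n * p ≠ 0 := by
      intro h0
      have h5 : (i : ℤ) - i' = n * p := by linarith
      have h6 : |(i : ℤ) - i'| < p := by
        rw [abs_lt]
        omega
      rw [h5, abs_mul] at h6
      have h7 : |(p : ℤ)| = p := abs_of_nonneg (by positivity)
      rw [h7] at h6
      have h8 : |n| < 1 := by
        by_contra hc
        push Not at hc
        have : (p : ℤ) ≤ |n| * p := by
          have hpz : (0 : ℤ) < p := by exact_mod_cast hp.pos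
          nlinarith
        omega
      have h9 : n = 0 := Int.abs_lt_one_iff.mp h8
      rw [h9] at h5
      apply hii
      omega
    have h5 : (1 : ℝ) ≤ |(((i : ℤ) - i' - n * p : ℤ) : ℝ)| := by
      rw [← Int.cast_abs]
      exact_mod_cast Int.one_le_abs hz
    have h6 : 1 / (8 * (P : ℝ) ^ 2 * q) ≤ 1 / p := by
      apply one_div_le_one_div_of_le hp0
      have h7 : (P : ℝ) ≤ P ^ 2 * q := by
        have : (P : ℝ) ≤ P ^ 2 := by nlinarith
        have : (P : ℝ) ^ 2 ≤ P ^ 2 * q := by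
          have h0 : (0 : ℝ) ≤ (P : ℝ) ^ 2 := by positivity
          nlinarith
        linarith
      nlinarith
    refine h6.trans ?_
    exact div_le_div_of_nonneg_right h5 hp0.le
  · have hz : (a + i * q) * p' - (a + i' * q) * p - n * p * p' * q ≠ 0 := by
      intro h0
      have h5 : (p : ℤ) ∣ (a + i * q) * p' := by
        have : (a + i * q) * p' = p * ((a + i' * q) + n * p' * q) := by linarith
        rw [this]
        exact Dvd.intro _ rfl
      have hpz : Prime (p : ℤ) := Nat.prime_iff_prime_int.mp hp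
      rcases hpz.dvd_or_dvd h5 with h6 | h6
      · exact hd h6
      · have h7 : p ∣ p' := by exact_mod_cast h6
        exact hpp ((Nat.prime_dvd_prime_iff_eq hp hp').mp h7)
    have e : (((a : ℝ) + i * q) / (p * q) + β / p) - (((a : ℝ) + i' * q) / (p' * q) + β / p') - n =
        (((a + i * q) * p' - (a + i' * q) * p - n * p * p' * q : ℤ) : ℝ) / (p * p' * q) +
          β * (1 / p - 1 / p') := by
      push_cast
      field_simp
      ring
    rw [e]
    have h5 : (1 : ℝ) ≤ |(((a + i * q) * p' - (a + i' * q) * p - n * p * p' * q : ℤ) : ℝ)| := by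
      rw [← Int.cast_abs]
      exact_mod_cast Int.one_le_abs hz
    have h6 : 1 / (4 * (P : ℝ) ^ 2 * q) ≤
        |(((a + i * q) * p' - (a + i' * q) * p - n * p * p' * q : ℤ) : ℝ) / (p * p' * q)| := by
      rw [abs_div, abs_of_pos (by positivity : (0 : ℝ) < p * p' * q)]
      refine div_le_div₀ (abs_nonneg _) h5 (by positivity) ?_
      apply mul_le_mul_of_nonneg_right _ hq00.le
      calc (p : ℝ) * p' ≤ (2 * P) * (2 * P) := mul_le_mul h2r h4r hp0'.le (by positivity)
        _ = 4 * (P : ℝ) ^ 2 := by ring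
    have h7 : |(1 : ℝ) / p - 1 / p'| ≤ 1 / (2 * P) := by
      have a1 : (1 : ℝ) / p ≤ 1 / P := one_div_le_one_div_of_le hP00 h1r
      have a2 : (1 : ℝ) / (2 * P) ≤ 1 / p := one_div_le_one_div_of_le hp0 h2r
      have a3 : (1 : ℝ) / p' ≤ 1 / P := one_div_le_one_div_of_le hP00 h3r
      have a4 : (1 : ℝ) / (2 * P) ≤ 1 / p' := one_div_le_one_div_of_le hp0' h4r
      have a5 : (1 : ℝ) / P = 1 / (2 * P) + 1 / (2 * P) := by
        field_simp
        norm_num
      rw [abs_le]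
      constructor <;> linarith
    have h8 : |β * (1 / p - 1 / p')| ≤ 1 / (8 * (P : ℝ) ^ 2 * q) := by
      rw [abs_mul]
      calc |β| * |(1 : ℝ) / p - 1 / p'| ≤ (Q0 * P / (q * K)) * (1 / (2 * P)) :=
            mul_le_mul hβ h7 (abs_nonneg _) (by positivity)
        _ = Q0 / (2 * q * K) := by
            field_simp
        _ ≤ 1 / (8 * (P : ℝ) ^ 2 * q) := by
            rw [div_le_div_iff₀ (by positivity) (by positivity)]
            have := mul_le_mul_of_nonneg_left hb (by positivity : (0 : ℝ) ≤ 2 * q)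
            linarith
    have h9 : |(((a + i * q) * p' - (a + i' * q) * p - n * p * p' * q : ℤ) : ℝ) / (p * p' * q)| -
        |β * (1 / p - 1 / p')| ≤
        |(((a + i * q) * p' - (a + i' * q) * p - n * p * p' * q : ℤ) : ℝ) / (p * p' * q) +
          β * (1 / p - 1 / p')| := by
      have := abs_sub_abs_le_abs_sub
        ((((a + i * q) * p' - (a + i' * q) * p - n * p * p' * q : ℤ) : ℝ) / (p * p' * q))
        (-(β * (1 / p - 1 / p')))
      rw [abs_neg, sub_neg_eq_add] at this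
      exact this
    have h10 : 1 / (4 * (P : ℝ) ^ 2 * q) = 1 / (8 * (P : ℝ) ^ 2 * q) + 1 / (8 * (P : ℝ) ^ 2 * q) := by
      field_simp
      norm_num
    linarith

end Pool.Agent.H96.EB
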