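import Pool.Agent.H21.BV.Als
import Pool.Agent.H96.EB.Par
import Pool.Agent.H96.EB.Spc

/-!
# [H96 EB JB] The major set

PROOF. `V = VV K g`. (1) For `j < N` with `j/N ∈ MJ`: some `1 <= q <= Q0`, `a` with `|j/N - a/q| <= Q0 P/(qK)`; `Q0 P <= K` so `-1 <= a <= q+1` (at most `4q` values). So `Jp p <= (1/N) Σ_{q <= Q0} Σ_{a=-1}^{q+1} Σ_{j < N, |j/N - a/q| <= Q0P/(qK)} Aa K g p (j/N)` (`Aa >= 0`).
The number of `j` for given `(q,a)` is `<= 2N Q0 P/(qK) + 1 <= 3N Q0 P/(qK)` (`N >= K`, `Q0 >= q`, `P >= 1`).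
(2) Fix `(q,a,j)`, `β = j/N - a/q`. `par2`: `Aa K g p (j/N) = (1/p) Σ_{i<p} ‖Fh ((j/N + i)/p)‖^2`, `(j/N+i)/p = (a+iq)/(pq) + β/p`. `p ∤ q` (`q <= Q0 < P < p`), so exactly one `i0 < p` has `p ∣ a + i0 q`; for it the frequency is `t/q + β/p` with `t = (a+i0 q)/p`, and `|β/p| <= Q0/(qK)` (`p > P`): `‖Fh‖^2 <= S2`.
The others, for all `p ∈ PP` together: `spc` and the large sieve `H21.BV.add_ls` (`δ = 1/(8P^2 q)`; `H21.BV.ee t = exp(2πi t)`, the same as `H24.AB.ee`; `Icc (1:ℤ) K` reindexed by `Ioc 0 K`; index set = pairs `(p,i)`): `Σ_p Σ_{i ≠ i0} ‖Fh‖^2 <= 8(K + 8P^2 q + 1) V <= 32 K V` (`4P^2 Q0 <= K`).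
So `Σ_p Aa K g p (j/N) <= (1/P)(P S2 + 32 K V)` (`card PP <= P`, `1/p <= 1/P`).
(3) Sum: `Σ_p Jp <= (1/N) Σ_q 4q * 3N Q0P/(qK) * (S2 + 32 K V/P) <= 12 Q0^2 (P/K) S2 + 384 Q0^2 V` (at most `Q0` values of `q`).
-/

namespace Pool.Agent.H96.EB

open Finset

private theorem jb_card (x R : ℝ) (hR : 0 ≤ R) (S : Finset ℕ)
    (hS : ∀ j ∈ S, |(j : ℝ) - x| ≤ R) : (S.card : ℝ) ≤ 2 * R + 1 := by
  rcases S.eq_empty_or_nonempty with h0 | h0
  · rw [h0, card_empty, Nat.cast_zero]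
    linarith
  · have h1 : S ⊆ Icc (S.min' h0) (S.max' h0) := fun j hj =>
      mem_Icc.2 ⟨S.min'_le j hj, S.le_max' j hj⟩
    have h2 := card_le_card h1
    rw [Nat.card_Icc] at h2
    have h3 := abs_le.1 (hS _ (S.min'_mem h0))
    have h4 := abs_le.1 (hS _ (S.max'_mem h0))
    have h5 : S.min' h0 ≤ S.max' h0 := S.min'_le _ (S.max'_mem h0)
    have h6 : ((S.max' h0 + 1 - S.min' h0 : ℕ) : ℝ) = (S.max' h0 : ℝ) + 1 - (S.min' h0 : ℝ) := by
      rw [Nat.cast_sub (by omega)]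
      push_cast
      ring
    have h7 : (S.card : ℝ) ≤ (S.max' h0 : ℝ) + 1 - (S.min' h0 : ℝ) := by
      rw [← h6]
      exact_mod_cast h2
    linarith [h3.1, h3.2, h4.1, h4.2]

private theorem jb_Fh (K : ℕ) (g : ℤ → ℝ) (γ : ℝ) :
    Fh K g γ = ∑ n ∈ Ioc 0 (0 + K), ((g (n : ℤ) : ℝ) : ℂ) * Pool.Agent.H21.BV.ee (n * γ) := by
  unfold Fh
  refine sum_nbij' (fun k : ℤ => k.toNat) (fun n : ℕ => (n : ℤ)) ?_ ?_ ?_ ?_ ?_
  · intro k hk
    simp only [mem_Icc, mem_Ioc] at hk ⊢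
    omega
  · intro n hn
    simp only [mem_Icc, mem_Ioc] at hn ⊢
    omega
  · intro k hk
    simp only [mem_Icc] at hk
    show ((k.toNat : ℕ) : ℤ) = k
    omega
  · intro n _
    show ((n : ℤ)).toNat = n
    omega
  · intro k hk
    simp only [mem_Icc] at hk
    have h1 : ((k.toNat : ℕ) : ℤ) = k := by omega
    have h2 : ((k.toNat : ℕ) : ℝ) = (k : ℝ) := by
      rw [← Int.cast_natCast, h1]
    show (g k : ℂ) * Pool.Agent.H24.AB.ee (γ * k) =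
      ((g ((k.toNat : ℕ) : ℤ) : ℝ) : ℂ) * Pool.Agent.H21.BV.ee (((k.toNat : ℕ) : ℝ) * γ)
    rw [h1, h2]
    congr 1
    unfold Pool.Agent.H24.AB.ee Pool.Agent.H21.BV.ee
    congr 1
    push_cast
    ring

private theorem jb_VV (K : ℕ) (g : ℤ → ℝ) :
    ∑ n ∈ Ioc 0 (0 + K), ‖((g (n : ℤ) : ℝ) : ℂ)‖ ^ 2 = VV K g := by
  unfold VV
  symm
  refine sum_nbij' (fun k : ℤ => k.toNat) (fun n : ℕ => (n : ℤ)) ?_ ?_ ?_ ?_ ?_
  · intro k hk
    simp only [mem_Icc, mem_Ioc] at hk ⊢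
    omega
  · intro n hn
    simp only [mem_Icc, mem_Ioc] at hn ⊢
    omega
  · intro k hk
    simp only [mem_Icc] at hk
    show ((k.toNat : ℕ) : ℤ) = k
    omega
  · intro n _
    show ((n : ℤ)).toNat = n
    omega
  · intro k hk
    simp only [mem_Icc] at hk
    have h1 : ((k.toNat : ℕ) : ℤ) = k := by omega
    show g k ^ 2 = ‖((g ((k.toNat : ℕ) : ℤ) : ℝ) : ℂ)‖ ^ 2
    rw [h1, Complex.norm_real, Real.norm_eq_abs, sq_abs]

private theorem jb_VV0 (K : ℕ) (g : ℤ → ℝ) : 0 ≤ VV K g := sum_nonneg fun _ _ => sq_nonneg _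

private theorem jb_one (K P : ℕ) (Q0 S2 : ℝ) (PP : Finset ℕ) (g : ℤ → ℝ) (hP : 1 ≤ P)
    (hK : 1 ≤ K) (hQ0 : 1 ≤ Q0) (hQP : Q0 < P) (hb : 4 * (P : ℝ) ^ 2 * Q0 ≤ K)
    (hPP : ∀ p ∈ PP, p.Prime ∧ P < p ∧ p ≤ 2 * P) (hS0 : 0 ≤ S2) (q : ℕ) (hq : 1 ≤ q)
    (hqQ : (q : ℝ) ≤ Q0)
    (hS2 : ∀ (t : ℤ) (γ : ℝ), |γ - t / q| ≤ Q0 / (q * K) → ‖Fh K g γ‖ ^ 2 ≤ S2)
    (a : ℤ) (α : ℝ) (hα : |q * α - a| ≤ Q0 * P / K) :
    ∑ p ∈ PP, Aa K g p α ≤ S2 + 32 * K * VV K g / P := by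
  have hPR : (0 : ℝ) < P := by exact_mod_cast hP
  have hP1 : (1 : ℝ) ≤ P := by exact_mod_cast hP
  have hqR : (0 : ℝ) < q := by exact_mod_cast hq
  have hq1 : (1 : ℝ) ≤ q := by exact_mod_cast hq
  have hKR : (0 : ℝ) < K := by exact_mod_cast hK
  have hK1 : (1 : ℝ) ≤ K := by exact_mod_cast hK
  have hQ00 : 0 < Q0 := by linarith
  obtain ⟨β, hβ⟩ : ∃ β : ℝ, β = α - a / q := ⟨_, rfl⟩
  have hqβ : q * α - a = q * β := by
    rw [hβ]
    field_simp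
  have hβ1 : |β| ≤ Q0 * P / (q * K) := by
    rw [hqβ, abs_mul, abs_of_pos hqR] at hα
    rw [le_div_iff₀ (by positivity)]
    rw [le_div_iff₀ hKR] at hα
    calc |β| * (q * K) = q * |β| * K := by ring
      _ ≤ Q0 * P := hα
  -- the index set of the large sieve
  obtain ⟨s, hs⟩ : ∃ s : Finset (ℕ × ℕ), s = (PP ×ˢ range (2 * P + 1)).filter
      (fun z => z.2 < z.1 ∧ ¬ (z.1 : ℤ) ∣ a + z.2 * q) := ⟨_, rfl⟩
  have hsmem : ∀ z : ℕ × ℕ, z ∈ s ↔ z.1 ∈ PP ∧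
      z.2 ∈ (range z.1).filter (fun i : ℕ => ¬ (z.1 : ℤ) ∣ a + i * q) := by
    intro z
    rw [hs]
    simp only [mem_filter, mem_product, mem_range]
    constructor
    · rintro ⟨⟨h1, _⟩, h3, h4⟩
      exact ⟨h1, h3, h4⟩
    · rintro ⟨h1, h3, h4⟩
      have := (hPP _ h1).2.2
      exact ⟨⟨h1, by omega⟩, h3, h4⟩
  have hls : ∑ z ∈ s, ‖Fh K g ((α + z.2) / z.1)‖ ^ 2 ≤ 32 * K * VV K g := by
    have hδ : (0 : ℝ) < 1 / (8 * (P : ℝ) ^ 2 * q) := by positivity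
    have h1 := Pool.Agent.H21.BV.add_ls s
      (fun z => ((a : ℝ) + z.2 * q) / (z.1 * q) + β / z.1) (1 / (8 * (P : ℝ) ^ 2 * q)) hδ
      (by
        intro z hz z' hz' hne n
        rw [hsmem] at hz hz'
        simp only [mem_filter, mem_range] at hz hz'
        have e1 := hPP _ hz.1
        have e2 := hPP _ hz'.1
        exact spc P K q z.1 z'.1 z.2 z'.2 a Q0 β hP hq hK hQ0 hb hβ1 e1.1 e2.1 e1.2.1 e1.2.2
          e2.2.1 e2.2.2 hz.2.1 hz'.2.1 hz.2.2 hz'.2.2 hne n)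
      0 K (fun n => ((g (n : ℤ) : ℝ) : ℂ))
    rw [jb_VV] at h1
    have h2 : ∀ z ∈ s, ‖Fh K g ((α + z.2) / z.1)‖ ^ 2 =
        ‖∑ n ∈ Ioc 0 (0 + K), ((g (n : ℤ) : ℝ) : ℂ) * Pool.Agent.H21.BV.ee
          (n * (((a : ℝ) + z.2 * q) / (z.1 * q) + β / z.1))‖ ^ 2 := by
      intro z hz
      rw [hsmem] at hz
      have e1 := (hPP _ hz.1).1.pos
      have e2 : (z.1 : ℝ) ≠ 0 := by
        have : (0 : ℝ) < z.1 := by exact_mod_cast e1
        exact this.ne'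
      rw [jb_Fh]
      have e3 : (α + z.2) / z.1 = ((a : ℝ) + z.2 * q) / (z.1 * q) + β / z.1 := by
        rw [hβ]
        field_simp
        ring
      rw [e3]
    rw [sum_congr rfl h2]
    refine h1.trans ?_
    refine mul_le_mul_of_nonneg_right ?_ (jb_VV0 K g)
    rw [one_div_one_div]
    have h3 : 8 * (P : ℝ) ^ 2 * q ≤ 2 * K := by
      have : (P : ℝ) ^ 2 * q ≤ (P : ℝ) ^ 2 * Q0 := mul_le_mul_of_nonneg_left hqQ (by positivity)
      linarith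
    linarith
  -- one prime
  have hone : ∀ p ∈ PP, Aa K g p α ≤ (1 / (P : ℝ)) * (S2 +
      ∑ i ∈ (range p).filter (fun i : ℕ => ¬ (p : ℤ) ∣ a + i * q), ‖Fh K g ((α + i) / p)‖ ^ 2) := by
    intro p hp
    obtain ⟨hpp, hp1, hp2⟩ := hPP p hp
    have hpR : (0 : ℝ) < p := by exact_mod_cast hpp.pos
    have hPp : (P : ℝ) ≤ p := by exact_mod_cast hp1.le
    rw [par2 K p g hpp.one_lt.le α]
    have h1 : (1 : ℝ) / p ≤ 1 / P := one_div_le_one_div_of_le hPR hPp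
    refine mul_le_mul h1 ?_ (sum_nonneg fun _ _ => sq_nonneg _) (by positivity)
    rw [← sum_filter_add_sum_filter_not (range p) (fun i : ℕ => (p : ℤ) ∣ a + i * q)]
    refine add_le_add ?_ le_rfl
    have hcard : ((range p).filter (fun i : ℕ => (p : ℤ) ∣ a + i * q)).card ≤ 1 := by
      rw [card_le_one]
      intro i hi i' hi'
      simp only [mem_filter, mem_range] at hi hi'
      have h2 : (p : ℤ) ∣ ((i : ℤ) - i') * q := by
        have h3 := dvd_sub hi.2 hi'.2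
        have h4 : (a + (i : ℤ) * q) - (a + (i' : ℤ) * q) = ((i : ℤ) - i') * q := by ring
        rwa [h4] at h3
      have hpq : ¬ (p : ℤ) ∣ (q : ℤ) := by
        intro h3
        have h4 : p ∣ q := by exact_mod_cast h3
        have h5 := Nat.le_of_dvd (by omega) h4
        have h6 : (p : ℝ) ≤ q := by exact_mod_cast h5
        linarith
      rcases (Nat.prime_iff_prime_int.1 hpp).dvd_or_dvd h2 with h3 | h3
      · have h4 : (i : ℤ) - i' = 0 := by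
          by_contra hne
          have h5 := Int.le_of_dvd (abs_pos.2 hne) ((dvd_abs _ _).2 h3)
          have h6 : |(i : ℤ) - i'| < p := by
            rw [abs_lt]
            constructor <;> omega
          omega
        omega
      · exact absurd h3 hpq
    have hle : ∀ i ∈ (range p).filter (fun i : ℕ => (p : ℤ) ∣ a + i * q),
        ‖Fh K g ((α + i) / p)‖ ^ 2 ≤ S2 := by
      intro i hi
      simp only [mem_filter, mem_range] at hi
      obtain ⟨t, ht⟩ := hi.2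
      refine hS2 t _ ?_
      have htR : (a : ℝ) + i * q = p * t := by exact_mod_cast ht
      have e1 : (α + i) / p - t / q = (q * α - a) / (p * q) := by
        have e2 : (t : ℝ) = ((a : ℝ) + i * q) / p := by
          rw [htR]
          field_simp
        rw [e2]
        field_simp
        ring
      rw [e1, abs_div, abs_of_pos (by positivity : (0 : ℝ) < p * q)]
      calc |q * α - a| / (p * q) ≤ (Q0 * P / K) / (P * q) := by
            refine div_le_div₀ (by positivity) hα (by positivity) ?_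
            exact mul_le_mul_of_nonneg_right hPp hqR.le
        _ = Q0 / (q * K) := by
            field_simp
    refine (sum_le_card_nsmul _ _ _ hle).trans ?_
    rw [nsmul_eq_mul]
    have h3 : (((range p).filter (fun i : ℕ => (p : ℤ) ∣ a + i * q)).card : ℝ) ≤ 1 := by
      exact_mod_cast hcard
    calc (((range p).filter (fun i : ℕ => (p : ℤ) ∣ a + i * q)).card : ℝ) * S2 ≤ 1 * S2 :=
          mul_le_mul_of_nonneg_right h3 hS0
      _ = S2 := one_mul _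
  refine (sum_le_sum hone).trans ?_
  rw [← mul_sum, sum_add_distrib, sum_const, nsmul_eq_mul]
  have hprod : ∑ p ∈ PP, ∑ i ∈ (range p).filter (fun i : ℕ => ¬ (p : ℤ) ∣ a + i * q),
      ‖Fh K g ((α + i) / p)‖ ^ 2 = ∑ z ∈ s, ‖Fh K g ((α + z.2) / z.1)‖ ^ 2 :=
    (sum_finset_product s PP (fun p => (range p).filter (fun i : ℕ => ¬ (p : ℤ) ∣ a + i * q))
      hsmem (f := fun z : ℕ × ℕ => ‖Fh K g ((α + z.2) / z.1)‖ ^ 2)).symm
  rw [hprod]
  have hcardPP : (PP.card : ℝ) ≤ P := by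
    have h1 : PP ⊆ Ioc P (2 * P) := fun p hp => mem_Ioc.2 (hPP p hp).2
    have h2 := card_le_card h1
    rw [Nat.card_Ioc] at h2
    have h3 : PP.card ≤ P := by omega
    exact_mod_cast h3
  have h1 : (PP.card : ℝ) * S2 ≤ P * S2 := mul_le_mul_of_nonneg_right hcardPP hS0
  calc 1 / (P : ℝ) * ((PP.card : ℝ) * S2 + ∑ z ∈ s, ‖Fh K g ((α + z.2) / z.1)‖ ^ 2) ≤
        1 / (P : ℝ) * (P * S2 + 32 * K * VV K g) :=
        mul_le_mul_of_nonneg_left (add_le_add h1 hls) (by positivity)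
    _ = S2 + 32 * K * VV K g / P := by
        field_simp

private theorem jb_Aa0 (K : ℕ) (g : ℤ → ℝ) (p : ℕ) (α : ℝ) : 0 ≤ Aa K g p α :=
  sum_nonneg fun _ _ => sq_nonneg _

theorem jb_Jp (K : ℕ) (g : ℤ → ℝ) (Q0 P : ℝ) (N p : ℕ)
    [DecidablePred fun j : ℕ => (j : ℝ) / N ∈ MJ Q0 P K] :
    Jp K g Q0 P N p = (1 / (N : ℝ)) *
      ∑ j ∈ (range N).filter (fun j : ℕ => (j : ℝ) / N ∈ MJ Q0 P K), Aa K g p ((j : ℝ) / N) := by
  unfold Jp
  congr 1
  first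
  | (refine sum_congr ?_ (fun _ _ => rfl)
     ext j
     simp only [mem_filter])
  | (rw [Finset.sum_filter, Finset.sum_filter]
     simp only [Finset.bind_def, Finset.pure_def]
     rw [Finset.sup_singleton_apply, sum_image (fun a _ b _ h => Nat.cast_injective h)]
     refine sum_congr rfl fun j _ => ?_
     split_ifs <;> rfl)

theorem jb (K P N : ℕ) (Q0 S2 : ℝ) (PP : Finset ℕ) (g : ℤ → ℝ) (hP : 1 ≤ P) (hK : 1 ≤ K)
    (hKN : K ≤ N) (hQ0 : 1 ≤ Q0) (hQP : Q0 < P) (hb : 4 * (P : ℝ) ^ 2 * Q0 ≤ K)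
    (hPP : ∀ p ∈ PP, p.Prime ∧ P < p ∧ p ≤ 2 * P) (hS0 : 0 ≤ S2)
    (hS2 : ∀ q : ℕ, 1 ≤ q → (q : ℝ) ≤ Q0 → ∀ (t : ℤ) (γ : ℝ), |γ - t / q| ≤ Q0 / (q * K) →
      ‖Fh K g γ‖ ^ 2 ≤ S2) :
    ∑ p ∈ PP, Jp K g Q0 P N p ≤ 1000 * Q0 ^ 2 * VV K g + 100 * Q0 ^ 2 * (P / K) * S2 := by
  classical
  have hPR : (0 : ℝ) < P := by exact_mod_cast hP
  have hP1 : (1 : ℝ) ≤ P := by exact_mod_cast hP
  have hKR : (0 : ℝ) < K := by exact_mod_cast hK
  have hN : 1 ≤ N := hK.trans hKN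
  have hNR : (0 : ℝ) < N := by exact_mod_cast hN
  have hKNR : (K : ℝ) ≤ N := by exact_mod_cast hKN
  have hQ00 : 0 < Q0 := by linarith
  have hV0 := jb_VV0 K g
  obtain ⟨R, hR⟩ : ∃ R : ℝ, R = Q0 * P / K := ⟨_, rfl⟩
  have hR0 : 0 < R := by rw [hR]; positivity
  have hR1 : R ≤ 1 := by
    rw [hR, div_le_one hKR]
    have h1 : Q0 * P * 1 ≤ Q0 * P * (4 * P) :=
      mul_le_mul_of_nonneg_left (by linarith) (by positivity)
    calc Q0 * P ≤ Q0 * P * (4 * P) := by linarith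
      _ = 4 * (P : ℝ) ^ 2 * Q0 := by ring
      _ ≤ K := hb
  obtain ⟨B, hB⟩ : ∃ B : ℝ, B = S2 + 32 * K * VV K g / P := ⟨_, rfl⟩
  have hB0 : 0 ≤ B := by rw [hB]; positivity
  -- swap the sums
  have h1 : ∑ p ∈ PP, Jp K g Q0 P N p = (1 / (N : ℝ)) *
      ∑ j ∈ (range N).filter (fun j : ℕ => (j : ℝ) / N ∈ MJ Q0 P K),
        ∑ p ∈ PP, Aa K g p ((j : ℝ) / N) := by
    simp only [jb_Jp]
    rw [← mul_sum, sum_comm]
  rw [h1]
  -- covering
  have h2 : ∑ j ∈ (range N).filter (fun j : ℕ => (j : ℝ) / N ∈ MJ Q0 P K),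
      ∑ p ∈ PP, Aa K g p ((j : ℝ) / N) ≤
      ∑ q ∈ Icc 1 ⌊Q0⌋₊, ∑ a ∈ Icc (-1 : ℤ) q,
        ∑ j ∈ (range N).filter (fun j : ℕ => |(q : ℝ) * ((j : ℝ) / N) - a| ≤ R), B := by
    have h3 : ∀ j ∈ (range N).filter (fun j : ℕ => (j : ℝ) / N ∈ MJ Q0 P K),
        ∑ p ∈ PP, Aa K g p ((j : ℝ) / N) ≤ ∑ q ∈ Icc 1 ⌊Q0⌋₊, ∑ a ∈ Icc (-1 : ℤ) q,
          if |(q : ℝ) * ((j : ℝ) / N) - a| ≤ R then B else 0 := by
      intro j hj
      rw [mem_filter, mem_range] at hj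
      obtain ⟨hjN, q, hq1, hqQ, a, ha⟩ := hj
      rw [← hR] at ha
      have hα0 : 0 ≤ (j : ℝ) / N := by positivity
      have hα1 : (j : ℝ) / N < 1 := by
        rw [div_lt_one hNR]
        exact_mod_cast hjN
      have hq0 : (0 : ℝ) < q := by exact_mod_cast hq1
      have hab := abs_le.1 ha
      have hqα0 : 0 ≤ (q : ℝ) * ((j : ℝ) / N) := by positivity
      have hqα1 : (q : ℝ) * ((j : ℝ) / N) < q := by
        calc (q : ℝ) * ((j : ℝ) / N) < q * 1 := mul_lt_mul_of_pos_left hα1 hq0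
          _ = q := mul_one _
      have ha1 : (-1 : ℤ) ≤ a := by
        have : (-1 : ℝ) ≤ (a : ℝ) := by linarith [hab.2]
        exact_mod_cast this
      have ha2 : a ≤ q := by
        have : (a : ℝ) < q + 1 := by linarith [hab.1]
        have h4 : a < (q : ℤ) + 1 := by exact_mod_cast this
        omega
      have hbd : ∑ p ∈ PP, Aa K g p ((j : ℝ) / N) ≤ B := by
        rw [hB]
        rw [hR] at ha
        exact jb_one K P Q0 S2 PP g hP hK hQ0 hQP hb hPP hS0 q hq1 hqQ (hS2 q hq1 hqQ) a _ ha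
      have hqm : q ∈ Icc 1 ⌊Q0⌋₊ := mem_Icc.2 ⟨hq1, Nat.le_floor hqQ⟩
      have ham : a ∈ Icc (-1 : ℤ) q := mem_Icc.2 ⟨ha1, ha2⟩
      calc ∑ p ∈ PP, Aa K g p ((j : ℝ) / N) ≤ B := hbd
        _ = if |(q : ℝ) * ((j : ℝ) / N) - a| ≤ R then B else 0 := by rw [if_pos ha]
        _ ≤ ∑ a ∈ Icc (-1 : ℤ) q, if |(q : ℝ) * ((j : ℝ) / N) - a| ≤ R then B else 0 :=
            single_le_sum (f := fun a : ℤ => if |(q : ℝ) * ((j : ℝ) / N) - a| ≤ R then B else 0)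
              (fun a _ => by split_ifs <;> [exact hB0; exact le_rfl]) ham
        _ ≤ _ := single_le_sum (f := fun q : ℕ => ∑ a ∈ Icc (-1 : ℤ) q,
              if |(q : ℝ) * ((j : ℝ) / N) - a| ≤ R then B else 0)
              (fun q _ => sum_nonneg fun a _ => by split_ifs <;> [exact hB0; exact le_rfl]) hqm
    refine (sum_le_sum h3).trans ?_
    refine (sum_le_sum_of_subset_of_nonneg (filter_subset _ _) (fun j _ _ =>
      sum_nonneg fun q _ => sum_nonneg fun a _ => by split_ifs <;> [exact hB0; exact le_rfl])).trans ?_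
    rw [sum_comm]
    refine sum_le_sum fun q _ => ?_
    rw [sum_comm]
    refine sum_le_sum fun a _ => ?_
    rw [sum_filter]
  -- counting
  have h4 : ∀ q ∈ Icc 1 ⌊Q0⌋₊, ∑ a ∈ Icc (-1 : ℤ) q,
        ∑ j ∈ (range N).filter (fun j : ℕ => |(q : ℝ) * ((j : ℝ) / N) - a| ≤ R), B ≤
      9 * N * R * B := by
    intro q hq
    rw [mem_Icc] at hq
    have hqQ : (q : ℝ) ≤ Q0 := (Nat.le_floor_iff hQ00.le).1 hq.2
    have hq0 : (0 : ℝ) < q := by exact_mod_cast hq.1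
    have hNRq : 1 ≤ N * R / q := by
      rw [le_div_iff₀ hq0, one_mul, hR]
      calc (q : ℝ) ≤ Q0 := hqQ
        _ ≤ Q0 * P := le_mul_of_one_le_right hQ00.le hP1
        _ = K * (Q0 * P / K) := by field_simp
        _ ≤ N * (Q0 * P / K) := mul_le_mul_of_nonneg_right hKNR (by positivity)
    have h5 : ∀ a ∈ Icc (-1 : ℤ) q,
        ∑ j ∈ (range N).filter (fun j : ℕ => |(q : ℝ) * ((j : ℝ) / N) - a| ≤ R), B ≤
        3 * (N * R / q) * B := by
      intro a _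
      rw [sum_const, nsmul_eq_mul]
      refine mul_le_mul_of_nonneg_right ?_ hB0
      refine (jb_card (N * a / q) (N * R / q) (by positivity) _ ?_).trans (by linarith)
      intro j hj
      rw [mem_filter] at hj
      have e1 : (j : ℝ) - N * a / q = (q * ((j : ℝ) / N) - a) * (N / q) := by
        field_simp
      rw [e1, abs_mul, abs_of_pos (by positivity : (0 : ℝ) < N / q)]
      calc |(q : ℝ) * ((j : ℝ) / N) - a| * (N / q) ≤ R * (N / q) :=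
            mul_le_mul_of_nonneg_right hj.2 (by positivity)
        _ = N * R / q := by ring
    refine (sum_le_card_nsmul _ _ _ h5).trans ?_
    rw [nsmul_eq_mul, Int.card_Icc]
    have h6 : (((q : ℤ) + 1 - -1).toNat : ℝ) ≤ 3 * q := by
      have h7 : ((q : ℤ) + 1 - -1).toNat = q + 2 := by omega
      rw [h7]
      push_cast
      have : (1 : ℝ) ≤ q := by exact_mod_cast hq.1
      linarith
    calc (((q : ℤ) + 1 - -1).toNat : ℝ) * (3 * (N * R / q) * B) ≤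
          3 * q * (3 * (N * R / q) * B) := mul_le_mul_of_nonneg_right h6 (by positivity)
      _ = 9 * N * R * B := by
          field_simp
          ring
  have h5 : ∑ j ∈ (range N).filter (fun j : ℕ => (j : ℝ) / N ∈ MJ Q0 P K),
      ∑ p ∈ PP, Aa K g p ((j : ℝ) / N) ≤ Q0 * (9 * N * R * B) := by
    refine h2.trans ((sum_le_card_nsmul _ _ _ h4).trans ?_)
    rw [nsmul_eq_mul, Nat.card_Icc]
    refine mul_le_mul_of_nonneg_right ?_ (by positivity)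
    rw [Nat.add_sub_cancel]
    exact Nat.floor_le hQ00.le
  calc (1 / (N : ℝ)) * ∑ j ∈ (range N).filter (fun j : ℕ => (j : ℝ) / N ∈ MJ Q0 P K),
        ∑ p ∈ PP, Aa K g p ((j : ℝ) / N) ≤ (1 / (N : ℝ)) * (Q0 * (9 * N * R * B)) :=
        mul_le_mul_of_nonneg_left h5 (by positivity)
    _ = 9 * Q0 ^ 2 * (P / K) * S2 + 288 * Q0 ^ 2 * VV K g := by
        rw [hR, hB]
        field_simp
        ring
    _ ≤ 1000 * Q0 ^ 2 * VV K g + 100 * Q0 ^ 2 * (P / K) * S2 := by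
        have e1 : 0 ≤ Q0 ^ 2 * (P / K) * S2 := by positivity
        have e2 : 0 ≤ Q0 ^ 2 * VV K g := by positivity
        linarith

end Pool.Agent.H96.EB
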