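import Pool.Agent.H96.EB.Sgm
import Pool.Agent.H96.EB.Jb

/-!
# [H96 EB VSQ] The dispersion inequality

PROOF. `F = Ff M M' PP β`, `V = VV K F`, `G b = Σ_{p ∈ PP} Gp K M M' F p b`. DUALITY: `V = Σ_k F(k) Σ_m Σ_{p ∣ m^3+k} β((m^3+k)/p) = Σ_{b ∈ B} β(b) G(b)`: the triples `(k,m,p)` with `1 <= k <= K`, `p ∣ m^3+k` correspond to the `(b,m,p)` with `1 <= pb-m^3 <= K` (`b = (m^3+k)/p`), and these `b` are in `B` (`hBc`).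
Cauchy: `V^2 <= (Σ_{b ∈ B} β^2)(Σ_{b ∈ B} G^2) <= D Σ_{b ∈ Icc 1 N} G^2` (`B ⊆ Icc 1 N`). Now `sgm` and `jb` with `Q0 = C T^c` (`C, c` of `sgm`; `C >= 1`): `3000 (K/M)(1000 Q0^2 V + 100 Q0^2 (P/K) S2) = 3*10^6 (K/M) Q0^2 V + 3*10^5 Q0^2 (P/M) S2`. `K <= N` (`K <= 8M^3`).
-/

namespace Pool.Agent.H96.EB

open Finset

private theorem vsq_one (K : ℕ) (p : ℕ) (hp : 0 < p) (m : ℤ) (g β : ℤ → ℝ) (B : Finset ℤ)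
    (hB : ∀ b : ℤ, m ^ 3 < p * b → p * b ≤ m ^ 3 + K → b ∈ B) :
    ∑ k ∈ Icc (1 : ℤ) K, g k * (if (p : ℤ) ∣ m ^ 3 + k then β ((m ^ 3 + k) / p) else 0) =
      ∑ b ∈ B, β b * (if 1 ≤ (p : ℤ) * b - m ^ 3 ∧ (p : ℤ) * b - m ^ 3 ≤ K then
        g ((p : ℤ) * b - m ^ 3) else 0) := by
  have hp0 : (0 : ℤ) < p := by exact_mod_cast hp
  simp only [mul_ite, mul_zero]
  rw [← sum_filter, ← sum_filter]
  refine sum_nbij' (fun k => (m ^ 3 + k) / p) (fun b => (p : ℤ) * b - m ^ 3) ?_ ?_ ?_ ?_ ?_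
  · intro k hk
    rw [mem_filter, mem_Icc] at hk
    obtain ⟨⟨h1, h2⟩, h3⟩ := hk
    have h4 : (p : ℤ) * ((m ^ 3 + k) / p) = m ^ 3 + k := Int.mul_ediv_cancel' h3
    rw [mem_filter]
    refine ⟨hB _ ?_ ?_, ?_, ?_⟩
    · rw [h4]; omega
    · rw [h4]; omega
    · rw [h4]; omega
    · rw [h4]; omega
  · intro b hb
    rw [mem_filter] at hb
    rw [mem_filter, mem_Icc]
    refine ⟨hb.2, ?_⟩
    rw [add_sub_cancel]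
    exact dvd_mul_right _ _
  · intro k hk
    rw [mem_filter] at hk
    have h4 : (p : ℤ) * ((m ^ 3 + k) / p) = m ^ 3 + k := Int.mul_ediv_cancel' hk.2
    show (p : ℤ) * ((m ^ 3 + k) / p) - m ^ 3 = k
    rw [h4]
    ring
  · intro b _
    show (m ^ 3 + ((p : ℤ) * b - m ^ 3)) / p = b
    rw [add_sub_cancel, Int.mul_ediv_cancel_left _ hp0.ne']
  · intro k hk
    rw [mem_filter] at hk
    have h4 : (p : ℤ) * ((m ^ 3 + k) / p) = m ^ 3 + k := Int.mul_ediv_cancel' hk.2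
    show g k * β ((m ^ 3 + k) / p) = β ((m ^ 3 + k) / p) * g ((p : ℤ) * ((m ^ 3 + k) / p) - m ^ 3)
    rw [h4, add_sub_cancel_left, mul_comm]

private theorem vsq_dual (K M M' : ℕ) (PP : Finset ℕ) (g β : ℤ → ℝ) (B : Finset ℤ)
    (hp : ∀ p ∈ PP, 0 < p)
    (hB : ∀ m ∈ Ioc (M : ℤ) M', ∀ p ∈ PP, ∀ b : ℤ, m ^ 3 < p * b → p * b ≤ m ^ 3 + K → b ∈ B) :
    ∑ k ∈ Icc (1 : ℤ) K, g k * Ff M M' PP β k =
      ∑ b ∈ B, β b * ∑ p ∈ PP, Gp K M M' g p b := by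
  have h1 : ∑ k ∈ Icc (1 : ℤ) K, g k * Ff M M' PP β k =
      ∑ m ∈ Ioc (M : ℤ) M', ∑ p ∈ PP, ∑ k ∈ Icc (1 : ℤ) K,
        g k * (if (p : ℤ) ∣ m ^ 3 + k then β ((m ^ 3 + k) / p) else 0) := by
    unfold Ff
    simp only [mul_sum]
    rw [sum_comm]
    refine sum_congr rfl fun m _ => ?_
    rw [sum_comm]
  have h2 : ∑ b ∈ B, β b * ∑ p ∈ PP, Gp K M M' g p b =
      ∑ m ∈ Ioc (M : ℤ) M', ∑ p ∈ PP, ∑ b ∈ B,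
        β b * (if 1 ≤ (p : ℤ) * b - m ^ 3 ∧ (p : ℤ) * b - m ^ 3 ≤ K then
          g ((p : ℤ) * b - m ^ 3) else 0) := by
    unfold Gp
    simp only [mul_sum]
    rw [sum_comm]
    have h3 : ∀ p ∈ PP, ∑ b ∈ B, ∑ m ∈ Ioc (M : ℤ) M',
        β b * (if 1 ≤ (p : ℤ) * b - m ^ 3 ∧ (p : ℤ) * b - m ^ 3 ≤ K then
          g ((p : ℤ) * b - m ^ 3) else 0) = ∑ m ∈ Ioc (M : ℤ) M', ∑ b ∈ B,
        β b * (if 1 ≤ (p : ℤ) * b - m ^ 3 ∧ (p : ℤ) * b - m ^ 3 ≤ K then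
          g ((p : ℤ) * b - m ^ 3) else 0) := fun p _ => sum_comm
    rw [sum_congr rfl h3, sum_comm]
  rw [h1, h2]
  exact sum_congr rfl fun m hm => sum_congr rfl fun p hpp =>
    vsq_one K p (hp p hpp) m g β B (hB m hm p hpp)

theorem vsq : ∃ (C : ℝ) (c : ℕ), 1 ≤ C ∧ ∀ (K M M' P N : ℕ) (T D S2 : ℝ) (PP : Finset ℕ)
    (β : ℤ → ℝ) (B : Finset ℤ), 1 ≤ M → M' ≤ 2 * M + 1 → 1 ≤ K → K ≤ 8 * M ^ 3 → 1 ≤ P →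
    40 * M ^ 3 ≤ N → 1 ≤ T → (∀ p ∈ PP, p.Prime ∧ P < p ∧ p ≤ 2 * P) →
    C * T ^ c * ((P : ℝ) ^ 5 * (M : ℝ) ^ 3) ≤ (K : ℝ) ^ 2 → C * T ^ c < P →
    4 * (P : ℝ) ^ 2 * (C * T ^ c) ≤ K → B ⊆ Icc (1 : ℤ) N →
    (∀ m ∈ Ioc (M : ℤ) M', ∀ p ∈ PP, ∀ b : ℤ, m ^ 3 < p * b → p * b ≤ m ^ 3 + K → b ∈ B) →
    ∑ b ∈ B, β b ^ 2 ≤ D → 0 ≤ S2 →
    (∀ q : ℕ, 1 ≤ q → (q : ℝ) ≤ C * T ^ c → ∀ (t : ℤ) (γ : ℝ), |γ - t / q| ≤ C * T ^ c / (q * K) →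
      ‖Fh K (Ff M M' PP β) γ‖ ^ 2 ≤ S2) →
    (VV K (Ff M M' PP β)) ^ 2 ≤
      D * ((8 * M * Real.log (40 * (M : ℝ) ^ 3) * (1 + (K : ℝ) / (M : ℝ) ^ 2) +
        3 * ((K : ℝ) * P / M) / Real.sqrt T + 3 * 10 ^ 6 * ((K : ℝ) / M) * (C * T ^ c) ^ 2) *
          VV K (Ff M M' PP β) + 3 * 10 ^ 5 * (C * T ^ c) ^ 2 * ((P : ℝ) / M) * S2) := by
  obtain ⟨C, c, hC, hs⟩ := sgm
  refine ⟨C, c, hC, ?_⟩
  intro K M M' P N T D S2 PP β B hM hM' hK hK8 hP hN hT hPP hPM hCP hPK hBN hBc hD hS0 hS2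
  have hQ0 : 1 ≤ C * T ^ c := one_le_mul_of_one_le_of_one_le hC (one_le_pow₀ hT)
  have hKN : K ≤ N := by omega
  have hM0 : (0 : ℝ) < M := by exact_mod_cast hM
  have hK0 : (0 : ℝ) < K := by exact_mod_cast hK
  have h1 := hs K M M' P N T PP (Ff M M' PP β) hM hM' hK hK8 hP hN hT hPP hPM
  have h2 := jb K P N (C * T ^ c) S2 PP (Ff M M' PP β) hP hK hKN hQ0 hCP hPK hPP hS0 hS2
  have h3 : VV K (Ff M M' PP β) =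
      ∑ b ∈ B, β b * ∑ p ∈ PP, Gp K M M' (Ff M M' PP β) p b := by
    rw [← vsq_dual K M M' PP (Ff M M' PP β) β B (fun p hp => (hPP p hp).1.pos) hBc]
    unfold VV
    exact sum_congr rfl fun k _ => sq _
  have h4 : (VV K (Ff M M' PP β)) ^ 2 ≤ (∑ b ∈ B, β b ^ 2) *
      ∑ b ∈ B, (∑ p ∈ PP, Gp K M M' (Ff M M' PP β) p b) ^ 2 := by
    nth_rewrite 1 [h3]
    exact sum_mul_sq_le_sq_mul_sq _ _ _
  have h5 : ∑ b ∈ B, (∑ p ∈ PP, Gp K M M' (Ff M M' PP β) p b) ^ 2 ≤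
      ∑ b ∈ Icc (1 : ℤ) N, (∑ p ∈ PP, Gp K M M' (Ff M M' PP β) p b) ^ 2 :=
    sum_le_sum_of_subset_of_nonneg hBN fun _ _ _ => sq_nonneg _
  have hD0 : 0 ≤ D := (sum_nonneg fun _ _ => sq_nonneg _).trans hD
  have h6 : 0 ≤ ∑ b ∈ B, (∑ p ∈ PP, Gp K M M' (Ff M M' PP β) p b) ^ 2 :=
    sum_nonneg fun _ _ => sq_nonneg _
  refine h4.trans ((mul_le_mul hD (h5.trans h1) h6 hD0).trans ?_)
  refine mul_le_mul_of_nonneg_left ?_ hD0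
  have h7 : 3000 * ((K : ℝ) / M) * ∑ p ∈ PP, Jp K (Ff M M' PP β) (C * T ^ c) P N p ≤
      3000 * ((K : ℝ) / M) * (1000 * (C * T ^ c) ^ 2 * VV K (Ff M M' PP β) +
        100 * (C * T ^ c) ^ 2 * (P / K) * S2) :=
    mul_le_mul_of_nonneg_left h2 (by positivity)
  have h8 : 3000 * ((K : ℝ) / M) * (1000 * (C * T ^ c) ^ 2 * VV K (Ff M M' PP β) +
        100 * (C * T ^ c) ^ 2 * (P / K) * S2) =
      3 * 10 ^ 6 * ((K : ℝ) / M) * (C * T ^ c) ^ 2 * VV K (Ff M M' PP β) +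
        3 * 10 ^ 5 * (C * T ^ c) ^ 2 * ((P : ℝ) / M) * S2 := by
    field_simp
    ring
  rw [h8] at h7
  linarith

end Pool.Agent.H96.EB
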