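import Pool.Agent.H96.EB.Defs

/-!
# H96/EB: definitions of chapters A and C

`g : ℤ → ℝ` is only used on `[1,K]`. `ee x = e(x)`.
-/

namespace Pool.Agent.H96.EB

open Finset Pool.Agent.H24.AB

/-- the exponential sum of `g` -/
noncomputable def Fh (K : ℕ) (g : ℤ → ℝ) (γ : ℝ) : ℂ := ∑ k ∈ Icc (1 : ℤ) K, (g k : ℂ) * ee (γ * k)

/-- the part `k ≡ a mod p` at the frequency `α/p` -/
noncomputable def Gc (K : ℕ) (g : ℤ → ℝ) (p a : ℕ) (α : ℝ) : ℂ :=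
  ∑ k ∈ (Icc (1 : ℤ) K).filter (fun k : ℤ => k % (p : ℤ) = (a : ℤ)),
    (g k : ℂ) * ee (α * ((k : ℝ) / p))

/-- the mean square over the classes -/
noncomputable def Aa (K : ℕ) (g : ℤ → ℝ) (p : ℕ) (α : ℝ) : ℝ := ∑ a ∈ range p, ‖Gc K g p a α‖ ^ 2

/-- the part `k ≡ -m^3 mod p` -/
noncomputable def Xk (K : ℕ) (g : ℤ → ℝ) (p : ℕ) (m : ℤ) (α : ℝ) : ℂ :=
  ∑ k ∈ (Icc (1 : ℤ) K).filter (fun k : ℤ => (p : ℤ) ∣ k + m ^ 3),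
    (g k : ℂ) * ee (α * ((k : ℝ) / p))

/-- the sum of `g (p b - m^3)` over `m` -/
noncomputable def Gp (K M M' : ℕ) (g : ℤ → ℝ) (p : ℕ) (b : ℤ) : ℝ :=
  ∑ m ∈ Ioc (M : ℤ) M', if 1 ≤ (p : ℤ) * b - m ^ 3 ∧ (p : ℤ) * b - m ^ 3 ≤ K then
    g ((p : ℤ) * b - m ^ 3) else 0

/-- the square of the norm of `g` -/
noncomputable def VV (K : ℕ) (g : ℤ → ℝ) : ℝ := ∑ k ∈ Icc (1 : ℤ) K, g k ^ 2

/-- the major set -/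
def MJ (Q0 P K : ℝ) : Set ℝ :=
  {α | ∃ q : ℕ, 1 ≤ q ∧ (q : ℝ) ≤ Q0 ∧ ∃ a : ℤ, |q * α - a| ≤ Q0 * P / K}

open Classical in
/-- the part of the major set in the mean of `Aa` over the fractions `j/N` -/
noncomputable def Jp (K : ℕ) (g : ℤ → ℝ) (Q0 P : ℝ) (N p : ℕ) : ℝ :=
  (1 / (N : ℝ)) * ∑ j ∈ (range N).filter (fun j => (j : ℝ) / N ∈ MJ Q0 P K), Aa K g p ((j : ℝ) / N)

/-- the sum of `β ((m^3+k)/p)` over `m` and the `p ∈ PP` dividing `m^3+k` -/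
noncomputable def Ff (M M' : ℕ) (PP : Finset ℕ) (β : ℤ → ℝ) (k : ℤ) : ℝ :=
  ∑ m ∈ Ioc (M : ℤ) M', ∑ p ∈ PP, if (p : ℤ) ∣ m ^ 3 + k then β ((m ^ 3 + k) / p) else 0

end Pool.Agent.H96.EB
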