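import Pool.Agent.H43.HY.Fz0
import Pool.Agent.H96.EB.Def2

/-!
# [H96 EB WNS] Windows of the primes minus the model

`β b = az Q b` for `b >= 1` (`b : ℤ`, `b.toNat`). PROOF. `l = log X`. `HY.fz` with `B := 25 k0 + 1`, `A := A' = A + 50 k0 + 3`, `ε := 1/12`; it gives `A1', X0'`. `A0 = A1' + 2`, `A1 >= A0`. The `s` with `M^3 < 2 P s`, `P s <= 36 M^3` lie in the 8 dyadic intervals `(N_i, 2N_i]`, `N_i = 2^i M^3/(2P)`, `i < 8` (`2^8/2 >= 72`).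
For `N = N_i`: `X/(16P) <= M^3/(2P) <= N <= 64 M^3/P`, and `M <= X` (`M^2 <= X P`, `P^5 M^3 <= X^2`: `M^5 <= M^2 * M^3 <= X P * X^2`... any crude bound: `M^3 <= X^2`), so `N <= 64 X^2`, and `N >= X^(1/2)` for `X` large (`P^5 M^3 <= X^2`, `X <= 8 M^3` give `P <= 2 X^(1/5)`, `N >= X/(16P)`);
hence `l/2 <= log N <= 3 l`. `Q <= l^(25k0) <= (log N)^(25k0+1)`. `N^(1/4) <= 3 M^(3/4) <= H`: `(X/P)^2 >= P^3 M^3`, so `X/P >= M^(3/2)` and `H >= (X/P) l^(-A1-1) >= 3 M^(3/4)` for `X` large. `H <= (X/P) l^(-A1) <= 16 N l^(-A1'-2) <= N (log N)^(-A1')` (`log N <= 3l`, `16 * 3^A1' l^(-2) <= 1`).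
So for each residue `r < q <= Q`: `Σ_{n ∈ (N,2N]} (Σ_{b ∈ (n,n+H], b % q = r} az Q b)^2 <= N H^2 (log N)^(-A') <= 64 (M^3/P) H^2 (l/2)^(-A')`. `(Σ_{r<q} |x_r|)^2 <= q Σ x_r^2`, `q <= Q <= l^(25k0)`: the sum over `s` of the squares is
`<= 8 q^2 * 64 (M^3/P) H^2 2^A' l^(-A') <= (M^3/P) H^2 l^(-A)` for `X` large.
(Conversion: `Ioc s (s+H)` in `ℤ` with `s >= 1` against `Ioc n (n+H)` in `ℕ`, `n = s.toNat`.)
-/

namespace Pool.Agent.H96.EB

open Finset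

/-- `az Q` on the integers -/
noncomputable def bz (Q : ℕ) (b : ℤ) : ℝ := H43.HY.az Q b.toNat

private theorem wns_conv (Q q r H n : ℕ) :
    ∑ b ∈ (Ioc (n : ℤ) (n + H)).filter (fun b : ℤ => b % (q : ℤ) = (r : ℤ)), bz Q b =
      ∑ m ∈ (Ioc n (n + H)).filter (fun m => m % q = r), H43.HY.az Q m := by
  symm
  refine sum_bij (fun m _ => (m : ℤ)) ?_ ?_ ?_ ?_
  · intro m hm
    simp only [mem_filter, mem_Ioc] at hm ⊢
    refine ⟨⟨by exact_mod_cast hm.1.1, by exact_mod_cast hm.1.2⟩, ?_⟩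
    exact_mod_cast hm.2
  · intro a _ b _ h
    exact_mod_cast h
  · intro b hb
    simp only [mem_filter, mem_Ioc] at hb
    have hb0 : 0 ≤ b := by
      have := hb.1.1
      omega
    obtain ⟨m, rfl⟩ := Int.eq_ofNat_of_zero_le hb0
    refine ⟨m, ?_, rfl⟩
    simp only [mem_filter, mem_Ioc]
    refine ⟨⟨by exact_mod_cast hb.1.1, by exact_mod_cast hb.1.2⟩, ?_⟩
    exact_mod_cast hb.2
  · intro m _
    unfold bz
    simp

/-- the square of the sum of the windows, for natural numbers -/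
private noncomputable def wf (Q q H n : ℕ) : ℝ :=
  (∑ r ∈ range q, |∑ m ∈ (Ioc n (n + H)).filter (fun m => m % q = r), H43.HY.az Q m|) ^ 2

private theorem wf_nonneg (Q q H n : ℕ) : 0 ≤ wf Q q H n := sq_nonneg _

private theorem wf_le (Q q H n : ℕ) : wf Q q H n ≤ q * ∑ r ∈ range q,
    (∑ m ∈ (Ioc n (n + H)).filter (fun m => m % q = r), H43.HY.az Q m) ^ 2 := by
  unfold wf
  have h := sq_sum_le_card_mul_sum_sq (s := range q)
    (f := fun r => |∑ m ∈ (Ioc n (n + H)).filter (fun m => m % q = r), H43.HY.az Q m|)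
  rw [card_range] at h
  refine h.trans (le_of_eq ?_)
  congr 1
  refine sum_congr rfl fun r _ => ?_
  rw [sq_abs]

/-- a set covered by dyadic intervals -/
private theorem wns_cover (S : Finset ℤ) (f : ℕ → ℝ) (hf : ∀ n, 0 ≤ f n) (T : ℕ → Finset ℕ)
    (hS0 : ∀ s ∈ S, 0 ≤ s) (hS : ∀ s ∈ S, ∃ i < 8, s.toNat ∈ T i) :
    ∑ s ∈ S, f s.toNat ≤ ∑ i ∈ range 8, ∑ n ∈ T i, f n := by
  classical
  have h1 : ∑ s ∈ S, f s.toNat = ∑ n ∈ S.image Int.toNat, f n := by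
    rw [sum_image]
    intro a ha b hb hab
    have ha0 := hS0 a ha
    have hb0 := hS0 b hb
    have := Int.toNat_of_nonneg ha0
    have := Int.toNat_of_nonneg hb0
    omega
  rw [h1]
  calc ∑ n ∈ S.image Int.toNat, f n
      ≤ ∑ n ∈ S.image Int.toNat, ∑ i ∈ range 8, (if n ∈ T i then f n else 0) := by
        refine sum_le_sum fun n hn => ?_
        rw [mem_image] at hn
        obtain ⟨s, hs, rfl⟩ := hn
        obtain ⟨i, hi, hiT⟩ := hS s hs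
        have h2 : (if s.toNat ∈ T i then f s.toNat else 0) = f s.toNat := if_pos hiT
        have h3 := single_le_sum (s := range 8)
          (f := fun i => if s.toNat ∈ T i then f s.toNat else 0) (fun j _ => by
            show (0 : ℝ) ≤ if s.toNat ∈ T j then f s.toNat else 0
            split_ifs
            · exact hf _
            · exact le_rfl) (mem_range.2 hi)
        exact h2.symm.le.trans h3
    _ = ∑ i ∈ range 8, ∑ n ∈ S.image Int.toNat, (if n ∈ T i then f n else 0) := sum_comm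
    _ ≤ ∑ i ∈ range 8, ∑ n ∈ T i, f n := by
        refine sum_le_sum fun i _ => ?_
        rw [← sum_filter]
        refine sum_le_sum_of_subset_of_nonneg ?_ fun _ _ _ => hf _
        intro n hn
        exact (mem_filter.1 hn).2

theorem wns (hfzs : H43.HY.FzS) (A : ℝ) (k0 : ℕ) (hA : 0 < A) : ∃ A0 : ℝ, 0 < A0 ∧ ∀ A1 : ℝ, A0 ≤ A1 →
    ∃ X0 : ℕ, ∀ X : ℕ, X0 ≤ X →
    ∀ Q M P q H : ℕ, (Q : ℝ) ≤ (Real.log X) ^ (25 * k0) → X ≤ 8 * M ^ 3 → 1 ≤ P →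
    (M : ℝ) ^ 2 ≤ P * X → (P : ℝ) ^ 5 * (M : ℝ) ^ 3 ≤ (X : ℝ) ^ 2 → 1 ≤ q → q ≤ Q →
    (X : ℝ) / P * (Real.log X) ^ (-(A1 + 1)) ≤ H → (H : ℝ) ≤ (X : ℝ) / P * (Real.log X) ^ (-A1) →
    ∑ s ∈ (Icc (1 : ℤ) (40 * M ^ 3)).filter (fun s => (M : ℤ) ^ 3 < 2 * P * s ∧ P * s ≤ 36 * M ^ 3),
      (∑ r ∈ range q, |∑ b ∈ (Ioc s (s + H)).filter
        (fun b : ℤ => b % (q : ℤ) = (r : ℤ)), bz Q b|) ^ 2 ≤
      (Real.log X) ^ (-A) * ((M : ℝ) ^ 3 / P) * (H : ℝ) ^ 2 := by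
  obtain ⟨A', hA'⟩ : ∃ A' : ℝ, A' = A + 50 * k0 + 3 := ⟨_, rfl⟩
  have hA'0 : 0 < A' := by rw [hA']; positivity
  obtain ⟨a1, x0, ha1, hx0, hfz⟩ := hfzs (25 * k0 + 1) A' (1 / 12) (by positivity) hA'0
    (by norm_num)
  refine ⟨a1 + 2, by linarith, fun A1 hA1 => ?_⟩
  have hA1pos : 0 < A1 := by linarith
  -- eventual conditions
  have hlim : Filter.Tendsto (fun X : ℝ => Real.log X) Filter.atTop Filter.atTop :=
    Real.tendsto_log_atTop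
  have ev1 : ∀ᶠ X : ℝ in Filter.atTop, 2 ^ (25 * k0 + 1) + 16 * 3 ^ a1 + 512 * 2 ^ A' + 64 ≤
      Real.log X := hlim.eventually_ge_atTop _
  have ev2 : ∀ᶠ X : ℝ in Filter.atTop, max x0 1 ≤ X ^ (1 / 2 : ℝ) :=
    (tendsto_rpow_atTop (by norm_num : (0 : ℝ) < 1 / 2)).eventually_ge_atTop _
  have ev3 : ∀ᶠ X : ℝ in Filter.atTop, 32 ≤ X ^ (3 / 10 : ℝ) :=
    (tendsto_rpow_atTop (by norm_num : (0 : ℝ) < 3 / 10)).eventually_ge_atTop _
  have ev4 : ∀ᶠ X : ℝ in Filter.atTop, 512 * (Real.log X) ^ (4 * (A1 + 1)) ≤ X := by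
    have h1 := (isLittleO_log_rpow_rpow_atTop (4 * (A1 + 1)) (by norm_num : (0 : ℝ) < 1)).bound
      (by norm_num : (0 : ℝ) < 1 / 512)
    filter_upwards [h1, Filter.eventually_ge_atTop 1] with X hX hX1
    rw [Real.norm_of_nonneg (Real.rpow_nonneg (Real.log_nonneg hX1) _), Real.rpow_one,
      Real.norm_of_nonneg (by linarith : (0 : ℝ) ≤ X)] at hX
    linarith
  obtain ⟨X0, hX0⟩ := Filter.eventually_atTop.1 (ev1.and (ev2.and (ev3.and ev4)))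
  refine ⟨max ⌈X0⌉₊ 64, fun X hX Q M P q H hQ hXM hP hMX hPM hq hqQ hH1 hH2 => ?_⟩
  have hXX0 : X0 ≤ (X : ℝ) := by
    have h1 : ⌈X0⌉₊ ≤ X := (le_max_left _ _).trans hX
    exact (Nat.le_ceil _).trans (by exact_mod_cast h1)
  have hX64 : (64 : ℝ) ≤ X := by
    have h1 : 64 ≤ X := (le_max_right _ _).trans hX
    exact_mod_cast h1
  obtain ⟨e1, e2, e3, e4⟩ := hX0 X hXX0
  obtain ⟨l, hl⟩ : ∃ l : ℝ, l = Real.log X := ⟨_, rfl⟩
  rw [← hl] at hQ hH1 hH2 e1 e4 ⊢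
  have hp1 : (1 : ℝ) ≤ 2 ^ (25 * k0 + 1) := one_le_pow₀ (by norm_num)
  have hp2 : (0 : ℝ) < 3 ^ a1 := Real.rpow_pos_of_pos (by norm_num) _
  have hp3 : (0 : ℝ) < 2 ^ A' := Real.rpow_pos_of_pos (by norm_num) _
  have hl64 : 64 ≤ l := by linarith
  have hl1 : 1 ≤ l := by linarith
  have hl0 : 0 < l := by linarith
  have hX0' : (0 : ℝ) < X := by linarith
  have hM1 : 1 ≤ M := by
    rcases Nat.eq_zero_or_pos M with h | h
    · subst h
      have h2 : (X : ℝ) ≤ 0 := by exact_mod_cast (by simpa using hXM : X ≤ 0)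
      linarith
    · exact h
  have hMr : (1 : ℝ) ≤ M := by exact_mod_cast hM1
  have hPr : (1 : ℝ) ≤ P := by exact_mod_cast hP
  have hP0 : (0 : ℝ) < P := by linarith
  have hM0 : (0 : ℝ) < M := by linarith
  have hXM' : (X : ℝ) ≤ 8 * (M : ℝ) ^ 3 := by exact_mod_cast hXM
  have hM3X : (M : ℝ) ^ 3 ≤ (X : ℝ) ^ 2 := by
    refine le_trans ?_ hPM
    exact le_mul_of_one_le_left (by positivity) (one_le_pow₀ hPr)
  -- `P <= 2 X^(1/5)`
  have hP5 : (P : ℝ) ^ 5 ≤ 8 * X := by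
    have h1 : (P : ℝ) ^ 5 * X ≤ 8 * (X : ℝ) ^ 2 := by
      calc (P : ℝ) ^ 5 * X ≤ (P : ℝ) ^ 5 * (8 * (M : ℝ) ^ 3) :=
            mul_le_mul_of_nonneg_left hXM' (by positivity)
        _ = 8 * ((P : ℝ) ^ 5 * (M : ℝ) ^ 3) := by ring
        _ ≤ 8 * (X : ℝ) ^ 2 := by linarith
    have h2 : (P : ℝ) ^ 5 * X ≤ (8 * X) * X := by
      rw [show (8 * (X : ℝ)) * X = 8 * (X : ℝ) ^ 2 by ring]
      exact h1
    exact le_of_mul_le_mul_right h2 hX0'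
  have hPX : (P : ℝ) ≤ 2 * (X : ℝ) ^ (1 / 5 : ℝ) := by
    have h1 : ((X : ℝ) ^ (1 / 5 : ℝ)) ^ 5 = X := by
      rw [← Real.rpow_natCast, ← Real.rpow_mul hX0'.le]
      norm_num
    have h2 : (P : ℝ) ^ 5 ≤ (2 * (X : ℝ) ^ (1 / 5 : ℝ)) ^ 5 := by
      rw [mul_pow, h1]
      have h3 : (2 : ℝ) ^ 5 = 32 := by norm_num
      rw [h3]
      linarith
    exact le_of_pow_le_pow_left₀ (by norm_num) (by positivity) h2
  -- the dyadic points
  obtain ⟨N0, hN0⟩ : ∃ N0 : ℝ, N0 = (M : ℝ) ^ 3 / (2 * P) := ⟨_, rfl⟩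
  have hN0pos : 0 < N0 := by rw [hN0]; positivity
  have hN0X : (X : ℝ) / (16 * P) ≤ N0 := by
    rw [hN0, div_le_div_iff₀ (by positivity) (by positivity)]
    have g1 := mul_le_mul_of_nonneg_right hXM' (by positivity : (0 : ℝ) ≤ 2 * (P : ℝ))
    linarith
  have hXP : (X : ℝ) / P ≤ 16 * N0 := by
    have h1 : (X : ℝ) / (16 * P) = (X / P) / 16 := by
      field_simp
    rw [h1] at hN0X
    linarith
  have hN0lo : (X : ℝ) ^ (1 / 2 : ℝ) ≤ N0 := by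
    refine le_trans ?_ hN0X
    rw [le_div_iff₀ (by positivity)]
    have h1 : (X : ℝ) = (X : ℝ) ^ (1 / 2 : ℝ) * ((X : ℝ) ^ (1 / 5 : ℝ) * (X : ℝ) ^ (3 / 10 : ℝ)) := by
      rw [← Real.rpow_add hX0', ← Real.rpow_add hX0']
      norm_num
    have h2 : 0 < (X : ℝ) ^ (1 / 2 : ℝ) := Real.rpow_pos_of_pos hX0' _
    have h3 : 0 < (X : ℝ) ^ (1 / 5 : ℝ) := Real.rpow_pos_of_pos hX0' _
    calc (X : ℝ) ^ (1 / 2 : ℝ) * (16 * P)
        ≤ (X : ℝ) ^ (1 / 2 : ℝ) * (16 * (2 * (X : ℝ) ^ (1 / 5 : ℝ))) := by gcongr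
      _ = (X : ℝ) ^ (1 / 2 : ℝ) * ((X : ℝ) ^ (1 / 5 : ℝ) * 32) := by ring
      _ ≤ (X : ℝ) ^ (1 / 2 : ℝ) * ((X : ℝ) ^ (1 / 5 : ℝ) * (X : ℝ) ^ (3 / 10 : ℝ)) := by gcongr
      _ = X := h1.symm
  have hqr : (q : ℝ) ≤ l ^ (25 * k0) := by
    have : (q : ℝ) ≤ Q := by exact_mod_cast hqQ
    linarith
  have hq1 : (1 : ℝ) ≤ q := by exact_mod_cast hq
  -- one dyadic interval
  have hone : ∀ i ∈ range 8, ∑ n ∈ Ioc ⌊2 ^ i * N0⌋₊ ⌊2 * (2 ^ i * N0)⌋₊, wf Q q H n ≤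
      (l ^ (25 * k0)) ^ 2 * (64 * ((M : ℝ) ^ 3 / P) * (H : ℝ) ^ 2 * ((l / 2) ^ (-A'))) := by
    intro i hi
    rw [mem_range] at hi
    obtain ⟨N, hN⟩ : ∃ N : ℝ, N = 2 ^ i * N0 := ⟨_, rfl⟩
    rw [← hN]
    have h2i : (1 : ℝ) ≤ 2 ^ i := one_le_pow₀ (by norm_num)
    have h2i' : (2 : ℝ) ^ i ≤ 128 := by
      have h1 : (2 : ℝ) ^ i ≤ 2 ^ 7 := pow_le_pow_right₀ (by norm_num) (by omega)
      linarith
    have hNN0 : N0 ≤ N := by
      rw [hN]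
      exact le_mul_of_one_le_left hN0pos.le h2i
    have hNup : N ≤ 64 * ((M : ℝ) ^ 3 / P) := by
      rw [hN]
      have h1 : N0 = ((M : ℝ) ^ 3 / P) / 2 := by rw [hN0]; field_simp
      have h2 : 0 < (M : ℝ) ^ 3 / P := by positivity
      rw [h1]
      have h3 := mul_le_mul_of_nonneg_right h2i' h2.le
      linarith
    have hNlo : (X : ℝ) ^ (1 / 2 : ℝ) ≤ N := hN0lo.trans hNN0
    have hNx0 : x0 ≤ N := ((le_max_left _ _).trans e2).trans hNlo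
    have hN1 : 1 ≤ N := ((le_max_right _ _).trans e2).trans hNlo
    have hNpos : 0 < N := by linarith
    have hlogN1 : l / 2 ≤ Real.log N := by
      have h1 := Real.log_le_log (Real.rpow_pos_of_pos hX0' _) hNlo
      rw [Real.log_rpow hX0', ← hl] at h1
      linarith
    have hlogN2 : Real.log N ≤ 3 * l := by
      have h1 : N ≤ (X : ℝ) ^ 3 := by
        have h2 : (M : ℝ) ^ 3 / P ≤ (M : ℝ) ^ 3 := div_le_self (by positivity) hPr
        calc N ≤ 64 * ((M : ℝ) ^ 3 / P) := hNup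
          _ ≤ 64 * (X : ℝ) ^ 2 := by linarith
          _ ≤ X * (X : ℝ) ^ 2 := mul_le_mul_of_nonneg_right (by linarith) (by positivity)
          _ = (X : ℝ) ^ 3 := by ring
      have h3 := Real.log_le_log hNpos h1
      rw [Real.log_pow, ← hl] at h3
      push_cast at h3
      exact h3
    have hlogN0 : 0 < Real.log N := by linarith
    have hQN : (Q : ℝ) ≤ (Real.log N) ^ ((25 : ℝ) * k0 + 1) := by
      refine hQ.trans ?_
      have h1 : (l / 2) ^ ((25 : ℝ) * k0 + 1) ≤ (Real.log N) ^ ((25 : ℝ) * k0 + 1) :=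
        Real.rpow_le_rpow (by linarith) hlogN1 (by positivity)
      refine le_trans ?_ h1
      have h2 : (l / 2) ^ ((25 : ℝ) * k0 + 1) = (l / 2) ^ (25 * k0 + 1) := by
        rw [← Real.rpow_natCast]
        push_cast
        rfl
      rw [h2, div_pow, le_div_iff₀ (by positivity), pow_succ l]
      have h3 : 0 < l ^ (25 * k0) := by positivity
      have h4 : (2 : ℝ) ^ (25 * k0 + 1) ≤ l := by linarith
      exact mul_le_mul_of_nonneg_left h4 h3.le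
    have hHN1 : N ^ ((1 : ℝ) / 6 + 1 / 12) ≤ H := by
      have h1 : (1 : ℝ) / 6 + 1 / 12 = 1 / 4 := by norm_num
      rw [h1]
      have hHpos : 0 < (X : ℝ) / P * l ^ (-(A1 + 1)) := by positivity
      have h2 : N ≤ (H : ℝ) ^ 4 := by
        have h3 : ((X : ℝ) / P * l ^ (-(A1 + 1))) ^ 4 ≤ (H : ℝ) ^ 4 :=
          pow_le_pow_left₀ hHpos.le hH1 4
        refine le_trans ?_ h3
        have h4 : (P : ℝ) ^ 3 * (M : ℝ) ^ 3 ≤ ((X : ℝ) / P) ^ 2 := by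
          rw [div_pow, le_div_iff₀ (by positivity)]
          have g1 : (P : ℝ) ^ 3 * (M : ℝ) ^ 3 * (P : ℝ) ^ 2 = (P : ℝ) ^ 5 * (M : ℝ) ^ 3 := by ring
          rw [g1]
          exact hPM
        have h5 : ((P : ℝ) ^ 3 * (M : ℝ) ^ 3) ^ 2 ≤ (((X : ℝ) / P) ^ 2) ^ 2 :=
          pow_le_pow_left₀ (by positivity) h4 2
        have h6 : (M : ℝ) ^ 3 * (M : ℝ) ^ 3 ≤ ((X : ℝ) / P) ^ 4 := by
          have h7 : (M : ℝ) ^ 3 * (M : ℝ) ^ 3 ≤ ((P : ℝ) ^ 3 * (M : ℝ) ^ 3) ^ 2 := by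
            have h8 : (1 : ℝ) ≤ (P : ℝ) ^ 3 := one_le_pow₀ hPr
            have h9 : (M : ℝ) ^ 3 ≤ (P : ℝ) ^ 3 * (M : ℝ) ^ 3 :=
              le_mul_of_one_le_left (by positivity) h8
            calc (M : ℝ) ^ 3 * (M : ℝ) ^ 3
                ≤ ((P : ℝ) ^ 3 * (M : ℝ) ^ 3) * ((P : ℝ) ^ 3 * (M : ℝ) ^ 3) :=
                  mul_le_mul h9 h9 (by positivity) (by positivity)
              _ = ((P : ℝ) ^ 3 * (M : ℝ) ^ 3) ^ 2 := by ring
          calc (M : ℝ) ^ 3 * (M : ℝ) ^ 3 ≤ ((P : ℝ) ^ 3 * (M : ℝ) ^ 3) ^ 2 := h7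
            _ ≤ (((X : ℝ) / P) ^ 2) ^ 2 := h5
            _ = ((X : ℝ) / P) ^ 4 := by ring
        have h10 : (l ^ (-(A1 + 1))) ^ 4 * l ^ (4 * (A1 + 1)) = 1 := by
          rw [← Real.rpow_natCast (l ^ (-(A1 + 1))) 4, ← Real.rpow_mul hl0.le, ← Real.rpow_add hl0]
          have h11 : -(A1 + 1) * ((4 : ℕ) : ℝ) + 4 * (A1 + 1) = 0 := by push_cast; ring
          rw [h11, Real.rpow_zero]
        have hl4 : 0 < l ^ (4 * (A1 + 1)) := Real.rpow_pos_of_pos hl0 _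
        have h12 : 64 * l ^ (4 * (A1 + 1)) ≤ (M : ℝ) ^ 3 := by linarith
        have h13 : N ≤ 64 * (M : ℝ) ^ 3 := by
          refine hNup.trans ?_
          have h2' : (M : ℝ) ^ 3 / P ≤ (M : ℝ) ^ 3 := div_le_self (by positivity) hPr
          linarith
        have h14 : 0 < (l ^ (-(A1 + 1))) ^ 4 := by positivity
        rw [mul_pow]
        calc N ≤ 64 * (M : ℝ) ^ 3 := h13
          _ = 64 * (M : ℝ) ^ 3 * ((l ^ (-(A1 + 1))) ^ 4 * l ^ (4 * (A1 + 1))) := by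
              rw [h10, mul_one]
          _ = ((M : ℝ) ^ 3 * (l ^ (-(A1 + 1))) ^ 4) * (64 * l ^ (4 * (A1 + 1))) := by ring
          _ ≤ ((M : ℝ) ^ 3 * (l ^ (-(A1 + 1))) ^ 4) * (M : ℝ) ^ 3 :=
              mul_le_mul_of_nonneg_left h12 (by positivity)
          _ = ((M : ℝ) ^ 3 * (M : ℝ) ^ 3) * (l ^ (-(A1 + 1))) ^ 4 := by ring
          _ ≤ ((X : ℝ) / P) ^ 4 * (l ^ (-(A1 + 1))) ^ 4 :=
              mul_le_mul_of_nonneg_right h6 h14.le
      have h15 : N ^ (1 / 4 : ℝ) ≤ ((H : ℝ) ^ 4) ^ (1 / 4 : ℝ) :=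
        Real.rpow_le_rpow hNpos.le h2 (by norm_num)
      refine h15.trans (le_of_eq ?_)
      rw [← Real.rpow_natCast (H : ℝ) 4, ← Real.rpow_mul (Nat.cast_nonneg H)]
      norm_num
    have hHN2 : (H : ℝ) ≤ N * (Real.log N) ^ (-a1) := by
      have h1 : (3 * l) ^ (-a1) ≤ (Real.log N) ^ (-a1) :=
        Real.rpow_le_rpow_of_nonpos hlogN0 hlogN2 (by linarith)
      have h2 : (H : ℝ) ≤ 16 * N0 * l ^ (-(a1 + 2)) := by
        refine hH2.trans ?_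
        have h3 : l ^ (-A1) ≤ l ^ (-(a1 + 2)) :=
          Real.rpow_le_rpow_of_exponent_le hl1 (by linarith)
        exact mul_le_mul hXP h3 (Real.rpow_nonneg hl0.le _) (by positivity)
      have h4 : l ^ (-(a1 + 2)) = l ^ (-a1) / l ^ 2 := by
        have : -(a1 + 2) = -a1 - (2 : ℕ) := by push_cast; ring
        rw [this, Real.rpow_sub hl0, Real.rpow_natCast]
      have h5 : (3 * l) ^ (-a1) = l ^ (-a1) / 3 ^ a1 := by
        rw [Real.mul_rpow (by norm_num) hl0.le, Real.rpow_neg (by norm_num : (0 : ℝ) ≤ 3)]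
        field_simp
      have h6 : 16 * 3 ^ a1 ≤ l ^ 2 := by
        have : 16 * (3 : ℝ) ^ a1 ≤ l := by linarith
        have g1 : l * 1 ≤ l * l := mul_le_mul_of_nonneg_left hl1 hl0.le
        rw [sq]
        linarith
      have h7 : 0 < l ^ (-a1) := Real.rpow_pos_of_pos hl0 _
      have h8 : 16 * l ^ (-(a1 + 2)) ≤ (3 * l) ^ (-a1) := by
        rw [h4, h5, ← mul_div_assoc, div_le_div_iff₀ (by positivity) hp2]
        have g1 := mul_le_mul_of_nonneg_left h6 h7.le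
        linarith
      calc (H : ℝ) ≤ 16 * N0 * l ^ (-(a1 + 2)) := h2
        _ = N0 * (16 * l ^ (-(a1 + 2))) := by ring
        _ ≤ N0 * (Real.log N) ^ (-a1) := mul_le_mul_of_nonneg_left (h8.trans h1) hN0pos.le
        _ ≤ N * (Real.log N) ^ (-a1) :=
            mul_le_mul_of_nonneg_right hNN0 (Real.rpow_nonneg hlogN0.le _)
    have hres : ∀ r ∈ range q, ∑ n ∈ Ioc ⌊N⌋₊ ⌊2 * N⌋₊,
        (∑ m ∈ (Ioc n (n + H)).filter (fun m => m % q = r), H43.HY.az Q m) ^ 2 ≤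
        64 * ((M : ℝ) ^ 3 / P) * (H : ℝ) ^ 2 * ((l / 2) ^ (-A')) := by
      intro r hr
      rw [mem_range] at hr
      refine (hfz N hNx0 Q q r hQN hq hqQ hr H hHN1 hHN2).trans ?_
      have h1 : (Real.log N) ^ (-A') ≤ (l / 2) ^ (-A') :=
        Real.rpow_le_rpow_of_nonpos (by linarith) hlogN1 (by linarith)
      have h2 : 0 ≤ (Real.log N) ^ (-A') := Real.rpow_nonneg hlogN0.le _
      exact mul_le_mul (mul_le_mul_of_nonneg_right hNup (by positivity)) h1 h2 (by positivity)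
    calc ∑ n ∈ Ioc ⌊N⌋₊ ⌊2 * N⌋₊, wf Q q H n
        ≤ ∑ n ∈ Ioc ⌊N⌋₊ ⌊2 * N⌋₊, (q : ℝ) * ∑ r ∈ range q,
          (∑ m ∈ (Ioc n (n + H)).filter (fun m => m % q = r), H43.HY.az Q m) ^ 2 :=
          sum_le_sum fun n _ => wf_le Q q H n
      _ = (q : ℝ) * ∑ r ∈ range q, ∑ n ∈ Ioc ⌊N⌋₊ ⌊2 * N⌋₊,
          (∑ m ∈ (Ioc n (n + H)).filter (fun m => m % q = r), H43.HY.az Q m) ^ 2 := by
          rw [← mul_sum, sum_comm]
      _ ≤ (q : ℝ) * ∑ r ∈ range q, 64 * ((M : ℝ) ^ 3 / P) * (H : ℝ) ^ 2 * ((l / 2) ^ (-A')) :=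
          mul_le_mul_of_nonneg_left (sum_le_sum hres) (by linarith)
      _ = (q : ℝ) ^ 2 * (64 * ((M : ℝ) ^ 3 / P) * (H : ℝ) ^ 2 * ((l / 2) ^ (-A'))) := by
          rw [sum_const, card_range, nsmul_eq_mul]
          ring
      _ ≤ _ := by
          refine mul_le_mul_of_nonneg_right (pow_le_pow_left₀ (by linarith) hqr 2) ?_
          have : 0 < (l / 2) ^ (-A') := Real.rpow_pos_of_pos (by linarith) _
          positivity
  -- the sum over the integers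
  have hsum : ∑ s ∈ (Icc (1 : ℤ) (40 * M ^ 3)).filter
      (fun s => (M : ℤ) ^ 3 < 2 * P * s ∧ P * s ≤ 36 * M ^ 3),
      (∑ r ∈ range q, |∑ b ∈ (Ioc s (s + H)).filter
        (fun b : ℤ => b % (q : ℤ) = (r : ℤ)), bz Q b|) ^ 2 ≤
      ∑ i ∈ range 8, ∑ n ∈ Ioc ⌊2 ^ i * N0⌋₊ ⌊2 * (2 ^ i * N0)⌋₊, wf Q q H n := by
    refine le_trans (le_of_eq ?_) (wns_cover ((Icc (1 : ℤ) (40 * M ^ 3)).filter
      (fun s => (M : ℤ) ^ 3 < 2 * P * s ∧ P * s ≤ 36 * M ^ 3)) (wf Q q H) (wf_nonneg Q q H)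
      (fun i => Ioc ⌊2 ^ i * N0⌋₊ ⌊2 * (2 ^ i * N0)⌋₊) ?_ ?_)
    · refine sum_congr rfl fun s hs => ?_
      rw [mem_filter, mem_Icc] at hs
      obtain ⟨n, rfl⟩ := Int.eq_ofNat_of_zero_le (by omega : 0 ≤ s)
      unfold wf
      congr 1
      refine sum_congr rfl fun r _ => ?_
      rw [wns_conv]
      simp
    · intro s hs
      rw [mem_filter, mem_Icc] at hs
      omega
    · intro s hs
      rw [mem_filter, mem_Icc] at hs
      obtain ⟨n, rfl⟩ := Int.eq_ofNat_of_zero_le (by omega : 0 ≤ s)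
      obtain ⟨-, hs1, hs2⟩ := hs
      have hs1' : (M : ℝ) ^ 3 < 2 * P * n := by exact_mod_cast hs1
      have hs2' : (P : ℝ) * n ≤ 36 * (M : ℝ) ^ 3 := by exact_mod_cast hs2
      have hn0 : N0 < n := by
        rw [hN0, div_lt_iff₀ (by positivity)]
        linarith
      have hn1 : (n : ℝ) ≤ 128 * N0 := by
        rw [hN0, ← mul_div_assoc, le_div_iff₀ (by positivity)]
        have : 0 < (M : ℝ) ^ 3 := by positivity
        linarith
      simp only [Int.ofNat_eq_natCast, Int.toNat_natCast, mem_Ioc]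
      have hcase : ∀ i : ℕ, 2 ^ i * N0 < n → (n : ℝ) ≤ 2 * (2 ^ i * N0) →
          ⌊2 ^ i * N0⌋₊ < n ∧ n ≤ ⌊2 * (2 ^ i * N0)⌋₊ := by
        intro i h1 h2
        refine ⟨?_, ?_⟩
        · exact (Nat.floor_lt (by positivity)).2 h1
        · exact Nat.le_floor h2
      by_cases c0 : (n : ℝ) ≤ 2 * N0
      · exact ⟨0, by norm_num, hcase 0 (by linarith) (by linarith)⟩
      by_cases c1 : (n : ℝ) ≤ 4 * N0
      · exact ⟨1, by norm_num, hcase 1 (by linarith) (by linarith)⟩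
      by_cases c2 : (n : ℝ) ≤ 8 * N0
      · exact ⟨2, by norm_num, hcase 2 (by linarith) (by linarith)⟩
      by_cases c3 : (n : ℝ) ≤ 16 * N0
      · exact ⟨3, by norm_num, hcase 3 (by linarith) (by linarith)⟩
      by_cases c4 : (n : ℝ) ≤ 32 * N0
      · exact ⟨4, by norm_num, hcase 4 (by linarith) (by linarith)⟩
      by_cases c5 : (n : ℝ) ≤ 64 * N0
      · exact ⟨5, by norm_num, hcase 5 (by linarith) (by linarith)⟩
      · exact ⟨6, by norm_num, hcase 6 (by linarith) (by linarith)⟩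
  refine hsum.trans ((sum_le_sum hone).trans ?_)
  rw [sum_const, card_range, nsmul_eq_mul]
  have h1 : (l / 2) ^ (-A') = l ^ (-A') * 2 ^ A' := by
    rw [Real.div_rpow hl0.le (by norm_num), Real.rpow_neg (by norm_num : (0 : ℝ) ≤ 2), div_inv_eq_mul]
  have h2 : l ^ (-A') = l ^ (-A) / ((l ^ (25 * k0)) ^ 2 * l ^ 3) := by
    have h3 : -A' = -A - ((25 * k0 * 2 + 3 : ℕ) : ℝ) := by
      rw [hA']
      push_cast
      ring
    rw [h3, Real.rpow_sub hl0, Real.rpow_natCast, pow_add, pow_mul l (25 * k0) 2]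
  have h4 : 512 * 2 ^ A' ≤ l ^ 3 := by
    have h5 : 512 * (2 : ℝ) ^ A' ≤ l := by linarith
    have h6 : l ≤ l ^ 3 := le_self_pow₀ hl1 (by norm_num)
    linarith
  have h7 : 0 < l ^ (25 * k0) := by positivity
  have h8 : 0 < l ^ (-A) := Real.rpow_pos_of_pos hl0 _
  rw [h1, h2]
  have h9 : ((8 : ℕ) : ℝ) * ((l ^ (25 * k0)) ^ 2 * (64 * ((M : ℝ) ^ 3 / P) * (H : ℝ) ^ 2 *
      (l ^ (-A) / ((l ^ (25 * k0)) ^ 2 * l ^ 3) * 2 ^ A'))) =
      (512 * 2 ^ A' / l ^ 3) * (l ^ (-A) * ((M : ℝ) ^ 3 / P) * (H : ℝ) ^ 2) := by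
    push_cast
    field_simp
    ring
  rw [h9]
  have h10 : 512 * 2 ^ A' / l ^ 3 ≤ 1 := by
    rw [div_le_one (by positivity)]
    exact h4
  have h11 : 0 ≤ l ^ (-A) * ((M : ℝ) ^ 3 / P) * (H : ℝ) ^ 2 := by positivity
  exact mul_le_of_le_one_left h11 h10

end Pool.Agent.H96.EB
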