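import Pool.Agent.H43.TP.L2m
import Pool.Agent.H96.EB.Vsq
import Pool.Agent.H96.EB.Low
import Pool.Agent.H96.EB.Wns

/-!
# [H96 EB AN] The mean square of the primes minus the model

PROOF. `l = log X`, `K = X`. `C, c` of `vsq`. `T = l^(2A+20)` (real power), `Q0 = C T^c = C l^(c(2A+20))`. `K1` with `24 K1 > c(2A+20) + 1`: then `Q0 <= l^(24 k0) <= Q` for `X` large. `E := 2A + 2c(2A+20) + 40`.
`wns` with `(E, k0)` gives `A0`; `A1 := max A0 (E + 2c(2A+20) + 10)`, `H := ⌊(X/P) l^(-A1)⌋` (`>= (X/P) l^(-A1-1)`), `κ := P H/K <= l^(-A1) <= l^(-E-2c(2A+20)-10)`.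
`A2 := A1 + 50 k0 + 2c(2A+20) + 2A + 100`. `PP` = primes of `(P,P2]`, `N = 40 M^3`, `B = {s ∈ [1,40M^3] : M^3 < 2Ps, Ps <= 36M^3}`, `β = bz Q`. `M'^3 + K <= 27M^3 + 8M^3`; if `m^3 < pb <= m^3 + K` then `M^3 < 2P b` and `P b <= 36 M^3`: `b ∈ B`.
Size: `P^5 M^(3+ε) <= X^2` and `M >= (X/8)^(1/3)`: `C T^c P^5 M^3 <= X^2` for `X` large; `P^10 <= 64 X^2` (`X^2 <= 64 M^6`), so `P <= 2X^(1/5)`, `4P^2 Q0 <= X`, `Q0 < P` (`P >= l^A2`), `M^2 <= P X`, `1600 P M^3 <= X^2`, `M <= X`, `log(40M^3) <= 4l`.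
`Σ_{b ∈ B} β^2 <= l^4 M^3/P`: `az^2 <= 2 + 2 lq^2` (`0 <= il <= 1` for `b >= 3`; `pr <= 1`), `TP.l2m` with `Y = ⌊36M^3/P⌋`: `<= 2Y + 2(2Y (1+log Q)^2 + 4Q^4)`, `1 + log Q <= l^(1/2)`, `Q^4 <= l^(100k0) <= M^3/P`.
`S2`: `low` with `η = l^(-E)` and `D' = l^4`: `‖Fh‖ <= 1000 K M (l^(-E/2) + Q0 κ l^2 + l^2 κ^(1/2)) <= K M l^(-(E-12)/2)`; so `S2 := K^2 M^2 l^(-(E-12))`. `vsq` with `D = l^4 M^3/P`, `V = VV`: `V^2 <= a V + b`,
`a = l^4 (M^3/P) (8M * 4l (1 + K/M^2) + 3 (KP/M) l^(-A-10) + 3*10^6 (K/M) Q0^2)`: `32 l^5 M^4/P <= 32 l^5 M^2 K l^(-A2)` (`M^2 l^A2 <= K P`), `32 l^5 M^2 K/P <= 32 l^5 M^2 K l^(-A2)`, `3 l^4 K M^2 l^(-A-10)`, `3*10^6 l^4 Q0^2 K M^2 l^(-A2)`: `a <= K M^2 l^(-A)/2`;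
`b = l^4 (M^3/P) * 3*10^5 Q0^2 (P/M) S2 = 3*10^5 l^4 Q0^2 M^2 * K^2 M^2 l^(-(E-12)) <= (K M^2 l^(-A))^2/2`. So `V <= K M^2 l^(-A)` (else `V^2 > a V + b`).
Finally the sum over `ℕ` is `VV K (Ff M M' PP β)`: `k, m` cast to `ℤ`, `(m^3+k)/p` in `ℕ` and `ℤ` agree.
-/

namespace Pool.Agent.H96.EB

open Finset

private theorem an_ev (a c δ : ℝ) (hδ : 0 < δ) :
    ∀ᶠ x : ℝ in Filter.atTop, c * Real.log x ^ a ≤ x ^ δ := by
  have h1 := (isLittleO_log_rpow_rpow_atTop a hδ).def (c := 1 / (|c| + 1)) (by positivity)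
  filter_upwards [h1, Filter.eventually_gt_atTop 1] with x hx hx1
  have h2 : ‖x ^ δ‖ = x ^ δ := by
    rw [Real.norm_eq_abs, abs_of_pos (Real.rpow_pos_of_pos (by linarith) _)]
  rw [h2, Real.norm_eq_abs] at hx
  have h3 : 0 < x ^ δ := Real.rpow_pos_of_pos (by linarith) _
  have h4 : 0 < |c| + 1 := by positivity
  calc c * Real.log x ^ a ≤ |c * Real.log x ^ a| := le_abs_self _
    _ = |c| * |Real.log x ^ a| := abs_mul _ _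
    _ ≤ |c| * (1 / (|c| + 1) * x ^ δ) := mul_le_mul_of_nonneg_left hx (abs_nonneg _)
    _ = (|c| / (|c| + 1)) * x ^ δ := by ring
    _ ≤ 1 * x ^ δ := by
        refine mul_le_mul_of_nonneg_right ?_ h3.le
        rw [div_le_one h4]
        linarith
    _ = x ^ δ := one_mul _

private theorem an_fin (C l a b K M P Lg V : ℝ) (hC : 1 ≤ C) (hl : 10 ^ 8 * C ^ 2 ≤ l)
    (ha : 1 ≤ a) (hb : 1 ≤ b) (hK : 0 < K) (hM : 0 < M) (hP : 0 < P) (hLg0 : 0 ≤ Lg)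
    (hLg : Lg ≤ 4 * l) (h1 : M ^ 2 * (a * b ^ 2 * l ^ 100) ≤ K * P)
    (h2 : a * b ^ 2 * l ^ 100 ≤ P) (hV : 0 ≤ V)
    (h : V ^ 2 ≤ (l ^ 4 * (M ^ 3 / P)) * ((8 * M * Lg * (1 + K / M ^ 2) +
      3 * (K * P / M) / (a * l ^ 10) + 3 * 10 ^ 6 * (K / M) * (C * b) ^ 2) * V +
      3 * 10 ^ 5 * (C * b) ^ 2 * (P / M) * (K ^ 2 * M ^ 2 / (a ^ 2 * b ^ 2 * l ^ 28)))) :
    V ≤ K * M ^ 2 / a := by
  have hC2 : 1 ≤ C ^ 2 := one_le_pow₀ hC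
  have hl1 : 1 ≤ l := by linarith
  have hl0 : 0 < l := by linarith
  have ha0 : 0 < a := by linarith
  have hb0 : 0 < b := by linarith
  obtain ⟨W, hW⟩ : ∃ W : ℝ, W = K * M ^ 2 / a := ⟨_, rfl⟩
  have hW0 : 0 < W := by rw [hW]; positivity
  obtain ⟨q, hq⟩ : ∃ q : ℝ, q = a * b ^ 2 * l ^ 100 := ⟨_, rfl⟩
  have hq0 : 0 < q := by rw [hq]; positivity
  rw [← hq] at h1 h2
  have hMq : M ^ 2 / P ≤ K / q := by
    rw [div_le_div_iff₀ hP hq0]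
    exact h1
  have hPq : 1 / P ≤ 1 / q := one_div_le_one_div_of_le hq0 h2
  have hpow : ∀ n : ℕ, n + 1 ≤ 100 → l ^ n * (b ^ 2 / q) ≤ 1 / (a * l) := by
    intro n hn
    have h3 : l ^ (n + 1) ≤ l ^ 100 := pow_le_pow_right₀ hl1 hn
    rw [mul_div_assoc', div_le_div_iff₀ hq0 (by positivity), hq]
    have h4 : l ^ n * b ^ 2 * (a * l) = a * b ^ 2 * l ^ (n + 1) := by ring
    rw [h4, one_mul]
    exact mul_le_mul_of_nonneg_left h3 (by positivity)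
  have hb2 : 1 ≤ b ^ 2 := one_le_pow₀ hb
  have hpow' : ∀ n : ℕ, n + 1 ≤ 100 → l ^ n * (1 / q) ≤ 1 / (a * l) := by
    intro n hn
    refine le_trans ?_ (hpow n hn)
    refine mul_le_mul_of_nonneg_left ?_ (by positivity)
    exact div_le_div_of_nonneg_right hb2 hq0.le
  have e : (l ^ 4 * (M ^ 3 / P)) * ((8 * M * Lg * (1 + K / M ^ 2) +
      3 * (K * P / M) / (a * l ^ 10) + 3 * 10 ^ 6 * (K / M) * (C * b) ^ 2) * V +
      3 * 10 ^ 5 * (C * b) ^ 2 * (P / M) * (K ^ 2 * M ^ 2 / (a ^ 2 * b ^ 2 * l ^ 28))) =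
      (8 * l ^ 4 * Lg * M ^ 2 * (M ^ 2 / P) + 8 * l ^ 4 * Lg * M ^ 2 * K * (1 / P) +
        3 * W / l ^ 6 + 3 * 10 ^ 6 * C ^ 2 * b ^ 2 * l ^ 4 * M ^ 2 * K * (1 / P)) * V +
        3 * 10 ^ 5 * C ^ 2 * W ^ 2 / l ^ 24 := by
    rw [hW]
    field_simp
  rw [e] at h
  have t1 : 8 * l ^ 4 * Lg * M ^ 2 * (M ^ 2 / P) ≤ W * (32 / l) := by
    calc 8 * l ^ 4 * Lg * M ^ 2 * (M ^ 2 / P) ≤ 8 * l ^ 4 * (4 * l) * M ^ 2 * (K / q) := by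
          gcongr
      _ = 32 * (K * M ^ 2) * (l ^ 5 * (1 / q)) := by ring
      _ ≤ 32 * (K * M ^ 2) * (1 / (a * l)) :=
          mul_le_mul_of_nonneg_left (hpow' 5 (by norm_num)) (by positivity)
      _ = W * (32 / l) := by rw [hW]; field_simp
  have t2 : 8 * l ^ 4 * Lg * M ^ 2 * K * (1 / P) ≤ W * (32 / l) := by
    calc 8 * l ^ 4 * Lg * M ^ 2 * K * (1 / P) ≤ 8 * l ^ 4 * (4 * l) * M ^ 2 * K * (1 / q) := by
          gcongr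
      _ = 32 * (K * M ^ 2) * (l ^ 5 * (1 / q)) := by ring
      _ ≤ 32 * (K * M ^ 2) * (1 / (a * l)) :=
          mul_le_mul_of_nonneg_left (hpow' 5 (by norm_num)) (by positivity)
      _ = W * (32 / l) := by rw [hW]; field_simp
  have t3 : 3 * W / l ^ 6 ≤ W * (3 / l) := by
    have h3 : l ≤ l ^ 6 := le_self_pow₀ hl1 (by norm_num)
    have h4 : 3 / l ^ 6 ≤ 3 / l := div_le_div_of_nonneg_left (by norm_num) hl0 h3
    calc 3 * W / l ^ 6 = W * (3 / l ^ 6) := by ring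
      _ ≤ W * (3 / l) := mul_le_mul_of_nonneg_left h4 hW0.le
  have t4 : 3 * 10 ^ 6 * C ^ 2 * b ^ 2 * l ^ 4 * M ^ 2 * K * (1 / P) ≤
      W * (3 * 10 ^ 6 * C ^ 2 / l) := by
    calc 3 * 10 ^ 6 * C ^ 2 * b ^ 2 * l ^ 4 * M ^ 2 * K * (1 / P) ≤
        3 * 10 ^ 6 * C ^ 2 * b ^ 2 * l ^ 4 * M ^ 2 * K * (1 / q) := by gcongr
      _ = 3 * 10 ^ 6 * C ^ 2 * (K * M ^ 2) * (l ^ 4 * (b ^ 2 / q)) := by ring
      _ ≤ 3 * 10 ^ 6 * C ^ 2 * (K * M ^ 2) * (1 / (a * l)) :=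
          mul_le_mul_of_nonneg_left (hpow 4 (by norm_num)) (by positivity)
      _ = W * (3 * 10 ^ 6 * C ^ 2 / l) := by rw [hW]; field_simp
  have t5 : 3 * 10 ^ 5 * C ^ 2 * W ^ 2 / l ^ 24 ≤ W ^ 2 / 2 := by
    have h3 : l ≤ l ^ 24 := le_self_pow₀ hl1 (by norm_num)
    have h4 : 6 * 10 ^ 5 * C ^ 2 ≤ l ^ 24 := by linarith
    rw [div_le_div_iff₀ (by positivity) (by norm_num)]
    have h5 := mul_le_mul_of_nonneg_right h4 (sq_nonneg W)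
    linarith
  have hsum : 8 * l ^ 4 * Lg * M ^ 2 * (M ^ 2 / P) + 8 * l ^ 4 * Lg * M ^ 2 * K * (1 / P) +
      3 * W / l ^ 6 + 3 * 10 ^ 6 * C ^ 2 * b ^ 2 * l ^ 4 * M ^ 2 * K * (1 / P) ≤ W / 2 := by
    have h3 : W * (32 / l) + W * (32 / l) + W * (3 / l) + W * (3 * 10 ^ 6 * C ^ 2 / l) =
        W * ((67 + 3 * 10 ^ 6 * C ^ 2) / l) := by ring
    have h4 : (67 + 3 * 10 ^ 6 * C ^ 2) / l ≤ 1 / 2 := by
      rw [div_le_div_iff₀ hl0 (by norm_num)]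
      linarith
    have h5 := mul_le_mul_of_nonneg_left h4 hW0.le
    linarith
  rw [← hW]
  by_contra hcon
  push Not at hcon
  have h6 := mul_le_mul_of_nonneg_right hsum hV
  have h7 : V ^ 2 ≤ W / 2 * V + W ^ 2 / 2 := by linarith
  have h8 : 0 < (V - W) * (V + W / 2) := mul_pos (sub_pos.2 hcon) (by positivity)
  have h9 : (V - W) * (V + W / 2) = V ^ 2 - (W / 2 * V + W ^ 2 / 2) := by ring
  linarith

private theorem an_beta (Q M P : ℕ) (l : ℝ) (hQ : 1 ≤ Q) (hlQ : (1 + Real.log Q) ^ 2 ≤ l)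
    (hl : 10 ≤ l) (hM : 1 ≤ M) (hP : 1 ≤ P) (hb3 : 6 * P ≤ M ^ 3)
    (hQ4 : (Q : ℝ) ^ 4 ≤ (M : ℝ) ^ 3 / P) :
    ∑ b ∈ (Icc (1 : ℤ) (40 * M ^ 3)).filter
      (fun s => (M : ℤ) ^ 3 < 2 * P * s ∧ P * s ≤ 36 * M ^ 3), bz Q b ^ 2 ≤
      l ^ 4 * ((M : ℝ) ^ 3 / P) := by
  obtain ⟨B, hB⟩ : ∃ B, B = (Icc (1 : ℤ) (40 * M ^ 3)).filter
      (fun s => (M : ℤ) ^ 3 < 2 * P * s ∧ P * s ≤ 36 * M ^ 3) := ⟨_, rfl⟩
  rw [← hB]
  have hP0 : (0 : ℝ) < P := by exact_mod_cast hP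
  have hmem : ∀ b ∈ B, 3 ≤ b.toNat ∧ b.toNat ≤ 36 * M ^ 3 / P ∧ ((b.toNat : ℕ) : ℤ) = b := by
    intro b hb
    rw [hB, mem_filter, mem_Icc] at hb
    obtain ⟨⟨h1, -⟩, h3, h4⟩ := hb
    have h5 : ((b.toNat : ℕ) : ℤ) = b := Int.toNat_of_nonneg (by omega)
    have h6 : (6 * P : ℤ) ≤ (M : ℤ) ^ 3 := by exact_mod_cast hb3
    have hPz : (0 : ℤ) < P := by exact_mod_cast hP
    have h7 : 3 < b := by
      by_contra hcon
      push Not at hcon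
      have h8 : (2 : ℤ) * P * b ≤ 2 * P * 3 := by
        apply mul_le_mul_of_nonneg_left hcon
        positivity
      linarith
    refine ⟨by omega, ?_, h5⟩
    rw [Nat.le_div_iff_mul_le hP]
    have h8 : (((b.toNat * P : ℕ)) : ℤ) ≤ ((36 * M ^ 3 : ℕ) : ℤ) := by
      push_cast
      rw [h5, mul_comm]
      exact h4
    exact_mod_cast h8
  have hinj : Set.InjOn Int.toNat (B : Set ℤ) := by
    intro b hb b' hb' hbb
    rw [← (hmem b hb).2.2, ← (hmem b' hb').2.2, hbb]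
  have h1 : ∑ b ∈ B, bz Q b ^ 2 = ∑ n ∈ B.image Int.toNat, H43.HY.az Q n ^ 2 := by
    rw [sum_image hinj]
    rfl
  have h2 : B.image Int.toNat ⊆ Icc 3 (36 * M ^ 3 / P) := by
    intro n hn
    rw [mem_image] at hn
    obtain ⟨b, hb, rfl⟩ := hn
    rw [mem_Icc]
    exact ⟨(hmem b hb).1, (hmem b hb).2.1⟩
  obtain ⟨Y, hY⟩ : ∃ Y, Y = 36 * M ^ 3 / P := ⟨_, rfl⟩
  rw [← hY] at h2
  have hYR : (Y : ℝ) ≤ 36 * ((M : ℝ) ^ 3 / P) := by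
    rw [hY]
    have := @Nat.cast_div_le ℝ _ _ _ (36 * M ^ 3) P
    refine this.trans (le_of_eq ?_)
    push_cast
    ring
  have haz : ∀ n ∈ Icc 3 Y, H43.HY.az Q n ^ 2 ≤ 2 + 2 * H43.TP.lq Q n ^ 2 := by
    intro n hn
    rw [mem_Icc] at hn
    obtain ⟨h3, h4⟩ := H43.HY.fz_il n hn.1
    have h5 : 0 ≤ H43.HY.pr n ∧ H43.HY.pr n ≤ 1 := by
      unfold H43.HY.pr
      split_ifs <;> norm_num
    unfold H43.HY.az
    have h6 : (H43.HY.pr n - H43.HY.il n * H43.TP.lq Q n) ^ 2 ≤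
        2 * H43.HY.pr n ^ 2 + 2 * (H43.HY.il n * H43.TP.lq Q n) ^ 2 := by
      nlinarith [sq_nonneg (H43.HY.pr n + H43.HY.il n * H43.TP.lq Q n)]
    have h7 : H43.HY.pr n ^ 2 ≤ 1 := by nlinarith
    have h8 : H43.HY.il n ^ 2 ≤ 1 := by nlinarith
    have h9 : (H43.HY.il n * H43.TP.lq Q n) ^ 2 ≤ H43.TP.lq Q n ^ 2 := by
      rw [mul_pow]
      exact mul_le_of_le_one_left (sq_nonneg _) h8
    linarith
  have h3 : ∑ n ∈ B.image Int.toNat, H43.HY.az Q n ^ 2 ≤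
      ∑ n ∈ Icc 1 Y, (2 + 2 * H43.TP.lq Q n ^ 2) := by
    calc ∑ n ∈ B.image Int.toNat, H43.HY.az Q n ^ 2 ≤ ∑ n ∈ Icc 3 Y, H43.HY.az Q n ^ 2 :=
          sum_le_sum_of_subset_of_nonneg h2 fun _ _ _ => sq_nonneg _
      _ ≤ ∑ n ∈ Icc 3 Y, (2 + 2 * H43.TP.lq Q n ^ 2) := sum_le_sum haz
      _ ≤ ∑ n ∈ Icc 1 Y, (2 + 2 * H43.TP.lq Q n ^ 2) := by
          apply sum_le_sum_of_subset_of_nonneg
          · exact Icc_subset_Icc (by norm_num) le_rfl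
          · intro n _ _
            positivity
  have h4 := H43.TP.l2m Q Y hQ
  rw [h1]
  refine h3.trans ?_
  rw [sum_add_distrib, sum_const, Nat.card_Icc, nsmul_eq_mul, Nat.add_sub_cancel, ← Finset.mul_sum]
  obtain ⟨R, hR⟩ : ∃ R : ℝ, R = (M : ℝ) ^ 3 / P := ⟨_, rfl⟩
  rw [← hR] at hYR hQ4 ⊢
  have hR0 : 0 ≤ R := by rw [hR]; positivity
  have hY0 : (0 : ℝ) ≤ Y := Nat.cast_nonneg _
  have h5 : 2 * (Y : ℝ) * (1 + Real.log Q) ^ 2 ≤ 2 * (36 * R) * l := by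
    gcongr
  have h6 : (1000 : ℝ) * l ≤ l ^ 4 := by
    have h7 : (10 : ℝ) ^ 3 ≤ l ^ 3 := pow_le_pow_left₀ (by norm_num) hl 3
    nlinarith
  have h7 : (80 + 144 * l) * R ≤ l ^ 4 * R := by
    refine mul_le_mul_of_nonneg_right ?_ hR0
    linarith
  linarith

private theorem an_sum (X M M' Q : ℕ) (PP : Finset ℕ) :
    ∑ k ∈ Icc 1 X, (∑ m ∈ Ioc M M', ∑ p ∈ PP,
      if p ∣ m ^ 3 + k then H43.HY.az Q ((m ^ 3 + k) / p) else 0) ^ 2 =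
    VV X (Ff M M' PP (bz Q)) := by
  unfold VV Ff
  have h1 : Icc (1 : ℤ) X = (Icc 1 X).image (Nat.cast : ℕ → ℤ) := by
    ext z
    rw [mem_image, mem_Icc]
    constructor
    · rintro ⟨hz1, hz2⟩
      exact ⟨z.toNat, mem_Icc.2 ⟨by omega, by omega⟩, by omega⟩
    · rintro ⟨n, hn, rfl⟩
      rw [mem_Icc] at hn
      omega
  have h2 : Ioc (M : ℤ) M' = (Ioc M M').image (Nat.cast : ℕ → ℤ) := by
    ext z
    rw [mem_image, mem_Ioc]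
    constructor
    · rintro ⟨hz1, hz2⟩
      exact ⟨z.toNat, mem_Ioc.2 ⟨by omega, by omega⟩, by omega⟩
    · rintro ⟨n, hn, rfl⟩
      rw [mem_Ioc] at hn
      omega
  rw [h1, sum_image (fun a _ b _ h => by exact_mod_cast h)]
  refine sum_congr rfl fun k _ => ?_
  congr 1
  rw [h2, sum_image (fun a _ b _ h => by exact_mod_cast h)]
  refine sum_congr rfl fun m _ => sum_congr rfl fun p _ => ?_
  have h3 : ((m : ℤ) ^ 3 + (k : ℤ)) = ((m ^ 3 + k : ℕ) : ℤ) := by push_cast; ring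
  rw [h3]
  by_cases h4 : p ∣ m ^ 3 + k
  · rw [if_pos h4, if_pos (Int.natCast_dvd_natCast.2 h4)]
    unfold bz
    rw [← Int.natCast_div, Int.toNat_natCast]
  · rw [if_neg h4, if_neg (fun h => h4 (Int.natCast_dvd_natCast.1 h))]

private theorem an_le (C l A1 E g κ Q0 : ℝ) (hC : 1 ≤ C) (hl : 10 ^ 8 * C ^ 2 ≤ l)
    (hg : 0 ≤ g) (hE : 0 ≤ E) (hA1 : E + 2 * g + 10 ≤ A1) (hQ0 : Q0 = C * l ^ g) (hκ0 : 0 ≤ κ)
    (hκ : κ ≤ l ^ (-A1)) :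
    1000 * (Real.sqrt (l ^ (-E)) + Q0 * κ * Real.sqrt (l ^ 4) + Real.sqrt (l ^ 4 * κ)) ≤
      l ^ (-(E - 12) / 2) := by
  have hC2 : 1 ≤ C ^ 2 := one_le_pow₀ hC
  have hCC : C ≤ C ^ 2 := le_self_pow₀ hC two_ne_zero
  have hl1 : 1 ≤ l := by linarith
  have hl0 : 0 < l := by linarith
  have hCl : C ≤ l := by linarith
  obtain ⟨s, hs⟩ : ∃ s : ℝ, s = l ^ (-E / 2) := ⟨_, rfl⟩
  have hs0 : 0 < s := by rw [hs]; exact Real.rpow_pos_of_pos hl0 _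
  have h1 : Real.sqrt (l ^ (-E)) = s := by
    rw [Real.sqrt_eq_rpow, ← Real.rpow_mul hl0.le, hs]
    congr 1
    ring
  have h2 : Real.sqrt (l ^ 4) = l ^ 2 := by
    rw [show l ^ 4 = (l ^ 2) ^ 2 by ring, Real.sqrt_sq (by positivity)]
  have h3 : Q0 * κ * l ^ 2 ≤ s := by
    have h4 : Q0 * κ * l ^ 2 ≤ l ^ (1 : ℝ) * l ^ g * l ^ (-A1) * l ^ (2 : ℝ) := by
      rw [hQ0, Real.rpow_one, Real.rpow_two]
      gcongr
    refine h4.trans ?_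
    rw [← Real.rpow_add hl0, ← Real.rpow_add hl0, ← Real.rpow_add hl0, hs]
    apply Real.rpow_le_rpow_of_exponent_le hl1
    linarith
  have h5 : Real.sqrt (l ^ 4 * κ) ≤ s := by
    have h6 : l ^ 4 * κ ≤ s ^ 2 := by
      have h7 : l ^ 4 * κ ≤ l ^ (4 : ℝ) * l ^ (-A1) := by
        have : l ^ (4 : ℝ) = l ^ 4 := by
          rw [← Real.rpow_natCast]
          norm_num
        rw [this]
        gcongr
      refine h7.trans ?_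
      rw [hs, ← Real.rpow_natCast, ← Real.rpow_mul hl0.le, ← Real.rpow_add hl0]
      apply Real.rpow_le_rpow_of_exponent_le hl1
      push_cast
      linarith
    calc Real.sqrt (l ^ 4 * κ) ≤ Real.sqrt (s ^ 2) := Real.sqrt_le_sqrt h6
      _ = s := Real.sqrt_sq hs0.le
  rw [h1, h2]
  have h8 : l ^ (-(E - 12) / 2) = l ^ 6 * s := by
    rw [hs, ← Real.rpow_natCast, ← Real.rpow_add hl0]
    congr 1
    push_cast
    ring
  rw [h8]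
  have h9 : 3000 ≤ l ^ 6 := by
    have h10 : l ≤ l ^ 6 := le_self_pow₀ hl1 (by norm_num)
    linarith
  have h11 := mul_le_mul_of_nonneg_right h9 hs0.le
  linarith

theorem an (hfzs : H43.HY.FzS) (A ε : ℝ) (hA : 0 < A) (hε : 0 < ε) : ∃ K1 : ℕ, ∀ k0 : ℕ, K1 ≤ k0 → ∃ A2 : ℝ, 0 < A2 ∧
    ∃ X0 : ℕ, ∀ X : ℕ, X0 ≤ X →
    ∀ Q M M' P P2 : ℕ, 2 ^ 64 * (Real.log X) ^ (24 * k0) ≤ Q → (Q : ℝ) ≤ (Real.log X) ^ (25 * k0) →
    X ≤ 8 * M ^ 3 → 2 * M ≤ M' → M' ≤ 2 * M + 1 → P ≤ P2 → P2 ≤ 2 * P →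
    (Real.log X) ^ A2 ≤ P → (M : ℝ) ^ 2 * (Real.log X) ^ A2 ≤ X * P →
    (P : ℝ) ^ 5 * (M : ℝ) ^ (3 + ε) ≤ (X : ℝ) ^ 2 →
    ∑ k ∈ Icc 1 X, (∑ m ∈ Ioc M M', ∑ p ∈ (Ioc P P2).filter Nat.Prime,
      if p ∣ m ^ 3 + k then H43.HY.az Q ((m ^ 3 + k) / p) else 0) ^ 2 ≤
      X * (M : ℝ) ^ 2 * (Real.log X) ^ (-A) := by
  obtain ⟨C, c, hC, hv⟩ := vsq
  obtain ⟨g, hg⟩ : ∃ g : ℝ, g = c * (2 * A + 20) := ⟨_, rfl⟩
  have hg0 : 0 ≤ g := by rw [hg]; positivity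
  obtain ⟨K1, hK1⟩ : ∃ K1 : ℕ, g + 1 ≤ K1 := exists_nat_ge _
  refine ⟨K1, fun k0 hk0 => ?_⟩
  have hk0R : g + 1 ≤ k0 := hK1.trans (by exact_mod_cast hk0)
  have hk00 : (0 : ℝ) ≤ k0 := Nat.cast_nonneg _
  obtain ⟨E, hE⟩ : ∃ E : ℝ, E = 2 * A + 2 * g + 40 := ⟨_, rfl⟩
  have hE0 : 0 < E := by rw [hE]; positivity
  obtain ⟨A0, hA0, hw⟩ := wns hfzs E k0 hE0
  obtain ⟨A1, hA1⟩ : ∃ A1 : ℝ, A1 = max A0 (E + 2 * g + 10) := ⟨_, rfl⟩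
  have hA10 : A0 ≤ A1 := by rw [hA1]; exact le_max_left _ _
  have hA11 : E + 2 * g + 10 ≤ A1 := by rw [hA1]; exact le_max_right _ _
  have hA1p : 0 < A1 := by linarith
  obtain ⟨Xw, hXw⟩ := hw A1 hA10
  obtain ⟨A2, hA2⟩ : ∃ A2 : ℝ, A2 = A1 + 50 * k0 + 2 * g + 2 * A + 100 := ⟨_, rfl⟩
  refine ⟨A2, by rw [hA2]; positivity, ?_⟩
  have hlogT : Filter.Tendsto (fun X : ℕ => Real.log (X : ℝ)) Filter.atTop Filter.atTop :=
    Real.tendsto_log_atTop.comp tendsto_natCast_atTop_atTop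
  have hcast : Filter.Tendsto (fun X : ℕ => (X : ℝ)) Filter.atTop Filter.atTop :=
    tendsto_natCast_atTop_atTop
  have e1 := hlogT.eventually (Filter.eventually_ge_atTop (10 ^ 8 * C ^ 2))
  have e2 := hcast.eventually (an_ev g (C * 8 ^ (ε / 3)) (ε / 3) (by positivity))
  have e3 := hcast.eventually (an_ev (2 * g) (128 * C ^ 2) 1 one_pos)
  have e4 := hcast.eventually (an_ev (100 * k0 : ℝ) 4 (1 / 2) (by norm_num))
  have e5 := hcast.eventually (an_ev A1 1 (1 / 2) (by norm_num))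
  have e6 := hlogT.eventually (an_ev 1 (25 * k0 + 1) (1 / 2) (by norm_num))
  have e7 : ∀ᶠ X : ℕ in Filter.atTop, 40 ≤ X := Filter.eventually_ge_atTop 40
  have e8 := hlogT.eventually (Real.tendsto_log_atTop.eventually
    (Filter.eventually_ge_atTop (1 : ℝ)))
  obtain ⟨X1, hX1⟩ := Filter.eventually_atTop.1
    (e1.and (e2.and (e3.and (e4.and (e5.and (e6.and (e7.and e8)))))))
  refine ⟨max Xw X1, fun X hX Q M M' P P2 hQ1 hQ2 hXM hM1 hM2 hP1 hP2 hPA hMA hPM => ?_⟩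
  obtain ⟨f1, f2, f3, f4, f5, f6, f7, f8⟩ := hX1 X ((le_max_right _ _).trans hX)
  have hXw' := hXw X ((le_max_left _ _).trans hX)
  obtain ⟨l, hl⟩ : ∃ l : ℝ, l = Real.log X := ⟨_, rfl⟩
  rw [← hl] at f1 f2 f3 f4 f5 f6 f8 hQ1 hQ2 hPA hMA hXw' ⊢
  have hC2 : 1 ≤ C ^ 2 := one_le_pow₀ hC
  have hl8 : 10 ^ 8 ≤ l := by linarith
  have hl1 : 1 ≤ l := by linarith
  have hl0 : 0 < l := by linarith
  have hCC : C ≤ C ^ 2 := le_self_pow₀ hC two_ne_zero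
  have hCl : C ≤ l := by linarith
  have hXR : (40 : ℝ) ≤ X := by exact_mod_cast f7
  have hX0 : (0 : ℝ) < X := by linarith
  have hA2g : A1 ≤ A2 ∧ g + 1 ≤ A2 ∧ 1 ≤ A2 ∧ A + 2 * g + 100 ≤ A2 := by
    rw [hA2]
    refine ⟨by linarith, by linarith, by linarith, by linarith⟩
  -- sizes of M and P
  have hM0 : 1 ≤ M := by
    rcases Nat.eq_zero_or_pos M with h | h
    · rw [h] at hXM
      simp at hXM
      omega
    · exact h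
  have hMR : (1 : ℝ) ≤ M := by exact_mod_cast hM0
  have hMR0 : (0 : ℝ) < M := by linarith
  have hPl : l ≤ P := by
    refine le_trans ?_ hPA
    calc l = l ^ (1 : ℝ) := (Real.rpow_one l).symm
      _ ≤ l ^ A2 := Real.rpow_le_rpow_of_exponent_le hl1 hA2g.2.2.1
  have hPR0 : (0 : ℝ) < P := by linarith
  have hP0 : 1 ≤ P := by exact_mod_cast (show (0 : ℝ) < P from hPR0)
  have hXMR : (X : ℝ) ≤ 8 * (M : ℝ) ^ 3 := by exact_mod_cast hXM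
  obtain ⟨Q0, hQ0⟩ : ∃ Q0 : ℝ, Q0 = C * l ^ g := ⟨_, rfl⟩
  have hlg1 : 1 ≤ l ^ g := Real.one_le_rpow hl1 hg0
  have hQ01 : 1 ≤ Q0 := by
    rw [hQ0]
    exact one_le_mul_of_one_le_of_one_le hC hlg1
  obtain ⟨T, hT⟩ : ∃ T : ℝ, T = l ^ (2 * A + 20) := ⟨_, rfl⟩
  have hT1 : 1 ≤ T := by rw [hT]; exact Real.one_le_rpow hl1 (by positivity)
  have hTc : C * T ^ c = Q0 := by
    rw [hT, hQ0, hg, ← Real.rpow_natCast, ← Real.rpow_mul hl0.le]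
    congr 2
    ring
  have hsT : Real.sqrt T = l ^ A * l ^ 10 := by
    rw [hT, Real.sqrt_eq_rpow, ← Real.rpow_mul hl0.le, ← Real.rpow_natCast,
      ← Real.rpow_add hl0]
    congr 1
    push_cast
    ring
  have hQM : Q0 ≤ (M : ℝ) ^ ε := by
    have h1 : (X : ℝ) ^ (ε / 3) ≤ (8 * (M : ℝ) ^ 3) ^ (ε / 3) :=
      Real.rpow_le_rpow hX0.le hXMR (by positivity)
    have h2 : (8 * (M : ℝ) ^ 3) ^ (ε / 3) = 8 ^ (ε / 3) * (M : ℝ) ^ ε := by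
      rw [Real.mul_rpow (by norm_num) (by positivity), ← Real.rpow_natCast,
        ← Real.rpow_mul hMR0.le]
      congr 2
      push_cast
      ring
    have h3 : 0 < (8 : ℝ) ^ (ε / 3) := Real.rpow_pos_of_pos (by norm_num) _
    rw [h2] at h1
    have h4 := f2.trans h1
    have h5 : C * 8 ^ (ε / 3) * l ^ g = 8 ^ (ε / 3) * Q0 := by rw [hQ0]; ring
    rw [h5] at h4
    exact le_of_mul_le_mul_left h4 h3
  have hM3e : (M : ℝ) ^ (3 + ε) = (M : ℝ) ^ 3 * (M : ℝ) ^ ε := by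
    rw [Real.rpow_add hMR0]
    congr 1
    rw [← Real.rpow_natCast]
    norm_num
  have hQPM : Q0 * ((P : ℝ) ^ 5 * (M : ℝ) ^ 3) ≤ (X : ℝ) ^ 2 := by
    refine le_trans ?_ hPM
    rw [hM3e]
    calc Q0 * ((P : ℝ) ^ 5 * (M : ℝ) ^ 3) ≤ (M : ℝ) ^ ε * ((P : ℝ) ^ 5 * (M : ℝ) ^ 3) :=
          mul_le_mul_of_nonneg_right hQM (by positivity)
      _ = (P : ℝ) ^ 5 * ((M : ℝ) ^ 3 * (M : ℝ) ^ ε) := by ring
  have hPM3 : (P : ℝ) ^ 5 * (M : ℝ) ^ 3 ≤ (X : ℝ) ^ 2 := by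
    refine le_trans ?_ hQPM
    exact le_mul_of_one_le_left (by positivity) hQ01
  have hP5 : (P : ℝ) ^ 5 ≤ 8 * X := by
    have h1 : (P : ℝ) ^ 5 * X ≤ (P : ℝ) ^ 5 * (8 * (M : ℝ) ^ 3) :=
      mul_le_mul_of_nonneg_left hXMR (by positivity)
    have h2 : (P : ℝ) ^ 5 * X ≤ 8 * X * X := by
      calc (P : ℝ) ^ 5 * X ≤ (P : ℝ) ^ 5 * (8 * (M : ℝ) ^ 3) := h1
        _ = 8 * ((P : ℝ) ^ 5 * (M : ℝ) ^ 3) := by ring
        _ ≤ 8 * (X : ℝ) ^ 2 := mul_le_mul_of_nonneg_left hPM3 (by norm_num)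
        _ = 8 * X * X := by ring
    exact le_of_mul_le_mul_right h2 hX0
  have hPR1 : (1 : ℝ) ≤ P := by linarith
  have hP4 : (P : ℝ) ^ 4 ≤ 8 * X :=
    (pow_le_pow_right₀ hPR1 (by norm_num)).trans hP5
  have hQ02 : 128 * Q0 ^ 2 ≤ X := by
    have h1 : 128 * Q0 ^ 2 = 128 * C ^ 2 * l ^ (2 * g) := by
      rw [hQ0, mul_pow, ← Real.rpow_natCast (l ^ g), ← Real.rpow_mul hl0.le]
      push_cast
      rw [mul_comm g 2]
      ring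
    rw [h1]
    rw [Real.rpow_one] at f3
    exact f3
  have h4P : 4 * (P : ℝ) ^ 2 * Q0 ≤ X := by
    have h1 : (4 * (P : ℝ) ^ 2 * Q0) ^ 2 ≤ (X : ℝ) ^ 2 := by
      calc (4 * (P : ℝ) ^ 2 * Q0) ^ 2 = 16 * (P : ℝ) ^ 4 * Q0 ^ 2 := by ring
        _ ≤ 16 * (8 * X) * Q0 ^ 2 := by gcongr
        _ = X * (128 * Q0 ^ 2) := by ring
        _ ≤ X * X := mul_le_mul_of_nonneg_left hQ02 hX0.le
        _ = (X : ℝ) ^ 2 := by ring
    exact le_of_sq_le_sq h1 hX0.le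
  have h4P' : 4 * (P : ℝ) ^ 2 ≤ X := by
    refine le_trans ?_ h4P
    exact le_mul_of_one_le_right (by positivity) hQ01
  have hPX : (P : ℝ) ≤ X := by
    have h1 : (P : ℝ) ≤ (P : ℝ) ^ 2 := le_self_pow₀ hPR1 two_ne_zero
    linarith
  have hPX' : P ≤ X := by exact_mod_cast hPX
  have hsq : 2 * (P : ℝ) ≤ (X : ℝ) ^ (1 / 2 : ℝ) := by
    rw [← Real.sqrt_eq_rpow]
    apply Real.le_sqrt_of_sq_le
    have h1 : (2 * (P : ℝ)) ^ 2 = 4 * (P : ℝ) ^ 2 := by ring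
    rw [h1]
    exact h4P'
  have hsX : (X : ℝ) ^ (1 / 2 : ℝ) * (X : ℝ) ^ (1 / 2 : ℝ) = X := by
    rw [← Real.rpow_add hX0]
    norm_num
  have hsX0 : 0 < (X : ℝ) ^ (1 / 2 : ℝ) := Real.rpow_pos_of_pos hX0 _
  have hXP : 2 * (X : ℝ) ^ (1 / 2 : ℝ) ≤ X / P := by
    rw [le_div_iff₀ hPR0]
    calc 2 * (X : ℝ) ^ (1 / 2 : ℝ) * P = (X : ℝ) ^ (1 / 2 : ℝ) * (2 * P) := by ring
      _ ≤ (X : ℝ) ^ (1 / 2 : ℝ) * (X : ℝ) ^ (1 / 2 : ℝ) :=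
          mul_le_mul_of_nonneg_left hsq hsX0.le
      _ = X := hsX
  have hQ0P : Q0 < P := by
    have h1 : Q0 ≤ l ^ (g + 1) := by
      rw [hQ0, Real.rpow_add hl0, Real.rpow_one, mul_comm]
      exact mul_le_mul_of_nonneg_left hCl (by positivity)
    have h2 : l ^ (g + 1) < l ^ A2 := by
      apply Real.rpow_lt_rpow_of_exponent_lt (by linarith)
      rw [hA2]
      linarith
    linarith
  have hMA' : (M : ℝ) ^ 2 ≤ P * X := by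
    have h1 : 1 ≤ l ^ A2 := Real.one_le_rpow hl1 (by linarith [hA2g.2.2.1])
    have h2 : (M : ℝ) ^ 2 ≤ (M : ℝ) ^ 2 * l ^ A2 := le_mul_of_one_le_right (by positivity) h1
    linarith
  have hMX : (M : ℝ) ≤ X := by
    have h1 : (M : ℝ) ^ 2 ≤ (X : ℝ) ^ 2 := by
      calc (M : ℝ) ^ 2 ≤ P * X := hMA'
        _ ≤ X * X := mul_le_mul_of_nonneg_right hPX hX0.le
        _ = (X : ℝ) ^ 2 := by ring
    exact le_of_sq_le_sq h1 hX0.le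
  have hlog40 : Real.log (40 * (M : ℝ) ^ 3) ≤ 4 * l := by
    have h1 : 40 * (M : ℝ) ^ 3 ≤ (X : ℝ) ^ 4 := by
      calc 40 * (M : ℝ) ^ 3 ≤ X * (X : ℝ) ^ 3 := by gcongr
        _ = (X : ℝ) ^ 4 := by ring
    have h2 := Real.log_le_log (by positivity) h1
    rw [Real.log_pow, ← hl] at h2
    exact_mod_cast h2
  have hlog40' : 0 ≤ Real.log (40 * (M : ℝ) ^ 3) := by
    apply Real.log_nonneg
    have : 1 ≤ (M : ℝ) ^ 3 := one_le_pow₀ hMR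
    linarith
  have h1600 : 1600 * (P : ℝ) * (M : ℝ) ^ 3 ≤ (X : ℝ) ^ 2 := by
    refine le_trans ?_ hPM3
    have h1 : (1600 : ℝ) ≤ (P : ℝ) ^ 4 := by
      have h2 : (10 : ℝ) ^ 4 ≤ (P : ℝ) ^ 4 := pow_le_pow_left₀ (by norm_num) (by linarith) 4
      linarith
    have h3 : 0 < (P : ℝ) * (M : ℝ) ^ 3 := by positivity
    calc 1600 * (P : ℝ) * (M : ℝ) ^ 3 = 1600 * ((P : ℝ) * (M : ℝ) ^ 3) := by ring
      _ ≤ (P : ℝ) ^ 4 * ((P : ℝ) * (M : ℝ) ^ 3) := mul_le_mul_of_nonneg_right h1 h3.le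
      _ = (P : ℝ) ^ 5 * (M : ℝ) ^ 3 := by ring
  have hR : (X : ℝ) ^ (1 / 2 : ℝ) / 4 ≤ (M : ℝ) ^ 3 / P := by
    have h1 : (X : ℝ) / P / 8 ≤ (M : ℝ) ^ 3 / P := by
      have h2 : (X : ℝ) / P / 8 = (X / 8) / P := by ring
      rw [h2]
      exact div_le_div_of_nonneg_right (by linarith) hPR0.le
    linarith
  have h6P : 6 * P ≤ M ^ 3 := by
    have h1 : (6 * (P : ℝ)) ≤ (M : ℝ) ^ 3 := by
      have h2 : (100 : ℝ) * P ≤ P * P := mul_le_mul_of_nonneg_right (by linarith) hPR0.le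
      have h3 : (P : ℝ) * P = (P : ℝ) ^ 2 := by ring
      linarith
    exact_mod_cast h1
  have hQge : Q0 ≤ Q := by
    have h1 : Q0 ≤ l ^ (g + 1) := by
      rw [hQ0, Real.rpow_add hl0, Real.rpow_one, mul_comm]
      exact mul_le_mul_of_nonneg_left hCl (by positivity)
    have h2 : l ^ (g + 1) ≤ l ^ (24 * k0) := by
      rw [← Real.rpow_natCast]
      apply Real.rpow_le_rpow_of_exponent_le hl1
      push_cast
      linarith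
    have h3 : l ^ (24 * k0) ≤ 2 ^ 64 * l ^ (24 * k0) :=
      le_mul_of_one_le_left (by positivity) (by norm_num)
    linarith
  have hQR1 : (1 : ℝ) ≤ Q := hQ01.trans hQge
  have hQ1' : 1 ≤ Q := by exact_mod_cast hQR1
  have hlQ : (1 + Real.log Q) ^ 2 ≤ l := by
    have h1 : Real.log Q ≤ 25 * k0 * Real.log l := by
      have h2 := Real.log_le_log (by linarith) hQ2
      rw [Real.log_pow] at h2
      push_cast at h2
      exact h2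
    have h3 : 1 + Real.log Q ≤ l ^ (1 / 2 : ℝ) := by
      rw [Real.rpow_one] at f6
      refine le_trans ?_ f6
      have h5 : (25 * (k0 : ℝ) + 1) * Real.log l = 25 * k0 * Real.log l + Real.log l := by ring
      linarith
    have h4 : 0 ≤ Real.log Q := Real.log_nonneg hQR1
    calc (1 + Real.log Q) ^ 2 ≤ (l ^ (1 / 2 : ℝ)) ^ 2 := pow_le_pow_left₀ (by linarith) h3 2
      _ = l := by
        rw [← Real.rpow_natCast, ← Real.rpow_mul hl0.le]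
        norm_num
  have hQ4 : (Q : ℝ) ^ 4 ≤ (M : ℝ) ^ 3 / P := by
    have h1 : (Q : ℝ) ^ 4 ≤ l ^ (100 * k0 : ℝ) := by
      calc (Q : ℝ) ^ 4 ≤ (l ^ (25 * k0)) ^ 4 := pow_le_pow_left₀ (by linarith) hQ2 4
        _ = l ^ (100 * k0 : ℝ) := by
          rw [← pow_mul, ← Real.rpow_natCast]
          congr 1
          push_cast
          ring
    linarith
  -- the weights
  obtain ⟨B, hB⟩ : ∃ B, B = (Icc (1 : ℤ) (40 * M ^ 3)).filter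
      (fun s => (M : ℤ) ^ 3 < 2 * P * s ∧ P * s ≤ 36 * M ^ 3) := ⟨_, rfl⟩
  have hβ := an_beta Q M P l hQ1' hlQ (by linarith) hM0 hP0 h6P hQ4
  rw [← hB] at hβ
  obtain ⟨PP, hPP⟩ : ∃ PP, PP = (Ioc P P2).filter Nat.Prime := ⟨_, rfl⟩
  have hPP' : ∀ p ∈ PP, p.Prime ∧ P < p ∧ p ≤ 2 * P := by
    intro p hp
    rw [hPP, mem_filter, mem_Ioc] at hp
    exact ⟨hp.2, hp.1.1, hp.1.2.trans hP2⟩
  have hBc : ∀ m ∈ Ioc (M : ℤ) M', ∀ p ∈ PP, ∀ b : ℤ, m ^ 3 < p * b →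
      p * b ≤ m ^ 3 + (X : ℤ) → b ∈ B := by
    intro m hm p hp b h1 h2
    rw [mem_Ioc] at hm
    obtain ⟨hp1, hp2, hp3⟩ := hPP' p hp
    have hp2' : (P : ℤ) < p := by exact_mod_cast hp2
    have hp3' : (p : ℤ) ≤ 2 * P := by exact_mod_cast hp3
    have hMz : (1 : ℤ) ≤ M := by exact_mod_cast hM0
    have hm1 : (M : ℤ) ^ 3 ≤ m ^ 3 := pow_le_pow_left₀ (by linarith) hm.1.le 3
    have hm2 : m ≤ 3 * M := by
      have : (M' : ℤ) ≤ 2 * M + 1 := by exact_mod_cast hM2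
      linarith [hm.2]
    have hm3 : m ^ 3 ≤ 27 * (M : ℤ) ^ 3 := by
      calc m ^ 3 ≤ (3 * (M : ℤ)) ^ 3 := pow_le_pow_left₀ (by linarith) hm2 3
        _ = 27 * (M : ℤ) ^ 3 := by ring
    have hXz : (X : ℤ) ≤ 8 * (M : ℤ) ^ 3 := by exact_mod_cast hXM
    have hM3z : 0 < (M : ℤ) ^ 3 := by positivity
    have hpb : 0 < (p : ℤ) * b := by linarith
    have hpz : (0 : ℤ) < p := by exact_mod_cast hp1.pos
    have hb : 0 < b := (mul_pos_iff_of_pos_left hpz).1 hpb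
    have hpb2 : (p : ℤ) * b ≤ 35 * (M : ℤ) ^ 3 := by linarith
    rw [hB, mem_filter, mem_Icc]
    refine ⟨⟨by omega, ?_⟩, ?_, ?_⟩
    · have : b ≤ (p : ℤ) * b := le_mul_of_one_le_left hb.le (by omega)
      linarith
    · have : (p : ℤ) * b ≤ 2 * P * b := mul_le_mul_of_nonneg_right hp3' hb.le
      linarith
    · have : (P : ℤ) * b ≤ p * b := mul_le_mul_of_nonneg_right hp2'.le hb.le
      linarith
  have hBN : B ⊆ Icc (1 : ℤ) ((40 * M ^ 3 : ℕ) : ℤ) := by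
    rw [hB]
    push_cast
    exact filter_subset _ _
  -- the window length
  obtain ⟨y, hy⟩ : ∃ y : ℝ, y = (X : ℝ) / P * l ^ (-A1) := ⟨_, rfl⟩
  have hy2 : 2 ≤ y := by
    rw [hy, Real.rpow_neg hl0.le, ← div_eq_mul_inv, le_div_iff₀ (Real.rpow_pos_of_pos hl0 _)]
    rw [one_mul] at f5
    linarith
  obtain ⟨H, hH⟩ : ∃ H : ℕ, H = ⌊y⌋₊ := ⟨_, rfl⟩
  have hHy : (H : ℝ) ≤ y := by rw [hH]; exact Nat.floor_le (by linarith)
  have hHy2 : y - 1 < H := by rw [hH]; exact Nat.sub_one_lt_floor y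
  have hH1 : 1 ≤ H := by
    rw [hH]
    exact Nat.le_floor (by push_cast; linarith)
  have hHlow : (X : ℝ) / P * l ^ (-(A1 + 1)) ≤ H := by
    have h1 : (X : ℝ) / P * l ^ (-(A1 + 1)) = y / l := by
      rw [hy, neg_add, Real.rpow_add hl0, Real.rpow_neg_one]
      ring
    rw [h1, div_le_iff₀ hl0]
    have h2 : (1 : ℝ) ≤ H := by exact_mod_cast hH1
    have h3 : (H : ℝ) * 2 ≤ H * l := mul_le_mul_of_nonneg_left (by linarith) (by linarith)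
    linarith
  have hκ : (P : ℝ) * H / X ≤ l ^ (-A1) := by
    rw [div_le_iff₀ hX0]
    calc (P : ℝ) * H ≤ P * y := mul_le_mul_of_nonneg_left hHy hPR0.le
      _ = l ^ (-A1) * X := by rw [hy]; field_simp
  have hκ0 : 0 ≤ (P : ℝ) * H / X := by positivity
  have hS := an_le C l A1 E g ((P : ℝ) * H / X) Q0 hC f1 hg0 hE0.le hA11 hQ0 hκ0 hκ
  obtain ⟨S2, hS2⟩ : ∃ S2 : ℝ, S2 = (X : ℝ) ^ 2 * (M : ℝ) ^ 2 * l ^ (-(E - 12)) := ⟨_, rfl⟩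
  have hS20 : 0 ≤ S2 := by rw [hS2]; positivity
  have hfreq : ∀ q : ℕ, 1 ≤ q → (q : ℝ) ≤ C * T ^ c → ∀ (t : ℤ) (γ : ℝ),
      |γ - t / q| ≤ C * T ^ c / (q * X) → ‖Fh X (Ff M M' PP (bz Q)) γ‖ ^ 2 ≤ S2 := by
    intro q hq1 hq2 t γ hγ
    rw [hTc] at hq2 hγ
    have hqQ : q ≤ Q := by exact_mod_cast hq2.trans hQge
    have h1 := hXw' Q M P q H hQ2 hXM hP0 hMA' hPM3 hq1 hqQ hHlow (by rw [← hy]; exact hHy)
    rw [← hB] at h1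
    have h2 := low X M M' P H q PP hM0 hM2 (by omega) hXM hP0 hPX' hPP' h1600 hMA' hH1 hq1
      Q0 (l ^ (-E)) (l ^ 4) hQ01 (by positivity) (by positivity) (bz Q) B hBc h1 hβ t γ hγ
    have h3 : ‖Fh X (Ff M M' PP (bz Q)) γ‖ ≤ X * M * l ^ (-(E - 12) / 2) := by
      refine h2.trans ?_
      have h4 : 1000 * (X : ℝ) * M * (Real.sqrt (l ^ (-E)) +
          Q0 * ((P : ℝ) * H / X) * Real.sqrt (l ^ 4) + Real.sqrt (l ^ 4 * ((P : ℝ) * H / X))) =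
          X * M * (1000 * (Real.sqrt (l ^ (-E)) +
          Q0 * ((P : ℝ) * H / X) * Real.sqrt (l ^ 4) +
            Real.sqrt (l ^ 4 * ((P : ℝ) * H / X)))) := by ring
      rw [h4]
      exact mul_le_mul_of_nonneg_left hS (by positivity)
    calc ‖Fh X (Ff M M' PP (bz Q)) γ‖ ^ 2 ≤ (X * M * l ^ (-(E - 12) / 2)) ^ 2 :=
          pow_le_pow_left₀ (norm_nonneg _) h3 2
      _ = S2 := by
        rw [hS2, mul_pow, mul_pow]
        congr 1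
        rw [← Real.rpow_natCast, ← Real.rpow_mul hl0.le]
        congr 1
        push_cast
        ring
  have key := hv X M M' P (40 * M ^ 3) T (l ^ 4 * ((M : ℝ) ^ 3 / P)) S2 PP (bz Q) B hM0 hM2
    (by omega) hXM hP0 le_rfl hT1 hPP' (by rw [hTc]; exact hQPM) (by rw [hTc]; exact hQ0P)
    (by rw [hTc]; exact h4P) hBN hBc hβ hS20 hfreq
  rw [hTc, hsT] at key
  rw [← hPP, an_sum X M M' Q PP]
  have hV0 : 0 ≤ VV X (Ff M M' PP (bz Q)) := by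
    unfold VV
    exact sum_nonneg fun _ _ => sq_nonneg _
  have ha1 : 1 ≤ l ^ A := Real.one_le_rpow hl1 hA.le
  have hab : l ^ A * (l ^ g) ^ 2 * l ^ 100 ≤ l ^ A2 := by
    have h1 : l ^ A * (l ^ g) ^ 2 * l ^ 100 = l ^ (A + 2 * g + 100) := by
      rw [Real.rpow_add hl0, Real.rpow_add hl0, ← Real.rpow_natCast (l ^ g),
        ← Real.rpow_mul hl0.le, ← Real.rpow_natCast l 100]
      push_cast
      rw [mul_comm g 2]
    rw [h1]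
    exact Real.rpow_le_rpow_of_exponent_le hl1 hA2g.2.2.2
  have hfin := an_fin C l (l ^ A) (l ^ g) X M P (Real.log (40 * (M : ℝ) ^ 3))
    (VV X (Ff M M' PP (bz Q))) hC f1 ha1 hlg1 hX0 hMR0 hPR0 hlog40' hlog40
    (le_trans (mul_le_mul_of_nonneg_left hab (by positivity)) hMA) (hab.trans hPA) hV0 (by
      have h1 : S2 = (X : ℝ) ^ 2 * (M : ℝ) ^ 2 / ((l ^ A) ^ 2 * (l ^ g) ^ 2 * l ^ 28) := by
        rw [hS2, div_eq_mul_inv]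
        congr 1
        have h2 : (l ^ A) ^ 2 * (l ^ g) ^ 2 * l ^ 28 = l ^ (E - 12) := by
          rw [← Real.rpow_natCast (l ^ A), ← Real.rpow_natCast (l ^ g), ← Real.rpow_mul hl0.le,
            ← Real.rpow_mul hl0.le, ← Real.rpow_natCast l 28, ← Real.rpow_add hl0,
            ← Real.rpow_add hl0, hE]
          congr 1
          push_cast
          ring
        rw [h2, Real.rpow_neg hl0.le]
      rw [← h1, ← hQ0]
      exact key)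
  refine hfin.trans (le_of_eq ?_)
  rw [Real.rpow_neg hl0.le, div_eq_mul_inv]


end Pool.Agent.H96.EB
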