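import Pool.Agent.H43.PG.Emn
import Pool.Agent.H96.EB.An

/-!
# [H96 EB LC2] The statement `LC` of `H43/PG`, strong form

PROOF. `lc2`: `an` with `(A+3, ε)` and `fl` with `(A+3, k0)`; `A2 = max` of the two and `> 25 k0 + 1`. For `n = m^3+k` and `p ∈ (P,P2]` prime: `Q < P < p` (`Q <= l^(25k0) < l^A2 <= P`). If `p ∣ n` then `lq Q (n/p) = lq Q n`: for `r <= Q < p` and `d ∣ r`: `d ∣ n/p` iff `d ∣ n` (`gcd(d,p) = 1`), so `crd r (n/p) = crd r n`. Hence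
`Σ_{p ∣ n} az Q (n/p) = Σ_{p ∣ n} pr (n/p) - lq Q n Σ_{p ∣ n} 1/log(n/p)` (`il (n/p) = 1/log (n/p)`, the cast of the exact quotient), `Σ_{p ∣ n} pr(n/p) = ue P P2 n`, and `lam P P2 n = Σ_p 1/(p log(n/p))`. So `ae P P2 Q n = Σ_{p ∣ n} az Q (n/p) + lq Q n Σ_p (1[p ∣ n] - 1/p)/log(n/p)`.
`(a+b)^2 <= 2a^2 + 2b^2`: the mean square is `<= 4 X M^2 l^(-A-3) <= X M^2 l^(-A)`. (`P2^5 M^ε <= M` gives `P2^5 <= M`; `M^2 l^A2 <= XP` gives `M^2 <= XP`.)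
`lc`: `LC` has `M^ε <= P` and `M^(2+ε) <= X P`; for `X` large, `M >= (X/8)^(1/3)` gives `l^A2 <= M^ε` and `M^2 l^A2 <= M^(2+ε) <= X P`; `P <= P2` gives `P^5 M^(3+ε) <= X^2`.
-/

/-!
# [H96 EB LC2] The statement `LC` of `H43/PG`, strong form

PROOF. `lc2`: `an` with `(A+3, ε)` and `H43.PG.emn` with `(A+3, k0)`; `A2` = sum of the two and `25 k0`, so `Q <= P`. `H43.PG.edc`: `ae P P2 Q n = Σ_{p ∣ n} az Q (n/p) + ed P P2 Q n`.
`(a+b)^2 <= 2a^2 + 2b^2`: the mean square is `<= 4 X M^2 l^(-A-3) <= X M^2 l^(-A)`. (`P2^5 M^ε <= M` gives `P2^5 <= M`; `M^2 l^A2 <= XP` gives `M^2 <= XP`.)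
`lc`: `LC` has `M^ε <= P` and `M^(2+ε) <= X P`; for `X` large, `M >= (X/8)^(1/3)` gives `l^A2 <= M^ε` and `M^2 l^A2 <= M^(2+ε) <= X P`; `P <= P2` gives `P^5 M^(3+ε) <= X^2`.
-/

namespace Pool.Agent.H96.EB

open Finset

theorem lc2 (hfzs : H43.HY.FzS) (A ε : ℝ) (hA : 0 < A) (hε : 0 < ε) : ∃ K1 : ℕ, ∀ k0 : ℕ, K1 ≤ k0 → ∃ A2 : ℝ, 0 < A2 ∧
    ∃ X0 : ℕ, ∀ X : ℕ, X0 ≤ X →
    ∀ Q M M' P P2 : ℕ, 2 ^ 64 * (Real.log X) ^ (24 * k0) ≤ Q → (Q : ℝ) ≤ (Real.log X) ^ (25 * k0) →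
    X ≤ 8 * M ^ 3 → 2 * M ≤ M' → M' ≤ 2 * M + 1 → P ≤ P2 → P2 ≤ 2 * P →
    (Real.log X) ^ A2 ≤ P → (M : ℝ) ^ 2 * (Real.log X) ^ A2 ≤ X * P →
    (P2 : ℝ) ^ 5 * (M : ℝ) ^ ε ≤ M → (P2 : ℝ) ^ 5 * (M : ℝ) ^ (3 + ε) ≤ (X : ℝ) ^ 2 →
    ∑ k ∈ Icc 1 X, (∑ m ∈ Ioc M M', H43.PG.ae P P2 Q (m ^ 3 + k)) ^ 2 ≤
      X * (M : ℝ) ^ 2 * (Real.log X) ^ (-A) := by
  obtain ⟨K1, hK1⟩ := an hfzs (A + 3) ε (by linarith) hε
  refine ⟨K1, fun k0 hk0 => ?_⟩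
  obtain ⟨A2a, hA2a, Xa, hXa⟩ := hK1 k0 hk0
  obtain ⟨A2b, hA2b, Xb, hXb⟩ := H43.PG.emn (A + 3) (by linarith) k0
  have hlim : Filter.Tendsto (fun X : ℕ => Real.log X) Filter.atTop Filter.atTop :=
    Real.tendsto_log_atTop.comp tendsto_natCast_atTop_atTop
  obtain ⟨Xc, hXc⟩ := Filter.eventually_atTop.1 (hlim.eventually_ge_atTop 4)
  refine ⟨A2a + A2b + 25 * k0, by positivity, max Xa (max Xb (max Xc 1)), ?_⟩
  intro X hX Q M M' P P2 hQ1 hQ2 hXM h2M hM' hPP2 hP2P hlP hMX hP5 hP53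
  have hX1 : Xa ≤ X := (le_max_left _ _).trans hX
  have hX2 : Xb ≤ X := ((le_max_left _ _).trans (le_max_right _ _)).trans hX
  have hX3 : Xc ≤ X :=
    (((le_max_left _ _).trans (le_max_right _ _)).trans (le_max_right _ _)).trans hX
  have hX4 : 1 ≤ X :=
    (((le_max_right _ _).trans (le_max_right _ _)).trans (le_max_right _ _)).trans hX
  have hl : 4 ≤ Real.log X := hXc X hX3
  obtain ⟨l, hldef⟩ : ∃ l, l = Real.log X := ⟨_, rfl⟩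
  have hl4 : 4 ≤ l := by rw [hldef]; exact hl
  have hl1 : 1 ≤ l := by linarith
  have hl0 : 0 < l := by linarith
  have hM1 : 1 ≤ M := by
    rcases Nat.eq_zero_or_pos M with h | h
    · subst h
      simp at hXM
      omega
    · exact h
  have hMr : (1 : ℝ) ≤ M := by exact_mod_cast hM1
  have hM0 : (0 : ℝ) < M := by linarith
  have hk0R : (0 : ℝ) ≤ (k0 : ℝ) := Nat.cast_nonneg k0
  have hPP2r : (P : ℝ) ≤ P2 := by exact_mod_cast hPP2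
  have hP0 : (0 : ℝ) ≤ P := Nat.cast_nonneg P
  have hA2a' : l ^ A2a ≤ l ^ (A2a + A2b + 25 * k0) :=
    Real.rpow_le_rpow_of_exponent_le hl1 (by nlinarith)
  have hA2b' : l ^ A2b ≤ l ^ (A2a + A2b + 25 * k0) :=
    Real.rpow_le_rpow_of_exponent_le hl1 (by nlinarith)
  have hQr : (Q : ℝ) ≤ P := by
    refine hQ2.trans ?_
    refine le_trans ?_ hlP
    rw [← hldef, ← Real.rpow_natCast]
    refine Real.rpow_le_rpow_of_exponent_le hl1 ?_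
    push_cast
    linarith
  have hQP : Q ≤ P := by exact_mod_cast hQr
  have hMe : (1 : ℝ) ≤ (M : ℝ) ^ ε := Real.one_le_rpow hMr hε.le
  have hP5n : P2 ^ 5 ≤ M := by
    have h1 : (P2 : ℝ) ^ 5 ≤ M := by
      refine le_trans ?_ hP5
      exact le_mul_of_one_le_right (by positivity) hMe
    exact_mod_cast h1
  have hM2 : (M : ℝ) ^ 2 ≤ X * P := by
    refine le_trans ?_ hMX
    exact le_mul_of_one_le_right (by positivity)
      (Real.one_le_rpow (by rw [← hldef]; exact hl1) (by positivity))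
  have h1 := hXa X hX1 Q M M' P P2 hQ1 hQ2 hXM h2M hM' hPP2 hP2P
    (by rw [← hldef] at hlP ⊢; exact hA2a'.trans hlP)
    (by
      rw [← hldef] at hMX ⊢
      exact (mul_le_mul_of_nonneg_left hA2a' (by positivity)).trans hMX)
    (by
      refine le_trans ?_ hP53
      exact mul_le_mul_of_nonneg_right (pow_le_pow_left₀ hP0 hPP2r 5)
        (Real.rpow_nonneg hM0.le _))
  have h2 := hXb X hX2 Q M M' P P2 hQ2 hM' hPP2 hP2P
    (by rw [← hldef] at hlP ⊢; exact hA2b'.trans hlP) hP5n hM2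
  have h3 : ∑ k ∈ Icc 1 X, (∑ m ∈ Ioc M M', H43.PG.ae P P2 Q (m ^ 3 + k)) ^ 2 ≤
      2 * ∑ k ∈ Icc 1 X, (∑ m ∈ Ioc M M', ∑ p ∈ (Ioc P P2).filter Nat.Prime,
        if p ∣ m ^ 3 + k then H43.HY.az Q ((m ^ 3 + k) / p) else 0) ^ 2 +
      2 * ∑ k ∈ Icc 1 X, (∑ m ∈ Ioc M M', H43.PG.ed P P2 Q (m ^ 3 + k)) ^ 2 := by
    rw [Finset.mul_sum, Finset.mul_sum, ← sum_add_distrib]
    refine sum_le_sum fun k _ => ?_
    have h4 : ∑ m ∈ Ioc M M', H43.PG.ae P P2 Q (m ^ 3 + k) =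
        (∑ m ∈ Ioc M M', ∑ p ∈ (Ioc P P2).filter Nat.Prime,
          if p ∣ m ^ 3 + k then H43.HY.az Q ((m ^ 3 + k) / p) else 0) +
        ∑ m ∈ Ioc M M', H43.PG.ed P P2 Q (m ^ 3 + k) := by
      rw [← sum_add_distrib]
      refine sum_congr rfl fun m _ => ?_
      rw [H43.PG.edc P P2 Q (m ^ 3 + k) hQP]
      congr 1
      rw [← sum_filter, filter_filter]
    rw [h4]
    nlinarith [sq_nonneg ((∑ m ∈ Ioc M M', ∑ p ∈ (Ioc P P2).filter Nat.Prime,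
          if p ∣ m ^ 3 + k then H43.HY.az Q ((m ^ 3 + k) / p) else 0) -
        ∑ m ∈ Ioc M M', H43.PG.ed P P2 Q (m ^ 3 + k))]
  have h5 : (Real.log X) ^ (-(A + 3)) ≤ (Real.log X) ^ (-A) / 4 := by
    rw [← hldef]
    have h6 : l ^ (-(A + 3)) = l ^ (-A) * l ^ (-(3 : ℝ)) := by
      rw [← Real.rpow_add hl0]
      congr 1
      ring
    have h7 : l ^ (-(3 : ℝ)) ≤ 1 / 4 := by
      have h8 : l ^ (-(3 : ℝ)) ≤ l ^ (-(1 : ℝ)) :=
        Real.rpow_le_rpow_of_exponent_le hl1 (by norm_num)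
      refine h8.trans ?_
      rw [Real.rpow_neg_one, inv_eq_one_div]
      exact one_div_le_one_div_of_le (by norm_num) hl4
    rw [h6]
    have h9 : 0 < l ^ (-A) := Real.rpow_pos_of_pos hl0 _
    nlinarith
  have h10 : 0 ≤ (X : ℝ) * (M : ℝ) ^ 2 := by positivity
  have h11 := mul_le_mul_of_nonneg_left h5 h10
  linarith

theorem lc (hfzs : H43.HY.FzS) : H43.PG.LC := by
  intro A ε hA hε
  obtain ⟨K1, hK1⟩ := lc2 hfzs A ε hA hε
  refine ⟨K1, fun k0 hk0 => ?_⟩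
  obtain ⟨A2, hA2, Xa, hXa⟩ := hK1 k0 hk0
  -- `l^A2 <= ((X/8)^(1/3))^ε`
  have hev : ∀ᶠ X : ℝ in Filter.atTop, (Real.log X) ^ A2 ≤ (X / 8) ^ (ε / 3) := by
    have h1 := (isLittleO_log_rpow_rpow_atTop A2 (by positivity : 0 < ε / 3)).bound
      (by positivity : (0 : ℝ) < (1 / 8) ^ (ε / 3))
    filter_upwards [h1, Filter.eventually_ge_atTop 1] with X hX hX1
    rw [Real.norm_of_nonneg (Real.rpow_nonneg (Real.log_nonneg hX1) _),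
      Real.norm_of_nonneg (Real.rpow_nonneg (by linarith) _)] at hX
    rw [← Real.mul_rpow (by norm_num) (by linarith)] at hX
    convert hX using 2
    ring
  obtain ⟨Xb, hXb⟩ := Filter.eventually_atTop.1 hev
  refine ⟨max Xa (max ⌈Xb⌉₊ 8), ?_⟩
  intro X hX Q M M' P P2 hQ1 hQ2 hXM h2M hM' hPP2 hP2P hMP hM2 hP5 hP53
  have hX1 : Xa ≤ X := (le_max_left _ _).trans hX
  have hX2 : Xb ≤ (X : ℝ) := by
    have h1 : ⌈Xb⌉₊ ≤ X := ((le_max_left _ _).trans (le_max_right _ _)).trans hX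
    exact (Nat.le_ceil _).trans (by exact_mod_cast h1)
  have hX8 : 8 ≤ X := ((le_max_right _ _).trans (le_max_right _ _)).trans hX
  have h1 := hXb X hX2
  have hXM' : (X : ℝ) / 8 ≤ (M : ℝ) ^ 3 := by
    have h2 : (X : ℝ) ≤ 8 * (M : ℝ) ^ 3 := by exact_mod_cast hXM
    linarith
  have hX8' : (0 : ℝ) ≤ (X : ℝ) / 8 := by positivity
  have hM1 : 1 ≤ M := by
    rcases Nat.eq_zero_or_pos M with h | h
    · subst h
      simp at hXM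
      omega
    · exact h
  have hMr : (1 : ℝ) ≤ M := by exact_mod_cast hM1
  have hM0 : (0 : ℝ) < M := by linarith
  have h2 : ((X : ℝ) / 8) ^ (ε / 3) ≤ (M : ℝ) ^ ε := by
    refine (Real.rpow_le_rpow hX8' hXM' (by positivity)).trans ?_
    rw [← Real.rpow_natCast, ← Real.rpow_mul hM0.le]
    refine Real.rpow_le_rpow_of_exponent_le hMr ?_
    push_cast
    linarith
  have h3 : (Real.log X) ^ A2 ≤ (M : ℝ) ^ ε := h1.trans h2
  refine hXa X hX1 Q M M' P P2 hQ1 hQ2 hXM h2M hM' hPP2 hP2P (h3.trans hMP) ?_ hP5 hP53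
  refine le_trans ?_ hM2
  rw [Real.rpow_add hM0]
  have h4 : (M : ℝ) ^ (2 : ℝ) = (M : ℝ) ^ 2 := by
    rw [← Real.rpow_natCast]
    norm_num
  rw [h4]
  exact mul_le_mul_of_nonneg_left h3 (by positivity)

end Pool.Agent.H96.EB
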