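import Pool.Agent.H96.EB.Defs

/-!
# [H96 EB DIF] Two differencings

PROOF. `w = K/M^2`, `R = Rg M M' w ρ`, `φ z = z1^3/p - z2^3/p'`, `ee` = `e(x)` (`H24.AB.LSK`: `ee_add, ee_norm, ee_conj, ee_int`).
(1) `EE = Σ_{z,z' ∈ R, p ∣ z1-z1', p' ∣ z2-z2'} ee(α (φ z' - φ z))` (expand the squares: every pair with equal residues lies in exactly one class `c`; `z1 % p ∈ range p`). Write `z' = z + (p r, p' s)`, `h = (r,s)`: `nu2 h <= 2`, since `|p r| = |z1'-z1| <= M'-M-1 <= M` and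
`|p' s - ρ p r| = |(z2' - ρ z1') - (z2 - ρ z1)| <= 2w`. So `EE = Σ_{h ∈ Hs} U h`, `U h = Σ_{z ∈ R, z + (pr,p's) ∈ R} ee(α ψ_h(z))`, `ψ_h(z) = φ(z + (pr,p's)) - φ z = 3 r z1^2 + 3 p r^2 z1 + p^2 r^3 - (3 s z2^2 + 3 p' s^2 z2 + p'^2 s^3)`
(for `h ∈ Hs` with `nu2 h > 2` the sum `U h` is empty). `dif0`: `‖U h‖ <= card R`.
(2) Cauchy: `EE^2 <= card Hs * Σ_h ‖U h‖^2`, and `‖U h‖^2 = Σ_{z,z'} ee(α(ψ_h z' - ψ_h z))` over `z, z' ∈ R_h`, `z' = z + k`, `nu1 k <= 2`: `= Σ_{k ∈ Ks} Σ_{z ∈ Cv h k} ee(α(ψ_h(z+k) - ψ_h z))`,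
`ψ_h(z+k) - ψ_h(z) = 6 (k1 r z1 - k2 s z2) + const(h,k) = Ph k h z + const(h,k)`, so `‖U h‖^2 <= Σ_{k ∈ Ks} ‖TT h k α‖` (the factor `ee(α const)` has norm 1).
-/

namespace Pool.Agent.H96.EB

open Finset Pool.Agent.H24.AB

private theorem dif_sq {ι : Type*} [DecidableEq ι] (S : Finset (ℤ × ℤ)) (G : ℤ × ℤ → ℂ)
    (H : Finset ι) (D : ι → ℤ × ℤ) (hD : Function.Injective D)
    (hS : ∀ z ∈ S, ∀ z' ∈ S, ∃ h ∈ H, z' = z + D h) :
    (starRingEnd ℂ) (∑ z ∈ S, G z) * (∑ z ∈ S, G z) =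
      ∑ h ∈ H, ∑ z ∈ S.filter (fun z => z + D h ∈ S), (starRingEnd ℂ) (G z) * G (z + D h) := by
  classical
  have key : ∀ z ∈ S, ∑ z' ∈ S, G z' = ∑ h ∈ H.filter (fun h => z + D h ∈ S), G (z + D h) := by
    intro z hz
    have h1 : S = (H.filter (fun h => z + D h ∈ S)).image (fun h => z + D h) := by
      ext z'
      rw [Finset.mem_image]
      constructor
      · intro hz'
        obtain ⟨h, hh, he⟩ := hS z hz z' hz'
        exact ⟨h, Finset.mem_filter.2 ⟨hh, he ▸ hz'⟩, he.symm⟩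
      · rintro ⟨h, hh, rfl⟩
        exact (Finset.mem_filter.1 hh).2
    have h2 : ∑ z' ∈ (H.filter (fun h => z + D h ∈ S)).image (fun h => z + D h), G z' =
        ∑ h ∈ H.filter (fun h => z + D h ∈ S), G (z + D h) := by
      refine Finset.sum_image ?_
      intro a _ b _ hab
      exact hD (add_left_cancel hab)
    rw [← h2, ← h1]
  rw [map_sum, Finset.sum_mul]
  have h3 : ∑ z ∈ S, (starRingEnd ℂ) (G z) * ∑ z' ∈ S, G z' =
      ∑ z ∈ S, ∑ h ∈ H, if z + D h ∈ S then (starRingEnd ℂ) (G z) * G (z + D h) else 0 := by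
    refine Finset.sum_congr rfl fun z hz => ?_
    rw [key z hz, Finset.mul_sum, Finset.sum_filter]
  rw [h3, Finset.sum_comm]
  refine Finset.sum_congr rfl fun h _ => ?_
  rw [Finset.sum_filter]

private theorem dif_rg {M M' : ℕ} (hM' : M' ≤ 2 * M + 1) {w ρ : ℝ} {z z' : ℤ × ℤ}
    (hz : z ∈ Rg M M' w ρ) (hz' : z' ∈ Rg M M' w ρ) :
    |((z'.1 : ℝ) - z.1)| ≤ M ∧ |((z'.2 : ℝ) - z.2) - ρ * ((z'.1 : ℝ) - z.1)| ≤ 2 * w := by
  rw [Rg, Finset.mem_filter, Finset.mem_product, Finset.mem_Ioc, Finset.mem_Ioc] at hz hz'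
  obtain ⟨⟨⟨a1, a2⟩, -⟩, a5⟩ := hz
  obtain ⟨⟨⟨b1, b2⟩, -⟩, b5⟩ := hz'
  constructor
  · have h1 : |z'.1 - z.1| ≤ (M : ℤ) := by
      rw [abs_le]
      omega
    exact_mod_cast h1
  · have h1 : ((z'.2 : ℝ) - z.2) - ρ * ((z'.1 : ℝ) - z.1) =
        ((z'.2 : ℝ) - ρ * z'.1) - ((z.2 : ℝ) - ρ * z.1) := by ring
    rw [h1]
    refine (abs_sub _ _).trans ?_
    linarith

private theorem dif_nu1 {M M' : ℕ} (hM : 1 ≤ M) (hM' : M' ≤ 2 * M + 1) {K ρ : ℝ} (hK : 0 < K)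
    {z z' : ℤ × ℤ} (hz : z ∈ Rg M M' (K / M ^ 2) ρ) (hz' : z' ∈ Rg M M' (K / M ^ 2) ρ) :
    nu1 K M ρ (z' - z) ≤ 2 := by
  obtain ⟨h1, h2⟩ := dif_rg hM' hz hz'
  have hM0 : (0 : ℝ) < M := by exact_mod_cast hM
  have hw : 0 < K / (M : ℝ) ^ 2 := by positivity
  unfold nu1 gau
  refine max_le ?_ ?_
  · rw [div_le_iff₀ hM0]
    have h3 : (((z' - z).1 : ℤ) : ℝ) = (z'.1 : ℝ) - z.1 := by
      rw [Prod.fst_sub]
      push_cast
      ring
    rw [h3]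
    linarith
  · rw [div_le_iff₀ hw]
    have h3 : (((z' - z).1 : ℤ) : ℝ) = (z'.1 : ℝ) - z.1 := by
      rw [Prod.fst_sub]
      push_cast
      ring
    have h4 : (((z' - z).2 : ℤ) : ℝ) = (z'.2 : ℝ) - z.2 := by
      rw [Prod.snd_sub]
      push_cast
      ring
    rw [h3, h4]
    exact h2

private theorem dif_nu2 {M M' : ℕ} (hM : 1 ≤ M) (hM' : M' ≤ 2 * M + 1) {K ρ : ℝ} (hK : 0 < K)
    {p p' : ℕ} (hp : 1 ≤ p) (hp' : 1 ≤ p')
    {z z' h : ℤ × ℤ} (hz : z ∈ Rg M M' (K / M ^ 2) ρ) (hz' : z' ∈ Rg M M' (K / M ^ 2) ρ)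
    (he : z' = z + ((p : ℤ) * h.1, (p' : ℤ) * h.2)) :
    nu2 K M ρ p p' h ≤ 2 := by
  obtain ⟨h1, h2⟩ := dif_rg hM' hz hz'
  have hM0 : (0 : ℝ) < M := by exact_mod_cast hM
  have hp0 : (0 : ℝ) < p := by exact_mod_cast hp
  have hp0' : (0 : ℝ) < p' := by exact_mod_cast hp'
  have e1 : (z'.1 : ℝ) - z.1 = p * h.1 := by
    rw [he, Prod.fst_add]
    push_cast
    ring
  have e2 : (z'.2 : ℝ) - z.2 = p' * h.2 := by
    rw [he, Prod.snd_add]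
    push_cast
    ring
  rw [e1] at h1
  rw [e1, e2] at h2
  unfold nu2 gau
  refine max_le ?_ ?_
  · rw [div_le_iff₀ (by positivity)]
    rw [abs_mul, abs_of_pos hp0] at h1
    have h3 : |(h.1 : ℝ)| ≤ M / p := by
      rw [le_div_iff₀ hp0]
      linarith
    have h4 : (0 : ℝ) ≤ M / p := by positivity
    linarith
  · rw [div_le_iff₀ (by positivity)]
    have h3 : (h.2 : ℝ) - ρ * p / p' * h.1 = ((p' : ℝ) * h.2 - ρ * (p * h.1)) / p' := by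
      field_simp
    rw [h3, abs_div, abs_of_pos hp0', div_le_iff₀ hp0']
    have h4 : 2 * (K / ((M : ℝ) ^ 2 * p')) * p' = 2 * (K / (M : ℝ) ^ 2) := by
      field_simp
    rw [h4]
    exact h2

/-- the differencing map -/
private def difD (p p' : ℕ) (h : ℤ × ℤ) : ℤ × ℤ := ((p : ℤ) * h.1, (p' : ℤ) * h.2)

private theorem difD_inj {p p' : ℕ} (hp : 1 ≤ p) (hp' : 1 ≤ p') :
    Function.Injective (difD p p') := by
  intro a b hab
  have h1 : (p : ℤ) * a.1 = (p : ℤ) * b.1 := congrArg Prod.fst hab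
  have h2 : (p' : ℤ) * a.2 = (p' : ℤ) * b.2 := congrArg Prod.snd hab
  have hp0 : (p : ℤ) ≠ 0 := by
    have : (1 : ℤ) ≤ p := by exact_mod_cast hp
    omega
  have hp0' : (p' : ℤ) ≠ 0 := by
    have : (1 : ℤ) ≤ p' := by exact_mod_cast hp'
    omega
  exact Prod.ext (mul_left_cancel₀ hp0 h1) (mul_left_cancel₀ hp0' h2)

/-- the summand -/
private noncomputable def difF (p p' : ℕ) (α : ℝ) (z : ℤ × ℤ) : ℂ :=
  ee (α * ((z.1 : ℝ) ^ 3 / p - (z.2 : ℝ) ^ 3 / p'))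

/-- the sums after one differencing -/
private noncomputable def difU (M M' : ℕ) (w ρ : ℝ) (p p' : ℕ) (α : ℝ) (h : ℤ × ℤ) : ℂ :=
  ∑ z ∈ (Rg M M' w ρ).filter (fun z => z + difD p p' h ∈ Rg M M' w ρ),
    (starRingEnd ℂ) (difF p p' α z) * difF p p' α (z + difD p p' h)

private theorem dif_one {M M' : ℕ} (hM : 1 ≤ M) (hM' : M' ≤ 2 * M + 1) {K ρ : ℝ} (hK : 0 < K)
    {p p' : ℕ} (hp : 1 ≤ p) (hp' : 1 ≤ p') (α : ℝ) {Hs : Finset (ℤ × ℤ)}
    (hH : ∀ h, nu2 K M ρ p p' h ≤ 2 → h ∈ Hs) :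
    EE M M' (K / M ^ 2) ρ p p' α ≤ ∑ h ∈ Hs, ‖difU M M' (K / M ^ 2) ρ p p' α h‖ := by
  classical
  set w : ℝ := K / (M : ℝ) ^ 2 with hw
  set R := Rg M M' w ρ with hR
  have hpz : (0 : ℤ) < p := by exact_mod_cast hp
  have hpz' : (0 : ℤ) < p' := by exact_mod_cast hp'
  have hcl : ∀ c : ℕ × ℕ, ∀ z ∈ R.filter (fun z : ℤ × ℤ => z.1 % (p : ℤ) = (c.1 : ℤ) ∧
      z.2 % (p' : ℤ) = (c.2 : ℤ)), ∀ z' ∈ R.filter (fun z : ℤ × ℤ => z.1 % (p : ℤ) = (c.1 : ℤ) ∧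
      z.2 % (p' : ℤ) = (c.2 : ℤ)), ∃ h ∈ Hs, z' = z + difD p p' h := by
    intro c z hz z' hz'
    obtain ⟨a1, a2, a3⟩ := Finset.mem_filter.1 hz
    obtain ⟨b1, b2, b3⟩ := Finset.mem_filter.1 hz'
    obtain ⟨r, hr⟩ : (p : ℤ) ∣ z'.1 - z.1 :=
      Int.ModEq.dvd (show z.1 ≡ z'.1 [ZMOD p] from a2.trans b2.symm)
    obtain ⟨s, hs⟩ : (p' : ℤ) ∣ z'.2 - z.2 :=
      Int.ModEq.dvd (show z.2 ≡ z'.2 [ZMOD p'] from a3.trans b3.symm)
    have he : z' = z + ((p : ℤ) * r, (p' : ℤ) * s) := by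
      refine Prod.ext ?_ ?_
      · show z'.1 = z.1 + (p : ℤ) * r
        rw [← hr]
        ring
      · show z'.2 = z.2 + (p' : ℤ) * s
        rw [← hs]
        ring
    exact ⟨(r, s), hH _ (dif_nu2 hM hM' hK hp hp' a1 b1 he), he⟩
  have h1 : ((EE M M' w ρ p p' α : ℝ) : ℂ) = ∑ h ∈ Hs, difU M M' w ρ p p' α h := by
    unfold EE
    push_cast
    have h2 : ∀ c ∈ range p ×ˢ range p', ((‖Sc M M' w ρ p p' c α‖ : ℝ) : ℂ) ^ 2 =
        ∑ h ∈ Hs, ∑ z ∈ (R.filter (fun z : ℤ × ℤ => z.1 % (p : ℤ) = (c.1 : ℤ) ∧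
          z.2 % (p' : ℤ) = (c.2 : ℤ))).filter (fun z => z + difD p p' h ∈ R),
          (starRingEnd ℂ) (difF p p' α z) * difF p p' α (z + difD p p' h) := by
      intro c _
      have h3 := dif_sq _ (difF p p' α) Hs (difD p p') (difD_inj hp hp') (hcl c)
      have h4 : Sc M M' w ρ p p' c α = ∑ z ∈ R.filter (fun z : ℤ × ℤ => z.1 % (p : ℤ) = (c.1 : ℤ) ∧
          z.2 % (p' : ℤ) = (c.2 : ℤ)), difF p p' α z := rfl
      rw [← Complex.conj_mul', h4, h3]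
      refine Finset.sum_congr rfl fun h _ => ?_
      refine Finset.sum_congr ?_ fun _ _ => rfl
      refine Finset.filter_congr fun z hz => ?_
      obtain ⟨a1, a2, a3⟩ := Finset.mem_filter.1 hz
      rw [Finset.mem_filter]
      constructor
      · exact fun h => h.1
      · intro h5
        refine ⟨h5, ?_, ?_⟩
        · show (z.1 + (p : ℤ) * h.1) % (p : ℤ) = _
          rw [Int.add_mul_emod_self_left, a2]
        · show (z.2 + (p' : ℤ) * h.2) % (p' : ℤ) = _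
          rw [Int.add_mul_emod_self_left, a3]
    rw [Finset.sum_congr rfl h2, Finset.sum_comm]
    refine Finset.sum_congr rfl fun h _ => ?_
    unfold difU
    -- fibres of the class map
    have h3 : ∀ z ∈ R.filter (fun z => z + difD p p' h ∈ R),
        ((z.1 % (p : ℤ)).toNat, (z.2 % (p' : ℤ)).toNat) ∈ range p ×ˢ range p' := by
      intro z _
      have e1 := Int.emod_nonneg z.1 hpz.ne'
      have e2 := Int.emod_lt_of_pos z.1 hpz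
      have e3 := Int.emod_nonneg z.2 hpz'.ne'
      have e4 := Int.emod_lt_of_pos z.2 hpz'
      rw [Finset.mem_product, Finset.mem_range, Finset.mem_range]
      constructor
      · show (z.1 % (p : ℤ)).toNat < p
        omega
      · show (z.2 % (p' : ℤ)).toNat < p'
        omega
    rw [← Finset.sum_fiberwise_of_maps_to h3]
    refine Finset.sum_congr rfl fun c _ => ?_
    refine Finset.sum_congr ?_ fun _ _ => rfl
    ext z
    simp only [Finset.mem_filter]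
    have e1 := Int.emod_nonneg z.1 hpz.ne'
    have e3 := Int.emod_nonneg z.2 hpz'.ne'
    constructor
    · rintro ⟨⟨a1, a2, a3⟩, a4⟩
      refine ⟨⟨a1, a4⟩, ?_⟩
      refine Prod.ext ?_ ?_
      · show (z.1 % (p : ℤ)).toNat = c.1
        omega
      · show (z.2 % (p' : ℤ)).toNat = c.2
        omega
    · rintro ⟨⟨a1, a4⟩, a5⟩
      have a6 : (z.1 % (p : ℤ)).toNat = c.1 := congrArg Prod.fst a5
      have a7 : (z.2 % (p' : ℤ)).toNat = c.2 := congrArg Prod.snd a5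
      refine ⟨⟨a1, ?_, ?_⟩, a4⟩
      · omega
      · omega
  have h0 : 0 ≤ EE M M' w ρ p p' α := by
    unfold EE
    positivity
  calc EE M M' w ρ p p' α = ‖((EE M M' w ρ p p' α : ℝ) : ℂ)‖ := by
        rw [Complex.norm_real, Real.norm_of_nonneg h0]
    _ ≤ ∑ h ∈ Hs, ‖difU M M' w ρ p p' α h‖ := by
        rw [h1]
        exact norm_sum_le _ _

private theorem dif_F_norm (p p' : ℕ) (α : ℝ) (z : ℤ × ℤ) : ‖difF p p' α z‖ = 1 :=
  Pool.Agent.H24.AB.ee_norm _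

theorem dif0 (M M' : ℕ) (hM : 1 ≤ M) (hM' : M' ≤ 2 * M + 1) (K ρ : ℝ) (hK : 0 < K) (p p' : ℕ)
    (hp : 1 ≤ p) (hp' : 1 ≤ p') (α : ℝ) (Hs : Finset (ℤ × ℤ))
    (hH : ∀ h, nu2 K M ρ p p' h ≤ 2 → h ∈ Hs) :
    EE M M' (K / M ^ 2) ρ p p' α ≤ Hs.card * (Rg M M' (K / M ^ 2) ρ).card := by
  refine (dif_one hM hM' hK hp hp' α hH).trans ?_
  rw [← nsmul_eq_mul, ← Finset.sum_const]
  refine Finset.sum_le_sum fun h _ => ?_
  unfold difU
  refine (norm_sum_le _ _).trans ?_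
  have h1 : ∀ z ∈ (Rg M M' (K / M ^ 2) ρ).filter (fun z => z + difD p p' h ∈ Rg M M' (K / M ^ 2) ρ),
      ‖(starRingEnd ℂ) (difF p p' α z) * difF p p' α (z + difD p p' h)‖ = 1 := by
    intro z _
    rw [norm_mul, RCLike.norm_conj, dif_F_norm, dif_F_norm, one_mul]
  rw [Finset.sum_congr rfl h1, Finset.sum_const, nsmul_eq_mul, mul_one]
  exact_mod_cast Finset.card_filter_le _ _

private theorem dif_phase {p p' : ℕ} (hp : 1 ≤ p) (hp' : 1 ≤ p') (α : ℝ) (h k z : ℤ × ℤ) :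
    (starRingEnd ℂ) ((starRingEnd ℂ) (difF p p' α z) * difF p p' α (z + difD p p' h)) *
      ((starRingEnd ℂ) (difF p p' α (z + k)) * difF p p' α (z + k + difD p p' h)) =
    ee (α * (3 * (k.1 : ℝ) ^ 2 * h.1 + 3 * k.1 * p * (h.1 : ℝ) ^ 2 -
      (3 * (k.2 : ℝ) ^ 2 * h.2 + 3 * k.2 * p' * (h.2 : ℝ) ^ 2))) * ee (α * Ph k h z) := by
  have hp0 : (p : ℝ) ≠ 0 := by
    have : (1 : ℝ) ≤ p := by exact_mod_cast hp
    linarith
  have hp0' : (p' : ℝ) ≠ 0 := by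
    have : (1 : ℝ) ≤ p' := by exact_mod_cast hp'
    linarith
  unfold difF
  rw [map_mul, Complex.conj_conj, Pool.Agent.H24.AB.ee_conj, Pool.Agent.H24.AB.ee_conj,
    ← Pool.Agent.H24.AB.ee_add, ← Pool.Agent.H24.AB.ee_add, ← Pool.Agent.H24.AB.ee_add,
    ← Pool.Agent.H24.AB.ee_add]
  congr 1
  unfold difD Ph
  simp only [Prod.fst_add, Prod.snd_add]
  push_cast
  field_simp
  ring

theorem dif (M M' : ℕ) (hM : 1 ≤ M) (hM' : M' ≤ 2 * M + 1) (K ρ : ℝ) (hK : 0 < K) (p p' : ℕ)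
    (hp : 1 ≤ p) (hp' : 1 ≤ p') (α : ℝ) (Hs Ks : Finset (ℤ × ℤ))
    (hH : ∀ h, nu2 K M ρ p p' h ≤ 2 → h ∈ Hs) (hKs : ∀ k, nu1 K M ρ k ≤ 2 → k ∈ Ks) :
    (EE M M' (K / M ^ 2) ρ p p' α) ^ 2 ≤
      Hs.card * ∑ h ∈ Hs, ∑ k ∈ Ks, ‖TT M M' (K / M ^ 2) ρ p p' h k α‖ := by
  classical
  have h1 := dif_one hM hM' hK hp hp' α hH
  have h0 : 0 ≤ EE M M' (K / M ^ 2) ρ p p' α := by
    unfold EE
    positivity
  have h2 : (EE M M' (K / M ^ 2) ρ p p' α) ^ 2 ≤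
      (∑ h ∈ Hs, ‖difU M M' (K / M ^ 2) ρ p p' α h‖) ^ 2 := pow_le_pow_left₀ h0 h1 2
  refine h2.trans ((sq_sum_le_card_mul_sum_sq).trans ?_)
  refine mul_le_mul_of_nonneg_left ?_ (Nat.cast_nonneg _)
  refine Finset.sum_le_sum fun h _ => ?_
  set w : ℝ := K / (M : ℝ) ^ 2 with hw
  set R := Rg M M' w ρ with hR
  have hS : ∀ z ∈ R.filter (fun z => z + difD p p' h ∈ R),
      ∀ z' ∈ R.filter (fun z => z + difD p p' h ∈ R), ∃ k ∈ Ks, z' = z + id k := by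
    intro z hz z' hz'
    have a1 := (Finset.mem_filter.1 hz).1
    have b1 := (Finset.mem_filter.1 hz').1
    refine ⟨z' - z, hKs _ (dif_nu1 hM hM' hK a1 b1), ?_⟩
    show z' = z + (z' - z)
    ring
  have h3 := dif_sq (R.filter (fun z => z + difD p p' h ∈ R))
    (fun z => (starRingEnd ℂ) (difF p p' α z) * difF p p' α (z + difD p p' h)) Ks id
    Function.injective_id hS
  have h4 : ‖difU M M' w ρ p p' α h‖ ^ 2 =
      ‖(starRingEnd ℂ) (difU M M' w ρ p p' α h) * difU M M' w ρ p p' α h‖ := by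
    rw [norm_mul, RCLike.norm_conj, sq]
  rw [h4]
  unfold difU
  rw [h3]
  refine (norm_sum_le _ _).trans (Finset.sum_le_sum fun k _ => ?_)
  have h5 : (R.filter (fun z => z + difD p p' h ∈ R)).filter
      (fun z => z + id k ∈ R.filter (fun z => z + difD p p' h ∈ R)) = Cv M M' w ρ p p' h k := by
    ext z
    simp only [Cv, Finset.mem_filter, id]
    constructor
    · rintro ⟨⟨a1, a2⟩, a3, a4⟩
      exact ⟨a1, a2, a3, a4⟩
    · rintro ⟨a1, a2, a3, a4⟩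
      exact ⟨⟨a1, a2⟩, a3, a4⟩
  rw [h5]
  have h6 : ∑ z ∈ Cv M M' w ρ p p' h k,
      (starRingEnd ℂ) ((starRingEnd ℂ) (difF p p' α z) * difF p p' α (z + difD p p' h)) *
        ((starRingEnd ℂ) (difF p p' α (z + id k)) * difF p p' α (z + id k + difD p p' h)) =
      ee (α * (3 * (k.1 : ℝ) ^ 2 * h.1 + 3 * k.1 * p * (h.1 : ℝ) ^ 2 -
        (3 * (k.2 : ℝ) ^ 2 * h.2 + 3 * k.2 * p' * (h.2 : ℝ) ^ 2))) *
        TT M M' w ρ p p' h k α := by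
    unfold TT
    rw [Finset.mul_sum]
    refine Finset.sum_congr rfl fun z _ => ?_
    exact dif_phase hp hp' α h k z
  rw [h6, norm_mul, Pool.Agent.H24.AB.ee_norm, one_mul]

end Pool.Agent.H96.EB
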