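import Pool.Agent.H96.EB.Defs

/-!
# [H96 EB LIN] Exponential sums of linear forms over convex sets of lattice points

PROOF. `rg_diff`: two points of `Rg M M' (K/M^2) ρ`: `|z1 - z1'| <= M'-M-1 <= M`, `|(z2-ρz1) - (z2'-ρz1')| <= 2K/M^2`. `cv_conv`: `Rg` is the set of integer points of a convex set (box and strip: `z + j u` is the convex combination of `z` and `z + n u` with weight `j/n`); `Cv` is an
intersection of translates of it.
`lin`: coordinates `x z = z.1 v.2 - z.2 v.1`, `y z = u.1 z.2 - u.2 z.1`: `z = x u + y v` (from `det = 1`). Group the sum by the value `y0` of `y`: by `hx2` the values of `y` on `C` lie in an interval of length `L2`, at most `L2 + 1` values. For fixed `y0` the fibre is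
`{x0 u + y0 v : x ∈ I}` with `I` an interval of integers (by `hconv`, starting from the point with the smallest `x`), of at most `L1 + 1` elements (`hx1`). On it `f z = ee(α (a z.1 + b z.2)) = ee(c) ee(x α (a u.1 + b u.2))` with `c` fixed: write `I = {x1, ..., x1 + n - 1}`,
`Σ = ee(..) Σ_{i ∈ range n} ee(i t)`, `t = α (a u.1 + b u.2)`; `‖Σ‖ <= n` and `‖Σ‖ * 2 dz t <= 1` (`H24.AB.dk_bound` with `k = round t`, `|t - round t| <= 1/2`; trivial if `dz t = 0`).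
-/

namespace Pool.Agent.H96.EB

open Finset Pool.Agent.H24.AB

theorem rg_diff (M M' : ℕ) (hM : 1 ≤ M) (hM' : M' ≤ 2 * M + 1) (K ρ : ℝ) (hK : 0 < K)
    (z z' : ℤ × ℤ) (hz : z ∈ Rg M M' (K / M ^ 2) ρ) (hz' : z' ∈ Rg M M' (K / M ^ 2) ρ) :
    nu1 K M ρ (z - z') ≤ 2 := by
  simp only [Rg, mem_filter, mem_product, mem_Ioc] at hz hz'
  obtain ⟨⟨⟨a1, a2⟩, -, -⟩, a3⟩ := hz
  obtain ⟨⟨⟨b1, b2⟩, -, -⟩, b3⟩ := hz'
  have hM0 : (0 : ℝ) < M := by exact_mod_cast hM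
  have hw : 0 < K / (M : ℝ) ^ 2 := by positivity
  unfold nu1 gau
  apply max_le
  · rw [div_le_iff₀ hM0]
    have h1 : |((z - z').1 : ℤ)| ≤ (M : ℤ) := by
      rw [abs_le, Prod.fst_sub]
      constructor <;> omega
    have h2 : |(((z - z').1 : ℤ) : ℝ)| ≤ (M : ℝ) := by
      rw [← Int.cast_abs]
      exact_mod_cast h1
    linarith
  · rw [div_le_iff₀ hw, Prod.fst_sub, Prod.snd_sub]
    push_cast
    have h1 : (z.2 : ℝ) - z'.2 - ρ * (z.1 - z'.1) = (z.2 - ρ * z.1) - (z'.2 - ρ * z'.1) := by ring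
    rw [h1]
    refine (abs_sub _ _).trans ?_
    linarith

private theorem rg_conv (M M' : ℕ) (w ρ : ℝ) (u z : ℤ × ℤ) (n : ℕ) (hz : z ∈ Rg M M' w ρ)
    (hn : z + (n : ℤ) • u ∈ Rg M M' w ρ) (j : ℕ) (hj : j ≤ n) : z + (j : ℤ) • u ∈ Rg M M' w ρ := by
  simp only [Rg, mem_filter, mem_product, mem_Ioc, Prod.fst_add, Prod.snd_add, Prod.smul_fst,
    Prod.smul_snd, smul_eq_mul] at hz hn ⊢
  obtain ⟨⟨⟨a1, a2⟩, a3, a4⟩, a5⟩ := hz
  obtain ⟨⟨⟨b1, b2⟩, b3, b4⟩, b5⟩ := hn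
  have hjn : (j : ℤ) ≤ n := by exact_mod_cast hj
  have hj0 : (0 : ℤ) ≤ j := Int.natCast_nonneg j
  have key : ∀ a c : ℤ, (M : ℤ) < a → a ≤ M' → (M : ℤ) < a + n * c → a + n * c ≤ M' →
      (M : ℤ) < a + j * c ∧ a + j * c ≤ M' := by
    intro a c h1 h2 h3 h4
    rcases le_total 0 c with hc | hc
    · have e1 : 0 ≤ (j : ℤ) * c := mul_nonneg hj0 hc
      have e2 : (j : ℤ) * c ≤ n * c := mul_le_mul_of_nonneg_right hjn hc
      constructor <;> linarith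
    · have e1 : (j : ℤ) * c ≤ 0 := mul_nonpos_of_nonneg_of_nonpos hj0 hc
      have e2 : (n : ℤ) * c ≤ j * c := mul_le_mul_of_nonpos_right hjn hc
      constructor <;> linarith
  refine ⟨⟨key _ _ a1 a2 b1 b2, key _ _ a3 a4 b3 b4⟩, ?_⟩
  push_cast at b5 ⊢
  have hjr : (j : ℝ) ≤ n := by exact_mod_cast hj
  have hjr0 : (0 : ℝ) ≤ j := Nat.cast_nonneg j
  have e1 : (z.2 : ℝ) + n * u.2 - ρ * (z.1 + n * u.1) = (z.2 - ρ * z.1) + n * (u.2 - ρ * u.1) := by ring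
  have e2 : (z.2 : ℝ) + j * u.2 - ρ * (z.1 + j * u.1) = (z.2 - ρ * z.1) + j * (u.2 - ρ * u.1) := by ring
  rw [e1] at b5
  rw [e2]
  generalize (z.2 : ℝ) - ρ * z.1 = A at a5 b5 ⊢
  generalize (u.2 : ℝ) - ρ * u.1 = B at b5 ⊢
  rw [abs_le] at a5 b5 ⊢
  rcases le_total 0 B with hc | hc
  · have e1 : 0 ≤ (j : ℝ) * B := mul_nonneg hjr0 hc
    have e2 : (j : ℝ) * B ≤ n * B := mul_le_mul_of_nonneg_right hjr hc
    constructor <;> linarith
  · have e1 : (j : ℝ) * B ≤ 0 := mul_nonpos_of_nonneg_of_nonpos hjr0 hc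
    have e2 : (n : ℝ) * B ≤ j * B := mul_le_mul_of_nonpos_right hjr hc
    constructor <;> linarith

theorem cv_conv (M M' : ℕ) (w ρ : ℝ) (p p' : ℕ) (h k u z : ℤ × ℤ) (n : ℕ)
    (hz : z ∈ Cv M M' w ρ p p' h k) (hn : z + (n : ℤ) • u ∈ Cv M M' w ρ p p' h k) (j : ℕ)
    (hj : j ≤ n) : z + (j : ℤ) • u ∈ Cv M M' w ρ p p' h k := by
  rw [Cv, mem_filter] at hz hn ⊢
  obtain ⟨a1, a2, a3, a4⟩ := hz
  obtain ⟨b1, b2, b3, b4⟩ := hn
  have e1 : ∀ (m : ℕ) (q : ℤ × ℤ), z + (m : ℤ) • u + q = z + q + (m : ℤ) • u := fun m q => by abel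
  have e2 : ∀ (m : ℕ) (q r : ℤ × ℤ), z + (m : ℤ) • u + q + r = z + q + r + (m : ℤ) • u :=
    fun m q r => by abel
  rw [e1] at b2 b3
  rw [e2] at b4
  have e3 := e2 j k ((p : ℤ) * h.1, (p' : ℤ) * h.2)
  rw [e3, e1 j k, e1 j]
  exact ⟨rg_conv M M' w ρ u _ n a1 b1 j hj, rg_conv M M' w ρ u _ n a2 b2 j hj,
    rg_conv M M' w ρ u _ n a3 b3 j hj, rg_conv M M' w ρ u _ n a4 b4 j hj⟩

private theorem ee_add' (x y : ℝ) : ee (x + y) = ee x * ee y := by
  unfold ee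
  rw [← Complex.exp_add]
  congr 1
  push_cast
  ring

private theorem ee_norm' (x : ℝ) : ‖ee x‖ = 1 := by
  unfold ee
  have : (2 * Real.pi * x * Complex.I : ℂ) = ((2 * Real.pi * x : ℝ) : ℂ) * Complex.I := by push_cast; ring
  rw [this, Complex.norm_exp_ofReal_mul_I]

private theorem card_int (S : Finset ℤ) (L : ℝ) (hL : 0 ≤ L)
    (h : ∀ a ∈ S, ∀ b ∈ S, |((a - b : ℤ) : ℝ)| ≤ L) : (S.card : ℝ) ≤ L + 1 := by
  rcases S.eq_empty_or_nonempty with rfl | hne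
  · simp
    linarith
  have h1 : S ⊆ Finset.Icc (S.min' hne) (S.min' hne + ⌊L⌋) := by
    intro b hb
    rw [mem_Icc]
    refine ⟨S.min'_le b hb, ?_⟩
    have h2 := (le_abs_self _).trans (h b hb _ (S.min'_mem hne))
    have h3 : b - S.min' hne ≤ ⌊L⌋ := Int.le_floor.2 h2
    linarith
  have h2 := card_le_card h1
  rw [Int.card_Icc] at h2
  have h3 : (0 : ℤ) ≤ ⌊L⌋ := Int.floor_nonneg.2 hL
  have h4 : (S.card : ℤ) ≤ ⌊L⌋ + 1 := by omega
  have h5 : (S.card : ℝ) ≤ (⌊L⌋ : ℝ) + 1 := by exact_mod_cast h4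
  linarith [Int.floor_le L]

/-- one line -/
private theorem line (F : Finset (ℤ × ℤ)) (u z0 : ℤ × ℤ) (hu : u ≠ 0) (N : ℕ)
    (hF : ∀ z, z ∈ F ↔ ∃ i : ℕ, i ≤ N ∧ z = z0 + (i : ℤ) • u) (a b : ℤ) (α : ℝ) :
    ‖∑ z ∈ F, ee (α * ((a * z.1 + b * z.2 : ℤ) : ℝ))‖ ≤ N + 1 ∧
    ‖∑ z ∈ F, ee (α * ((a * z.1 + b * z.2 : ℤ) : ℝ))‖ *
      (2 * dz (α * ((a * u.1 + b * u.2 : ℤ) : ℝ))) ≤ 1 := by
  have hinj : ∀ i j : ℕ, z0 + (i : ℤ) • u = z0 + (j : ℤ) • u → i = j := by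
    intro i j hij
    have h1 : (i : ℤ) • u = (j : ℤ) • u := add_left_cancel hij
    have h2 : ((i : ℤ) - j) • u = 0 := by rw [sub_smul, h1, sub_self]
    rcases smul_eq_zero.1 h2 with h3 | h3
    · omega
    · exact absurd h3 hu
  have hFi : F = (range (N + 1)).image (fun i : ℕ => z0 + (i : ℤ) • u) := by
    ext z
    rw [hF, mem_image]
    constructor
    · rintro ⟨i, hi, rfl⟩
      exact ⟨i, mem_range.2 (by omega), rfl⟩
    · rintro ⟨i, hi, rfl⟩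
      exact ⟨i, by have := mem_range.1 hi; omega, rfl⟩
  have hsum : ∑ z ∈ F, ee (α * ((a * z.1 + b * z.2 : ℤ) : ℝ)) =
      ee (α * ((a * z0.1 + b * z0.2 : ℤ) : ℝ)) *
        ∑ i ∈ range (N + 1), ee (i * (α * ((a * u.1 + b * u.2 : ℤ) : ℝ))) := by
    rw [hFi, sum_image (fun i _ j _ hij => hinj i j hij), mul_sum]
    refine sum_congr rfl fun i _ => ?_
    rw [← ee_add']
    congr 1
    simp only [Prod.fst_add, Prod.snd_add, Prod.smul_fst, Prod.smul_snd, smul_eq_mul]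
    push_cast
    ring
  rw [hsum, norm_mul, ee_norm', one_mul]
  set t := α * ((a * u.1 + b * u.2 : ℤ) : ℝ) with ht
  constructor
  · refine (norm_sum_le _ _).trans ?_
    rw [sum_congr rfl fun i _ => ee_norm' _, sum_const, card_range, nsmul_eq_mul, mul_one]
    push_cast
    exact le_rfl
  · by_cases h0 : t - round t = 0
    · unfold dz
      rw [h0, abs_zero, mul_zero, mul_zero]
      exact zero_le_one
    · have h1 := dk_bound (N + 1) t (round t) (abs_sub_round t) h0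
      have h2 : 0 < |t - round t| := abs_pos.2 h0
      have h3 : (‖∑ i ∈ range (N + 1), ee (i * t)‖ * (2 * dz t)) ^ 2 ≤ 1 ^ 2 := by
        unfold dz
        rw [mul_pow, mul_pow, sq_abs, one_pow]
        have h4 : 0 < (t - round t) ^ 2 := by positivity
        calc ‖∑ i ∈ range (N + 1), ee (i * t)‖ ^ 2 * (2 ^ 2 * (t - round t) ^ 2) ≤
            (1 / (4 * (t - round t) ^ 2)) * (2 ^ 2 * (t - round t) ^ 2) :=
              mul_le_mul_of_nonneg_right h1 (by positivity)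
          _ = 1 := by
            field_simp
            norm_num
      exact le_of_sq_le_sq h3 zero_le_one

theorem lin (C : Finset (ℤ × ℤ)) (u v : ℤ × ℤ) (hdet : u.1 * v.2 - u.2 * v.1 = 1) (L1 L2 : ℝ)
    (hL1 : 0 ≤ L1) (hL2 : 0 ≤ L2)
    (hconv : ∀ z ∈ C, ∀ n : ℕ, z + (n : ℤ) • u ∈ C → ∀ j ≤ n, z + (j : ℤ) • u ∈ C)
    (hx1 : ∀ z ∈ C, ∀ z' ∈ C, |(((z.1 - z'.1) * v.2 - (z.2 - z'.2) * v.1 : ℤ) : ℝ)| ≤ L1)
    (hx2 : ∀ z ∈ C, ∀ z' ∈ C, |((u.1 * (z.2 - z'.2) - u.2 * (z.1 - z'.1) : ℤ) : ℝ)| ≤ L2)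
    (a b : ℤ) (α : ℝ) :
    ‖∑ z ∈ C, ee (α * ((a * z.1 + b * z.2 : ℤ) : ℝ))‖ ≤ (L2 + 1) * (L1 + 1) ∧
    ‖∑ z ∈ C, ee (α * ((a * z.1 + b * z.2 : ℤ) : ℝ))‖ *
      (2 * dz (α * ((a * u.1 + b * u.2 : ℤ) : ℝ))) ≤ L2 + 1 := by
  classical
  have hu : u ≠ 0 := by
    rintro rfl
    simp at hdet
  set y : ℤ × ℤ → ℤ := fun z => u.1 * z.2 - u.2 * z.1 with hy
  set x : ℤ × ℤ → ℤ := fun z => z.1 * v.2 - z.2 * v.1 with hx
  have hcard : ((C.image y).card : ℝ) ≤ L2 + 1 := by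
    apply card_int _ _ hL2
    intro s hs t ht
    obtain ⟨z, hz, rfl⟩ := mem_image.1 hs
    obtain ⟨z', hz', rfl⟩ := mem_image.1 ht
    have := hx2 z hz z' hz'
    have e : y z - y z' = u.1 * (z.2 - z'.2) - u.2 * (z.1 - z'.1) := by simp only [hy]; ring
    rw [e]
    exact this
  have hfib : ∀ s ∈ C.image y,
      ‖∑ z ∈ C.filter (fun z => y z = s), ee (α * ((a * z.1 + b * z.2 : ℤ) : ℝ))‖ ≤ L1 + 1 ∧
      ‖∑ z ∈ C.filter (fun z => y z = s), ee (α * ((a * z.1 + b * z.2 : ℤ) : ℝ))‖ *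
        (2 * dz (α * ((a * u.1 + b * u.2 : ℤ) : ℝ))) ≤ 1 := by
    intro s hs
    obtain ⟨z1, hz1, hz1s⟩ := mem_image.1 hs
    have hne : (C.filter (fun z => y z = s)).Nonempty := ⟨z1, mem_filter.2 ⟨hz1, hz1s⟩⟩
    obtain ⟨z0, hz0, hmin⟩ := exists_min_image (C.filter (fun z => y z = s)) x hne
    obtain ⟨z2, hz2, hmax⟩ := exists_max_image (C.filter (fun z => y z = s)) x hne
    rw [mem_filter] at hz0 hz2
    have hrep : ∀ z, y z = s → z = z0 + (x z - x z0) • u := by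
      intro z hz
      have h1 : y z = y z0 := hz.trans hz0.2.symm
      simp only [hy] at h1
      ext
      · simp only [hx, Prod.fst_add, Prod.smul_fst, smul_eq_mul]
        linear_combination (-(z.1 - z0.1)) * hdet + v.1 * h1
      · simp only [hx, Prod.snd_add, Prod.smul_snd, smul_eq_mul]
        linear_combination (-(z.2 - z0.2)) * hdet + v.2 * h1
    set N : ℕ := (x z2 - x z0).toNat with hN
    have hN0 : 0 ≤ x z2 - x z0 := by
      have := hmin z2 (mem_filter.2 hz2)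
      linarith
    have hNi : (N : ℤ) = x z2 - x z0 := Int.toNat_of_nonneg hN0
    have hyu : ∀ i : ℤ, y (z0 + i • u) = s := by
      intro i
      rw [← hz0.2]
      simp only [hy, Prod.fst_add, Prod.snd_add, Prod.smul_fst, Prod.smul_snd, smul_eq_mul]
      ring
    have hF : ∀ z, z ∈ C.filter (fun z => y z = s) ↔ ∃ i : ℕ, i ≤ N ∧ z = z0 + (i : ℤ) • u := by
      intro z
      constructor
      · intro hz
        have h1 := hmin z hz
        have h2 := hmax z hz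
        rw [mem_filter] at hz
        refine ⟨(x z - x z0).toNat, by omega, ?_⟩
        rw [Int.toNat_of_nonneg (by linarith)]
        exact hrep z hz.2
      · rintro ⟨i, hi, rfl⟩
        rw [mem_filter]
        refine ⟨?_, hyu i⟩
        apply hconv z0 hz0.1 N _ i hi
        rw [hNi, ← hrep z2 hz2.2]
        exact hz2.1
    obtain ⟨l1, l2⟩ := line _ u z0 hu N hF a b α
    refine ⟨l1.trans ?_, l2⟩
    have h1 := (le_abs_self _).trans (hx1 z2 hz2.1 z0 hz0.1)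
    have h2 : (z2.1 - z0.1) * v.2 - (z2.2 - z0.2) * v.1 = (N : ℤ) := by
      rw [hNi]
      simp only [hx]
      ring
    rw [h2] at h1
    have h3 : ((N : ℤ) : ℝ) = (N : ℝ) := by push_cast; rfl
    rw [h3] at h1
    linarith
  have hsum : ∑ z ∈ C, ee (α * ((a * z.1 + b * z.2 : ℤ) : ℝ)) = ∑ s ∈ C.image y,
      ∑ z ∈ C.filter (fun z => y z = s), ee (α * ((a * z.1 + b * z.2 : ℤ) : ℝ)) :=
    (sum_fiberwise_of_maps_to (fun z hz => mem_image_of_mem y hz) _).symm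
  have hd0 : 0 ≤ 2 * dz (α * ((a * u.1 + b * u.2 : ℤ) : ℝ)) := by
    unfold dz
    positivity
  rw [hsum]
  constructor
  · refine (norm_sum_le _ _).trans ((sum_le_sum fun s hs => (hfib s hs).1).trans ?_)
    rw [sum_const, nsmul_eq_mul]
    exact mul_le_mul_of_nonneg_right hcard (by linarith)
  · refine (mul_le_mul_of_nonneg_right (norm_sum_le _ _) hd0).trans ?_
    rw [sum_mul]
    refine (sum_le_sum fun s hs => (hfib s hs).2).trans ?_
    rw [sum_const, nsmul_eq_mul, mul_one]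
    exact hcard

end Pool.Agent.H96.EB
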