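import Pool.Agent.H96.EB.Bas
import Pool.Agent.H96.EB.Dif
import Pool.Agent.H96.EB.Lin

/-!
# [H96 EB CNT] Many small values of the trilinear form

PROOF. `l'_i = nu1 (w i)`, `l_j = nu2 (v j)` (all in `(0,1]`), `N = 1/l`, `n = 1/(l'_0 l'_1 l_0 l_1)`. `Ks`, `Hs` = the sets of `bas_fin` with `t = 2`: `card Hs <= 289/(l_0 l_1)`, `card Ks <= 289/(l'_0 l'_1)`.
`bas_lo`: `1/(l_0 l_1) <= 2 (M/p) K/(M^2 p') <= 2K/(M P^2)`, `1/(l'_0 l'_1) <= 2 K/M`, so `n <= 4 (K/(MP))^2` and `EE > n/(4T)`. `dif`: `Σ_{h,k} ‖TT‖ >= EE^2/card Hs >= n^2/(16 T^2) * l_0 l_1/289 = n/(l'_0 l'_1)/(4624 T^2)`.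
`lin` for `C = Cv h k` (`cv_conv`, `rg_diff`, `bas_co` with `nu1 (z-z') <= 2`: the coordinates of `z - z'` are `<= 8/l'_0` and `<= 8/l'_1`), `a = 6 k1 r`, `b = -6 k2 s` (`a z1 + b z2 = Ph k h z`), for `(u,v) = (w 0, w 1)` and `(u,v) = (w 1, - w 0)`:
`‖TT‖ <= 81/(l'_0 l'_1)` and `‖TT‖ 2 dz(α Ph k h (w m)) <= 9/l'_{1-m}` for `m = 0, 1`.
Let `θ = 1/(2 * 4624 * 83521 T^2)`. The pairs with `‖TT‖ <= θ/(l'_0 l'_1)` contribute at most `card Hs card Ks θ/(l'_0 l'_1) <= 83521 n θ/(l'_0 l'_1)` = half of the lower bound; so the number of pairs with `‖TT‖ > θ/(l'_0 l'_1)` is at least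
`(n/(l'_0 l'_1)/(9248 T^2))/(81/(l'_0 l'_1)) = n/(749088 T^2)`, and for them `dz(α Ph k h (w m)) <= 9/(2 θ) l'_m <= 10^10 T^2 l'_m` (`9 * 4624 * 83521 < 3.5 * 10^9`).
`G` = the image of the good pairs `(h,k)` under the injective map `(h,k) ↦ (coordinates b of k w.r.t. w, coordinates a of h w.r.t. v)` (`bas_co`: `|b_i| l'_i <= 8`, `|a_j| l_j <= 8`), and `Ph k h z = Σ b_i a_j Ph (w i) (v j) z` (trilinear, `ring` after `k = b1 w0 + b2 w1`, `h = a1 v0 + a2 v1`).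
-/

namespace Pool.Agent.H96.EB

open Finset

/-- coordinates with respect to a basis -/
def co (w : Fin 2 → ℤ × ℤ) (k : ℤ × ℤ) : ℤ × ℤ :=
  (k.1 * (w 1).2 - k.2 * (w 1).1, (w 0).1 * k.2 - (w 0).2 * k.1)

theorem co_rep (w : Fin 2 → ℤ × ℤ) (hw : (w 0).1 * (w 1).2 - (w 0).2 * (w 1).1 = 1)
    (k : ℤ × ℤ) : ((co w k).1 * (w 0).1 + (co w k).2 * (w 1).1,
      (co w k).1 * (w 0).2 + (co w k).2 * (w 1).2) = k := by
  refine Prod.ext ?_ ?_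
  · show (k.1 * (w 1).2 - k.2 * (w 1).1) * (w 0).1 + ((w 0).1 * k.2 - (w 0).2 * k.1) * (w 1).1 = k.1
    linear_combination k.1 * hw
  · show (k.1 * (w 1).2 - k.2 * (w 1).1) * (w 0).2 + ((w 0).1 * k.2 - (w 0).2 * k.1) * (w 1).2 = k.2
    linear_combination k.2 * hw

theorem co_inj (w : Fin 2 → ℤ × ℤ) (hw : (w 0).1 * (w 1).2 - (w 0).2 * (w 1).1 = 1) :
    Function.Injective (co w) := by
  intro k k' h
  rw [← co_rep w hw k, ← co_rep w hw k', h]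

theorem Ph_lin (b0 b1 a0 a1 : ℤ) (w0 w1 v0 v1 z : ℤ × ℤ) :
    Ph (b0 * w0.1 + b1 * w1.1, b0 * w0.2 + b1 * w1.2)
      (a0 * v0.1 + a1 * v1.1, a0 * v0.2 + a1 * v1.2) z =
      b0 * a0 * Ph w0 v0 z + b0 * a1 * Ph w0 v1 z + b1 * a0 * Ph w1 v0 z +
        b1 * a1 * Ph w1 v1 z := by
  unfold Ph
  ring

theorem Ph_co (w v : Fin 2 → ℤ × ℤ) (hw : (w 0).1 * (w 1).2 - (w 0).2 * (w 1).1 = 1)
    (hv : (v 0).1 * (v 1).2 - (v 0).2 * (v 1).1 = 1) (k h z : ℤ × ℤ) (α : ℝ) :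
    ((co w k).1 : ℝ) * (co v h).1 * (α * Ph (w 0) (v 0) z) +
      (co w k).1 * (co v h).2 * (α * Ph (w 0) (v 1) z) +
      (co w k).2 * (co v h).1 * (α * Ph (w 1) (v 0) z) +
      (co w k).2 * (co v h).2 * (α * Ph (w 1) (v 1) z) = α * Ph k h z := by
  have h1 := Ph_lin (co w k).1 (co w k).2 (co v h).1 (co v h).2 (w 0) (w 1) (v 0) (v 1) z
  rw [co_rep w hw k, co_rep v hv h] at h1
  rw [h1]
  push_cast
  ring

theorem gau_neg (X Y θ : ℝ) (u : ℤ × ℤ) : gau X Y θ (-u) = gau X Y θ u := by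
  unfold gau
  rw [Prod.fst_neg, Prod.snd_neg, Int.cast_neg, Int.cast_neg, abs_neg,
    show -(u.2 : ℝ) - θ * -(u.1 : ℝ) = -((u.2 : ℝ) - θ * u.1) by ring, abs_neg]

theorem ne_zero_of_det {a b c d : ℤ} (h : a * d - b * c = 1) : ((a, b) : ℤ × ℤ) ≠ 0 := by
  intro h0
  have h1 : a = 0 := congrArg Prod.fst h0
  have h2 : b = 0 := congrArg Prod.snd h0
  rw [h1, h2] at h
  omega

/-- the bounds of the linear sums -/
theorem tt_aux (M M' : ℕ) (hM : 1 ≤ M) (hM' : M' ≤ 2 * M + 1) (K ρ : ℝ) (hK : 0 < K) (p p' : ℕ)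
    (u v : ℤ × ℤ) (hdet : u.1 * v.2 - u.2 * v.1 = 1) (hu0 : 0 < nu1 K M ρ u)
    (hv0 : 0 < nu1 K M ρ v) (hu1 : nu1 K M ρ u ≤ 1) (hv1 : nu1 K M ρ v ≤ 1)
    (huv : nu1 K M ρ u * nu1 K M ρ v ≤ 2 / (M * (K / M ^ 2))) (h k : ℤ × ℤ) (α : ℝ) :
    ‖TT M M' (K / M ^ 2) ρ p p' h k α‖ * (nu1 K M ρ u * nu1 K M ρ v) ≤ 81 ∧
    ‖TT M M' (K / M ^ 2) ρ p p' h k α‖ * (2 * dz (α * Ph k h u)) * nu1 K M ρ v ≤ 9 := by
  have hMr : (0 : ℝ) < M := by exact_mod_cast hM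
  have hY : (0 : ℝ) < K / M ^ 2 := by positivity
  have hsub : ∀ z ∈ Cv M M' (K / M ^ 2) ρ p p' h k, z ∈ Rg M M' (K / M ^ 2) ρ := by
    intro z hz
    unfold Cv at hz
    exact (Finset.mem_filter.mp hz).1
  have hL := lin (Cv M M' (K / M ^ 2) ρ p p' h k) u v hdet (8 / nu1 K M ρ u) (8 / nu1 K M ρ v)
    (by positivity) (by positivity)
    (fun z hz n hn j hj => cv_conv M M' (K / M ^ 2) ρ p p' h k u z n hz hn j hj)
    (fun z hz z' hz' => by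
      rw [le_div_iff₀ hu0]
      refine (bas_co M (K / M ^ 2) ρ hMr hY u v hdet huv (z - z')).1.trans ?_
      have := rg_diff M M' hM hM' K ρ hK z z' (hsub z hz) (hsub z' hz')
      unfold nu1 at this
      linarith)
    (fun z hz z' hz' => by
      rw [le_div_iff₀ hv0]
      refine (bas_co M (K / M ^ 2) ρ hMr hY u v hdet huv (z - z')).2.trans ?_
      have := rg_diff M M' hM hM' K ρ hK z z' (hsub z hz) (hsub z' hz')
      unfold nu1 at this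
      linarith)
    (6 * (k.1 * h.1)) (-(6 * (k.2 * h.2))) α
  have hPh : ∀ z : ℤ × ℤ, 6 * (k.1 * h.1) * z.1 + -(6 * (k.2 * h.2)) * z.2 = Ph k h z := by
    intro z
    unfold Ph
    ring
  simp only [hPh] at hL
  have hTT : ∑ z ∈ Cv M M' (K / M ^ 2) ρ p p' h k, Pool.Agent.H24.AB.ee (α * ((Ph k h z : ℤ) : ℝ)) =
      TT M M' (K / M ^ 2) ρ p p' h k α := rfl
  rw [hTT] at hL
  set A := nu1 K M ρ u with hA
  set B := nu1 K M ρ v with hB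
  have hA9 : (8 / A + 1) * A ≤ 9 := by
    rw [add_mul, div_mul_cancel₀ _ hu0.ne', one_mul]
    linarith
  have hB9 : (8 / B + 1) * B ≤ 9 := by
    rw [add_mul, div_mul_cancel₀ _ hv0.ne', one_mul]
    linarith
  have hA0 : 0 ≤ (8 / A + 1) * A := by positivity
  have hB0 : 0 ≤ (8 / B + 1) * B := by positivity
  refine ⟨?_, ?_⟩
  · calc ‖TT M M' (K / M ^ 2) ρ p p' h k α‖ * (A * B)
        ≤ ((8 / B + 1) * (8 / A + 1)) * (A * B) :=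
          mul_le_mul_of_nonneg_right hL.1 (by positivity)
      _ = ((8 / A + 1) * A) * ((8 / B + 1) * B) := by ring
      _ ≤ 9 * 9 := mul_le_mul hA9 hB9 hB0 (by norm_num)
      _ = 81 := by norm_num
  · exact (mul_le_mul_of_nonneg_right hL.2 hv0.le).trans hB9

theorem tt_bd (M M' : ℕ) (hM : 1 ≤ M) (hM' : M' ≤ 2 * M + 1) (K ρ : ℝ) (hK : 0 < K) (p p' : ℕ)
    (w : Fin 2 → ℤ × ℤ) (hw : (w 0).1 * (w 1).2 - (w 0).2 * (w 1).1 = 1)
    (hw0 : ∀ i, 0 < nu1 K M ρ (w i))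
    (hw2 : nu1 K M ρ (w 0) * nu1 K M ρ (w 1) ≤ 2 / (M * (K / M ^ 2)))
    (hw1 : ∀ i, nu1 K M ρ (w i) ≤ 1) (h k : ℤ × ℤ) (α : ℝ) :
    ‖TT M M' (K / M ^ 2) ρ p p' h k α‖ * (nu1 K M ρ (w 0) * nu1 K M ρ (w 1)) ≤ 81 ∧
    ∀ m : Fin 2, ‖TT M M' (K / M ^ 2) ρ p p' h k α‖ * (2 * dz (α * Ph k h (w m))) *
      (nu1 K M ρ (w 0) * nu1 K M ρ (w 1)) ≤ 9 * nu1 K M ρ (w m) := by
  have h0 := tt_aux M M' hM hM' K ρ hK p p' (w 0) (w 1) hw (hw0 0) (hw0 1) (hw1 0) (hw1 1) hw2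
    h k α
  have hneg : nu1 K M ρ (-(w 0)) = nu1 K M ρ (w 0) := gau_neg _ _ _ _
  have h1 := tt_aux M M' hM hM' K ρ hK p p' (w 1) (-(w 0))
    (by rw [Prod.fst_neg, Prod.snd_neg]; linear_combination hw) (hw0 1)
    (by rw [hneg]; exact hw0 0) (hw1 1) (by rw [hneg]; exact hw1 0)
    (by rw [hneg, mul_comm]; exact hw2) h k α
  rw [hneg] at h1
  refine ⟨h0.1, ?_⟩
  intro m
  fin_cases m
  · show _ * (2 * dz (α * Ph k h (w 0))) * _ ≤ 9 * nu1 K M ρ (w 0)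
    have := mul_le_mul_of_nonneg_right h0.2 (hw0 0).le
    calc _ = ‖TT M M' (K / M ^ 2) ρ p p' h k α‖ * (2 * dz (α * Ph k h (w 0))) *
          nu1 K M ρ (w 1) * nu1 K M ρ (w 0) := by ring
      _ ≤ _ := this
  · show _ * (2 * dz (α * Ph k h (w 1))) * _ ≤ 9 * nu1 K M ρ (w 1)
    have := mul_le_mul_of_nonneg_right h1.2 (hw0 1).le
    calc _ = ‖TT M M' (K / M ^ 2) ρ p p' h k α‖ * (2 * dz (α * Ph k h (w 1))) *
          nu1 K M ρ (w 0) * nu1 K M ρ (w 1) := by ring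
      _ ≤ _ := this

theorem cnt_real {T E L1 L2 D H Kc Sg G θ : ℝ} (hT : 1 ≤ T) (hL1 : 0 < L1) (hL2 : 0 < L2)
    (hD : 1 ≤ 4 * D * (L1 * L2)) (hE : D / T < E) (hdif : E ^ 2 ≤ H * Sg) (hS0 : 0 ≤ Sg)
    (hH0 : 0 ≤ H) (hK0 : 0 ≤ Kc) (hH : H * L2 ≤ 289) (hK : Kc * L1 ≤ 289)
    (hS : Sg * L1 ≤ H * Kc * θ + 81 * G) (hθ0 : 0 ≤ θ) (hθ : 772402208 * T ^ 2 * θ = 1)
    (hG : 0 ≤ G) :
    1 ≤ 10 ^ 6 * T ^ 2 * (L1 * L2) * G := by
  have hT0 : 0 < T := by linarith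
  have hL : 0 < L1 * L2 := mul_pos hL1 hL2
  have h1 : 1 < 4 * T * E * (L1 * L2) := by
    have h2 : D < E * T := (div_lt_iff₀ hT0).mp hE
    calc (1 : ℝ) ≤ 4 * D * (L1 * L2) := hD
      _ < 4 * (E * T) * (L1 * L2) := by
        apply mul_lt_mul_of_pos_right _ hL
        linarith
      _ = _ := by ring
  have h2 : 1 < (4 * T * E * (L1 * L2)) ^ 2 := by nlinarith
  have h3 : (4 * T * E * (L1 * L2)) ^ 2 ≤ 16 * T ^ 2 * (L1 * L2) * ((H * L2) * (Sg * L1)) := by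
    calc (4 * T * E * (L1 * L2)) ^ 2 = 16 * T ^ 2 * (L1 * L2) ^ 2 * E ^ 2 := by ring
      _ ≤ 16 * T ^ 2 * (L1 * L2) ^ 2 * (H * Sg) :=
        mul_le_mul_of_nonneg_left hdif (by positivity)
      _ = _ := by ring
  have h4 : (H * L2) * (Sg * L1) ≤ 289 * (H * Kc * θ + 81 * G) :=
    mul_le_mul hH hS (by positivity) (by norm_num)
  have h5 : 16 * T ^ 2 * (L1 * L2) * ((H * L2) * (Sg * L1)) ≤
      16 * T ^ 2 * (L1 * L2) * (289 * (H * Kc * θ + 81 * G)) :=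
    mul_le_mul_of_nonneg_left h4 (by positivity)
  have h6 : 16 * T ^ 2 * (L1 * L2) * (289 * (H * Kc * θ + 81 * G)) =
      4624 * T ^ 2 * θ * ((H * L2) * (Kc * L1)) + 374544 * (T ^ 2 * (L1 * L2) * G) := by ring
  have h7 : (H * L2) * (Kc * L1) ≤ 289 * 289 :=
    mul_le_mul hH hK (by positivity) (by norm_num)
  have h8 : 4624 * T ^ 2 * θ * ((H * L2) * (Kc * L1)) ≤ 4624 * T ^ 2 * θ * (289 * 289) :=
    mul_le_mul_of_nonneg_left h7 (by positivity)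
  have h9 : 4624 * T ^ 2 * θ * (289 * 289) = 1 / 2 := by linarith
  have h10 : 0 ≤ T ^ 2 * (L1 * L2) * G := by positivity
  nlinarith

theorem cnt (M M' : ℕ) (hM : 1 ≤ M) (hM' : M' ≤ 2 * M + 1) (K ρ T : ℝ) (hK : 0 < K)
    (hT : 1 ≤ T) (P p p' : ℕ) (hP : 1 ≤ P) (hpP : P ≤ p) (hpP' : P ≤ p') (w v : Fin 2 → ℤ × ℤ)
    (hw : (w 0).1 * (w 1).2 - (w 0).2 * (w 1).1 = 1)
    (hv : (v 0).1 * (v 1).2 - (v 0).2 * (v 1).1 = 1)
    (hw2 : nu1 K M ρ (w 0) * nu1 K M ρ (w 1) ≤ 2 / (M * (K / M ^ 2)))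
    (hv2 : nu2 K M ρ p p' (v 0) * nu2 K M ρ p p' (v 1) ≤ 2 / ((M / p) * (K / (M ^ 2 * p'))))
    (hw1 : ∀ i, nu1 K M ρ (w i) ≤ 1) (hv1 : ∀ j, nu2 K M ρ p p' (v j) ≤ 1) (α : ℝ)
    (hE : (K / (M * P)) ^ 2 / T < EE M M' (K / M ^ 2) ρ p p' α) :
    ∃ G : Finset ((ℤ × ℤ) × (ℤ × ℤ)),
      (∀ g ∈ G, |(g.1.1 : ℝ)| * nu1 K M ρ (w 0) ≤ 8 ∧ |(g.1.2 : ℝ)| * nu1 K M ρ (w 1) ≤ 8 ∧
        |(g.2.1 : ℝ)| * nu2 K M ρ p p' (v 0) ≤ 8 ∧ |(g.2.2 : ℝ)| * nu2 K M ρ p p' (v 1) ≤ 8) ∧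
      1 ≤ 10 ^ 6 * T ^ 2 * (nu1 K M ρ (w 0) * nu1 K M ρ (w 1) *
        (nu2 K M ρ p p' (v 0) * nu2 K M ρ p p' (v 1))) * G.card ∧
      ∀ g ∈ G, ∀ m : Fin 2,
        dz (g.1.1 * g.2.1 * (α * Ph (w 0) (v 0) (w m)) + g.1.1 * g.2.2 * (α * Ph (w 0) (v 1) (w m)) +
          g.1.2 * g.2.1 * (α * Ph (w 1) (v 0) (w m)) + g.1.2 * g.2.2 * (α * Ph (w 1) (v 1) (w m))) ≤
          10 ^ 10 * T ^ 2 * nu1 K M ρ (w m) := by
  classical
  have hMr : (0 : ℝ) < M := by exact_mod_cast hM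
  have hPr : (0 : ℝ) < P := by exact_mod_cast hP
  have hpr : (0 : ℝ) < p := by exact_mod_cast hP.trans hpP
  have hpr' : (0 : ℝ) < p' := by exact_mod_cast hP.trans hpP'
  have hT0 : 0 < T := by linarith
  have hX1 : (0 : ℝ) < M := hMr
  have hY1 : (0 : ℝ) < K / M ^ 2 := by positivity
  have hX2 : (0 : ℝ) < M / p := by positivity
  have hY2 : (0 : ℝ) < K / (M ^ 2 * p') := by positivity
  have hwz : ∀ i, w i ≠ 0 := by
    intro i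
    fin_cases i
    · exact ne_zero_of_det (a := (w 0).1) (b := (w 0).2) hw
    · refine ne_zero_of_det (a := (w 1).1) (b := (w 1).2) (c := -(w 0).1) (d := -(w 0).2) ?_
      linear_combination hw
  have hvz : ∀ i, v i ≠ 0 := by
    intro i
    fin_cases i
    · exact ne_zero_of_det (a := (v 0).1) (b := (v 0).2) hv
    · refine ne_zero_of_det (a := (v 1).1) (b := (v 1).2) (c := -(v 0).1) (d := -(v 0).2) ?_
      linear_combination hv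
  have hw0 : ∀ i, 0 < nu1 K M ρ (w i) := fun i => gau_pos _ _ _ hX1 hY1 _ (hwz i)
  have hv0 : ∀ i, 0 < nu2 K M ρ p p' (v i) := fun i => gau_pos _ _ _ hX2 hY2 _ (hvz i)
  have hlo1 : 1 ≤ 2 * (M * (K / M ^ 2)) * (nu1 K M ρ (w 0) * nu1 K M ρ (w 1)) :=
    bas_lo M (K / M ^ 2) ρ hX1 hY1 (w 0) (w 1) hw
  have hlo2 : 1 ≤ 2 * ((M / p) * (K / (M ^ 2 * p'))) *
      (nu2 K M ρ p p' (v 0) * nu2 K M ρ p p' (v 1)) :=
    bas_lo (M / p) (K / (M ^ 2 * p')) (ρ * p / p') hX2 hY2 (v 0) (v 1) hv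
  obtain ⟨Ks, hKs, hKc⟩ := bas_fin M (K / M ^ 2) ρ hX1 hY1 (w 0) (w 1) hw hw2 2 (by norm_num)
  obtain ⟨Hs, hHs, hHc⟩ := bas_fin (M / p) (K / (M ^ 2 * p')) (ρ * p / p') hX2 hY2 (v 0) (v 1) hv
    hv2 2 (by norm_num)
  change (Ks.card : ℝ) ≤ (8 * 2 / nu1 K M ρ (w 0) + 1) * (8 * 2 / nu1 K M ρ (w 1) + 1) at hKc
  change (Hs.card : ℝ) ≤ (8 * 2 / nu2 K M ρ p p' (v 0) + 1) *
    (8 * 2 / nu2 K M ρ p p' (v 1) + 1) at hHc
  have hdif := dif M M' hM hM' K ρ hK p p' (hP.trans hpP) (hP.trans hpP') α Hs Ks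
    (fun h hh => (hHs h).mpr hh) (fun k hk => (hKs k).mpr hk)
  have hcard : ∀ a b c : ℝ, 0 < a → a ≤ 1 → 0 < b → b ≤ 1 →
      c ≤ (8 * 2 / a + 1) * (8 * 2 / b + 1) → c * (a * b) ≤ 289 := by
    intro a b c ha ha1 hb hb1 hc
    have h1 : (8 * 2 / a + 1) * a ≤ 17 := by
      rw [add_mul, div_mul_cancel₀ _ ha.ne', one_mul]
      linarith
    have h2 : (8 * 2 / b + 1) * b ≤ 17 := by
      rw [add_mul, div_mul_cancel₀ _ hb.ne', one_mul]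
      linarith
    calc c * (a * b) ≤ (8 * 2 / a + 1) * (8 * 2 / b + 1) * (a * b) :=
          mul_le_mul_of_nonneg_right hc (by positivity)
      _ = ((8 * 2 / a + 1) * a) * ((8 * 2 / b + 1) * b) := by ring
      _ ≤ 17 * 17 := mul_le_mul h1 h2 (by positivity) (by norm_num)
      _ = 289 := by norm_num
  have hKL := hcard _ _ _ (hw0 0) (hw1 0) (hw0 1) (hw1 1) hKc
  have hHL := hcard _ _ _ (hv0 0) (hv1 0) (hv0 1) (hv1 1) hHc
  have htt := fun h k => tt_bd M M' hM hM' K ρ hK p p' w hw hw0 hw2 hw1 h k α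
  set L1 := nu1 K M ρ (w 0) * nu1 K M ρ (w 1) with hL1
  set L2 := nu2 K M ρ p p' (v 0) * nu2 K M ρ p p' (v 1) with hL2
  have hL10 : 0 < L1 := mul_pos (hw0 0) (hw0 1)
  have hL20 : 0 < L2 := mul_pos (hv0 0) (hv0 1)
  set θ : ℝ := 1 / (772402208 * T ^ 2) with hθ
  have hθ0 : 0 < θ := by positivity
  have hθ1 : 772402208 * T ^ 2 * θ = 1 := by
    rw [hθ]
    field_simp
  set F : (ℤ × ℤ) × (ℤ × ℤ) → ℝ := fun x => ‖TT M M' (K / M ^ 2) ρ p p' x.1 x.2 α‖ with hF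
  have hFdif : (EE M M' (K / M ^ 2) ρ p p' α) ^ 2 ≤ Hs.card * ∑ x ∈ Hs ×ˢ Ks, F x := by
    rw [Finset.sum_product]
    exact hdif
  set Gd := (Hs ×ˢ Ks).filter (fun x => θ < F x * L1) with hGd
  have hsplit : (∑ x ∈ Hs ×ˢ Ks, F x) * L1 ≤ Hs.card * Ks.card * θ + 81 * Gd.card := by
    rw [Finset.sum_mul, ← Finset.sum_filter_add_sum_filter_not (Hs ×ˢ Ks) (fun x => θ < F x * L1)
      (fun x => F x * L1), add_comm]
    refine add_le_add ?_ ?_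
    · refine (Finset.sum_le_card_nsmul _ _ θ fun x hx => not_lt.mp (Finset.mem_filter.mp hx).2).trans
        ?_
      rw [nsmul_eq_mul]
      refine mul_le_mul_of_nonneg_right ?_ hθ0.le
      have h1 := Finset.card_le_card (Finset.filter_subset (fun x => ¬ θ < F x * L1) (Hs ×ˢ Ks))
      rw [Finset.card_product] at h1
      exact_mod_cast h1
    · refine (Finset.sum_le_card_nsmul _ _ 81 fun x _ => (htt x.1 x.2).1).trans ?_
      rw [nsmul_eq_mul, mul_comm]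
  have hinj : Function.Injective fun x : (ℤ × ℤ) × (ℤ × ℤ) => (co w x.2, co v x.1) := by
    intro x y hxy
    have h1 := congrArg Prod.fst hxy
    have h2 := congrArg Prod.snd hxy
    exact Prod.ext (co_inj v hv h2) (co_inj w hw h1)
  refine ⟨Gd.image fun x => (co w x.2, co v x.1), ?_, ?_, ?_⟩
  · intro g hg
    obtain ⟨x, hx, rfl⟩ := Finset.mem_image.mp hg
    have hx1 := Finset.mem_product.mp (Finset.mem_filter.mp hx).1
    have h1 := (hHs x.1).mp hx1.1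
    have h2 := (hKs x.2).mp hx1.2
    have h3 := bas_co M (K / M ^ 2) ρ hX1 hY1 (w 0) (w 1) hw hw2 x.2
    have h4 := bas_co (M / p) (K / (M ^ 2 * p')) (ρ * p / p') hX2 hY2 (v 0) (v 1) hv hv2 x.1
    exact ⟨h3.1.trans (by linarith), h3.2.trans (by linarith), h4.1.trans (by linarith),
      h4.2.trans (by linarith)⟩
  · rw [Finset.card_image_of_injective _ hinj]
    have hD : 1 ≤ 4 * (K / (M * P)) ^ 2 * (L1 * L2) := by
      have e1 : (M : ℝ) * (K / M ^ 2) = K / M := by field_simp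
      have e2 : (M / p : ℝ) * (K / (M ^ 2 * p')) ≤ K / (M * P ^ 2) := by
        rw [show (M / p : ℝ) * (K / (M ^ 2 * p')) = K / (M * (p * p')) by field_simp]
        have : (P : ℝ) ^ 2 ≤ p * p' := by
          rw [pow_two]
          have a1 : (P : ℝ) ≤ p := by exact_mod_cast hpP
          have a2 : (P : ℝ) ≤ p' := by exact_mod_cast hpP'
          exact mul_le_mul a1 a2 hPr.le hpr.le
        gcongr
      rw [e1] at hlo1
      have hlo3 : 1 ≤ 2 * (K / (M * P ^ 2)) * L2 :=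
        hlo2.trans (by gcongr)
      calc (1 : ℝ) = 1 * 1 := by ring
        _ ≤ (2 * (K / M) * L1) * (2 * (K / (M * P ^ 2)) * L2) :=
          mul_le_mul hlo1 hlo3 (by norm_num) (by positivity)
        _ = _ := by field_simp; ring
    exact cnt_real hT hL10 hL20 hD hE hFdif (Finset.sum_nonneg fun x _ => norm_nonneg _)
      (Nat.cast_nonneg _) (Nat.cast_nonneg _) hHL hKL hsplit hθ0.le hθ1 (Nat.cast_nonneg _)
  · intro g hg m
    obtain ⟨x, hx, rfl⟩ := Finset.mem_image.mp hg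
    have hx2 := (Finset.mem_filter.mp hx).2
    show dz (((co w x.2).1 : ℝ) * (co v x.1).1 * (α * Ph (w 0) (v 0) (w m)) +
      (co w x.2).1 * (co v x.1).2 * (α * Ph (w 0) (v 1) (w m)) +
      (co w x.2).2 * (co v x.1).1 * (α * Ph (w 1) (v 0) (w m)) +
      (co w x.2).2 * (co v x.1).2 * (α * Ph (w 1) (v 1) (w m))) ≤ _
    rw [Ph_co w v hw hv]
    have h1 := (htt x.1 x.2).2 m
    have hd0 : 0 ≤ dz (α * Ph x.2 x.1 (w m)) := abs_nonneg _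
    have h2 : θ * (2 * dz (α * Ph x.2 x.1 (w m))) ≤ 9 * nu1 K M ρ (w m) := by
      refine le_trans ?_ h1
      calc θ * (2 * dz (α * Ph x.2 x.1 (w m))) ≤ (F x * L1) * (2 * dz (α * Ph x.2 x.1 (w m))) :=
            mul_le_mul_of_nonneg_right hx2.le (by positivity)
        _ = _ := by rw [hF]; ring
    have h3 : 772402208 * T ^ 2 * (θ * (2 * dz (α * Ph x.2 x.1 (w m)))) ≤
        772402208 * T ^ 2 * (9 * nu1 K M ρ (w m)) :=
      mul_le_mul_of_nonneg_left h2 (by positivity)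
    have h4 : 772402208 * T ^ 2 * (θ * (2 * dz (α * Ph x.2 x.1 (w m)))) =
        2 * dz (α * Ph x.2 x.1 (w m)) := by
      rw [← mul_assoc, hθ1, one_mul]
    have h5 : 0 ≤ T ^ 2 * nu1 K M ρ (w m) := mul_nonneg (by positivity) (hw0 m).le
    rw [h4] at h3
    nlinarith

end Pool.Agent.H96.EB
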