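import Pool.Agent.H24.AB.LSK

/-!
# Values `m^3+k = p1 p2` for almost all `k`, `M` up to `X^(7/13-ε)` (MP_4d57ea_nt, P182, helper96): definitions and plan

The statement proved here is `H43.PG.LC` (mean square of `ae` over the dyadic ranges `(M,M']` with `X <= 8M^3`), in the stronger form `Lc2.lean`.
Text of the proof: notebook of MP_4d57ea_nt and the headers. `K = X`, `w = K/M^2`, `ρ^3 p = p'`, `N_j = 1/l_j`.

(B) theorem minor: `Red` (reduced bases), `Bas` (coordinates, counting), `Lio` (lower bounds for the first minima), `Phu`, `Phl` (size of the trilinear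
form `Ph`), `Dif` (two differencings), `Lin` (sums over lines), `Cnt` (many small values), `Rc1`, `Rc2`, `Iv` (recurrence), `Unq` (linking), `Mn`.
(A) `Ide`, `Ibd`, `Par`, `Dia`, `Maj`, `Spc`, `Jp`, `Vsq`. (C) `Mul`, `Win`, `Low`, `Wns`. (D) `An`, `Lc2`.
-/

namespace Pool.Agent.H96.EB

open Finset Pool.Agent.H24.AB

/-- distance to the nearest integer -/
noncomputable def dz (x : ℝ) : ℝ := |x - round x|

/-- the gauge `max (|x|/X) (|y - θ x|/Y)` -/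
noncomputable def gau (X Y θ : ℝ) (v : ℤ × ℤ) : ℝ :=
  max (|(v.1 : ℝ)| / X) (|(v.2 : ℝ) - θ * v.1| / Y)

/-- the gauge of the differences in the strip of width `K/M^2` around the line of slope `ρ` -/
noncomputable def nu1 (K M ρ : ℝ) (k : ℤ × ℤ) : ℝ := gau M (K / M ^ 2) ρ k

/-- the same for the differences `(p r, p' s)` -/
noncomputable def nu2 (K M ρ : ℝ) (p p' : ℕ) (h : ℤ × ℤ) : ℝ :=
  gau (M / p) (K / (M ^ 2 * p')) (ρ * p / p') h

/-- the trilinear form -/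
def Ph (k h z : ℤ × ℤ) : ℤ := 6 * (k.1 * h.1 * z.1 - k.2 * h.2 * z.2)

/-- the strip -/
noncomputable def Rg (M M' : ℕ) (w ρ : ℝ) : Finset (ℤ × ℤ) :=
  ((Ioc (M : ℤ) M') ×ˢ (Ioc (M : ℤ) M')).filter (fun z => |(z.2 : ℝ) - ρ * z.1| ≤ w)

/-- the exponential sums over the residue classes modulo `(p, p')` -/
noncomputable def Sc (M M' : ℕ) (w ρ : ℝ) (p p' : ℕ) (c : ℕ × ℕ) (α : ℝ) : ℂ :=
  ∑ z ∈ (Rg M M' w ρ).filter (fun z : ℤ × ℤ => z.1 % (p : ℤ) = (c.1 : ℤ) ∧ z.2 % (p' : ℤ) = (c.2 : ℤ)),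
    ee (α * ((z.1 : ℝ) ^ 3 / p - (z.2 : ℝ) ^ 3 / p'))

/-- their mean square -/
noncomputable def EE (M M' : ℕ) (w ρ : ℝ) (p p' : ℕ) (α : ℝ) : ℝ :=
  ∑ c ∈ range p ×ˢ range p', ‖Sc M M' w ρ p p' c α‖ ^ 2

/-- the points `z` of the strip with `z + (p r, p' s)`, `z + k`, `z + k + (p r, p' s)` in the strip, `h = (r,s)` -/
noncomputable def Cv (M M' : ℕ) (w ρ : ℝ) (p p' : ℕ) (h k : ℤ × ℤ) : Finset (ℤ × ℤ) :=
  (Rg M M' w ρ).filter (fun z : ℤ × ℤ => z + ((p : ℤ) * h.1, (p' : ℤ) * h.2) ∈ Rg M M' w ρ ∧ z + k ∈ Rg M M' w ρ ∧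
    z + k + ((p : ℤ) * h.1, (p' : ℤ) * h.2) ∈ Rg M M' w ρ)

/-- the linear sums after two differencings -/
noncomputable def TT (M M' : ℕ) (w ρ : ℝ) (p p' : ℕ) (h k : ℤ × ℤ) (α : ℝ) : ℂ :=
  ∑ z ∈ Cv M M' w ρ p p' h k, ee (α * Ph k h z)

end Pool.Agent.H96.EB
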