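import Pool.Agent.H96.EB.Def2

/-!
# [H96 EB DIA] The diagonal

PROOF. `(Gp g p b)^2 = Σ_{m,m'} g(pb-m^3) g(pb-m'^3)` over the `m, m'` with both arguments in `[1,K]`; `g g' <= (g^2 + g'^2)/2`, so `<= Σ_m g(pb-m^3)^2 #{m' : 1 <= pb-m'^3 <= K}`. For `M < m' < m''` both counted: `3M^2 (m''-m') <= m''^3 - m'^3 <= K-1`, so the number of `m'` is
`<= 1 + K/(3M^2) <= 1 + K/M^2`. Then `Σ_{p ∈ PP} Σ_b Σ_m g(pb-m^3)^2 <= Σ_{k ∈ [1,K]} g(k)^2 Σ_m #{p ∈ PP : p ∣ k + m^3}` (`(p,b,m) ↦ (k = pb-m^3, m, p)` injective). `n = k + m^3 ∈ [1, 35 M^3]` has at most `log n/log 2 <= 2 log(40 M^3)` prime factors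
(`2^(number) <= product <= n`), and there are `M'-M <= M+1 <= 2M` values of `m`. Total `<= 4M log(40M^3) (1 + K/M^2) VV`.
-/

namespace Pool.Agent.H96.EB

open Finset

private theorem dia_int (T : Finset ℤ) (L : ℝ) (hL : 0 ≤ L)
    (h : ∀ u ∈ T, ∀ v ∈ T, v ≤ u → (u : ℝ) - v ≤ L) : (T.card : ℝ) ≤ L + 1 := by
  rcases T.eq_empty_or_nonempty with rfl | hT
  · simp
    linarith
  · have hle : T.min' hT ≤ T.max' hT := T.min'_le _ (T.max'_mem hT)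
    have h1 := h _ (T.max'_mem hT) _ (T.min'_mem hT) hle
    have hsub : T ⊆ Finset.Icc (T.min' hT) (T.max' hT) := fun x hx =>
      Finset.mem_Icc.mpr ⟨T.min'_le x hx, T.le_max' x hx⟩
    have hc := Finset.card_le_card hsub
    rw [Int.card_Icc] at hc
    have h2 : ((T.max' hT + 1 - T.min' hT).toNat : ℤ) = T.max' hT + 1 - T.min' hT := by omega
    have h3 : ((T.max' hT + 1 - T.min' hT).toNat : ℝ) = T.max' hT + 1 - T.min' hT := by
      exact_mod_cast h2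
    have h4 : (T.card : ℝ) ≤ ((T.max' hT + 1 - T.min' hT).toNat : ℝ) := by exact_mod_cast hc
    linarith

private theorem dia_cnt (K M M' : ℕ) (hM : 1 ≤ M) (x : ℤ) :
    (((Ioc (M : ℤ) M').filter (fun m => 1 ≤ x - m ^ 3 ∧ x - m ^ 3 ≤ K)).card : ℝ) ≤
      1 + (K : ℝ) / (M : ℝ) ^ 2 := by
  have hM0 : (1 : ℝ) ≤ M := by exact_mod_cast hM
  have hM2 : (0 : ℝ) < (M : ℝ) ^ 2 := by positivity
  rw [add_comm]
  apply dia_int
  · positivity
  · intro u hu v hv huv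
    obtain ⟨u1, u2⟩ := mem_filter.1 hu
    obtain ⟨v1, v2⟩ := mem_filter.1 hv
    rw [mem_Ioc] at u1 v1
    rw [le_div_iff₀ hM2]
    have h1 : u ^ 3 - v ^ 3 ≤ K := by linarith [u2.1, v2.2]
    have h1r : (u : ℝ) ^ 3 - (v : ℝ) ^ 3 ≤ K := by exact_mod_cast h1
    have hu0 : (M : ℝ) ≤ u := by exact_mod_cast u1.1.le
    have hv0 : (M : ℝ) ≤ v := by exact_mod_cast v1.1.le
    have huvr : (v : ℝ) ≤ u := by exact_mod_cast huv
    have e : (u : ℝ) ^ 3 - (v : ℝ) ^ 3 = ((u : ℝ) - v) * ((u : ℝ) ^ 2 + u * v + (v : ℝ) ^ 2) := by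
      ring
    rw [e] at h1r
    refine le_trans ?_ h1r
    apply mul_le_mul_of_nonneg_left _ (by linarith)
    have : (M : ℝ) ^ 2 ≤ (u : ℝ) ^ 2 := pow_le_pow_left₀ (by linarith) hu0 2
    have h5 : (0 : ℝ) ≤ u * v := mul_nonneg (by linarith) (by linarith)
    have h6 : (0 : ℝ) ≤ (v : ℝ) ^ 2 := by positivity
    linarith

private theorem dia_om (n : ℕ) (hn : 1 ≤ n) (S : Finset ℕ) (hS : ∀ p ∈ S, p.Prime ∧ p ∣ n) :
    (S.card : ℝ) ≤ 2 * Real.log n := by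
  have h1 : 2 ^ S.card ≤ ∏ p ∈ S, p := by
    rw [← prod_const]
    exact prod_le_prod' fun p hp => (hS p hp).1.two_le
  have h2 : S ⊆ n.primeFactors := fun p hp =>
    Nat.mem_primeFactors.2 ⟨(hS p hp).1, (hS p hp).2, by omega⟩
  have h3 : ∏ p ∈ S, p ∣ n := (prod_dvd_prod_of_subset _ _ _ h2).trans (Nat.prod_primeFactors_dvd n)
  have h4 : 2 ^ S.card ≤ n := h1.trans (Nat.le_of_dvd (by omega) h3)
  have h5 : ((2 : ℝ) ^ S.card) ≤ n := by exact_mod_cast h4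
  have h6 := Real.log_le_log (by positivity) h5
  rw [Real.log_pow] at h6
  have h7 := Real.log_two_gt_d9
  have h8 : (0 : ℝ) ≤ S.card := Nat.cast_nonneg _
  nlinarith

theorem dia (K M M' N : ℕ) (PP : Finset ℕ) (g : ℤ → ℝ) (hM : 1 ≤ M) (hM' : M' ≤ 2 * M + 1)
    (hKM : K ≤ 8 * M ^ 3) (hPP : ∀ p ∈ PP, p.Prime) :
    ∑ p ∈ PP, ∑ b ∈ Icc (1 : ℤ) N, (Gp K M M' g p b) ^ 2 ≤
      8 * M * Real.log (40 * (M : ℝ) ^ 3) * (1 + (K : ℝ) / (M : ℝ) ^ 2) * VV K g := by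
  classical
  have hM0 : (1 : ℝ) ≤ M := by exact_mod_cast hM
  have hM2 : (0 : ℝ) < (M : ℝ) ^ 2 := by positivity
  have hMz : (1 : ℤ) ≤ M := by exact_mod_cast hM
  set C : ℝ := 1 + (K : ℝ) / (M : ℝ) ^ 2 with hC
  have hC0 : 0 ≤ C := by positivity
  set c : ℕ → ℤ → ℤ → Prop := fun p b m => 1 ≤ (p : ℤ) * b - m ^ 3 ∧ (p : ℤ) * b - m ^ 3 ≤ K with hc
  -- Cauchy
  have h1 : ∀ (p : ℕ) (b : ℤ), (Gp K M M' g p b) ^ 2 ≤
      C * ∑ m ∈ Ioc (M : ℤ) M', if c p b m then g ((p : ℤ) * b - m ^ 3) ^ 2 else 0 := by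
    intro p b
    unfold Gp
    rw [← sum_filter, ← sum_filter]
    refine (sq_sum_le_card_mul_sum_sq).trans ?_
    apply mul_le_mul_of_nonneg_right _ (sum_nonneg fun _ _ => sq_nonneg _)
    exact dia_cnt K M M' hM ((p : ℤ) * b)
  -- for fixed p and m
  have h2 : ∀ p ∈ PP, ∀ m : ℤ, ∑ b ∈ Icc (1 : ℤ) N,
      (if c p b m then g ((p : ℤ) * b - m ^ 3) ^ 2 else 0) ≤
      ∑ k ∈ Icc (1 : ℤ) K, if (p : ℤ) ∣ k + m ^ 3 then g k ^ 2 else 0 := by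
    intro p hp m
    rw [← sum_filter, ← sum_filter]
    have hpz : (0 : ℤ) < p := by exact_mod_cast (hPP p hp).pos
    have hinj : Set.InjOn (fun b : ℤ => (p : ℤ) * b - m ^ 3)
        (((Icc (1 : ℤ) N).filter (fun b => c p b m) : Finset ℤ) : Set ℤ) := by
      intro a _ b _ hab
      have h5 : (p : ℤ) * a = p * b := by
        have : (p : ℤ) * a - m ^ 3 = p * b - m ^ 3 := hab
        linarith
      exact mul_left_cancel₀ hpz.ne' h5
    rw [← sum_image (f := fun k => g k ^ 2) (g := fun b : ℤ => (p : ℤ) * b - m ^ 3) hinj]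
    apply sum_le_sum_of_subset_of_nonneg
    · intro k hk
      obtain ⟨b, hb, rfl⟩ := mem_image.1 hk
      obtain ⟨_, hb2⟩ := mem_filter.1 hb
      rw [mem_filter, mem_Icc]
      refine ⟨hb2, ⟨b, by ring⟩⟩
    · intro _ _ _
      exact sq_nonneg _
  have hL : 0 ≤ Real.log (40 * (M : ℝ) ^ 3) := by
    apply Real.log_nonneg
    have : (1 : ℝ) ≤ (M : ℝ) ^ 3 := one_le_pow₀ hM0
    linarith
  -- number of p
  have h3 : ∀ m ∈ Ioc (M : ℤ) M', ∀ k ∈ Icc (1 : ℤ) K,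
      ∑ p ∈ PP, (if (p : ℤ) ∣ k + m ^ 3 then g k ^ 2 else 0) ≤
        2 * Real.log (40 * (M : ℝ) ^ 3) * g k ^ 2 := by
    intro m hm k hk
    rw [mem_Ioc] at hm
    rw [mem_Icc] at hk
    rw [← sum_filter, sum_const, nsmul_eq_mul]
    apply mul_le_mul_of_nonneg_right _ (sq_nonneg _)
    have hm0 : 0 < m := by omega
    have hm3 : m ≤ 3 * M := by
      have : (M' : ℤ) ≤ 2 * M + 1 := by exact_mod_cast hM'
      omega
    have hm3' : m ^ 3 ≤ 27 * (M : ℤ) ^ 3 := by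
      calc m ^ 3 ≤ (3 * (M : ℤ)) ^ 3 := pow_le_pow_left₀ hm0.le hm3 3
        _ = 27 * (M : ℤ) ^ 3 := by ring
    have hm30 : 0 < m ^ 3 := by positivity
    have hKz : (K : ℤ) ≤ 8 * (M : ℤ) ^ 3 := by exact_mod_cast hKM
    have hM3z : 0 < (M : ℤ) ^ 3 := by positivity
    obtain ⟨n, hn⟩ : ∃ n : ℕ, (n : ℤ) = k + m ^ 3 := ⟨(k + m ^ 3).toNat, by omega⟩
    have hn1 : 1 ≤ n := by omega
    have h5 := dia_om n hn1 (PP.filter (fun p => (p : ℤ) ∣ k + m ^ 3)) (by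
      intro p hp
      obtain ⟨p1, p2⟩ := mem_filter.1 hp
      refine ⟨hPP p p1, ?_⟩
      rw [← hn] at p2
      exact_mod_cast p2)
    refine h5.trans ?_
    apply mul_le_mul_of_nonneg_left _ (by norm_num)
    apply Real.log_le_log (by exact_mod_cast hn1)
    have h6 : (n : ℤ) ≤ 40 * (M : ℤ) ^ 3 := by omega
    exact_mod_cast h6
  have hV : 0 ≤ VV K g := sum_nonneg fun _ _ => sq_nonneg _
  calc ∑ p ∈ PP, ∑ b ∈ Icc (1 : ℤ) N, (Gp K M M' g p b) ^ 2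
      ≤ ∑ p ∈ PP, ∑ b ∈ Icc (1 : ℤ) N, C * ∑ m ∈ Ioc (M : ℤ) M',
          (if c p b m then g ((p : ℤ) * b - m ^ 3) ^ 2 else 0) :=
        sum_le_sum fun p _ => sum_le_sum fun b _ => h1 p b
    _ = C * ∑ p ∈ PP, ∑ m ∈ Ioc (M : ℤ) M', ∑ b ∈ Icc (1 : ℤ) N,
          (if c p b m then g ((p : ℤ) * b - m ^ 3) ^ 2 else 0) := by
        rw [mul_sum]
        refine sum_congr rfl fun p _ => ?_
        rw [← mul_sum, sum_comm]
    _ ≤ C * ∑ p ∈ PP, ∑ m ∈ Ioc (M : ℤ) M', ∑ k ∈ Icc (1 : ℤ) K,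
          (if (p : ℤ) ∣ k + m ^ 3 then g k ^ 2 else 0) :=
        mul_le_mul_of_nonneg_left (sum_le_sum fun p hp => sum_le_sum fun m _ => h2 p hp m) hC0
    _ = C * ∑ m ∈ Ioc (M : ℤ) M', ∑ k ∈ Icc (1 : ℤ) K, ∑ p ∈ PP,
          (if (p : ℤ) ∣ k + m ^ 3 then g k ^ 2 else 0) := by
        rw [sum_comm]
        congr 1
        refine sum_congr rfl fun m _ => ?_
        rw [sum_comm]
    _ ≤ C * ∑ m ∈ Ioc (M : ℤ) M', ∑ k ∈ Icc (1 : ℤ) K,
          2 * Real.log (40 * (M : ℝ) ^ 3) * g k ^ 2 :=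
        mul_le_mul_of_nonneg_left (sum_le_sum fun m hm => sum_le_sum fun k hk => h3 m hm k hk) hC0
    _ = C * (((Ioc (M : ℤ) M').card : ℝ) * (2 * Real.log (40 * (M : ℝ) ^ 3) * VV K g)) := by
        rw [sum_const, nsmul_eq_mul, ← mul_sum]
        rfl
    _ ≤ C * ((2 * M) * (2 * Real.log (40 * (M : ℝ) ^ 3) * VV K g)) := by
        apply mul_le_mul_of_nonneg_left _ hC0
        apply mul_le_mul_of_nonneg_right _ (by positivity)
        have : (Ioc (M : ℤ) M').card ≤ 2 * M := by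
          rw [Int.card_Ioc]
          omega
        exact_mod_cast this
    _ ≤ 8 * M * Real.log (40 * (M : ℝ) ^ 3) * C * VV K g := by
        have : 0 ≤ M * Real.log (40 * (M : ℝ) ^ 3) * C * VV K g := by positivity
        nlinarith

end Pool.Agent.H96.EB
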