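import Pool.Agent.H96.EB.Def2

/-!
# [H96 EB IBD] Cauchy's inequality over the classes

PROOF. For `m % p = c`: `p ∣ k + m^3` iff `k % p = a(c)`, `a(c) = (-c^3) mod p ∈ range p`; so `Xk K g p m α = Gc K g p a(c) α =: x(c)`. Group the sum over `z` by the classes `c = (z.1 % p, z.2 % p') ∈ range p ×ˢ range p'`: it is
`Σ_c Sc c * x(c.1) * conj y(c.2)` (the factor is constant on the class). Cauchy: `<= sqrt(Σ_c ‖Sc c‖^2) sqrt(Σ_c ‖x(c.1)‖^2 ‖y(c.2)‖^2) = sqrt EE sqrt(Σ_{c1<p} ‖x(c1)‖^2) sqrt(Σ_{c2<p'} ‖y(c2)‖^2)`. The congruence `c^3 ≡ -a mod p` has at most 3 solutions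
(`p` prime; roots of `X^3 + a` over the field `ZMod p`), so `Σ_{c1<p} ‖Gc (a(c1))‖^2 <= 3 Aa`; the same for `p'`. `sqrt 3 * sqrt 3 = 3`.
-/

namespace Pool.Agent.H96.EB

open Finset Pool.Agent.H24.AB

private theorem ibd_card {p : ℕ} (hp : p.Prime) (a : ℕ) :
    ((range p).filter fun c : ℕ => ((-(c : ℤ) ^ 3) % (p : ℤ)).toNat = a).card ≤ 3 := by
  classical
  have : Fact p.Prime := ⟨hp⟩
  have hp0 : (0 : ℤ) < p := by exact_mod_cast hp.pos
  have h1 : ∀ c ∈ (range p).filter fun c : ℕ => ((-(c : ℤ) ^ 3) % (p : ℤ)).toNat = a,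
      ((c : ℕ) : ZMod p) ∈ (Polynomial.nthRoots 3 (-(a : ZMod p))).toFinset := by
    intro c hc
    rw [mem_filter] at hc
    rw [Multiset.mem_toFinset, Polynomial.mem_nthRoots (by norm_num)]
    have h2 : ((-(c : ℤ) ^ 3) % (p : ℤ)) = (a : ℤ) := by
      rw [← hc.2, Int.toNat_of_nonneg (Int.emod_nonneg _ hp0.ne')]
    have h3 : (((-(c : ℤ) ^ 3) % (p : ℤ) : ℤ) : ZMod p) = ((-(c : ℤ) ^ 3 : ℤ) : ZMod p) :=
      ZMod.intCast_mod _ _
    rw [h2] at h3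
    push_cast at h3
    rw [h3, neg_neg]
  have hinj : Set.InjOn (fun c : ℕ => (c : ZMod p))
      ((range p).filter fun c : ℕ => ((-(c : ℤ) ^ 3) % (p : ℤ)).toNat = a) := by
    intro c hc c' hc' h
    rw [coe_filter, Set.mem_ofPred_eq, mem_range] at hc hc'
    have h2 := congrArg ZMod.val h
    rwa [ZMod.val_cast_of_lt hc.1, ZMod.val_cast_of_lt hc'.1] at h2
  exact (card_le_card_of_injOn (fun c : ℕ => (c : ZMod p)) h1 hinj).trans
    ((Multiset.toFinset_card_le _).trans (Polynomial.card_nthRoots 3 _))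

private theorem ibd_X {K : ℕ} {g : ℤ → ℝ} {p : ℕ} (hp : p.Prime) (α : ℝ) :
    ∑ c ∈ range p, ‖Xk K g p (c : ℤ) α‖ ^ 2 ≤ 3 * Aa K g p α := by
  classical
  have hp0 : (0 : ℤ) < p := by exact_mod_cast hp.pos
  have hX : ∀ c : ℕ, Xk K g p (c : ℤ) α = Gc K g p ((-(c : ℤ) ^ 3) % (p : ℤ)).toNat α := by
    intro c
    unfold Xk Gc
    refine sum_congr (filter_congr fun k _ => ?_) fun _ _ => rfl
    rw [Int.toNat_of_nonneg (Int.emod_nonneg _ hp0.ne')]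
    show (p : ℤ) ∣ k + (c : ℤ) ^ 3 ↔ Int.ModEq p k (-(c : ℤ) ^ 3)
    rw [Int.modEq_iff_dvd, show -(c : ℤ) ^ 3 - k = -(k + (c : ℤ) ^ 3) by ring, dvd_neg]
  have hmap : ∀ c ∈ range p, ((-(c : ℤ) ^ 3) % (p : ℤ)).toNat ∈ range p := by
    intro c _
    rw [mem_range]
    have h1 := Int.emod_nonneg (-(c : ℤ) ^ 3) hp0.ne'
    have h2 := Int.emod_lt_of_pos (-(c : ℤ) ^ 3) hp0
    omega
  rw [sum_congr rfl fun c _ => by rw [hX c], ← sum_fiberwise_of_maps_to hmap]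
  unfold Aa
  rw [mul_sum]
  refine sum_le_sum fun a _ => ?_
  rw [sum_congr rfl (g := fun _ => ‖Gc K g p a α‖ ^ 2) (fun c hc => by
    rw [(mem_filter.1 hc).2]), sum_const, nsmul_eq_mul]
  exact mul_le_mul_of_nonneg_right (by exact_mod_cast ibd_card hp a) (sq_nonneg _)

theorem ibd (K M M' p p' : ℕ) (w ρ : ℝ) (g : ℤ → ℝ) (hp : p.Prime) (hp' : p'.Prime) (α : ℝ) :
    ‖∑ z ∈ Rg M M' w ρ, ee (α * ((z.1 : ℝ) ^ 3 / p - (z.2 : ℝ) ^ 3 / p')) * Xk K g p z.1 α *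
      (starRingEnd ℂ) (Xk K g p' z.2 α)‖ ≤
      3 * Real.sqrt (EE M M' w ρ p p' α) * Real.sqrt (Aa K g p α) * Real.sqrt (Aa K g p' α) := by
  classical
  have hp0 : (0 : ℤ) < p := by exact_mod_cast hp.pos
  have hp0' : (0 : ℤ) < p' := by exact_mod_cast hp'.pos
  have hXc : ∀ (q : ℕ) (m : ℤ) (c : ℕ), m % (q : ℤ) = (c : ℤ) →
      Xk K g q m α = Xk K g q (c : ℤ) α := by
    intro q m c h
    unfold Xk
    have h1 : (q : ℤ) ∣ m ^ 3 - (c : ℤ) ^ 3 := by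
      refine dvd_trans ?_ (sub_dvd_pow_sub_pow m (c : ℤ) 3)
      rw [← h]
      exact Int.dvd_self_sub_emod
    refine sum_congr (filter_congr fun k _ => ?_) fun _ _ => rfl
    constructor
    · intro h2
      have h3 := dvd_sub h2 h1
      have e : k + m ^ 3 - (m ^ 3 - (c : ℤ) ^ 3) = k + (c : ℤ) ^ 3 := by ring
      rwa [e] at h3
    · intro h2
      have h3 := dvd_add h2 h1
      have e : k + (c : ℤ) ^ 3 + (m ^ 3 - (c : ℤ) ^ 3) = k + m ^ 3 := by ring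
      rwa [e] at h3
  have hmap : ∀ z ∈ Rg M M' w ρ, ((z.1 % (p : ℤ)).toNat, (z.2 % (p' : ℤ)).toNat) ∈
      range p ×ˢ range p' := by
    intro z _
    rw [mem_product, mem_range, mem_range]
    have h1 := Int.emod_nonneg z.1 hp0.ne'
    have h2 := Int.emod_lt_of_pos z.1 hp0
    have h3 := Int.emod_nonneg z.2 hp0'.ne'
    have h4 := Int.emod_lt_of_pos z.2 hp0'
    constructor
    · show (z.1 % (p : ℤ)).toNat < p
      omega
    · show (z.2 % (p' : ℤ)).toNat < p'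
      omega
  have hsum : ∑ z ∈ Rg M M' w ρ, ee (α * ((z.1 : ℝ) ^ 3 / p - (z.2 : ℝ) ^ 3 / p')) *
      Xk K g p z.1 α * (starRingEnd ℂ) (Xk K g p' z.2 α) =
      ∑ c ∈ range p ×ˢ range p', Sc M M' w ρ p p' c α *
        (Xk K g p (c.1 : ℤ) α * (starRingEnd ℂ) (Xk K g p' (c.2 : ℤ) α)) := by
    rw [← sum_fiberwise_of_maps_to hmap]
    refine sum_congr rfl fun c _ => ?_
    unfold Sc
    rw [sum_mul]
    have hf : (Rg M M' w ρ).filter
        (fun z : ℤ × ℤ => ((z.1 % (p : ℤ)).toNat, (z.2 % (p' : ℤ)).toNat) = c) =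
        (Rg M M' w ρ).filter (fun z : ℤ × ℤ => z.1 % (p : ℤ) = (c.1 : ℤ) ∧
          z.2 % (p' : ℤ) = (c.2 : ℤ)) := by
      refine filter_congr fun z _ => ?_
      have h1 := Int.emod_nonneg z.1 hp0.ne'
      have h3 := Int.emod_nonneg z.2 hp0'.ne'
      rw [Prod.ext_iff]
      show ((z.1 % (p : ℤ)).toNat = c.1 ∧ (z.2 % (p' : ℤ)).toNat = c.2) ↔ _
      omega
    rw [hf]
    refine sum_congr rfl fun z hz => ?_
    obtain ⟨-, h1, h2⟩ := mem_filter.1 hz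
    rw [hXc p z.1 c.1 h1, hXc p' z.2 c.2 h2, mul_assoc]
  rw [hsum]
  have hX := ibd_X (K := K) (g := g) hp α
  have hY := ibd_X (K := K) (g := g) hp' α
  have hprod : ∑ c ∈ range p ×ˢ range p',
      (‖Xk K g p (c.1 : ℤ) α‖ * ‖Xk K g p' (c.2 : ℤ) α‖) ^ 2 =
      (∑ c ∈ range p, ‖Xk K g p (c : ℤ) α‖ ^ 2) *
        ∑ c ∈ range p', ‖Xk K g p' (c : ℤ) α‖ ^ 2 := by
    rw [sum_mul_sum, sum_product]
    refine sum_congr rfl fun a _ => sum_congr rfl fun b _ => ?_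
    rw [mul_pow]
  have h3 : Real.sqrt 3 * Real.sqrt 3 = 3 := Real.mul_self_sqrt (by norm_num)
  calc ‖∑ c ∈ range p ×ˢ range p', Sc M M' w ρ p p' c α *
        (Xk K g p (c.1 : ℤ) α * (starRingEnd ℂ) (Xk K g p' (c.2 : ℤ) α))‖ ≤
        ∑ c ∈ range p ×ˢ range p', ‖Sc M M' w ρ p p' c α‖ *
          (‖Xk K g p (c.1 : ℤ) α‖ * ‖Xk K g p' (c.2 : ℤ) α‖) :=
        (norm_sum_le _ _).trans (le_of_eq (sum_congr rfl fun c _ => by
          rw [norm_mul, norm_mul, RCLike.norm_conj]))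
    _ ≤ Real.sqrt (∑ c ∈ range p ×ˢ range p', ‖Sc M M' w ρ p p' c α‖ ^ 2) *
        Real.sqrt (∑ c ∈ range p ×ˢ range p',
          (‖Xk K g p (c.1 : ℤ) α‖ * ‖Xk K g p' (c.2 : ℤ) α‖) ^ 2) :=
        Real.sum_mul_le_sqrt_mul_sqrt _ _ _
    _ = Real.sqrt (EE M M' w ρ p p' α) *
        (Real.sqrt (∑ c ∈ range p, ‖Xk K g p (c : ℤ) α‖ ^ 2) *
          Real.sqrt (∑ c ∈ range p', ‖Xk K g p' (c : ℤ) α‖ ^ 2)) := by
        rw [hprod, Real.sqrt_mul (sum_nonneg fun _ _ => sq_nonneg _)]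
        rfl
    _ ≤ Real.sqrt (EE M M' w ρ p p' α) *
        (Real.sqrt (3 * Aa K g p α) * Real.sqrt (3 * Aa K g p' α)) := by
        refine mul_le_mul_of_nonneg_left ?_ (Real.sqrt_nonneg _)
        exact mul_le_mul (Real.sqrt_le_sqrt hX) (Real.sqrt_le_sqrt hY) (Real.sqrt_nonneg _)
          (Real.sqrt_nonneg _)
    _ = 3 * Real.sqrt (EE M M' w ρ p p' α) * Real.sqrt (Aa K g p α) *
        Real.sqrt (Aa K g p' α) := by
        rw [Real.sqrt_mul (by norm_num), Real.sqrt_mul (by norm_num)]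
        linear_combination (Real.sqrt (EE M M' w ρ p p' α) * Real.sqrt (Aa K g p α) *
          Real.sqrt (Aa K g p' α)) * h3

end Pool.Agent.H96.EB
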