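import Pool.Agent.H96.EB.Def2

/-!
# [H96 EB IDE] The Fourier identity

PROOF. (1) Left side `= Σ_{m,m'} Σ_b g(pb-m^3) g(p'b-m'^3)` over the `b ∈ [1,N]` with `1 <= pb-m^3 <= K`, `1 <= p'b-m'^3 <= K`. If such a `b` exists then `(m,m') ∈ Rg`: with `k = pb-m^3`, `k' = p'b-m'^3`, `p'm^3 - p m'^3 = p k' - p' k`, so
`|ρ^3 m^3 - m'^3| = |p' m^3 - p m'^3|/p <= max(p,p') (K-1)/p < 2K` and `ρ^3 m^3 - m'^3 = (ρm - m')(ρ^2 m^2 + ρ m m' + m'^2)`, where the second factor is `>= 2 M^2` (`m, m' > M`, `ρ^3 >= 1/2`, `ρ^2 + ρ + 1 >= 2`). So `|m' - ρm| <= K/M^2`. Hence the sum over `(m,m')` may be restricted to `Rg`.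
(2) For `(m,m') ∈ Rg`: expand `Xk`, `conj Xk`: `(1/N) Σ_j Σ_{k,k'} g(k) g(k') ee((j/N) ((m^3+k)/p - (m'^3+k')/p'))` over `k, k' ∈ [1,K]`, `p ∣ k + m^3`, `p' ∣ k' + m'^3`. `b = (m^3+k)/p`, `b' = (m'^3+k')/p'` are integers in `[1, 35 M^3]` (`m^3 <= 27 M^3`, `K <= 8M^3`), `35 M^3 < N`, and
`(1/N) Σ_{j<N} ee(j (b-b')/N) = 1` if `b = b'`, else `0` (geometric sum: `ee((b-b')/N) ≠ 1`; roots of unity). The pairs with `b = b'` correspond to the `b` of (1): `k = pb - m^3`, `k' = p'b - m'^3` (`b >= 1` as `pb = m^3 + k > 0`; `b <= N`).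
-/

namespace Pool.Agent.H96.EB

open Finset Pool.Agent.H24.AB

private theorem ide_pow (x : ℝ) (j : ℕ) : ee ((j : ℝ) * x) = ee x ^ j := by
  induction j with
  | zero => simp [ee_zero]
  | succ j ih =>
    rw [pow_succ, ← ih, ← ee_add]
    congr 1
    push_cast
    ring

private theorem ide_ne (N : ℕ) (hN : 1 ≤ N) (b b' : ℤ) (hb : b ∈ Icc (1 : ℤ) N)
    (hb' : b' ∈ Icc (1 : ℤ) N) (hne : b ≠ b') : ee (((b : ℝ) - b') / N) ≠ 1 := by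
  intro h
  unfold ee at h
  rw [Complex.exp_eq_one_iff] at h
  obtain ⟨n, hn⟩ := h
  have hpi : (2 * (Real.pi : ℂ) * Complex.I) ≠ 0 := Complex.two_pi_I_ne_zero
  have h1 : ((((b : ℝ) - b') / N : ℝ) : ℂ) = (n : ℂ) := by
    apply mul_right_cancel₀ hpi
    rw [← hn]
    ring
  have h2 : (((b : ℝ) - b') / N) = (n : ℝ) := by exact_mod_cast h1
  have hN0 : (0 : ℝ) < N := by exact_mod_cast hN
  rw [div_eq_iff hN0.ne'] at h2
  have h3 : b - b' = n * N := by exact_mod_cast h2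
  rw [mem_Icc] at hb hb'
  have hNZ : (0 : ℤ) < N := by exact_mod_cast hN
  have h4 : n < 1 := by
    by_contra hc
    push Not at hc
    have : (1 : ℤ) * N ≤ n * N := mul_le_mul_of_nonneg_right hc hNZ.le
    omega
  have h5 : -1 < n := by
    by_contra hc
    push Not at hc
    have : n * N ≤ (-1 : ℤ) * N := mul_le_mul_of_nonneg_right hc hNZ.le
    omega
  have h6 : n = 0 := by omega
  rw [h6, zero_mul] at h3
  exact hne (by omega)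

private theorem ide_orth (N : ℕ) (hN : 1 ≤ N) (b b' : ℤ) (hb : b ∈ Icc (1 : ℤ) N)
    (hb' : b' ∈ Icc (1 : ℤ) N) :
    (1 / (N : ℂ)) * ∑ j ∈ range N, ee ((j : ℝ) / N * b) * (starRingEnd ℂ) (ee ((j : ℝ) / N * b')) =
      if b = b' then 1 else 0 := by
  have hN0 : (N : ℂ) ≠ 0 := by
    have : N ≠ 0 := by omega
    exact_mod_cast this
  have h1 : ∀ j ∈ range N, ee ((j : ℝ) / N * b) * (starRingEnd ℂ) (ee ((j : ℝ) / N * b')) =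
      ee (((b : ℝ) - b') / N) ^ j := by
    intro j _
    rw [ee_conj, ← ee_add, ← ide_pow]
    congr 1
    ring
  rw [sum_congr rfl h1]
  split_ifs with hbb
  · subst hbb
    rw [sub_self, zero_div, ee_zero]
    simp [hN0]
  · have h2 := ide_ne N hN b b' hb hb' hbb
    have h3 : ee (((b : ℝ) - b') / N) ^ N = 1 := by
      rw [← ide_pow]
      have h4 : (N : ℝ) * (((b : ℝ) - b') / N) = ((b - b' : ℤ) : ℝ) := by
        have hNR : (N : ℝ) ≠ 0 := by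
          have : N ≠ 0 := by omega
          exact_mod_cast this
        push_cast
        field_simp
      rw [h4, ee_int]
    have h5 := geom_sum_eq h2 N
    rw [h5, h3, sub_self, zero_div, mul_zero]

private theorem ide_pars (N : ℕ) (hN : 1 ≤ N) (u v : ℤ → ℝ) :
    (1 / (N : ℂ)) * ∑ j ∈ range N, (∑ b ∈ Icc (1 : ℤ) N, (u b : ℂ) * ee ((j : ℝ) / N * b)) *
      (starRingEnd ℂ) (∑ b ∈ Icc (1 : ℤ) N, (v b : ℂ) * ee ((j : ℝ) / N * b)) =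
      ∑ b ∈ Icc (1 : ℤ) N, (u b : ℂ) * (v b : ℂ) := by
  have h1 : ∀ j ∈ range N, (∑ b ∈ Icc (1 : ℤ) N, (u b : ℂ) * ee ((j : ℝ) / N * b)) *
      (starRingEnd ℂ) (∑ b ∈ Icc (1 : ℤ) N, (v b : ℂ) * ee ((j : ℝ) / N * b)) =
      ∑ b ∈ Icc (1 : ℤ) N, ∑ b' ∈ Icc (1 : ℤ) N, (u b : ℂ) * (v b' : ℂ) *
        (ee ((j : ℝ) / N * b) * (starRingEnd ℂ) (ee ((j : ℝ) / N * b'))) := by
    intro j _
    rw [map_sum, sum_mul_sum]
    refine sum_congr rfl fun b _ => sum_congr rfl fun b' _ => ?_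
    rw [map_mul, Complex.conj_ofReal]
    ring
  rw [sum_congr rfl h1, sum_comm, mul_sum]
  refine sum_congr rfl fun b hb => ?_
  rw [sum_comm, mul_sum]
  have h2 : ∀ b' ∈ Icc (1 : ℤ) N, (1 / (N : ℂ)) * ∑ j ∈ range N, (u b : ℂ) * (v b' : ℂ) *
        (ee ((j : ℝ) / N * b) * (starRingEnd ℂ) (ee ((j : ℝ) / N * b'))) =
      if b = b' then (u b : ℂ) * (v b' : ℂ) else 0 := by
    intro b' hb'
    rw [← mul_sum, mul_left_comm, ide_orth N hN b b' hb hb']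
    split_ifs
    · rw [mul_one]
    · rw [mul_zero]
  rw [sum_congr rfl h2, sum_ite_eq, if_pos hb]

/-- one term of `Gp` -/
private noncomputable def idg (K : ℕ) (g : ℤ → ℝ) (p : ℕ) (m b : ℤ) : ℝ :=
  if 1 ≤ (p : ℤ) * b - m ^ 3 ∧ (p : ℤ) * b - m ^ 3 ≤ K then g ((p : ℤ) * b - m ^ 3) else 0

private theorem ide_Y (K M M' N p : ℕ) (g : ℤ → ℝ) (hM' : M' ≤ 2 * M + 1) (hM : 1 ≤ M)
    (hKM : K ≤ 8 * M ^ 3) (hp : 0 < p) (hN : 40 * M ^ 3 ≤ N) (m : ℤ) (hm1 : (M : ℤ) < m)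
    (hm2 : m ≤ M') (α : ℝ) :
    ee (α * ((m : ℝ) ^ 3 / p)) * Xk K g p m α =
      ∑ b ∈ Icc (1 : ℤ) N, (idg K g p m b : ℂ) * ee (α * b) := by
  have hp0 : (0 : ℤ) < p := by exact_mod_cast hp
  have hpR : (p : ℝ) ≠ 0 := by
    have : (0 : ℝ) < p := by exact_mod_cast hp
    exact this.ne'
  have hMZ : (1 : ℤ) ≤ M := by exact_mod_cast hM
  have hm3 : (m : ℤ) ≤ 3 * M := by
    have : (M' : ℤ) ≤ 2 * M + 1 := by exact_mod_cast hM'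
    omega
  have hm0 : 0 < m := by omega
  have hcube : m ^ 3 ≤ 27 * (M : ℤ) ^ 3 := by
    calc m ^ 3 ≤ (3 * (M : ℤ)) ^ 3 := pow_le_pow_left₀ hm0.le hm3 3
      _ = 27 * (M : ℤ) ^ 3 := by ring
  have hcube0 : 0 < m ^ 3 := by positivity
  have hKZ : (K : ℤ) ≤ 8 * (M : ℤ) ^ 3 := by exact_mod_cast hKM
  have hNZ : 40 * (M : ℤ) ^ 3 ≤ N := by exact_mod_cast hN
  have hM3 : (0 : ℤ) < (M : ℤ) ^ 3 := by positivity
  have h1 : ∑ b ∈ Icc (1 : ℤ) N, (idg K g p m b : ℂ) * ee (α * b) =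
      ∑ b ∈ (Icc (1 : ℤ) N).filter (fun b : ℤ => 1 ≤ (p : ℤ) * b - m ^ 3 ∧
        (p : ℤ) * b - m ^ 3 ≤ K), (g ((p : ℤ) * b - m ^ 3) : ℂ) * ee (α * b) := by
    rw [sum_filter]
    refine sum_congr rfl fun b _ => ?_
    unfold idg
    split_ifs
    · rfl
    · simp
  rw [h1, Xk, mul_sum]
  refine sum_nbij' (fun k : ℤ => (k + m ^ 3) / p) (fun b : ℤ => (p : ℤ) * b - m ^ 3) ?_ ?_ ?_ ?_ ?_
  · intro k hk
    simp only [mem_filter, mem_Icc] at hk ⊢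
    obtain ⟨⟨hk1, hk2⟩, c, hc⟩ := hk
    have h2 : (k + m ^ 3) / (p : ℤ) = c := by
      rw [hc, Int.mul_ediv_cancel_left _ hp0.ne']
    rw [h2]
    have hc0 : 0 < c := by
      by_contra hcc
      push Not at hcc
      have : (p : ℤ) * c ≤ 0 := mul_nonpos_of_nonneg_of_nonpos hp0.le hcc
      omega
    have hc1 : c ≤ (p : ℤ) * c := by nlinarith
    refine ⟨⟨by omega, by omega⟩, by omega, by omega⟩
  · intro b hb
    simp only [mem_filter, mem_Icc] at hb ⊢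
    refine ⟨hb.2, ⟨b, by ring⟩⟩
  · intro k hk
    simp only [mem_filter, mem_Icc] at hk
    obtain ⟨⟨hk1, hk2⟩, c, hc⟩ := hk
    have h2 : (k + m ^ 3) / (p : ℤ) = c := by
      rw [hc, Int.mul_ediv_cancel_left _ hp0.ne']
    show (p : ℤ) * ((k + m ^ 3) / (p : ℤ)) - m ^ 3 = k
    rw [h2, ← hc]
    ring
  · intro b hb
    show ((p : ℤ) * b - m ^ 3 + m ^ 3) / (p : ℤ) = b
    rw [sub_add_cancel, Int.mul_ediv_cancel_left _ hp0.ne']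
  · intro k hk
    simp only [mem_filter, mem_Icc] at hk
    obtain ⟨⟨hk1, hk2⟩, c, hc⟩ := hk
    have h2 : (k + m ^ 3) / (p : ℤ) = c := by
      rw [hc, Int.mul_ediv_cancel_left _ hp0.ne']
    have h3 : (p : ℤ) * c - m ^ 3 = k := by rw [← hc]; ring
    show ee (α * ((m : ℝ) ^ 3 / p)) * ((g k : ℂ) * ee (α * ((k : ℝ) / p))) =
      (g ((p : ℤ) * ((k + m ^ 3) / (p : ℤ)) - m ^ 3) : ℂ) * ee (α * (((k + m ^ 3) / (p : ℤ) : ℤ) : ℝ))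
    rw [h2, h3, mul_left_comm, ← ee_add]
    congr 2
    have h4 : ((k : ℝ) + (m : ℝ) ^ 3) = p * c := by exact_mod_cast hc
    have h5 : (c : ℝ) = ((k : ℝ) + (m : ℝ) ^ 3) / p := by
      rw [h4]
      field_simp
    rw [h5]
    ring

private theorem ide_strip (K M P p p' : ℕ) (ρ : ℝ) (hM : 1 ≤ M) (hp : p.Prime) (h1 : P < p)
    (h2 : p ≤ 2 * P) (h3 : P < p') (h4 : p' ≤ 2 * P) (hρ : 0 < ρ) (hρ3 : ρ ^ 3 * p = p')
    (m m' b : ℤ) (hm : (M : ℤ) < m) (hm' : (M : ℤ) < m') (hk1 : 1 ≤ (p : ℤ) * b - m ^ 3)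
    (hk2 : (p : ℤ) * b - m ^ 3 ≤ K) (hk3 : 1 ≤ (p' : ℤ) * b - m' ^ 3)
    (hk4 : (p' : ℤ) * b - m' ^ 3 ≤ K) : |(m' : ℝ) - ρ * m| ≤ (K : ℝ) / (M : ℝ) ^ 2 := by
  have hpR : (0 : ℝ) < p := by exact_mod_cast hp.pos
  have hMR : (1 : ℝ) ≤ M := by exact_mod_cast hM
  have hmR : (M : ℝ) ≤ m := by exact_mod_cast hm.le
  have hmR' : (M : ℝ) ≤ m' := by exact_mod_cast hm'.le
  have hk1R : (1 : ℝ) ≤ (p : ℝ) * b - (m : ℝ) ^ 3 := by exact_mod_cast hk1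
  have hk2R : (p : ℝ) * b - (m : ℝ) ^ 3 ≤ K := by exact_mod_cast hk2
  have hk3R : (1 : ℝ) ≤ (p' : ℝ) * b - (m' : ℝ) ^ 3 := by exact_mod_cast hk3
  have hk4R : (p' : ℝ) * b - (m' : ℝ) ^ 3 ≤ K := by exact_mod_cast hk4
  have h1R : (P : ℝ) ≤ p := by exact_mod_cast h1.le
  have h2R : (p : ℝ) ≤ 2 * P := by exact_mod_cast h2
  have h3R : (P : ℝ) ≤ p' := by exact_mod_cast h3.le
  have h4R : (p' : ℝ) ≤ 2 * P := by exact_mod_cast h4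
  have hρ2 : ρ ^ 3 ≤ 2 := by
    have : ρ ^ 3 * p ≤ 2 * p := by linarith
    exact le_of_mul_le_mul_right this hpR
  have hρ1 : 1 / 2 ≤ ρ ^ 3 := by
    have : 1 / 2 * (p : ℝ) ≤ ρ ^ 3 * p := by linarith
    exact le_of_mul_le_mul_right this hpR
  have hρ7 : 7 / 10 ≤ ρ := by
    by_contra hc
    push Not at hc
    have : ρ ^ 3 < (7 / 10 : ℝ) ^ 3 := pow_lt_pow_left₀ hc hρ.le (by norm_num)
    norm_num at this
    linarith
  obtain ⟨k, hk⟩ : ∃ k : ℝ, k = (p : ℝ) * b - (m : ℝ) ^ 3 := ⟨_, rfl⟩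
  obtain ⟨k', hk'⟩ : ∃ k' : ℝ, k' = (p' : ℝ) * b - (m' : ℝ) ^ 3 := ⟨_, rfl⟩
  have hid : (ρ * m - m') * (ρ ^ 2 * (m : ℝ) ^ 2 + ρ * m * m' + (m' : ℝ) ^ 2) =
      k' - ρ ^ 3 * k := by
    rw [hk, hk', ← hρ3]
    ring
  have hupper : |k' - ρ ^ 3 * k| ≤ 2 * K := by
    have hK0 : (1 : ℝ) ≤ K := hk1R.trans hk2R
    have hk0 : 0 ≤ k := by rw [hk]; linarith
    have hkK : k ≤ K := by rw [hk]; exact hk2R
    have hk0' : 0 ≤ k' := by rw [hk']; linarith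
    have hkK' : k' ≤ K := by rw [hk']; exact hk4R
    have hρk : 0 ≤ ρ ^ 3 * k := by positivity
    have hρk2 : ρ ^ 3 * k ≤ 2 * K := mul_le_mul hρ2 hkK hk0 (by norm_num)
    rw [abs_le]
    constructor <;> linarith
  have hfac : 2 * (M : ℝ) ^ 2 ≤ ρ ^ 2 * (m : ℝ) ^ 2 + ρ * m * m' + (m' : ℝ) ^ 2 := by
    have hM0 : (0 : ℝ) ≤ M := by linarith
    have e1 : (M : ℝ) ^ 2 ≤ (m : ℝ) ^ 2 := pow_le_pow_left₀ hM0 hmR 2
    have e2 : (M : ℝ) ^ 2 ≤ (m' : ℝ) ^ 2 := pow_le_pow_left₀ hM0 hmR' 2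
    have e3 : (M : ℝ) * M ≤ (m : ℝ) * m' := mul_le_mul hmR hmR' hM0 (by linarith)
    have e4 : (7 / 10 : ℝ) ^ 2 ≤ ρ ^ 2 := pow_le_pow_left₀ (by norm_num) hρ7 2
    have e5 : (7 / 10 : ℝ) ^ 2 * (M : ℝ) ^ 2 ≤ ρ ^ 2 * (m : ℝ) ^ 2 :=
      mul_le_mul e4 e1 (by positivity) (by positivity)
    have e6 : (7 / 10 : ℝ) * ((M : ℝ) * M) ≤ ρ * ((m : ℝ) * m') :=
      mul_le_mul hρ7 e3 (by positivity) hρ.le
    nlinarith
  have hM2 : (0 : ℝ) < (M : ℝ) ^ 2 := by positivity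
  rw [le_div_iff₀ hM2, abs_sub_comm]
  have h5 : |ρ * m - m'| * (2 * (M : ℝ) ^ 2) ≤ 2 * K := by
    calc |ρ * m - m'| * (2 * (M : ℝ) ^ 2) ≤
          |ρ * m - m'| * (ρ ^ 2 * (m : ℝ) ^ 2 + ρ * m * m' + (m' : ℝ) ^ 2) :=
          mul_le_mul_of_nonneg_left hfac (abs_nonneg _)
      _ = |(ρ * m - m') * (ρ ^ 2 * (m : ℝ) ^ 2 + ρ * m * m' + (m' : ℝ) ^ 2)| := by
          rw [abs_mul, abs_of_nonneg (a := ρ ^ 2 * (m : ℝ) ^ 2 + ρ * m * m' + (m' : ℝ) ^ 2)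
            (by linarith)]
      _ ≤ 2 * K := by rw [hid]; exact hupper
  linarith

theorem ide (K M M' P N p p' : ℕ) (ρ : ℝ) (g : ℤ → ℝ) (hM : 1 ≤ M) (hM' : M' ≤ 2 * M + 1)
    (hK : 1 ≤ K) (hKM : K ≤ 8 * M ^ 3) (hp : p.Prime) (hp' : p'.Prime) (h1 : P < p)
    (h2 : p ≤ 2 * P) (h3 : P < p') (h4 : p' ≤ 2 * P) (hρ : 0 < ρ) (hρ3 : ρ ^ 3 * p = p')
    (hN : 40 * M ^ 3 ≤ N) :
    ((∑ b ∈ Icc (1 : ℤ) N, Gp K M M' g p b * Gp K M M' g p' b : ℝ) : ℂ) =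
      (1 / (N : ℂ)) * ∑ j ∈ range N, ∑ z ∈ Rg M M' ((K : ℝ) / (M : ℝ) ^ 2) ρ,
        ee ((j : ℝ) / N * ((z.1 : ℝ) ^ 3 / p - (z.2 : ℝ) ^ 3 / p')) * Xk K g p z.1 ((j : ℝ) / N) *
          (starRingEnd ℂ) (Xk K g p' z.2 ((j : ℝ) / N)) := by
  have hN1 : 1 ≤ N := by
    have : 1 ≤ M ^ 3 := Nat.one_le_pow _ _ hM
    omega
  -- right side, for each point of the strip
  have hR : ∀ z ∈ Rg M M' ((K : ℝ) / (M : ℝ) ^ 2) ρ,
      (1 / (N : ℂ)) * ∑ j ∈ range N,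
        ee ((j : ℝ) / N * ((z.1 : ℝ) ^ 3 / p - (z.2 : ℝ) ^ 3 / p')) * Xk K g p z.1 ((j : ℝ) / N) *
          (starRingEnd ℂ) (Xk K g p' z.2 ((j : ℝ) / N)) =
      ∑ b ∈ Icc (1 : ℤ) N, (idg K g p z.1 b : ℂ) * (idg K g p' z.2 b : ℂ) := by
    intro z hz
    simp only [Rg, mem_filter, mem_product, mem_Ioc] at hz
    rw [← ide_pars N hN1]
    congr 1
    refine sum_congr rfl fun j _ => ?_
    rw [← ide_Y K M M' N p g hM' hM hKM hp.pos hN z.1 hz.1.1.1 hz.1.1.2,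
      ← ide_Y K M M' N p' g hM' hM hKM hp'.pos hN z.2 hz.1.2.1 hz.1.2.2, map_mul, ee_conj]
    have e : ee ((j : ℝ) / N * ((z.1 : ℝ) ^ 3 / p - (z.2 : ℝ) ^ 3 / p')) =
        ee ((j : ℝ) / N * ((z.1 : ℝ) ^ 3 / p)) * ee (-((j : ℝ) / N * ((z.2 : ℝ) ^ 3 / p'))) := by
      rw [← ee_add]
      congr 1
      ring
    rw [e]
    ring
  rw [sum_comm, mul_sum, sum_congr rfl hR]
  -- left side
  have hL : ∀ b : ℤ, Gp K M M' g p b * Gp K M M' g p' b =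
      ∑ z ∈ (Ioc (M : ℤ) M') ×ˢ (Ioc (M : ℤ) M'), idg K g p z.1 b * idg K g p' z.2 b := by
    intro b
    rw [sum_product, Gp, Gp, sum_mul_sum]
    rfl
  simp only [hL]
  rw [sum_comm]
  push_cast
  rw [Rg]
  refine (sum_filter_of_ne ?_).symm
  intro z hz hne
  simp only [mem_product, mem_Ioc] at hz
  obtain ⟨b, hb, hb0⟩ := exists_ne_zero_of_sum_ne_zero hne
  have hb1 : idg K g p z.1 b ≠ 0 := by
    intro h
    rw [h] at hb0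
    simp at hb0
  have hb2 : idg K g p' z.2 b ≠ 0 := by
    intro h
    rw [h] at hb0
    simp at hb0
  unfold idg at hb1 hb2
  rw [ne_eq, ite_eq_right_iff, not_forall] at hb1 hb2
  obtain ⟨c1, -⟩ := hb1
  obtain ⟨c2, -⟩ := hb2
  exact ide_strip K M P p p' ρ hM hp h1 h2 h3 h4 hρ hρ3 z.1 z.2 b hz.1.1 hz.2.1 c1.1 c1.2 c2.1 c2.2

end Pool.Agent.H96.EB
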