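import Pool.Agent.H96.EB.Rc2

/-!
# [H96 EB IV] Recurrence for a bilinear form

PROOF. `A = 8`. The `b` in the box `|b_i| <= 8 B_i`: at most `(16 B1 + 1)(16 B2 + 1) <= 289 B1 B2`, the `a`: at most `289 A1 A2`. Let `τ1 = τ/578`, `Y` = the set of the first components `b` of `G` with at least `τ1 A1 A2` elements `(b,a) ∈ G`. Then `τ A1A2B1B2 <= card G <= 289 B1B2 τ1 A1A2 + card Y * 289 A1A2`, so `card Y >= τ1 B1 B2`.
For `b ∈ Y`: `rc2` with `λ_j(b) = b_1 x_1j + b_2 x_2j`, `τ1`, `N = A_j`, `δ`: `q(b) <= Q1 := 576 * 8^4/τ1^2`, `dz (q(b) λ_j(b)) <= δ_j := 20736 * 8^5 δ/(τ1^3 A_j)`. Pigeonhole over the values of `q(b)`: one `q` with at least `τ2 B1 B2` elements `b`, `τ2 = τ1/Q1 = τ1^3/(576 * 8^4)`.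
For `j = 1, 2`: `rc2` with `λ_i = q x_ij`, `τ2`, `N = B_i`, `δ_j` (`Σ_i b_i q x_ij = q λ_j(b)`): `q_j <= Q2 := 576 * 8^4/τ2^2`, `dz (q_j q x_ij) <= 20736 * 8^5 δ_j/(τ2^3 B_i)`. Final `q' = q q_1 q_2`: `dz (q' x_ij) <= Q2 dz (q_j q x_ij)` (`dz_mul`).
Powers of `1/τ`: `Q1 ~ τ^-2`, `τ2 ~ τ^3`, `Q2 ~ τ^-6`, `q' <= Q1 Q2^2 ~ τ^-14`, `dz (q' x_ij) <= C τ^-6 τ^-9 τ^-3 δ/(A_j B_i)`. All conditions (`N >= 432 * 8^3/τ2^2 ~ τ^-6`, `δ <= τ1/(384 * 64)`, `δ_j <= τ2/(384 * 64)`) follow from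
`A_j, B_i >= C/τ^18` and `δ <= τ^18/C`, with `C` large (`C = 10^100` is enough).
-/

namespace Pool.Agent.H96.EB

private theorem iv_box (U V : ℝ) (hU : 1 ≤ U) (hV : 1 ≤ V) (S : Finset (ℤ × ℤ))
    (h : ∀ a ∈ S, |(a.1 : ℝ)| ≤ 8 * U ∧ |(a.2 : ℝ)| ≤ 8 * V) : (S.card : ℝ) ≤ 289 * (U * V) := by
  have key : ∀ W : ℝ, 1 ≤ W → ((Finset.Icc (-⌊8 * W⌋) ⌊8 * W⌋).card : ℝ) ≤ 17 * W := by
    intro W hW
    have hfl : (0 : ℤ) ≤ ⌊8 * W⌋ := Int.floor_nonneg.2 (by linarith)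
    have h1 : ((Finset.Icc (-⌊8 * W⌋) ⌊8 * W⌋).card : ℤ) = 2 * ⌊8 * W⌋ + 1 := by
      rw [Int.card_Icc, Int.toNat_of_nonneg (by linarith)]
      ring
    have h2 : ((Finset.Icc (-⌊8 * W⌋) ⌊8 * W⌋).card : ℝ) = 2 * (⌊8 * W⌋ : ℝ) + 1 := by
      exact_mod_cast h1
    have h3 : (⌊8 * W⌋ : ℝ) ≤ 8 * W := Int.floor_le _
    rw [h2]
    linarith
  have mem : ∀ (W : ℝ) (n : ℤ), |(n : ℝ)| ≤ 8 * W → n ∈ Finset.Icc (-⌊8 * W⌋) ⌊8 * W⌋ := by
    intro W n hn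
    have h1 := abs_le.1 hn
    rw [Finset.mem_Icc]
    refine ⟨?_, Int.le_floor.2 h1.2⟩
    rw [neg_le]
    apply Int.le_floor.2
    push_cast
    linarith [h1.1]
  have hsub : S ⊆ (Finset.Icc (-⌊8 * U⌋) ⌊8 * U⌋) ×ˢ (Finset.Icc (-⌊8 * V⌋) ⌊8 * V⌋) := by
    intro a ha
    rw [Finset.mem_product]
    exact ⟨mem U a.1 (h a ha).1, mem V a.2 (h a ha).2⟩
  have h1 := Finset.card_le_card hsub
  rw [Finset.card_product] at h1
  have h2 : (S.card : ℝ) ≤ ((Finset.Icc (-⌊8 * U⌋) ⌊8 * U⌋).card : ℝ) *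
      ((Finset.Icc (-⌊8 * V⌋) ⌊8 * V⌋).card : ℝ) := by exact_mod_cast h1
  have h3 : ((Finset.Icc (-⌊8 * U⌋) ⌊8 * U⌋).card : ℝ) *
      ((Finset.Icc (-⌊8 * V⌋) ⌊8 * V⌋).card : ℝ) ≤ 17 * U * (17 * V) :=
    mul_le_mul (key U hU) (key V hV) (Nat.cast_nonneg _) (by linarith)
  linarith

private theorem iv_pow (K C τ : ℝ) (k : ℕ) (hk : k ≤ 18) (hτ : 0 < τ) (hτ1 : τ ≤ 1) (hK : 0 ≤ K)
    (hKC : K ≤ C) : K / τ ^ k ≤ C / τ ^ 18 := by
  have h1 : τ ^ 18 ≤ τ ^ k := pow_le_pow_of_le_one hτ.le hτ1 hk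
  exact div_le_div₀ (hK.trans hKC) hKC (by positivity) h1

theorem iv : ∃ C : ℝ, 1 ≤ C ∧ ∀ (τ δ A1 A2 B1 B2 x11 x12 x21 x22 : ℝ)
    (G : Finset ((ℤ × ℤ) × (ℤ × ℤ))), 0 < τ → τ ≤ 1 → 0 ≤ δ → δ ≤ τ ^ 18 / C →
    C / τ ^ 18 ≤ A1 → C / τ ^ 18 ≤ A2 → C / τ ^ 18 ≤ B1 → C / τ ^ 18 ≤ B2 →
    (∀ g ∈ G, |(g.1.1 : ℝ)| ≤ 8 * B1 ∧ |(g.1.2 : ℝ)| ≤ 8 * B2 ∧ |(g.2.1 : ℝ)| ≤ 8 * A1 ∧
      |(g.2.2 : ℝ)| ≤ 8 * A2) → τ * (A1 * A2 * (B1 * B2)) ≤ G.card →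
    (∀ g ∈ G, dz (g.1.1 * g.2.1 * x11 + g.1.1 * g.2.2 * x12 + g.1.2 * g.2.1 * x21 +
      g.1.2 * g.2.2 * x22) ≤ δ) →
    ∃ q : ℕ, 1 ≤ q ∧ (q : ℝ) ≤ C / τ ^ 18 ∧ dz (q * x11) ≤ C / τ ^ 18 * (δ / (B1 * A1)) ∧
      dz (q * x12) ≤ C / τ ^ 18 * (δ / (B1 * A2)) ∧
      dz (q * x21) ≤ C / τ ^ 18 * (δ / (B2 * A1)) ∧
      dz (q * x22) ≤ C / τ ^ 18 * (δ / (B2 * A2)) := by
  refine ⟨10 ^ 120, by norm_num, ?_⟩
  intro τ δ A1 A2 B1 B2 x11 x12 x21 x22 G hτ hτ1 hδ0 hδ hA1 hA2 hB1 hB2 hG hcard hdz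
  have hbig : (10 : ℝ) ^ 120 ≤ 10 ^ 120 / τ ^ 18 := by
    rw [le_div_iff₀ (by positivity)]
    have h1 : τ ^ 18 ≤ 1 := pow_le_one₀ hτ.le hτ1
    nlinarith
  have hone : (1 : ℝ) ≤ 10 ^ 120 / τ ^ 18 := le_trans (by norm_num) hbig
  have hA1' : 1 ≤ A1 := hone.trans hA1
  have hA2' : 1 ≤ A2 := hone.trans hA2
  have hB1' : 1 ≤ B1 := hone.trans hB1
  have hB2' : 1 ≤ B2 := hone.trans hB2
  have hA1p : 0 < A1 := by linarith
  have hA2p : 0 < A2 := by linarith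
  have hB1p : 0 < B1 := by linarith
  have hB2p : 0 < B2 := by linarith
  -- first step: the set Y
  set P := G.image Prod.fst with hP
  set c : ℤ × ℤ → ℕ := fun b => (G.filter (fun g => g.1 = b)).card with hc
  have hGc : (G.card : ℝ) = ∑ b ∈ P, (c b : ℝ) := by
    have h1 := Finset.card_eq_sum_card_image (Prod.fst : (ℤ × ℤ) × (ℤ × ℤ) → ℤ × ℤ) G
    rw [h1]
    push_cast
    rfl
  have hPc : (P.card : ℝ) ≤ 289 * (B1 * B2) := by
    apply iv_box B1 B2 hB1' hB2'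
    intro a ha
    obtain ⟨g, hg, rfl⟩ := Finset.mem_image.1 ha
    exact ⟨(hG g hg).1, (hG g hg).2.1⟩
  set fib : ℤ × ℤ → Finset (ℤ × ℤ) :=
    fun b => (G.filter (fun g => g.1 = b)).image Prod.snd with hfib
  have hfibmem : ∀ b a, a ∈ fib b → (b, a) ∈ G := by
    intro b a ha
    obtain ⟨g, hg, h1⟩ := Finset.mem_image.1 ha
    have h2 := Finset.mem_filter.1 hg
    have h3 : g = (b, a) := Prod.ext h2.2 h1
    rw [← h3]
    exact h2.1
  have hfibc : ∀ b, (fib b).card = c b := by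
    intro b
    apply Finset.card_image_of_injOn
    intro x hx y hy hxy
    have hx' := Finset.mem_filter.1 (Finset.mem_coe.1 hx)
    have hy' := Finset.mem_filter.1 (Finset.mem_coe.1 hy)
    exact Prod.ext (by rw [hx'.2, hy'.2]) hxy
  have hfibU : ∀ b, (c b : ℝ) ≤ 289 * (A1 * A2) := by
    intro b
    rw [← hfibc b]
    apply iv_box A1 A2 hA1' hA2'
    intro a ha
    have h1 := hG _ (hfibmem b a ha)
    exact ⟨h1.2.2.1, h1.2.2.2⟩
  set Y := P.filter (fun b => τ / 578 * (A1 * A2) ≤ (c b : ℝ)) with hY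
  have hYc : τ / 578 * (B1 * B2) ≤ (Y.card : ℝ) := by
    have h1 : ∑ b ∈ P, (c b : ℝ) ≤ ∑ b ∈ P, ((if τ / 578 * (A1 * A2) ≤ (c b : ℝ) then
        289 * (A1 * A2) else 0) + τ / 578 * (A1 * A2)) := by
      apply Finset.sum_le_sum
      intro b _
      by_cases hb : τ / 578 * (A1 * A2) ≤ (c b : ℝ)
      · rw [if_pos hb]
        have h2 := hfibU b
        have h3 : 0 ≤ τ / 578 * (A1 * A2) := by positivity
        linarith
      · rw [if_neg hb]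
        have h2 := not_le.1 hb
        linarith
    rw [Finset.sum_add_distrib, ← Finset.sum_filter, Finset.sum_const, Finset.sum_const,
      nsmul_eq_mul, nsmul_eq_mul, ← hGc] at h1
    have h2 : (P.card : ℝ) * (τ / 578 * (A1 * A2)) ≤
        289 * (B1 * B2) * (τ / 578 * (A1 * A2)) :=
      mul_le_mul_of_nonneg_right hPc (by positivity)
    have h3 : τ * (A1 * A2 * (B1 * B2)) ≤ (Y.card : ℝ) * (289 * (A1 * A2)) +
        289 * (B1 * B2) * (τ / 578 * (A1 * A2)) := by linarith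
    have h4 : (τ / 578 * (B1 * B2)) * (289 * (A1 * A2)) ≤ (Y.card : ℝ) * (289 * (A1 * A2)) := by
      nlinarith
    exact le_of_mul_le_mul_right h4 (by positivity)
  -- second step
  have hstep2 : ∀ b ∈ Y, ∃ q : ℕ, 1 ≤ q ∧ (q : ℝ) ≤ 2359296 * 334084 / τ ^ 2 ∧
      dz (q * (b.1 * x11 + b.2 * x21)) ≤ 679477248 * 193100552 * δ / (τ ^ 3 * A1) ∧
      dz (q * (b.1 * x12 + b.2 * x22)) ≤ 679477248 * 193100552 * δ / (τ ^ 3 * A2) := by
    intro b hb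
    have hb' := Finset.mem_filter.1 hb
    have hrc := rc2 8 (τ / 578) A1 A2 δ (b.1 * x11 + b.2 * x21) (b.1 * x12 + b.2 * x22)
      (by norm_num) (by positivity) (by linarith)
      (by
        have h1 : 432 * (8 : ℝ) ^ 3 / (τ / 578) ^ 2 = 73894035456 / τ ^ 2 := by
          field_simp
          norm_num
        rw [h1]
        exact (iv_pow _ (10 ^ 120) τ 2 (by norm_num) hτ hτ1 (by norm_num) (by norm_num)).trans hA1)
      (by
        have h1 : 432 * (8 : ℝ) ^ 3 / (τ / 578) ^ 2 = 73894035456 / τ ^ 2 := by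
          field_simp
          norm_num
        rw [h1]
        exact (iv_pow _ (10 ^ 120) τ 2 (by norm_num) hτ hτ1 (by norm_num) (by norm_num)).trans hA2)
      hδ0
      (by
        have h1 : τ ^ 18 ≤ τ := by
          calc τ ^ 18 ≤ τ ^ 1 := pow_le_pow_of_le_one hτ.le hτ1 (by norm_num)
            _ = τ := pow_one τ
        have h2 : τ ^ 18 / 10 ^ 120 ≤ τ / 578 / (384 * 8 ^ 2) := by
          rw [div_div]
          exact div_le_div₀ hτ.le h1 (by norm_num) (by norm_num)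
        exact hδ.trans h2)
      (fib b)
      (fun a ha => (hG _ (hfibmem b a ha)).2.2.1)
      (fun a ha => (hG _ (hfibmem b a ha)).2.2.2)
      (by
        rw [hfibc b]
        exact hb'.2)
      (by
        intro a ha
        have h1 := hdz _ (hfibmem b a ha)
        have h2 : (a.1 : ℝ) * (b.1 * x11 + b.2 * x21) + a.2 * (b.1 * x12 + b.2 * x22) =
            (b.1 : ℝ) * a.1 * x11 + b.1 * a.2 * x12 + b.2 * a.1 * x21 + b.2 * a.2 * x22 := by ring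
        rw [h2]
        exact h1)
    obtain ⟨q, h1, h2, h3, h4⟩ := hrc
    refine ⟨q, h1, ?_, ?_, ?_⟩
    · have h5 : 576 * (8 : ℝ) ^ 4 / (τ / 578) ^ 2 = 2359296 * 334084 / τ ^ 2 := by
        field_simp
        norm_num
      rw [← h5]
      exact h2
    · have h5 : 20736 * (8 : ℝ) ^ 5 * δ / ((τ / 578) ^ 3 * A1) =
          679477248 * 193100552 * δ / (τ ^ 3 * A1) := by
        field_simp
        ring
      rw [← h5]
      exact h3
    · have h5 : 20736 * (8 : ℝ) ^ 5 * δ / ((τ / 578) ^ 3 * A2) =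
          679477248 * 193100552 * δ / (τ ^ 3 * A2) := by
        field_simp
        ring
      rw [← h5]
      exact h4
  choose! qf hq1 hq2 hq3 hq4 using hstep2
  have hYpos : (0 : ℝ) < Y.card := lt_of_lt_of_le (by positivity) hYc
  have hYne : Y.Nonempty := by
    rw [← Finset.card_pos]
    exact_mod_cast hYpos
  set Q1 : ℝ := 2359296 * 334084 / τ ^ 2 with hQ1
  have hQ1p : 0 < Q1 := by rw [hQ1]; positivity
  have hmap : ∀ b ∈ Y, qf b ∈ Finset.Icc 1 ⌊Q1⌋₊ := by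
    intro b hb
    rw [Finset.mem_Icc]
    exact ⟨hq1 b hb, Nat.le_floor (hq2 b hb)⟩
  set M2 : ℝ := 578 * (2359296 * 334084) with hM2
  have hpig : (Finset.Icc 1 ⌊Q1⌋₊).card • (τ ^ 3 / M2 * (B1 * B2)) ≤ (Y.card : ℝ) := by
    rw [nsmul_eq_mul, Nat.card_Icc, Nat.add_sub_cancel]
    have h1 : ((⌊Q1⌋₊ : ℕ) : ℝ) ≤ Q1 := Nat.floor_le hQ1p.le
    have h2 : ((⌊Q1⌋₊ : ℕ) : ℝ) * (τ ^ 3 / M2 * (B1 * B2)) ≤ Q1 * (τ ^ 3 / M2 * (B1 * B2)) :=
      mul_le_mul_of_nonneg_right h1 (by positivity)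
    have h3 : Q1 * (τ ^ 3 / M2 * (B1 * B2)) = τ / 578 * (B1 * B2) := by
      rw [hQ1, hM2]
      field_simp
    linarith
  obtain ⟨q0, hq0, hq0F⟩ := Finset.exists_le_card_fiber_of_nsmul_le_card_of_maps_to hmap
    (by
      obtain ⟨b, hb⟩ := hYne
      exact ⟨qf b, hmap b hb⟩) hpig
  have hq0' := Finset.mem_Icc.1 hq0
  have hq0U : (q0 : ℝ) ≤ Q1 := (Nat.cast_le.2 hq0'.2).trans (Nat.floor_le hQ1p.le)
  set Y' := Y.filter (fun b => qf b = q0) with hY'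
  have hM2p : 0 < M2 := by rw [hM2]; norm_num
  have hM2a : M2 ≤ 10 ^ 15 := by rw [hM2]; norm_num
  have hM2b : 1 ≤ M2 := by rw [hM2]; norm_num
  have hτ3 : τ ^ 3 ≤ 1 := pow_le_one₀ hτ.le hτ1
  -- third step
  have hstep3 : ∀ (y1 y2 D N : ℝ), 1 ≤ N → D = 679477248 * 193100552 * δ / (τ ^ 3 * N) →
      (∀ b ∈ Y', dz ((q0 : ℝ) * (b.1 * y1 + b.2 * y2)) ≤ D) →
      ∃ q : ℕ, 1 ≤ q ∧ (q : ℝ) ≤ 2359296 * M2 ^ 2 / τ ^ 6 ∧
        dz (q * (q0 * y1)) ≤ 679477248 * M2 ^ 3 * D / (τ ^ 9 * B1) ∧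
        dz (q * (q0 * y2)) ≤ 679477248 * M2 ^ 3 * D / (τ ^ 9 * B2) := by
    intro y1 y2 D N hN hD hd
    have hNp : 0 < N := by linarith
    have hD0 : 0 ≤ D := by
      rw [hD]
      positivity
    have hpw : ∀ B : ℝ, 10 ^ 120 / τ ^ 18 ≤ B → 432 * (8 : ℝ) ^ 3 / (τ ^ 3 / M2) ^ 2 ≤ B := by
      intro B hB
      have h1 : 432 * (8 : ℝ) ^ 3 / (τ ^ 3 / M2) ^ 2 = 221184 * M2 ^ 2 / τ ^ 6 := by
        field_simp
        norm_num
      rw [h1]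
      refine (iv_pow _ (10 ^ 120) τ 6 (by norm_num) hτ hτ1 (by positivity) ?_).trans hB
      have h2 : M2 ^ 2 ≤ (10 ^ 15) ^ 2 := pow_le_pow_left₀ hM2p.le hM2a 2
      calc 221184 * M2 ^ 2 ≤ 221184 * (10 ^ 15) ^ 2 := by linarith
        _ ≤ 10 ^ 120 := by norm_num
    have hrc := rc2 8 (τ ^ 3 / M2) B1 B2 D (q0 * y1) (q0 * y2)
      (by norm_num) (by positivity)
      (by
        rw [div_le_one hM2p]
        linarith)
      (hpw B1 hB1) (hpw B2 hB2) hD0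
      (by
        have h1 : D ≤ 679477248 * 193100552 * (τ ^ 18 / 10 ^ 120) / τ ^ 3 := by
          rw [hD]
          apply div_le_div₀ (by positivity) (by linarith) (by positivity)
          have : 0 < τ ^ 3 := by positivity
          nlinarith
        have h2 : 679477248 * 193100552 * (τ ^ 18 / 10 ^ 120) / τ ^ 3 =
            679477248 * 193100552 / 10 ^ 120 * τ ^ 15 := by
          field_simp
        have h3 : τ ^ 15 ≤ τ ^ 3 := pow_le_pow_of_le_one hτ.le hτ1 (by norm_num)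
        have h4 : τ ^ 3 / M2 / (384 * 8 ^ 2) ≥ τ ^ 3 / (10 ^ 15) / (384 * 8 ^ 2) := by
          apply div_le_div_of_nonneg_right _ (by norm_num)
          exact div_le_div_of_nonneg_left (by positivity) hM2p hM2a
        have h5 : 679477248 * 193100552 / 10 ^ 120 * τ ^ 15 ≤
            679477248 * 193100552 / 10 ^ 120 * τ ^ 3 :=
          mul_le_mul_of_nonneg_left h3 (by norm_num)
        have h6 : 679477248 * 193100552 / 10 ^ 120 * τ ^ 3 ≤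
            τ ^ 3 / (10 ^ 15) / (384 * 8 ^ 2) := by
          have h7 : τ ^ 3 / (10 ^ 15) / (384 * 8 ^ 2) = 1 / (10 ^ 15 * (384 * 8 ^ 2)) * τ ^ 3 := by
            field_simp
          rw [h7]
          apply mul_le_mul_of_nonneg_right _ (by positivity)
          norm_num
        linarith)
      Y'
      (by
        intro b hb
        obtain ⟨g, hg, hgb⟩ := Finset.mem_image.1
          (Finset.mem_filter.1 (Finset.mem_filter.1 hb).1).1
        rw [← hgb]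
        exact (hG g hg).1)
      (by
        intro b hb
        obtain ⟨g, hg, hgb⟩ := Finset.mem_image.1
          (Finset.mem_filter.1 (Finset.mem_filter.1 hb).1).1
        rw [← hgb]
        exact (hG g hg).2.1)
      hq0F
      (by
        intro b hb
        have h1 := hd b hb
        have h2 : (b.1 : ℝ) * (q0 * y1) + b.2 * (q0 * y2) = q0 * (b.1 * y1 + b.2 * y2) := by ring
        rw [h2]
        exact h1)
    obtain ⟨q, h1, h2, h3, h4⟩ := hrc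
    refine ⟨q, h1, ?_, ?_, ?_⟩
    · have h5 : 576 * (8 : ℝ) ^ 4 / (τ ^ 3 / M2) ^ 2 = 2359296 * M2 ^ 2 / τ ^ 6 := by
        field_simp
        norm_num
      rw [← h5]
      exact h2
    · have h5 : 20736 * (8 : ℝ) ^ 5 * D / ((τ ^ 3 / M2) ^ 3 * B1) =
          679477248 * M2 ^ 3 * D / (τ ^ 9 * B1) := by
        field_simp
        ring
      rw [← h5]
      exact h3
    · have h5 : 20736 * (8 : ℝ) ^ 5 * D / ((τ ^ 3 / M2) ^ 3 * B2) =
          679477248 * M2 ^ 3 * D / (τ ^ 9 * B2) := by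
        field_simp
        ring
      rw [← h5]
      exact h4
  obtain ⟨r1, u1, u2, u3, u4⟩ := hstep3 x11 x21 (679477248 * 193100552 * δ / (τ ^ 3 * A1)) A1
    hA1' rfl (by
      intro b hb
      have h1 := Finset.mem_filter.1 hb
      have h2 := hq3 b h1.1
      rw [h1.2] at h2
      exact h2)
  obtain ⟨r2, v1, v2, v3, v4⟩ := hstep3 x12 x22 (679477248 * 193100552 * δ / (τ ^ 3 * A2)) A2
    hA2' rfl (by
      intro b hb
      have h1 := Finset.mem_filter.1 hb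
      have h2 := hq4 b h1.1
      rw [h1.2] at h2
      exact h2)
  have hM5 : M2 ^ 5 ≤ (10 ^ 15) ^ 5 := pow_le_pow_left₀ hM2p.le hM2a 5
  have hM4 : M2 ^ 4 ≤ (10 ^ 15) ^ 4 := pow_le_pow_left₀ hM2p.le hM2a 4
  have hfin : ∀ (m n : ℕ) (x A B : ℝ), 0 < A → 0 < B → (m : ℝ) ≤ 2359296 * M2 ^ 2 / τ ^ 6 →
      dz ((n : ℝ) * (q0 * x)) ≤
        679477248 * M2 ^ 3 * (679477248 * 193100552 * δ / (τ ^ 3 * A)) / (τ ^ 9 * B) →
      dz ((m : ℝ) * (n * (q0 * x))) ≤ 10 ^ 120 / τ ^ 18 * (δ / (B * A)) := by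
    intro m n x A B hA hB hm hn
    have h1 := dz_mul (m : ℤ) ((n : ℝ) * (q0 * x))
    rw [Int.cast_natCast, abs_of_nonneg (Nat.cast_nonneg m)] at h1
    have h2 : (m : ℝ) * dz ((n : ℝ) * (q0 * x)) ≤ 2359296 * M2 ^ 2 / τ ^ 6 *
        (679477248 * M2 ^ 3 * (679477248 * 193100552 * δ / (τ ^ 3 * A)) / (τ ^ 9 * B)) :=
      mul_le_mul hm hn (dz_nonneg _) (by positivity)
    have h3 : 2359296 * M2 ^ 2 / τ ^ 6 *
        (679477248 * M2 ^ 3 * (679477248 * 193100552 * δ / (τ ^ 3 * A)) / (τ ^ 9 * B)) =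
        (2359296 * 679477248 * (679477248 * 193100552) * M2 ^ 5) / τ ^ 18 * (δ / (B * A)) := by
      field_simp
    have h4 : (2359296 * 679477248 * (679477248 * 193100552) * M2 ^ 5) / τ ^ 18 ≤
        10 ^ 120 / τ ^ 18 := by
      apply div_le_div_of_nonneg_right _ (by positivity)
      calc 2359296 * 679477248 * (679477248 * 193100552) * M2 ^ 5 ≤
          2359296 * 679477248 * (679477248 * 193100552) * (10 ^ 15) ^ 5 := by
            apply mul_le_mul_of_nonneg_left hM5 (by norm_num)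
        _ ≤ 10 ^ 120 := by norm_num
    have h5 := mul_le_mul_of_nonneg_right h4 (show 0 ≤ δ / (B * A) by positivity)
    linarith
  refine ⟨q0 * r1 * r2, ?_, ?_, ?_, ?_, ?_, ?_⟩
  · have h1 : 0 < q0 * r1 * r2 :=
      Nat.mul_pos (Nat.mul_pos (by omega) (by omega)) (by omega)
    omega
  · push_cast
    have h1 : (q0 : ℝ) * r1 ≤ Q1 * (2359296 * M2 ^ 2 / τ ^ 6) :=
      mul_le_mul hq0U u2 (Nat.cast_nonneg _) hQ1p.le
    have h2 : (q0 : ℝ) * r1 * r2 ≤ Q1 * (2359296 * M2 ^ 2 / τ ^ 6) *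
        (2359296 * M2 ^ 2 / τ ^ 6) :=
      mul_le_mul h1 v2 (Nat.cast_nonneg _) (by positivity)
    have h3 : Q1 * (2359296 * M2 ^ 2 / τ ^ 6) * (2359296 * M2 ^ 2 / τ ^ 6) =
        (2359296 * 334084 * 2359296 ^ 2 * M2 ^ 4) / τ ^ 14 := by
      rw [hQ1]
      field_simp
    have h4 : (2359296 * 334084 * 2359296 ^ 2 * M2 ^ 4) / τ ^ 14 ≤ 10 ^ 120 / τ ^ 18 := by
      apply iv_pow _ _ τ 14 (by norm_num) hτ hτ1 (by positivity)
      calc 2359296 * 334084 * 2359296 ^ 2 * M2 ^ 4 ≤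
          2359296 * 334084 * 2359296 ^ 2 * (10 ^ 15) ^ 4 := by
            apply mul_le_mul_of_nonneg_left hM4 (by norm_num)
        _ ≤ 10 ^ 120 := by norm_num
    linarith
  · have h1 := hfin r2 r1 x11 A1 B1 hA1p hB1p v2 u3
    have h2 : ((q0 * r1 * r2 : ℕ) : ℝ) * x11 = (r2 : ℝ) * (r1 * (q0 * x11)) := by
      push_cast
      ring
    rw [h2]
    exact h1
  · have h1 := hfin r1 r2 x12 A2 B1 hA2p hB1p u2 v3
    have h2 : ((q0 * r1 * r2 : ℕ) : ℝ) * x12 = (r1 : ℝ) * (r2 * (q0 * x12)) := by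
      push_cast
      ring
    rw [h2]
    exact h1
  · have h1 := hfin r2 r1 x21 A1 B2 hA1p hB2p v2 u4
    have h2 : ((q0 * r1 * r2 : ℕ) : ℝ) * x21 = (r2 : ℝ) * (r1 * (q0 * x21)) := by
      push_cast
      ring
    rw [h2]
    exact h1
  · have h1 := hfin r1 r2 x22 A2 B2 hA2p hB2p u2 v4
    have h2 : ((q0 * r1 * r2 : ℕ) : ℝ) * x22 = (r1 : ℝ) * (r2 * (q0 * x22)) := by
      push_cast
      ring
    rw [h2]
    exact h1

end Pool.Agent.H96.EB
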