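import Pool.Agent.H96.EB.Defs

/-!
# [H96 EB LIO] Lower bounds for the minima

PROOF. `ρ^3 <= 2`, so `ρ <= 1.26`. KEY: for real `a`, `σ` with `|a| <= M t`, `|σ| <= (K/M^2) t`, `t >= 0`: `|(ρ a + σ)^3 - ρ^3 a^3| = |σ| |3ρ^2 a^2 + 3ρ a σ + σ^2| <= (K/M^2) t * (3ρ^2 M^2 + 3ρ M K/M^2 + (K/M^2)^2) t^2`, and
`K/M^2 <= 8M`, so this is `<= (K/M^2) M^2 (3ρ^2 + 24ρ + 64) t^3 <= 100 K t^3` (`3 * 1.5876 + 24 * 1.26 + 64 <= 99.1`).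
`lio1`: `k = (k1,k2) ≠ 0`, `t = nu1 k`: `a = k1`, `σ = k2 - ρ k1`. The integer `p k2^3 - p' k1^3` is not `0`: otherwise `k1, k2 ≠ 0` and the `p`-adic valuations give `1 + 3 v(k2) = 3 v(k1)` (`p ∤ p'`), impossible mod 3
(in Lean: `padicValInt` or `multiplicity`/`emultiplicity`, or a descent: `p k2^3 = p' k1^3` gives `p ∣ k1`, then `p ∣ k2`; take `k` with `|k1|` minimal, or divide by the gcd). So `1 <= |p k2^3 - p' k1^3| = p |k2^3 - ρ^3 k1^3| <= 100 K p t^3`.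
`lio2`: `h = (r,s) ≠ 0`, `t = nu2 h`: `a = p r` (`|r| <= t M/p`), `σ = p' s - ρ p r = p' (s - (ρ p/p') r)`, `|σ| <= (K/M^2) t`. The integer `p^2 r^3 - p'^2 s^3` is not `0` (`v_p`: `2 + 3 v(r) = 3 v(s)`). As
`p' a^3 - p b^3 = p p' (p^2 r^3 - p'^2 s^3)` with `b = p' s = ρ a + σ` and `p' = ρ^3 p`: `p |ρ^3 a^3 - b^3| >= p p'`, so `p' <= 100 K t^3`.
-/

namespace Pool.Agent.H96.EB

theorem lio_key (M w ρ a σ t : ℝ) (hM : 0 < M) (hw : 0 < w) (hw8 : w ≤ 8 * M)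
    (hρ : 0 < ρ) (hρ1 : ρ ≤ 1.26) (ht : 0 ≤ t) (ha : |a| ≤ M * t) (hσ : |σ| ≤ w * t) :
    |(ρ * a + σ) ^ 3 - ρ ^ 3 * a ^ 3| ≤ 100 * (M ^ 2 * w) * t ^ 3 := by
  have e : (ρ * a + σ) ^ 3 - ρ ^ 3 * a ^ 3 =
      σ * (3 * ρ ^ 2 * (a * a) + 3 * ρ * (a * σ) + σ * σ) := by ring
  rw [e, abs_mul]
  have h1 : |a * a| ≤ (M * t) * (M * t) := by
    rw [abs_mul]
    gcongr
  have h2 : |a * σ| ≤ (M * t) * (w * t) := by
    rw [abs_mul]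
    gcongr
  have h3 : |σ * σ| ≤ (w * t) * (w * t) := by
    rw [abs_mul]
    gcongr
  have h4 : |3 * ρ ^ 2 * (a * a) + 3 * ρ * (a * σ) + σ * σ| ≤
      3 * ρ ^ 2 * ((M * t) * (M * t)) + 3 * ρ * ((M * t) * (w * t)) + (w * t) * (w * t) := by
    refine (abs_add_three _ _ _).trans ?_
    have m1 : |3 * ρ ^ 2 * (a * a)| = 3 * ρ ^ 2 * |a * a| := by
      rw [abs_mul, abs_of_nonneg (by positivity : 0 ≤ 3 * ρ ^ 2)]
    have m2 : |3 * ρ * (a * σ)| = 3 * ρ * |a * σ| := by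
      rw [abs_mul, abs_of_nonneg (by positivity : 0 ≤ 3 * ρ)]
    rw [m1, m2]
    gcongr
  have key : w * (3 * ρ ^ 2 * M ^ 2 + 3 * ρ * M * w + w ^ 2) ≤ 100 * (M ^ 2 * w) := by
    have k1 : M * w ^ 2 ≤ 8 * (M ^ 2 * w) := by
      have hMw : 0 ≤ M * w := by positivity
      nlinarith
    have k2 : w ^ 3 ≤ 64 * (M ^ 2 * w) := by
      have : w ^ 2 ≤ 64 * M ^ 2 := by nlinarith
      nlinarith
    have k3 : ρ ^ 2 ≤ 1.5876 := by nlinarith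
    have hM2w : 0 ≤ M ^ 2 * w := by positivity
    have k4 : ρ * (M * w ^ 2) ≤ 1.26 * (8 * (M ^ 2 * w)) := by
      apply mul_le_mul hρ1 k1 (by positivity) (by norm_num)
    have k5 : ρ ^ 2 * (M ^ 2 * w) ≤ 1.5876 * (M ^ 2 * w) := by
      apply mul_le_mul_of_nonneg_right k3 hM2w
    nlinarith
  calc |σ| * |3 * ρ ^ 2 * (a * a) + 3 * ρ * (a * σ) + σ * σ|
      ≤ (w * t) * (3 * ρ ^ 2 * ((M * t) * (M * t)) + 3 * ρ * ((M * t) * (w * t)) +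
        (w * t) * (w * t)) := by
        apply mul_le_mul hσ h4 (abs_nonneg _) (by positivity)
    _ = w * (3 * ρ ^ 2 * M ^ 2 + 3 * ρ * M * w + w ^ 2) * t ^ 3 := by ring
    _ ≤ 100 * (M ^ 2 * w) * t ^ 3 := mul_le_mul_of_nonneg_right key (by positivity)

theorem lio_gx (X Y θ : ℝ) (hX : 0 < X) (v : ℤ × ℤ) : |(v.1 : ℝ)| ≤ X * gau X Y θ v := by
  have h : |(v.1 : ℝ)| / X ≤ gau X Y θ v := le_max_left _ _
  rw [div_le_iff₀ hX] at h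
  linarith

theorem lio_gy (X Y θ : ℝ) (hY : 0 < Y) (v : ℤ × ℤ) :
    |(v.2 : ℝ) - θ * v.1| ≤ Y * gau X Y θ v := by
  have h : |(v.2 : ℝ) - θ * v.1| / Y ≤ gau X Y θ v := le_max_right _ _
  rw [div_le_iff₀ hY] at h
  linarith

theorem lio_g0 (X Y θ : ℝ) (hX : 0 < X) (v : ℤ × ℤ) : 0 ≤ gau X Y θ v := by
  unfold gau
  exact le_max_of_le_left (div_nonneg (abs_nonneg _) hX.le)

theorem lio_val (p q i j a b : ℕ) (hp : p.Prime) (hq : q.Prime) (hne : p ≠ q) (hi : i % 3 ≠ 0)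
    (ha : a ≠ 0) (hb : b ≠ 0) : p ^ i * a ^ 3 ≠ q ^ j * b ^ 3 := by
  intro h
  have := Fact.mk hp
  have := Fact.mk hq
  have h1 : padicValNat p (p ^ i * a ^ 3) = i + 3 * padicValNat p a := by
    rw [padicValNat.mul (pow_ne_zero _ hp.ne_zero) (pow_ne_zero _ ha), padicValNat.prime_pow,
      padicValNat.pow]
  have h2 : padicValNat p (q ^ j * b ^ 3) = 3 * padicValNat p b := by
    rw [padicValNat.mul (pow_ne_zero _ hq.ne_zero) (pow_ne_zero _ hb), padicValNat.pow,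
      padicValNat.pow, padicValNat_primes hne]
    simp
  rw [h, h2] at h1
  omega

theorem lio_ne (p q i j : ℕ) (a b : ℤ) (hp : p.Prime) (hq : q.Prime) (hne : p ≠ q)
    (hi : i % 3 ≠ 0) (hab : a ≠ 0 ∨ b ≠ 0) : (p : ℤ) ^ i * a ^ 3 - (q : ℤ) ^ j * b ^ 3 ≠ 0 := by
  intro h
  have h1 : (p : ℤ) ^ i * a ^ 3 = (q : ℤ) ^ j * b ^ 3 := by linarith
  have hp0 : (p : ℤ) ^ i ≠ 0 := pow_ne_zero _ (by exact_mod_cast hp.ne_zero)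
  have hq0 : (q : ℤ) ^ j ≠ 0 := pow_ne_zero _ (by exact_mod_cast hq.ne_zero)
  have ha : a ≠ 0 := by
    rintro rfl
    rcases hab with h | h
    · exact h rfl
    · have : (q : ℤ) ^ j * b ^ 3 ≠ 0 := mul_ne_zero hq0 (pow_ne_zero _ h)
      apply this
      rw [← h1]
      simp
  have hb : b ≠ 0 := by
    rintro rfl
    have : (p : ℤ) ^ i * a ^ 3 ≠ 0 := mul_ne_zero hp0 (pow_ne_zero _ ha)
    apply this
    rw [h1]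
    simp
  have h2 := congrArg Int.natAbs h1
  simp only [Int.natAbs_mul, Int.natAbs_pow, Int.natAbs_natCast] at h2
  exact lio_val p q i j a.natAbs b.natAbs hp hq hne hi (by simpa using ha) (by simpa using hb) h2

theorem lio_rho (ρ : ℝ) (p p' : ℕ) (hp0 : (0 : ℝ) < p) (hρ3 : ρ ^ 3 * p = p')
    (h2 : p' ≤ 2 * p) : ρ ≤ 1.26 := by
  have hρ32 : ρ ^ 3 ≤ 2 := by
    have : (p' : ℝ) ≤ 2 * p := by exact_mod_cast h2
    rw [← hρ3] at this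
    exact le_of_mul_le_mul_right this hp0
  by_contra hc
  push Not at hc
  have : (1.26 : ℝ) ^ 3 < ρ ^ 3 := pow_lt_pow_left₀ hc (by norm_num) (by norm_num)
  norm_num at this
  linarith

theorem lio1 (K M ρ : ℝ) (p p' : ℕ) (hp : p.Prime) (hp' : p'.Prime) (hne : p ≠ p') (hM : 0 < M)
    (hK : 0 < K) (hKM : K ≤ 8 * M ^ 3) (hρ : 0 < ρ) (hρ3 : ρ ^ 3 * p = p') (h2 : p' ≤ 2 * p)
    (k : ℤ × ℤ) (hk : k ≠ 0) : 1 ≤ 100 * K * p * (nu1 K M ρ k) ^ 3 := by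
  have hp0 : (0 : ℝ) < p := by exact_mod_cast hp.pos
  have hM2 : 0 < M ^ 2 := by positivity
  have hw : 0 < K / M ^ 2 := by positivity
  have hw8 : K / M ^ 2 ≤ 8 * M := by
    rw [div_le_iff₀ hM2]
    linarith
  have hρ1 := lio_rho ρ p p' hp0 hρ3 h2
  have a0 : 0 ≤ nu1 K M ρ k := lio_g0 _ _ _ hM k
  have hkx := lio_gx M (K / M ^ 2) ρ hM k
  have hky := lio_gy M (K / M ^ 2) ρ hw k
  change |(k.1 : ℝ)| ≤ M * nu1 K M ρ k at hkx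
  change |(k.2 : ℝ) - ρ * k.1| ≤ K / M ^ 2 * nu1 K M ρ k at hky
  have key := lio_key M (K / M ^ 2) ρ k.1 (k.2 - ρ * k.1) _ hM hw hw8 hρ hρ1 a0 hkx hky
  have eK : M ^ 2 * (K / M ^ 2) = K := by field_simp
  rw [eK] at key
  have hab : k.2 ≠ 0 ∨ k.1 ≠ 0 := by
    by_contra hc
    push Not at hc
    exact hk (Prod.ext hc.2 hc.1)
  have hz := lio_ne p p' 1 1 k.2 k.1 hp hp' hne (by norm_num) hab
  have h1 : (1 : ℝ) ≤ |(((p : ℤ) ^ 1 * k.2 ^ 3 - (p' : ℤ) ^ 1 * k.1 ^ 3 : ℤ) : ℝ)| := by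
    rw [← Int.cast_abs]
    exact_mod_cast Int.one_le_abs hz
  have e : (((p : ℤ) ^ 1 * k.2 ^ 3 - (p' : ℤ) ^ 1 * k.1 ^ 3 : ℤ) : ℝ) =
      p * ((ρ * k.1 + (k.2 - ρ * k.1)) ^ 3 - ρ ^ 3 * (k.1 : ℝ) ^ 3) := by
    push_cast
    rw [← hρ3]
    ring
  rw [e, abs_mul, abs_of_pos hp0] at h1
  have h3 := mul_le_mul_of_nonneg_left key hp0.le
  linarith

theorem lio2 (K M ρ : ℝ) (p p' : ℕ) (hp : p.Prime) (hp' : p'.Prime) (hne : p ≠ p') (hM : 0 < M)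
    (hK : 0 < K) (hKM : K ≤ 8 * M ^ 3) (hρ : 0 < ρ) (hρ3 : ρ ^ 3 * p = p') (h2 : p' ≤ 2 * p)
    (h : ℤ × ℤ) (hh : h ≠ 0) : (p' : ℝ) ≤ 100 * K * (nu2 K M ρ p p' h) ^ 3 := by
  have hp0 : (0 : ℝ) < p := by exact_mod_cast hp.pos
  have hp'0 : (0 : ℝ) < p' := by exact_mod_cast hp'.pos
  have hM2 : 0 < M ^ 2 := by positivity
  have hw : 0 < K / M ^ 2 := by positivity
  have hw8 : K / M ^ 2 ≤ 8 * M := by
    rw [div_le_iff₀ hM2]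
    linarith
  have hρ1 := lio_rho ρ p p' hp0 hρ3 h2
  have hMp : 0 < M / p := by positivity
  have b0 : 0 ≤ nu2 K M ρ p p' h := lio_g0 _ _ _ hMp h
  have hY2 : 0 < K / (M ^ 2 * p') := by positivity
  have hhx := lio_gx (M / p) (K / (M ^ 2 * p')) (ρ * p / p') hMp h
  have hhy := lio_gy (M / p) (K / (M ^ 2 * p')) (ρ * p / p') hY2 h
  change |(h.1 : ℝ)| ≤ M / p * nu2 K M ρ p p' h at hhx
  change |(h.2 : ℝ) - ρ * p / p' * h.1| ≤ K / (M ^ 2 * p') * nu2 K M ρ p p' h at hhy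
  have hP : |(p : ℝ) * h.1| ≤ M * nu2 K M ρ p p' h := by
    rw [abs_mul, abs_of_pos hp0]
    calc (p : ℝ) * |(h.1 : ℝ)| ≤ p * (M / p * nu2 K M ρ p p' h) :=
          mul_le_mul_of_nonneg_left hhx hp0.le
      _ = M * nu2 K M ρ p p' h := by field_simp
  have hσ : |(p' : ℝ) * h.2 - ρ * (p * h.1)| ≤ K / M ^ 2 * nu2 K M ρ p p' h := by
    have e : (p' : ℝ) * h.2 - ρ * (p * h.1) = p' * (h.2 - ρ * p / p' * h.1) := by field_simp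
    rw [e, abs_mul, abs_of_pos hp'0]
    calc (p' : ℝ) * |(h.2 : ℝ) - ρ * p / p' * h.1| ≤
          p' * (K / (M ^ 2 * p') * nu2 K M ρ p p' h) := mul_le_mul_of_nonneg_left hhy hp'0.le
      _ = K / M ^ 2 * nu2 K M ρ p p' h := by field_simp
  have key := lio_key M (K / M ^ 2) ρ ((p : ℝ) * h.1) ((p' : ℝ) * h.2 - ρ * (p * h.1)) _ hM hw hw8
    hρ hρ1 b0 hP hσ
  have eK : M ^ 2 * (K / M ^ 2) = K := by field_simp
  rw [eK] at key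
  have hab : h.1 ≠ 0 ∨ h.2 ≠ 0 := by
    by_contra hc
    push Not at hc
    exact hh (Prod.ext hc.1 hc.2)
  have hz := lio_ne p p' 2 2 h.1 h.2 hp hp' hne (by norm_num) hab
  have h1 : (1 : ℝ) ≤ |(((p : ℤ) ^ 2 * h.1 ^ 3 - (p' : ℤ) ^ 2 * h.2 ^ 3 : ℤ) : ℝ)| := by
    rw [← Int.cast_abs]
    exact_mod_cast Int.one_le_abs hz
  have e : (p' : ℝ) * (((p : ℤ) ^ 2 * h.1 ^ 3 - (p' : ℤ) ^ 2 * h.2 ^ 3 : ℤ) : ℝ) =
      -((ρ * (p * h.1) + ((p' : ℝ) * h.2 - ρ * (p * h.1))) ^ 3 - ρ ^ 3 * ((p : ℝ) * h.1) ^ 3) := by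
    push_cast
    have : ρ ^ 3 * ((p : ℝ) * h.1) ^ 3 = (ρ ^ 3 * p) * (p ^ 2 * (h.1 : ℝ) ^ 3) := by ring
    rw [this, hρ3]
    ring
  have h3 : (p' : ℝ) * 1 ≤ p' * |(((p : ℤ) ^ 2 * h.1 ^ 3 - (p' : ℤ) ^ 2 * h.2 ^ 3 : ℤ) : ℝ)| :=
    mul_le_mul_of_nonneg_left h1 hp'0.le
  have h4 : (p' : ℝ) * |(((p : ℤ) ^ 2 * h.1 ^ 3 - (p' : ℤ) ^ 2 * h.2 ^ 3 : ℤ) : ℝ)| =
      |(ρ * (p * h.1) + ((p' : ℝ) * h.2 - ρ * (p * h.1))) ^ 3 - ρ ^ 3 * ((p : ℝ) * h.1) ^ 3| := by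
    rw [← abs_neg ((ρ * (p * h.1) + ((p' : ℝ) * h.2 - ρ * (p * h.1))) ^ 3 -
      ρ ^ 3 * ((p : ℝ) * h.1) ^ 3), ← e, abs_mul, abs_of_pos hp'0]
  rw [h4] at h3
  linarith

end Pool.Agent.H96.EB
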