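import Pool.Agent.H96.EB.Defs

/-!
# [H96 EB PHL] Lower bound of the trilinear form
-/

namespace Pool.Agent.H96.EB

private theorem phl_tm (a c n n' B κ b : ℝ) (ha : |a| * n ≤ 2) (hc : |c| * n' ≤ 2)
    (hn' : 0 ≤ n') (hB : 1200 * |B| ≤ κ * (n * b * n')) (hκ : 0 ≤ κ * b) :
    300 * |a * c * B| ≤ κ * b := by
  have h1 : |a * c * B| = |a| * |c| * |B| := by rw [abs_mul, abs_mul]
  have h2 : |a| * |c| * (1200 * |B|) ≤ |a| * |c| * (κ * (n * b * n')) :=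
    mul_le_mul_of_nonneg_left hB (mul_nonneg (abs_nonneg _) (abs_nonneg _))
  have h3 : |a| * |c| * (κ * (n * b * n')) = (|a| * n) * (|c| * n') * (κ * b) := by ring
  have h4 : (|a| * n) * (|c| * n') ≤ 2 * 2 :=
    mul_le_mul ha hc (mul_nonneg (abs_nonneg _) hn') (by norm_num)
  have h5 : (|a| * n) * (|c| * n') * (κ * b) ≤ 2 * 2 * (κ * b) :=
    mul_le_mul_of_nonneg_right h4 hκ
  rw [h1]
  nlinarith

private theorem phl_sum (a0 a1 c0 c1 n0 n1 B00 B01 B11 κ b : ℝ) (ha0 : |a0| * n0 ≤ 2)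
    (ha1 : |a1| * n1 ≤ 2) (hc0 : |c0| * n0 ≤ 2) (hc1 : |c1| * n1 ≤ 2) (hn0 : 0 ≤ n0)
    (hn1 : 0 ≤ n1) (h00 : 1200 * |B00| ≤ κ * (n0 * b * n0)) (h01 : 1200 * |B01| ≤ κ * (n0 * b * n1))
    (h11 : 1200 * |B11| ≤ κ * (n1 * b * n1)) (hκ : 0 ≤ κ * b) :
    75 * |a0 * c0 * B00 + a0 * c1 * B01 + a1 * c0 * B01 + a1 * c1 * B11| ≤ κ * b := by
  have t1 := phl_tm a0 c0 n0 n0 B00 κ b ha0 hc0 hn0 h00 hκ
  have t2 := phl_tm a0 c1 n0 n1 B01 κ b ha0 hc1 hn1 h01 hκ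
  have t3 := phl_tm a1 c0 n1 n0 B01 κ b ha1 hc0 hn0 (h01.trans (le_of_eq (by ring))) hκ
  have t4 := phl_tm a1 c1 n1 n1 B11 κ b ha1 hc1 hn1 h11 hκ
  have t5 := abs_add_le (a0 * c0 * B00 + a0 * c1 * B01 + a1 * c0 * B01) (a1 * c1 * B11)
  have t6 := abs_add_le (a0 * c0 * B00 + a0 * c1 * B01) (a1 * c0 * B01)
  have t7 := abs_add_le (a0 * c0 * B00) (a0 * c1 * B01)
  linarith

/-- the values of the form at `(M, ρ M)`, `(0, u)` -/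
private theorem phl_val (κ ρ v rr σ b : ℝ) (hκ : 0 < κ) (hρ : 0 < ρ) (h1 : 1 / 2 ≤ ρ ^ 3)
    (h2 : ρ ^ 3 ≤ 2) (hv0 : 0 < v) (hv : v ≤ 8) (hb : 0 < b) (hbm : b = max |rr| |σ|)
    (e1 : 75 * |κ * (ρ ^ 2 * σ)| ≤ κ * b) (e2 : 75 * |κ * (ρ ^ 2 * rr + ρ * v * σ)| ≤ κ * b) :
    False := by
  have hρ1 : ρ ≤ 1.26 := by
    by_contra hc
    push Not at hc
    have h3 : (1.26 : ℝ) ^ 3 < ρ ^ 3 := pow_lt_pow_left₀ hc (by norm_num) (by norm_num)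
    norm_num at h3
    linarith
  have hρ2 : 0.62 ≤ ρ ^ 2 := by
    by_contra hc
    push Not at hc
    have h3 : (ρ ^ 2) ^ 3 < (0.62 : ℝ) ^ 3 := pow_lt_pow_left₀ hc (by positivity) (by norm_num)
    have h4 : (1 / 2 : ℝ) ^ 2 ≤ (ρ ^ 3) ^ 2 := pow_le_pow_left₀ (by norm_num) h1 2
    have h5 : (ρ ^ 2) ^ 3 = (ρ ^ 3) ^ 2 := by ring
    rw [h5] at h3
    norm_num at h3 h4
    linarith
  rw [abs_mul, abs_of_pos hκ] at e1 e2
  have e1' : 75 * |ρ ^ 2 * σ| ≤ b := by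
    have h3 : κ * (75 * |ρ ^ 2 * σ|) ≤ κ * b := by linarith
    exact le_of_mul_le_mul_left h3 hκ
  have e2' : 75 * |ρ ^ 2 * rr + ρ * v * σ| ≤ b := by
    have h3 : κ * (75 * |ρ ^ 2 * rr + ρ * v * σ|) ≤ κ * b := by linarith
    exact le_of_mul_le_mul_left h3 hκ
  rw [abs_mul, abs_of_nonneg (by positivity : (0 : ℝ) ≤ ρ ^ 2)] at e1'
  have h6 : 0.62 * |σ| ≤ ρ ^ 2 * |σ| := mul_le_mul_of_nonneg_right hρ2 (abs_nonneg _)
  have h7 : |σ| < b / 40 := by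
    norm_num at h6
    linarith
  have h8 : |rr| = b := by
    rcases max_choice |rr| |σ| with h | h
    · rw [hbm, h]
    · rw [h] at hbm
      rw [← hbm] at h7
      linarith
  have h9 : |ρ ^ 2 * rr| ≤ |ρ ^ 2 * rr + ρ * v * σ| + |ρ * v * σ| := by
    have h10 := abs_sub (ρ ^ 2 * rr + ρ * v * σ) (ρ * v * σ)
    have h11 : ρ ^ 2 * rr + ρ * v * σ - ρ * v * σ = ρ ^ 2 * rr := by ring
    rw [h11] at h10
    exact h10
  rw [abs_mul, abs_of_nonneg (by positivity : (0 : ℝ) ≤ ρ ^ 2), h8] at h9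
  have h12 : |ρ * v * σ| ≤ 1.26 * 8 * (b / 40) := by
    rw [abs_mul, abs_of_pos (mul_pos hρ hv0)]
    exact mul_le_mul (mul_le_mul hρ1 hv hv0.le (by norm_num)) h7.le (abs_nonneg _) (by norm_num)
  have h13 : 0.62 * b ≤ ρ ^ 2 * b := mul_le_mul_of_nonneg_right hρ2 hb.le
  have h14 : (1.26 : ℝ) * 8 * (b / 40) = 0.252 * b := by ring
  rw [h14] at h12
  linarith

theorem phl (K M ρ : ℝ) (p p' : ℕ) (hp : 1 ≤ p) (hM : 0 < M) (hK : 0 < K)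
    (hKM : K ≤ 8 * M ^ 3) (hρ : 0 < ρ) (hρ3 : ρ ^ 3 * p = p') (h2 : p' ≤ 2 * p) (h3 : p ≤ 2 * p')
    (w : Fin 2 → ℤ × ℤ) (hdet : (w 0).1 * (w 1).2 - (w 0).2 * (w 1).1 = 1)
    (hl : nu1 K M ρ (w 0) * nu1 K M ρ (w 1) ≤ 2 / (M * (K / M ^ 2))) (h : ℤ × ℤ) :
    ∃ i k : Fin 2, (K / p') * (nu1 K M ρ (w i) * nu2 K M ρ p p' h * nu1 K M ρ (w k)) ≤
      200 * |(Ph (w i) h (w k) : ℝ)| := by
  by_contra hcon
  push Not at hcon
  have hpR : (1 : ℝ) ≤ (p : ℝ) := by exact_mod_cast hp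
  have hp0 : (0 : ℝ) < (p : ℝ) := by linarith
  have hp'0 : (0 : ℝ) < (p' : ℝ) := by
    rw [← hρ3]
    positivity
  have hu : 0 < K / M ^ 2 := by positivity
  obtain ⟨u, hue⟩ : ∃ u : ℝ, u = K / M ^ 2 := ⟨_, rfl⟩
  rw [← hue] at hu hl
  have huM : u * M ^ 2 = K := by
    rw [hue]
    field_simp
  obtain ⟨n0, hn0⟩ : ∃ n0 : ℝ, n0 = nu1 K M ρ (w 0) := ⟨_, rfl⟩
  obtain ⟨n1, hn1⟩ : ∃ n1 : ℝ, n1 = nu1 K M ρ (w 1) := ⟨_, rfl⟩
  obtain ⟨b, hb⟩ : ∃ b : ℝ, b = nu2 K M ρ p p' h := ⟨_, rfl⟩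
  obtain ⟨x0, hx0⟩ : ∃ x0 : ℝ, x0 = ((w 0).1 : ℝ) := ⟨_, rfl⟩
  obtain ⟨y0, hy0⟩ : ∃ y0 : ℝ, y0 = ((w 0).2 : ℝ) := ⟨_, rfl⟩
  obtain ⟨x1, hx1⟩ : ∃ x1 : ℝ, x1 = ((w 1).1 : ℝ) := ⟨_, rfl⟩
  obtain ⟨y1, hy1⟩ : ∃ y1 : ℝ, y1 = ((w 1).2 : ℝ) := ⟨_, rfl⟩
  obtain ⟨r, hr⟩ : ∃ r : ℝ, r = ((h.1 : ℤ) : ℝ) := ⟨_, rfl⟩
  obtain ⟨s, hs⟩ : ∃ s : ℝ, s = ((h.2 : ℤ) : ℝ) := ⟨_, rfl⟩
  have hN0 : n0 = max (|x0| / M) (|y0 - ρ * x0| / u) := by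
    rw [hn0, hx0, hy0, hue]
    rfl
  have hN1 : n1 = max (|x1| / M) (|y1 - ρ * x1| / u) := by
    rw [hn1, hx1, hy1, hue]
    rfl
  have hx0n : |x0| ≤ M * n0 := by
    have h5 : |x0| / M ≤ n0 := by rw [hN0]; exact le_max_left _ _
    rw [div_le_iff₀ hM] at h5
    linarith
  have hy0n : |y0 - ρ * x0| ≤ u * n0 := by
    have h5 : |y0 - ρ * x0| / u ≤ n0 := by rw [hN0]; exact le_max_right _ _
    rw [div_le_iff₀ hu] at h5
    linarith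
  have hx1n : |x1| ≤ M * n1 := by
    have h5 : |x1| / M ≤ n1 := by rw [hN1]; exact le_max_left _ _
    rw [div_le_iff₀ hM] at h5
    linarith
  have hy1n : |y1 - ρ * x1| ≤ u * n1 := by
    have h5 : |y1 - ρ * x1| / u ≤ n1 := by rw [hN1]; exact le_max_right _ _
    rw [div_le_iff₀ hu] at h5
    linarith
  have hn0p : 0 ≤ n0 := by
    rw [hN0]
    exact le_max_of_le_left (by positivity)
  have hn1p : 0 ≤ n1 := by
    rw [hN1]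
    exact le_max_of_le_left (by positivity)
  have hl2 : n0 * n1 * (M * u) ≤ 2 := by
    rw [← hn0, ← hn1, le_div_iff₀ (mul_pos hM hu)] at hl
    exact hl
  have hdetR : x0 * y1 - y0 * x1 = 1 := by
    rw [hx0, hy0, hx1, hy1]
    exact_mod_cast hdet
  -- the second gauge
  obtain ⟨rr, hrr⟩ : ∃ rr : ℝ, rr = p * r / M := ⟨_, rfl⟩
  obtain ⟨σ, hσ⟩ : ∃ σ : ℝ, σ = (p' * s - ρ * p * r) / u := ⟨_, rfl⟩
  have hbm : b = max |rr| |σ| := by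
    have h5 : b = max (|r| / (M / p)) (|s - ρ * p / p' * r| / (K / (M ^ 2 * p'))) := by
      rw [hb, hr, hs]
      rfl
    rw [h5]
    congr 1
    · rw [hrr, abs_div, abs_mul, abs_of_pos hp0, abs_of_pos hM]
      field_simp
    · have h6 : σ = (s - ρ * p / p' * r) / (K / (M ^ 2 * p')) := by
        rw [hσ, hue]
        field_simp
      rw [h6, abs_div, abs_of_pos (by positivity : (0 : ℝ) < K / (M ^ 2 * p'))]
  have hb0 : 0 ≤ b := by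
    rw [hbm]
    exact le_max_of_le_left (abs_nonneg _)
  obtain ⟨κ, hκe⟩ : ∃ κ : ℝ, κ = K / p' := ⟨_, rfl⟩
  have hκ : 0 < κ := by
    rw [hκe]
    positivity
  have hbpos : 0 < b := by
    rcases hb0.lt_or_eq with h5 | h5
    · exact h5
    · exfalso
      have h6 := hcon 0 0
      rw [← hb, ← h5, mul_zero, zero_mul, mul_zero] at h6
      have h7 : (0 : ℝ) ≤ 200 * |(Ph (w 0) h (w 0) : ℝ)| := by positivity
      linarith
  -- the values on the basis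
  have c00 : 1200 * |x0 * r * x0 - y0 * s * y0| ≤ κ * (n0 * b * n0) := by
    have h5 := (hcon 0 0).le
    rw [← hb, ← hn0, ← hκe] at h5
    have h6 : (Ph (w 0) h (w 0) : ℝ) = 6 * (x0 * r * x0 - y0 * s * y0) := by
      rw [hx0, hy0, hr, hs]
      unfold Ph
      push_cast
      ring
    rw [h6, abs_mul, abs_of_pos (by norm_num : (0 : ℝ) < 6)] at h5
    linarith
  have c01 : 1200 * |x0 * r * x1 - y0 * s * y1| ≤ κ * (n0 * b * n1) := by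
    have h5 := (hcon 0 1).le
    rw [← hb, ← hn0, ← hn1, ← hκe] at h5
    have h6 : (Ph (w 0) h (w 1) : ℝ) = 6 * (x0 * r * x1 - y0 * s * y1) := by
      rw [hx0, hy0, hx1, hy1, hr, hs]
      unfold Ph
      push_cast
      ring
    rw [h6, abs_mul, abs_of_pos (by norm_num : (0 : ℝ) < 6)] at h5
    linarith
  have c11 : 1200 * |x1 * r * x1 - y1 * s * y1| ≤ κ * (n1 * b * n1) := by
    have h5 := (hcon 1 1).le
    rw [← hb, ← hn1, ← hκe] at h5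
    have h6 : (Ph (w 1) h (w 1) : ℝ) = 6 * (x1 * r * x1 - y1 * s * y1) := by
      rw [hx1, hy1, hr, hs]
      unfold Ph
      push_cast
      ring
    rw [h6, abs_mul, abs_of_pos (by norm_num : (0 : ℝ) < 6)] at h5
    linarith
  have hMu : 0 ≤ M * u := (mul_pos hM hu).le
  have A0 : |M * (y1 - ρ * x1)| * n0 ≤ 2 := by
    rw [abs_mul, abs_of_pos hM]
    have h5 : M * |y1 - ρ * x1| * n0 ≤ M * (u * n1) * n0 :=
      mul_le_mul_of_nonneg_right (mul_le_mul_of_nonneg_left hy1n hM.le) hn0p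
    linarith
  have A1 : |-(M * (y0 - ρ * x0))| * n1 ≤ 2 := by
    rw [abs_neg, abs_mul, abs_of_pos hM]
    have h5 : M * |y0 - ρ * x0| * n1 ≤ M * (u * n0) * n1 :=
      mul_le_mul_of_nonneg_right (mul_le_mul_of_nonneg_left hy0n hM.le) hn1p
    linarith
  have C0 : |-(u * x1)| * n0 ≤ 2 := by
    rw [abs_neg, abs_mul, abs_of_pos hu]
    have h5 : u * |x1| * n0 ≤ u * (M * n1) * n0 :=
      mul_le_mul_of_nonneg_right (mul_le_mul_of_nonneg_left hx1n hu.le) hn0p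
    linarith
  have C1 : |u * x0| * n1 ≤ 2 := by
    rw [abs_mul, abs_of_pos hu]
    have h5 : u * |x0| * n1 ≤ u * (M * n0) * n1 :=
      mul_le_mul_of_nonneg_right (mul_le_mul_of_nonneg_left hx0n hu.le) hn1p
    linarith
  have hκb : 0 ≤ κ * b := (mul_pos hκ hbpos).le
  have S1 := phl_sum _ _ _ _ n0 n1 _ _ _ κ b A0 A1 A0 A1 hn0p hn1p c00 c01 c11 hκb
  have S2 := phl_sum _ _ _ _ n0 n1 _ _ _ κ b A0 A1 C0 C1 hn0p hn1p c00 c01 c11 hκb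
  have hκσ : κ * σ * p' * u = K * (p' * s - ρ * p * r) := by
    rw [hκe, hσ]
    field_simp
  have i1 : M * (y1 - ρ * x1) * (M * (y1 - ρ * x1)) * (x0 * r * x0 - y0 * s * y0) +
      M * (y1 - ρ * x1) * -(M * (y0 - ρ * x0)) * (x0 * r * x1 - y0 * s * y1) +
      -(M * (y0 - ρ * x0)) * (M * (y1 - ρ * x1)) * (x0 * r * x1 - y0 * s * y1) +
      -(M * (y0 - ρ * x0)) * -(M * (y0 - ρ * x0)) * (x1 * r * x1 - y1 * s * y1) =
      M ^ 2 * (x0 * y1 - y0 * x1) ^ 2 * (r - ρ ^ 2 * s) := by ring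
  have i2 : M * (y1 - ρ * x1) * -(u * x1) * (x0 * r * x0 - y0 * s * y0) +
      M * (y1 - ρ * x1) * (u * x0) * (x0 * r * x1 - y0 * s * y1) +
      -(M * (y0 - ρ * x0)) * -(u * x1) * (x0 * r * x1 - y0 * s * y1) +
      -(M * (y0 - ρ * x0)) * (u * x0) * (x1 * r * x1 - y1 * s * y1) =
      -(ρ * M * s * u) * (x0 * y1 - y0 * x1) ^ 2 := by ring
  rw [i1, hdetR, one_pow, mul_one] at S1
  rw [i2, hdetR, one_pow, mul_one] at S2
  have j1 : M ^ 2 * (r - ρ ^ 2 * s) = -(κ * (ρ ^ 2 * σ)) := by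
    have h5 : κ * (ρ ^ 2 * σ) = M ^ 2 * (ρ ^ 2 * s - (ρ ^ 3 * p) / p' * r) := by
      rw [hκe, hσ, hue]
      field_simp
    rw [h5, hρ3, div_self hp'0.ne']
    ring
  have j2 : -(ρ * M * s * u) = -(κ * (ρ ^ 2 * rr + ρ * (u / M) * σ)) := by
    rw [hκe, hσ, hrr, ← huM]
    field_simp
    ring
  rw [j1, abs_neg] at S1
  rw [j2, abs_neg] at S2
  have hv : u / M ≤ 8 := by
    rw [div_le_iff₀ hM, hue, div_le_iff₀ (by positivity)]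
    nlinarith
  have hq1 : 1 / 2 ≤ ρ ^ 3 := by
    have h5 : (p : ℝ) ≤ 2 * (p' : ℝ) := by exact_mod_cast h3
    rw [← hρ3] at h5
    have h6 : (1 / 2) * (p : ℝ) ≤ ρ ^ 3 * p := by linarith
    exact le_of_mul_le_mul_right h6 hp0
  have hq2 : ρ ^ 3 ≤ 2 := by
    have h5 : (p' : ℝ) ≤ 2 * (p : ℝ) := by exact_mod_cast h2
    rw [← hρ3] at h5
    exact le_of_mul_le_mul_right h5 hp0
  exact phl_val κ ρ (u / M) rr σ b hκ hρ hq1 hq2 (div_pos hu hM) hv hbpos hbm S1 S2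

end Pool.Agent.H96.EB
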