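import Pool.Agent.H96.EB.Defs

/-!
# [H96 EB PHU] Upper bound of the trilinear form

PROOF. `w = K/M^2 <= 8M`, `ρ^3 <= 2`, `ρ <= 1.26`. Let `a = nu1 k`, `b = nu2 h`, `c = nu1 z`, `h = (r,s)`. `k2 = ρ k1 + κ`, `|k1| <= M a`, `|κ| <= w a`; `z2 = ρ z1 + ζ`, `|z1| <= M c`, `|ζ| <= w c`; `p' s = ρ p r + σ`, `|p r| <= M b`,
`|σ| <= w b` (unfold `nu1, nu2, gau`; `|s - (ρ p/p') r| <= b K/(M^2 p')`). As `ρ^3 p = p'`:
`p' (k1 r z1 - k2 s z2) = p' k1 r z1 - (ρ p r + σ)(ρ k1 + κ)(ρ z1 + ζ) = -[σ ρ^2 k1 z1 + ρ p r (ρ k1 ζ + ρ κ z1 + κ ζ) + σ (ρ k1 ζ + κ ρ z1 + κ ζ)]`.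
Absolute value `<= a b c (3 ρ^2 M^2 w + 3 ρ M w^2 + w^3) <= a b c M^2 w (3ρ^2 + 24 ρ + 64) <= 100 K a b c` (`M^2 w = K`). Times `6/p'`.
-/

namespace Pool.Agent.H96.EB

theorem phu_abs3 (x y z X Y Z : ℝ) (hx : |x| ≤ X) (hy : |y| ≤ Y) (hz : |z| ≤ Z) :
    |x * y * z| ≤ X * Y * Z := by
  rw [abs_mul, abs_mul]
  have h0 : 0 ≤ X := (abs_nonneg x).trans hx
  have h1 : 0 ≤ Y := (abs_nonneg y).trans hy
  gcongr

theorem phu_core (M w ρ a b c k1 κ z1 ζ P σ : ℝ) (hM : 0 < M) (hw : 0 < w) (hw8 : w ≤ 8 * M)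
    (hρ : 0 < ρ) (hρ1 : ρ ≤ 1.26) (ha : 0 ≤ a) (hb : 0 ≤ b) (hc : 0 ≤ c)
    (hk : |k1| ≤ M * a) (hκ : |κ| ≤ w * a) (hz : |z1| ≤ M * c) (hζ : |ζ| ≤ w * c)
    (hP : |P| ≤ M * b) (hσ : |σ| ≤ w * b) :
    |σ * ρ ^ 2 * k1 * z1 + ρ * P * (ρ * k1 * ζ + ρ * κ * z1 + κ * ζ) +
      σ * (ρ * k1 * ζ + κ * ρ * z1 + κ * ζ)| ≤ 100 * (M ^ 2 * w) * (a * b * c) := by
  have t1 := phu_abs3 σ k1 z1 _ _ _ hσ hk hz
  have t2 := phu_abs3 P k1 ζ _ _ _ hP hk hζ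
  have t3 := phu_abs3 P κ z1 _ _ _ hP hκ hz
  have t4 := phu_abs3 P κ ζ _ _ _ hP hκ hζ
  have t5 := phu_abs3 σ k1 ζ _ _ _ hσ hk hζ
  have t6 := phu_abs3 σ κ z1 _ _ _ hσ hκ hz
  have t7 := phu_abs3 σ κ ζ _ _ _ hσ hκ hζ
  have e : σ * ρ ^ 2 * k1 * z1 + ρ * P * (ρ * k1 * ζ + ρ * κ * z1 + κ * ζ) +
      σ * (ρ * k1 * ζ + κ * ρ * z1 + κ * ζ) =
      ρ ^ 2 * (σ * k1 * z1) + ρ ^ 2 * (P * k1 * ζ) + ρ ^ 2 * (P * κ * z1) + ρ * (P * κ * ζ) +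
      ρ * (σ * k1 * ζ) + ρ * (σ * κ * z1) + σ * κ * ζ := by ring
  rw [e]
  have hρ2 : 0 ≤ ρ ^ 2 := by positivity
  have s : |ρ ^ 2 * (σ * k1 * z1) + ρ ^ 2 * (P * k1 * ζ) + ρ ^ 2 * (P * κ * z1) + ρ * (P * κ * ζ) +
      ρ * (σ * k1 * ζ) + ρ * (σ * κ * z1) + σ * κ * ζ| ≤
      ρ ^ 2 * |σ * k1 * z1| + ρ ^ 2 * |P * k1 * ζ| + ρ ^ 2 * |P * κ * z1| + ρ * |P * κ * ζ| +
      ρ * |σ * k1 * ζ| + ρ * |σ * κ * z1| + |σ * κ * ζ| := by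
    have m2 : ∀ x : ℝ, |ρ ^ 2 * x| = ρ ^ 2 * |x| := fun x => by rw [abs_mul, abs_of_nonneg hρ2]
    have m1 : ∀ x : ℝ, |ρ * x| = ρ * |x| := fun x => by rw [abs_mul, abs_of_pos hρ]
    rw [← m2, ← m2, ← m2, ← m1, ← m1, ← m1]
    refine (abs_add_le _ _).trans (add_le_add_left ?_ _)
    refine (abs_add_le _ _).trans (add_le_add_left ?_ _)
    refine (abs_add_le _ _).trans (add_le_add_left ?_ _)
    refine (abs_add_le _ _).trans (add_le_add_left ?_ _)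
    refine (abs_add_le _ _).trans (add_le_add_left ?_ _)
    exact abs_add_le _ _
  refine s.trans ?_
  have u1 := mul_le_mul_of_nonneg_left t1 hρ2
  have u2 := mul_le_mul_of_nonneg_left t2 hρ2
  have u3 := mul_le_mul_of_nonneg_left t3 hρ2
  have u4 := mul_le_mul_of_nonneg_left t4 hρ.le
  have u5 := mul_le_mul_of_nonneg_left t5 hρ.le
  have u6 := mul_le_mul_of_nonneg_left t6 hρ.le
  have habc : 0 ≤ a * b * c := by positivity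
  have key : 3 * ρ ^ 2 * M ^ 2 * w + 3 * ρ * M * w ^ 2 + w ^ 3 ≤ 100 * (M ^ 2 * w) := by
    have hMw : 0 ≤ M * w := by positivity
    have k1 : M * w ^ 2 ≤ 8 * (M ^ 2 * w) := by nlinarith
    have k2 : w ^ 3 ≤ 64 * (M ^ 2 * w) := by
      have : w ^ 2 ≤ 64 * M ^ 2 := by nlinarith
      nlinarith
    have k3 : ρ ^ 2 ≤ 1.5876 := by nlinarith
    have hM2w : 0 ≤ M ^ 2 * w := by positivity
    have k4 : ρ * (M * w ^ 2) ≤ 1.26 * (8 * (M ^ 2 * w)) := by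
      apply mul_le_mul hρ1 k1 (by positivity) (by norm_num)
    have k5 : ρ ^ 2 * (M ^ 2 * w) ≤ 1.5876 * (M ^ 2 * w) := by
      apply mul_le_mul_of_nonneg_right k3 hM2w
    nlinarith
  calc ρ ^ 2 * |σ * k1 * z1| + ρ ^ 2 * |P * k1 * ζ| + ρ ^ 2 * |P * κ * z1| + ρ * |P * κ * ζ| +
      ρ * |σ * k1 * ζ| + ρ * |σ * κ * z1| + |σ * κ * ζ|
      ≤ ρ ^ 2 * (w * b * (M * a) * (M * c)) + ρ ^ 2 * (M * b * (M * a) * (w * c)) +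
        ρ ^ 2 * (M * b * (w * a) * (M * c)) + ρ * (M * b * (w * a) * (w * c)) +
        ρ * (w * b * (M * a) * (w * c)) + ρ * (w * b * (w * a) * (M * c)) +
        w * b * (w * a) * (w * c) := by linarith
    _ = (3 * ρ ^ 2 * M ^ 2 * w + 3 * ρ * M * w ^ 2 + w ^ 3) * (a * b * c) := by ring
    _ ≤ 100 * (M ^ 2 * w) * (a * b * c) := mul_le_mul_of_nonneg_right key habc

theorem phu_gx (X Y θ : ℝ) (hX : 0 < X) (v : ℤ × ℤ) : |(v.1 : ℝ)| ≤ X * gau X Y θ v := by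
  have h : |(v.1 : ℝ)| / X ≤ gau X Y θ v := le_max_left _ _
  rw [div_le_iff₀ hX] at h
  linarith

theorem phu_gy (X Y θ : ℝ) (hY : 0 < Y) (v : ℤ × ℤ) :
    |(v.2 : ℝ) - θ * v.1| ≤ Y * gau X Y θ v := by
  have h : |(v.2 : ℝ) - θ * v.1| / Y ≤ gau X Y θ v := le_max_right _ _
  rw [div_le_iff₀ hY] at h
  linarith

theorem phu_g0 (X Y θ : ℝ) (hX : 0 < X) (v : ℤ × ℤ) : 0 ≤ gau X Y θ v := by
  unfold gau
  exact le_max_of_le_left (div_nonneg (abs_nonneg _) hX.le)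

theorem phu (K M ρ : ℝ) (p p' : ℕ) (hp : 1 ≤ p) (hM : 0 < M) (hK : 0 < K)
    (hKM : K ≤ 8 * M ^ 3) (hρ : 0 < ρ) (hρ3 : ρ ^ 3 * p = p') (h2 : p' ≤ 2 * p) (k h z : ℤ × ℤ) :
    |(Ph k h z : ℝ)| ≤ 600 * (K / p') * (nu1 K M ρ k * nu2 K M ρ p p' h * nu1 K M ρ z) := by
  have hp0 : (0 : ℝ) < p := by exact_mod_cast hp
  have hp'0 : (0 : ℝ) < p' := by rw [← hρ3]; positivity
  have hM2 : 0 < M ^ 2 := by positivity
  have hw : 0 < K / M ^ 2 := by positivity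
  have hw8 : K / M ^ 2 ≤ 8 * M := by
    rw [div_le_iff₀ hM2]
    linarith
  have hρ32 : ρ ^ 3 ≤ 2 := by
    have : (p' : ℝ) ≤ 2 * p := by exact_mod_cast h2
    rw [← hρ3] at this
    exact le_of_mul_le_mul_right this hp0
  have hρ1 : ρ ≤ 1.26 := by
    by_contra hc
    push Not at hc
    have : (1.26 : ℝ) ^ 3 < ρ ^ 3 := pow_lt_pow_left₀ hc (by norm_num) (by norm_num)
    norm_num at this
    linarith
  have a0 : 0 ≤ nu1 K M ρ k := phu_g0 _ _ _ hM k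
  have c0 : 0 ≤ nu1 K M ρ z := phu_g0 _ _ _ hM z
  have hMp : 0 < M / p := by positivity
  have b0 : 0 ≤ nu2 K M ρ p p' h := phu_g0 _ _ _ hMp h
  have hkx := phu_gx M (K / M ^ 2) ρ hM k
  have hky := phu_gy M (K / M ^ 2) ρ hw k
  have hzx := phu_gx M (K / M ^ 2) ρ hM z
  have hzy := phu_gy M (K / M ^ 2) ρ hw z
  have hY2 : 0 < K / (M ^ 2 * p') := by positivity
  have hhx := phu_gx (M / p) (K / (M ^ 2 * p')) (ρ * p / p') hMp h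
  have hhy := phu_gy (M / p) (K / (M ^ 2 * p')) (ρ * p / p') hY2 h
  change |(k.1 : ℝ)| ≤ M * nu1 K M ρ k at hkx
  change |(k.2 : ℝ) - ρ * k.1| ≤ K / M ^ 2 * nu1 K M ρ k at hky
  change |(z.1 : ℝ)| ≤ M * nu1 K M ρ z at hzx
  change |(z.2 : ℝ) - ρ * z.1| ≤ K / M ^ 2 * nu1 K M ρ z at hzy
  change |(h.1 : ℝ)| ≤ M / p * nu2 K M ρ p p' h at hhx
  change |(h.2 : ℝ) - ρ * p / p' * h.1| ≤ K / (M ^ 2 * p') * nu2 K M ρ p p' h at hhy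
  have hP : |(p : ℝ) * h.1| ≤ M * nu2 K M ρ p p' h := by
    rw [abs_mul, abs_of_pos hp0]
    calc (p : ℝ) * |(h.1 : ℝ)| ≤ p * (M / p * nu2 K M ρ p p' h) :=
          mul_le_mul_of_nonneg_left hhx hp0.le
      _ = M * nu2 K M ρ p p' h := by field_simp
  have hσ : |(p' : ℝ) * h.2 - ρ * (p * h.1)| ≤ K / M ^ 2 * nu2 K M ρ p p' h := by
    have e : (p' : ℝ) * h.2 - ρ * (p * h.1) = p' * (h.2 - ρ * p / p' * h.1) := by field_simp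
    rw [e, abs_mul, abs_of_pos hp'0]
    calc (p' : ℝ) * |(h.2 : ℝ) - ρ * p / p' * h.1| ≤
          p' * (K / (M ^ 2 * p') * nu2 K M ρ p p' h) := mul_le_mul_of_nonneg_left hhy hp'0.le
      _ = K / M ^ 2 * nu2 K M ρ p p' h := by field_simp
  have main := phu_core M (K / M ^ 2) ρ _ _ _ (k.1 : ℝ) ((k.2 : ℝ) - ρ * k.1) (z.1 : ℝ)
    ((z.2 : ℝ) - ρ * z.1) ((p : ℝ) * h.1) ((p' : ℝ) * h.2 - ρ * (p * h.1)) hM hw hw8 hρ hρ1 a0 b0 c0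
    hkx hky hzx hzy hP hσ
  have eK : M ^ 2 * (K / M ^ 2) = K := by field_simp
  rw [eK] at main
  have id : (p' : ℝ) * ((k.1 : ℝ) * h.1 * z.1 - k.2 * h.2 * z.2) =
      -(((p' : ℝ) * h.2 - ρ * (p * h.1)) * ρ ^ 2 * k.1 * z.1 +
        ρ * (p * h.1) * (ρ * k.1 * (z.2 - ρ * z.1) + ρ * (k.2 - ρ * k.1) * z.1 +
          (k.2 - ρ * k.1) * (z.2 - ρ * z.1)) +
        ((p' : ℝ) * h.2 - ρ * (p * h.1)) * (ρ * k.1 * (z.2 - ρ * z.1) +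
          (k.2 - ρ * k.1) * ρ * z.1 + (k.2 - ρ * k.1) * (z.2 - ρ * z.1))) := by
    rw [← hρ3]
    ring
  have e1 : (Ph k h z : ℝ) = 6 / p' * ((p' : ℝ) * ((k.1 : ℝ) * h.1 * z.1 - k.2 * h.2 * z.2)) := by
    unfold Ph
    push_cast
    field_simp
  rw [e1, abs_mul, abs_of_pos (by positivity : (0 : ℝ) < 6 / p'), id, abs_neg]
  calc 6 / (p' : ℝ) * _ ≤ 6 / (p' : ℝ) *
        (100 * K * (nu1 K M ρ k * nu2 K M ρ p p' h * nu1 K M ρ z)) :=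
        mul_le_mul_of_nonneg_left main (by positivity)
    _ = 600 * (K / p') * (nu1 K M ρ k * nu2 K M ρ p p' h * nu1 K M ρ z) := by ring

end Pool.Agent.H96.EB
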