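import Pool.Agent.H96.EB.Rc1

/-!
# [H96 EB UNQ] Linking

PROOF. `Φ_{ijm} = Ph (w i) (v j) (w m)`, `Λ_{ijm} = l'_i l_j l'_m`, `A_{ijm} = round (β Φ_{ijm})`, `|β Φ_t - A_t| <= D Λ_t`, `|Φ_t| <= B Λ_t`. For two triples: `|A_t Φ_s - A_s Φ_t| <= |A_t - βΦ_t||Φ_s| + |A_s - βΦ_s||Φ_t| <= 2 D B Λ_t Λ_s`; if `2 D B Λ_t Λ_s < 1` then, being an integer, `A_t Φ_s = A_s Φ_t` (linked).
`Λ_{000} Λ_t <= (l'_0 l'_1)^2 l_0 l_1` for all `t` (`l'_0 <= l'_1`, `l_0 <= l_1`), and `Λ_{010} Λ_{i0m} = l'_0^2 l_1 l'_i l_0 l'_m <= (l'_0 l'_1)^2 l_0 l_1`.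
CASE `Φ_{000} ≠ 0`. All `t` are linked to `000`: `A_t Φ_{000} = A_{000} Φ_t`. Since `det w = det v = 1`, `(1,0) = w1.2 * w0 - w0.2 * w1` (coordinates: `(1,0) = c0 w0 + c1 w1`, `c0 = (w 1).2`, `c1 = -(w 0).2`), in the same way for `v` (`d0 = (v 1).2, d1 = -(v 0).2`), and `Ph (1,0) (1,0) (1,0) = 6`. So
`6 = Σ_{i,j,m} c_i d_j c_m Φ_{ijm}`; with `a := Σ c_i d_j c_m A_{ijm}`: `a Φ_{000} = 6 A_{000}`. Hence for all `t`: `6 A_t Φ_{000} = 6 A_{000} Φ_t = a Φ_{000} Φ_t`, `6 A_t = a Φ_t`. Take `t = (i0, 0, m0)` of the hypothesis: `|6β - a| |Φ_t| = |6 β Φ_t - 6 A_t| <= 6 D Λ_t` and `|Φ_t| >= c Λ_t > 0`: `|6β - a| <= 6D/c`.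
CASE `Φ_{000} = 0`: `w 0 = (x,y)`, `v 0 = (r,s)`: `x^2 r = y^2 s`, `gcd(x,y) = gcd(r,s) = 1` (from `det = 1`). So `x^2 ∣ s`, `y^2 ∣ r` (coprimality of `x^2`, `y^2`), and then `s = x^2 e`, `r = y^2 e` with the same integer `e` (also if `x = 0` or `y = 0`), `e ∣ gcd(r,s)`, `e = ±1`.
`Φ_{010} = 6 (x^2 r1 - y^2 s1)` with `v 1 = (r1,s1)`, and `1 = r s1 - s r1 = e (y^2 s1 - x^2 r1)`: `Φ_{010} = -6e = ∓6`. The triples `(i,0,m)` are linked to `010`: `A_{i0m} Φ_{010} = A_{010} Φ_{i0m}`, so `6 A_{i0m} = a Φ_{i0m}` with `a = -e A_{010}` (`e^2 = 1`). Finish as before with `t = (i0,0,m0)`.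
-/

namespace Pool.Agent.H96.EB

/-- two approximations with small product are proportional -/
private theorem unq_link (β D B l1 l2 : ℝ) (a1 a2 f1 f2 : ℤ) (hD : 0 ≤ D) (hB : 0 ≤ B)
    (hl1 : 0 ≤ l1) (hl2 : 0 ≤ l2) (h1 : |β * f1 - a1| ≤ D * l1) (h2 : |β * f2 - a2| ≤ D * l2)
    (g1 : |(f1 : ℝ)| ≤ B * l1) (g2 : |(f2 : ℝ)| ≤ B * l2) (hs : 2 * D * B * (l1 * l2) < 1) :
    a1 * f2 = a2 * f1 := by
  have e1 : ((a1 * f2 - a2 * f1 : ℤ) : ℝ) = -((β * f1 - a1) * f2) + (β * f2 - a2) * f1 := by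
    push_cast
    ring
  have e2 : |((a1 * f2 - a2 * f1 : ℤ) : ℝ)| ≤ D * l1 * (B * l2) + D * l2 * (B * l1) := by
    rw [e1]
    refine (abs_add_le _ _).trans ?_
    rw [abs_neg, abs_mul, abs_mul]
    have k1 := mul_le_mul h1 g2 (abs_nonneg _) (mul_nonneg hD hl1)
    have k2 := mul_le_mul h2 g1 (abs_nonneg _) (mul_nonneg hD hl2)
    linarith
  have e3 : |((a1 * f2 - a2 * f1 : ℤ) : ℝ)| < 1 := by
    refine lt_of_le_of_lt e2 ?_
    have : D * l1 * (B * l2) + D * l2 * (B * l1) = 2 * D * B * (l1 * l2) := by ring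
    rw [this]
    exact hs
  have e4 : |a1 * f2 - a2 * f1| < 1 := by exact_mod_cast e3
  have e5 : a1 * f2 - a2 * f1 = 0 := Int.abs_lt_one_iff.1 e4
  linarith

private theorem unq_fin (β D c L : ℝ) (a A f : ℤ) (hL : 0 < L) (hc : 0 < c)
    (h6 : 6 * A = a * f) (hd : |β * f - A| ≤ D * L) (hlo : c * L ≤ |(f : ℝ)|) :
    |6 * β - a| ≤ 6 * D / c := by
  rw [le_div_iff₀ hc]
  have e1 : |6 * β - a| * |(f : ℝ)| = 6 * |β * f - A| := by
    have h6' : (6 : ℝ) * A = a * f := by exact_mod_cast h6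
    rw [← abs_mul]
    have e2 : (6 * β - a) * (f : ℝ) = 6 * (β * f - A) := by
      linear_combination h6'
    rw [e2, abs_mul]
    norm_num
  have e3 : |6 * β - a| * c * L ≤ 6 * D * L := by
    calc |6 * β - a| * c * L = |6 * β - a| * (c * L) := by ring
      _ ≤ |6 * β - a| * |(f : ℝ)| := mul_le_mul_of_nonneg_left hlo (abs_nonneg _)
      _ = 6 * |β * f - A| := e1
      _ ≤ 6 * (D * L) := by linarith
      _ = 6 * D * L := by ring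
  exact le_of_mul_le_mul_right e3 hL

theorem unq (w v : Fin 2 → ℤ × ℤ) (hw : (w 0).1 * (w 1).2 - (w 0).2 * (w 1).1 = 1)
    (hv : (v 0).1 * (v 1).2 - (v 0).2 * (v 1).1 = 1) (l' l : Fin 2 → ℝ) (β D B c : ℝ)
    (hl' : ∀ i, 0 < l' i) (hl : ∀ j, 0 < l j) (h01' : l' 0 ≤ l' 1) (h01 : l 0 ≤ l 1)
    (hD : 0 ≤ D) (hB : 0 ≤ B) (hc : 0 < c)
    (hdz : ∀ i j m, dz (β * Ph (w i) (v j) (w m)) ≤ D * (l' i * l j * l' m))
    (hup : ∀ i j m, |(Ph (w i) (v j) (w m) : ℝ)| ≤ B * (l' i * l j * l' m))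
    (hlo : ∃ i m, c * (l' i * l 0 * l' m) ≤ |(Ph (w i) (v 0) (w m) : ℝ)|)
    (hsmall : 2 * D * B * ((l' 0 * l' 1) ^ 2 * (l 0 * l 1)) < 1) :
    ∃ a : ℤ, |6 * β - a| ≤ 6 * D / c := by
  have hle' : ∀ i, l' i ≤ l' 1 := by
    intro i
    fin_cases i
    · exact h01'
    · exact le_rfl
  have hle : ∀ j, l j ≤ l 1 := by
    intro j
    fin_cases j
    · exact h01
    · exact le_rfl
  obtain ⟨A, hA⟩ : ∃ A : Fin 2 → Fin 2 → Fin 2 → ℤ,
      ∀ i j m, A i j m = round (β * Ph (w i) (v j) (w m)) := ⟨_, fun _ _ _ => rfl⟩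
  have hd : ∀ i j m, |β * Ph (w i) (v j) (w m) - A i j m| ≤ D * (l' i * l j * l' m) := by
    intro i j m
    rw [hA]
    exact hdz i j m
  have hpos : ∀ i j m, 0 < l' i * l j * l' m := fun i j m =>
    mul_pos (mul_pos (hl' i) (hl j)) (hl' m)
  obtain ⟨i0, m0, hlo⟩ := hlo
  by_cases h0 : Ph (w 0) (v 0) (w 0) = 0
  · -- the degenerate case
    have h0' : (w 0).1 ^ 2 * (v 0).1 = (w 0).2 ^ 2 * (v 0).2 := by
      unfold Ph at h0
      have : (w 0).1 * (v 0).1 * (w 0).1 - (w 0).2 * (v 0).2 * (w 0).2 = 0 := by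
        rcases mul_eq_zero.1 h0 with h | h
        · norm_num at h
        · exact h
      linear_combination this
    obtain ⟨α, hα⟩ : ∃ α : ℤ, α = (w 0).1 * (w 1).2 ^ 3 - 3 * (w 1).2 ^ 2 * (w 0).2 * (w 1).1 :=
      ⟨_, rfl⟩
    obtain ⟨γ, hγ⟩ : ∃ γ : ℤ, γ = 3 * (w 0).1 * (w 1).2 * (w 1).1 ^ 2 - (w 0).2 * (w 1).1 ^ 3 :=
      ⟨_, rfl⟩
    have hbz : (w 0).1 ^ 2 * α + (w 0).2 ^ 2 * γ = 1 := by
      have h1 : (w 0).1 ^ 2 * α + (w 0).2 ^ 2 * γ =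
          ((w 0).1 * (w 1).2 - (w 0).2 * (w 1).1) ^ 3 := by
        rw [hα, hγ]
        ring
      rw [h1, hw, one_pow]
    obtain ⟨e, he⟩ : ∃ e : ℤ, e = α * (v 0).2 + γ * (v 0).1 := ⟨_, rfl⟩
    have hs : (v 0).2 = (w 0).1 ^ 2 * e := by
      rw [he]
      linear_combination -(v 0).2 * hbz - γ * h0'
    have hr : (v 0).1 = (w 0).2 ^ 2 * e := by
      rw [he]
      linear_combination -(v 0).1 * hbz + α * h0'
    have hef : e * ((w 0).2 ^ 2 * (v 1).2 - (w 0).1 ^ 2 * (v 1).1) = 1 := by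
      rw [← hv]
      rw [hs, hr]
      ring
    refine ⟨-e * A 0 1 0, ?_⟩
    have hlk := unq_link β D B (l' i0 * l 0 * l' m0) (l' 0 * l 1 * l' 0) (A i0 0 m0) (A 0 1 0)
      (Ph (w i0) (v 0) (w m0)) (Ph (w 0) (v 1) (w 0)) hD hB (hpos _ _ _).le (hpos _ _ _).le
      (hd _ _ _) (hd _ _ _) (hup _ _ _) (hup _ _ _) (by
        refine lt_of_le_of_lt ?_ hsmall
        apply mul_le_mul_of_nonneg_left _ (by positivity)
        have k1 : l' i0 * l' m0 ≤ l' 1 * l' 1 :=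
          mul_le_mul (hle' i0) (hle' m0) (hl' m0).le (hl' 1).le
        have k2 : 0 ≤ l 0 * l 1 * (l' 0 * l' 0) := by
          have := (hl 0).le
          have := (hl 1).le
          have := (hl' 0).le
          positivity
        calc l' i0 * l 0 * l' m0 * (l' 0 * l 1 * l' 0)
            = l 0 * l 1 * (l' 0 * l' 0) * (l' i0 * l' m0) := by ring
          _ ≤ l 0 * l 1 * (l' 0 * l' 0) * (l' 1 * l' 1) := mul_le_mul_of_nonneg_left k1 k2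
          _ = (l' 0 * l' 1) ^ 2 * (l 0 * l 1) := by ring)
    have hP : Ph (w 0) (v 1) (w 0) =
        -6 * ((w 0).2 ^ 2 * (v 1).2 - (w 0).1 ^ 2 * (v 1).1) := by
      unfold Ph
      ring
    refine unq_fin β D c (l' i0 * l 0 * l' m0) _ (A i0 0 m0) (Ph (w i0) (v 0) (w m0))
      (hpos _ _ _) hc ?_ (hd _ _ _) hlo
    rw [hP] at hlk
    linear_combination -6 * A i0 0 m0 * hef - e * hlk
  · -- the main case
    have hlk : ∀ i j m, A i j m * Ph (w 0) (v 0) (w 0) = A 0 0 0 * Ph (w i) (v j) (w m) := by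
      intro i j m
      refine unq_link β D B (l' i * l j * l' m) (l' 0 * l 0 * l' 0) _ _ _ _ hD hB
        (hpos _ _ _).le (hpos _ _ _).le (hd _ _ _) (hd _ _ _) (hup _ _ _) (hup _ _ _) ?_
      refine lt_of_le_of_lt ?_ hsmall
      apply mul_le_mul_of_nonneg_left _ (by positivity)
      have k1 : l' i * l' m ≤ l' 1 * l' 1 := mul_le_mul (hle' i) (hle' m) (hl' m).le (hl' 1).le
      have k3 : l' i * l' m * l j ≤ l' 1 * l' 1 * l 1 :=
        mul_le_mul k1 (hle j) (hl j).le (mul_pos (hl' 1) (hl' 1)).le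
      have k2 : 0 ≤ l 0 * (l' 0 * l' 0) := by
        have := (hl 0).le
        have := (hl' 0).le
        positivity
      calc l' i * l j * l' m * (l' 0 * l 0 * l' 0)
          = l 0 * (l' 0 * l' 0) * (l' i * l' m * l j) := by ring
        _ ≤ l 0 * (l' 0 * l' 0) * (l' 1 * l' 1 * l 1) := mul_le_mul_of_nonneg_left k3 k2
        _ = (l' 0 * l' 1) ^ 2 * (l 0 * l 1) := by ring
    obtain ⟨cc, hcc⟩ : ∃ cc : Fin 2 → ℤ, cc = ![(w 1).2, -(w 0).2] := ⟨_, rfl⟩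
    obtain ⟨dd, hdd⟩ : ∃ dd : Fin 2 → ℤ, dd = ![(v 1).2, -(v 0).2] := ⟨_, rfl⟩
    have hsix : ∑ i, ∑ j, ∑ m, cc i * dd j * cc m * Ph (w i) (v j) (w m) = 6 := by
      rw [hcc, hdd]
      simp only [Fin.sum_univ_two, Matrix.cons_val_zero, Matrix.cons_val_one, Ph]
      linear_combination 6 * ((w 0).1 * (w 1).2 - (w 0).2 * (w 1).1 + 1) *
        ((v 0).1 * (v 1).2 - (v 0).2 * (v 1).1) * hw + 6 * hv
    obtain ⟨a, ha⟩ : ∃ a : ℤ, a = ∑ i, ∑ j, ∑ m, cc i * dd j * cc m * A i j m := ⟨_, rfl⟩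
    have haP : a * Ph (w 0) (v 0) (w 0) = 6 * A 0 0 0 := by
      rw [← hsix, ha, Finset.sum_mul, Finset.sum_mul]
      refine Finset.sum_congr rfl fun i _ => ?_
      rw [Finset.sum_mul, Finset.sum_mul]
      refine Finset.sum_congr rfl fun j _ => ?_
      rw [Finset.sum_mul, Finset.sum_mul]
      refine Finset.sum_congr rfl fun m _ => ?_
      linear_combination cc i * dd j * cc m * hlk i j m
    refine ⟨a, unq_fin β D c (l' i0 * l 0 * l' m0) a (A i0 0 m0) (Ph (w i0) (v 0) (w m0))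
      (hpos _ _ _) hc ?_ (hd _ _ _) hlo⟩
    apply mul_right_cancel₀ h0
    linear_combination 6 * hlk i0 0 m0 - Ph (w i0) (v 0) (w m0) * haP

end Pool.Agent.H96.EB
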