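import Pool.Agent.H96.EB.Trv
import Pool.Agent.H96.EB.Phu
import Pool.Agent.H96.EB.Phl
import Pool.Agent.H96.EB.Cnt
import Pool.Agent.H96.EB.Iv
import Pool.Agent.H96.EB.Unq

/-!
# [H96 EB MN] Theorem minor

PROOF. `c = 200` and `C` large. `P^5 M^3 C T^c <= K^2`. Bases `w`, `v` from `basis1`, `basis2` (`M` cast to `ℝ`): `l'_1^3 <= 1600 P M^3/K^2 <= 51200/(C T^c)`, `l_1^3 <= 51200 P^5 M^3/K^2 <= 51200/(C T^c)`; so all `l'_i, l_j <= ε := (51200/(C T^c))^(1/3)` (avoid cube roots: `x^3 <= y^3` with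
`y = 1/(C1 T^60)`, if `C >= 51200 C1^3` and `c >= 180`, gives `x <= y`: `l'_i, l_j <= 1/(C1 T^60)`), `C1` large.
`cnt` gives `G`; `τ := 1/(10^6 T^2)`. For `m = 0, 1`: `iv` with `B_i = 1/l'_i`, `A_j = 1/l_j`, `δ = 10^10 T^2 l'_m`, `x = α Φ_{ijm}`: conditions `δ <= τ^18/C_iv`, i.e. `l'_m <= 1/(C_iv 10^118 T^38)`, and `1/l >= C_iv 10^108 T^36`: fine with `C1 = C_iv 10^118`.
It gives `q_m <= C_iv 10^108 T^36` and `dz (q_m α Φ_{ijm}) <= C_iv 10^108 T^36 * 10^10 T^2 l'_m l'_i l_j`. `Q = q_0 q_1`: `dz (Q α Φ_{ijm}) <= D Λ_{ijm}`, `D = C_iv^2 10^226 T^74` (`dz_mul`).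
`unq` with `β = Q α`, `l' = nu1 (w ·)`, `l = nu2 (v ·)`, `B = 600 K/p'` (`phu`; `<= 600 K/P`), `c = K/(200 p') >= K/(400 P)` (`phl`, `h = v 0`). `hsmall`: `l'_0 l'_1 <= 2M/K`, `l_0 l_1 <= 2 M p p'/K <= 8 M P^2/K` and `K/p' <= K/P`:
`2 D B (..) <= 2 D * 600 (K/P) * 4M^2/K^2 * 8 M P^2/K = 38400 D P M^3/K^2 <= 38400 D/(C T^c) < 1`. Result: `|6 Q α - a| <= 6D/c <= 2400 D P/K`; `q = 6Q <= 6 C_iv^2 10^216 T^72`. So `C = 10^1000 (C_iv + 1)^3` and `c = 200` suffice.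
-/

namespace Pool.Agent.H96.EB

private theorem mn_cube (x y : ℝ) (hy : 0 ≤ y) (h : x ^ 3 ≤ y ^ 3) : x ≤ y := by
  by_contra hc
  rw [not_le] at hc
  exact absurd (pow_lt_pow_left₀ hc hy (by norm_num)) (not_lt.2 h)

private theorem mn_ne (a b : ℤ × ℤ) (h : a.1 * b.2 - a.2 * b.1 = 1) : a ≠ 0 ∧ b ≠ 0 := by
  constructor
  · rintro rfl
    simp at h
  · rintro rfl
    simp at h

/-- the recurrence for one index `m` -/
private theorem mn_one (Ci T E α : ℝ) (hCi : 1 ≤ Ci) (hT : 1 ≤ T) (hE2 : Ci * 10 ^ 118 ≤ E)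
    (hiv : ∀ (τ δ A1 A2 B1 B2 x11 x12 x21 x22 : ℝ)
    (G : Finset ((ℤ × ℤ) × (ℤ × ℤ))), 0 < τ → τ ≤ 1 → 0 ≤ δ → δ ≤ τ ^ 18 / Ci →
    Ci / τ ^ 18 ≤ A1 → Ci / τ ^ 18 ≤ A2 → Ci / τ ^ 18 ≤ B1 → Ci / τ ^ 18 ≤ B2 →
    (∀ g ∈ G, |(g.1.1 : ℝ)| ≤ 8 * B1 ∧ |(g.1.2 : ℝ)| ≤ 8 * B2 ∧ |(g.2.1 : ℝ)| ≤ 8 * A1 ∧
      |(g.2.2 : ℝ)| ≤ 8 * A2) → τ * (A1 * A2 * (B1 * B2)) ≤ G.card →
    (∀ g ∈ G, dz (g.1.1 * g.2.1 * x11 + g.1.1 * g.2.2 * x12 + g.1.2 * g.2.1 * x21 +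
      g.1.2 * g.2.2 * x22) ≤ δ) →
    ∃ q : ℕ, 1 ≤ q ∧ (q : ℝ) ≤ Ci / τ ^ 18 ∧ dz (q * x11) ≤ Ci / τ ^ 18 * (δ / (B1 * A1)) ∧
      dz (q * x12) ≤ Ci / τ ^ 18 * (δ / (B1 * A2)) ∧
      dz (q * x21) ≤ Ci / τ ^ 18 * (δ / (B2 * A1)) ∧
      dz (q * x22) ≤ Ci / τ ^ 18 * (δ / (B2 * A2)))
    (w v : Fin 2 → ℤ × ℤ) (l' l : Fin 2 → ℝ) (hl' : ∀ i, 0 < l' i) (hl : ∀ j, 0 < l j)
    (hly' : ∀ i, l' i ≤ 1 / (E * T ^ 60)) (hly : ∀ j, l j ≤ 1 / (E * T ^ 60))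
    (G : Finset ((ℤ × ℤ) × (ℤ × ℤ)))
    (hG1 : ∀ g ∈ G, |(g.1.1 : ℝ)| * l' 0 ≤ 8 ∧ |(g.1.2 : ℝ)| * l' 1 ≤ 8 ∧
        |(g.2.1 : ℝ)| * l 0 ≤ 8 ∧ |(g.2.2 : ℝ)| * l 1 ≤ 8)
    (hG2 : 1 ≤ 10 ^ 6 * T ^ 2 * (l' 0 * l' 1 * (l 0 * l 1)) * G.card) (m : Fin 2)
    (hG3 : ∀ g ∈ G, dz (g.1.1 * g.2.1 * (α * Ph (w 0) (v 0) (w m)) +
          g.1.1 * g.2.2 * (α * Ph (w 0) (v 1) (w m)) +
          g.1.2 * g.2.1 * (α * Ph (w 1) (v 0) (w m)) +
          g.1.2 * g.2.2 * (α * Ph (w 1) (v 1) (w m))) ≤ 10 ^ 10 * T ^ 2 * l' m) :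
    ∃ q : ℕ, 1 ≤ q ∧ (q : ℝ) ≤ Ci * 10 ^ 108 * T ^ 36 ∧ ∀ i j : Fin 2,
      dz (q * (α * Ph (w i) (v j) (w m))) ≤
        Ci * 10 ^ 108 * T ^ 36 * (10 ^ 10 * T ^ 2) * (l' i * l j * l' m) := by
  have hT0 : 0 < T := by linarith
  have hE0 : 0 < E := by
    have : 0 < Ci * 10 ^ 118 := by positivity
    linarith
  obtain ⟨τ, hτ⟩ : ∃ τ : ℝ, τ = 1 / (10 ^ 6 * T ^ 2) := ⟨_, rfl⟩
  have hτ0 : 0 < τ := by
    rw [hτ]
    positivity
  have hT2 : 1 ≤ T ^ 2 := one_le_pow₀ hT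
  have hτ1 : τ ≤ 1 := by
    rw [hτ, div_le_one (by positivity)]
    nlinarith
  have hQ : Ci / τ ^ 18 = Ci * 10 ^ 108 * T ^ 36 := by
    rw [hτ]
    field_simp
  have hQ' : τ ^ 18 / Ci = 1 / (Ci * 10 ^ 108 * T ^ 36) := by
    rw [hτ]
    field_simp
  have hT36 : T ^ 36 ≤ T ^ 60 := pow_le_pow_right₀ hT (by norm_num)
  have hT38 : T ^ 38 ≤ T ^ 60 := pow_le_pow_right₀ hT (by norm_num)
  have hQl : ∀ x : ℝ, 0 < x → x ≤ 1 / (E * T ^ 60) → Ci / τ ^ 18 ≤ 1 / x := by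
    intro x hx hxy
    rw [hQ]
    have h1 : E * T ^ 60 ≤ 1 / x := by
      rw [le_div_iff₀ hx]
      have h2 := mul_le_mul_of_nonneg_left hxy (by positivity : 0 ≤ E * T ^ 60)
      rw [mul_one_div_cancel (by positivity)] at h2
      exact h2
    refine le_trans ?_ h1
    have h3 : Ci * 10 ^ 108 ≤ E := by
      refine le_trans ?_ hE2
      apply mul_le_mul_of_nonneg_left _ (by linarith)
      norm_num
    exact mul_le_mul h3 hT36 (by positivity) hE0.le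
  have hδ : 10 ^ 10 * T ^ 2 * l' m ≤ τ ^ 18 / Ci := by
    rw [hQ', le_div_iff₀ (by positivity)]
    have h1 : Ci * 10 ^ 118 * T ^ 38 ≤ E * T ^ 60 := mul_le_mul hE2 hT38 (by positivity) hE0.le
    have h2 : E * T ^ 60 * l' m ≤ 1 := by
      have h3 := mul_le_mul_of_nonneg_left (hly' m) (by positivity : 0 ≤ E * T ^ 60)
      rwa [mul_one_div_cancel (by positivity)] at h3
    calc 10 ^ 10 * T ^ 2 * l' m * (Ci * 10 ^ 108 * T ^ 36)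
        = Ci * 10 ^ 118 * T ^ 38 * l' m := by ring
      _ ≤ E * T ^ 60 * l' m := mul_le_mul_of_nonneg_right h1 (hl' m).le
      _ ≤ 1 := h2
  obtain ⟨q, hq1, hq2, k11, k12, k21, k22⟩ := hiv τ (10 ^ 10 * T ^ 2 * l' m) (1 / l 0) (1 / l 1)
    (1 / l' 0) (1 / l' 1) (α * Ph (w 0) (v 0) (w m)) (α * Ph (w 0) (v 1) (w m))
    (α * Ph (w 1) (v 0) (w m)) (α * Ph (w 1) (v 1) (w m)) G hτ0 hτ1
    (by
      have := (hl' m).le
      positivity) hδ (hQl _ (hl 0) (hly 0)) (hQl _ (hl 1) (hly 1)) (hQl _ (hl' 0) (hly' 0))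
    (hQl _ (hl' 1) (hly' 1))
    (fun g hg => by
      obtain ⟨g1, g2, g3, g4⟩ := hG1 g hg
      rw [mul_one_div, mul_one_div, mul_one_div, mul_one_div, le_div_iff₀ (hl' 0),
        le_div_iff₀ (hl' 1), le_div_iff₀ (hl 0), le_div_iff₀ (hl 1)]
      exact ⟨g1, g2, g3, g4⟩)
    (by
      have e0 := hl 0
      have e1 := hl 1
      have e2 := hl' 0
      have e3 := hl' 1
      have e4 : τ * (1 / l 0 * (1 / l 1) * (1 / l' 0 * (1 / l' 1))) =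
          1 / (10 ^ 6 * T ^ 2 * (l' 0 * l' 1 * (l 0 * l 1))) := by
        rw [hτ]
        field_simp
      rw [e4, div_le_iff₀ (by positivity)]
      linarith)
    (fun g hg => hG3 g hg)
  rw [hQ] at hq2 k11 k12 k21 k22
  have hfin : ∀ i j : Fin 2, Ci * 10 ^ 108 * T ^ 36 *
      (10 ^ 10 * T ^ 2 * l' m / (1 / l' i * (1 / l j))) =
      Ci * 10 ^ 108 * T ^ 36 * (10 ^ 10 * T ^ 2) * (l' i * l j * l' m) := by
    intro i j
    have e0 := hl j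
    have e2 := hl' i
    field_simp
  refine ⟨q, hq1, hq2, ?_⟩
  intro i j
  rw [← hfin i j]
  fin_cases i <;> fin_cases j
  · exact k11
  · exact k12
  · exact k21
  · exact k22

theorem mn : ∃ (C : ℝ) (c : ℕ), 1 ≤ C ∧ ∀ (M M' P p p' : ℕ) (K ρ T α : ℝ), 1 ≤ M →
    M' ≤ 2 * M + 1 → p.Prime → p'.Prime → p ≠ p' → P < p → p ≤ 2 * P → P < p' → p' ≤ 2 * P →
    0 < ρ → ρ ^ 3 * p = p' → 1 ≤ T → 0 < K → K ≤ 8 * (M : ℝ) ^ 3 →
    C * T ^ c * ((P : ℝ) ^ 5 * (M : ℝ) ^ 3) ≤ K ^ 2 →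
    (K / (M * P)) ^ 2 / T < EE M M' (K / M ^ 2) ρ p p' α →
    ∃ q : ℕ, 1 ≤ q ∧ (q : ℝ) ≤ C * T ^ c ∧ ∃ a : ℤ, |q * α - a| ≤ C * T ^ c * P / K := by
  obtain ⟨Ci, hCi, hiv⟩ := iv
  obtain ⟨E, hE⟩ : ∃ E : ℝ, E = 10 ^ 120 * (Ci + 1) := ⟨_, rfl⟩
  have hE1 : 10 ^ 120 ≤ E := by
    rw [hE]
    nlinarith
  have hE2 : Ci * 10 ^ 118 ≤ E := by
    rw [hE]
    nlinarith
  have hE51 : 51200 ≤ E := le_trans (by norm_num) hE1
  have hE0 : 0 < E := by linarith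
  refine ⟨E ^ 5, 200, one_le_pow₀ (by linarith), ?_⟩
  intro M M' P p p' K ρ T α hM hM' hp hp' hne h1 h2 h3 h4 hρ hρ3 hT hK hKM hbig hEE
  have hT0 : 0 < T := by linarith
  have hM0 : (0 : ℝ) < M := by exact_mod_cast hM
  have hP1 : 1 ≤ P := by
    have := hp.two_le
    omega
  have hP0 : (0 : ℝ) < P := by exact_mod_cast hP1
  have hP1' : (1 : ℝ) ≤ P := by exact_mod_cast hP1
  have hp0 : (0 : ℝ) < p := by exact_mod_cast hp.pos
  have hp'0 : (0 : ℝ) < p' := by exact_mod_cast hp'.pos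
  have hpP : (p : ℝ) ≤ 2 * P := by exact_mod_cast h2
  have hp'P : (p' : ℝ) ≤ 2 * P := by exact_mod_cast h4
  obtain ⟨w, hw, hw01, hw2, hw3⟩ := basis1 K M ρ P p p' hp hp' hne hM0 hK hKM hρ hρ3 h1 h2 h3 h4
  obtain ⟨v, hv, hv01, hv2, hv3⟩ := basis2 K M ρ P p p' hp hp' hne hM0 hK hKM hρ hρ3 h1 h2 h3 h4
  obtain ⟨l', hl'⟩ : ∃ l' : Fin 2 → ℝ, ∀ i, l' i = nu1 K M ρ (w i) := ⟨_, fun _ => rfl⟩
  obtain ⟨l, hl⟩ : ∃ l : Fin 2 → ℝ, ∀ j, l j = nu2 K M ρ p p' (v j) := ⟨_, fun _ => rfl⟩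
  obtain ⟨hw0ne, hw1ne⟩ := mn_ne _ _ hw
  obtain ⟨hv0ne, hv1ne⟩ := mn_ne _ _ hv
  have hl'pos : ∀ i, 0 < l' i := by
    intro i
    rw [hl', nu1]
    apply gau_pos _ _ _ hM0 (by positivity)
    fin_cases i
    · exact hw0ne
    · exact hw1ne
  have hlpos : ∀ j, 0 < l j := by
    intro j
    rw [hl, nu2]
    apply gau_pos _ _ _ (by positivity) (by positivity)
    fin_cases j
    · exact hv0ne
    · exact hv1ne
  -- all minima are small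
  have hsm : 51200 * ((P : ℝ) ^ 5 * (M : ℝ) ^ 3) / K ^ 2 ≤ (1 / (E * T ^ 60)) ^ 3 := by
    rw [div_pow, one_pow, div_le_div_iff₀ (by positivity) (by positivity), one_mul]
    refine le_trans ?_ hbig
    have e1 : 51200 * (E * T ^ 60) ^ 3 ≤ E ^ 5 * T ^ 200 := by
      have e2 : T ^ 180 ≤ T ^ 200 := pow_le_pow_right₀ hT (by norm_num)
      have e3 : 51200 * E ^ 3 ≤ E ^ 5 := by
        have e4 : E ^ 3 ≤ E ^ 4 := pow_le_pow_right₀ (by linarith) (by norm_num)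
        calc 51200 * E ^ 3 ≤ E * E ^ 4 := mul_le_mul hE51 e4 (by positivity) hE0.le
          _ = E ^ 5 := by ring
      calc 51200 * (E * T ^ 60) ^ 3 = 51200 * E ^ 3 * T ^ 180 := by ring
        _ ≤ E ^ 5 * T ^ 200 := mul_le_mul e3 e2 (by positivity) (by positivity)
    calc 51200 * ((P : ℝ) ^ 5 * (M : ℝ) ^ 3) * (E * T ^ 60) ^ 3
        = 51200 * (E * T ^ 60) ^ 3 * ((P : ℝ) ^ 5 * (M : ℝ) ^ 3) := by ring
      _ ≤ E ^ 5 * T ^ 200 * ((P : ℝ) ^ 5 * (M : ℝ) ^ 3) :=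
          mul_le_mul_of_nonneg_right e1 (by positivity)
  have hl1 : l 1 ≤ 1 / (E * T ^ 60) := by
    apply mn_cube _ _ (by positivity)
    rw [hl]
    refine hv3.trans (le_trans (le_of_eq ?_) hsm)
    ring
  have hl1' : l' 1 ≤ 1 / (E * T ^ 60) := by
    apply mn_cube _ _ (by positivity)
    rw [hl']
    refine hw3.trans (le_trans ?_ hsm)
    have e5 : (P : ℝ) ≤ P ^ 5 := by
      calc (P : ℝ) = P ^ 1 := (pow_one _).symm
        _ ≤ P ^ 5 := pow_le_pow_right₀ hP1' (by norm_num)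
    have e6 : 1600 * (P : ℝ) ≤ 51200 * P ^ 5 := by nlinarith
    have e7 : 1600 * (P : ℝ) * (M : ℝ) ^ 3 ≤ 51200 * ((P : ℝ) ^ 5 * (M : ℝ) ^ 3) := by
      calc 1600 * (P : ℝ) * (M : ℝ) ^ 3 ≤ 51200 * P ^ 5 * (M : ℝ) ^ 3 :=
            mul_le_mul_of_nonneg_right e6 (by positivity)
        _ = _ := by ring
    exact div_le_div_of_nonneg_right e7 (by positivity)
  have hly' : ∀ i, l' i ≤ 1 / (E * T ^ 60) := by
    intro i
    fin_cases i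
    · refine le_trans ?_ hl1'
      rw [hl', hl']
      exact hw01
    · exact hl1'
  have hly : ∀ j, l j ≤ 1 / (E * T ^ 60) := by
    intro j
    fin_cases j
    · refine le_trans ?_ hl1
      rw [hl, hl]
      exact hv01
    · exact hl1
  have hy1 : 1 / (E * T ^ 60) ≤ 1 := by
    rw [div_le_one (by positivity)]
    have : 1 ≤ T ^ 60 := one_le_pow₀ hT
    nlinarith
  obtain ⟨G, hG1, hG2, hG3⟩ := cnt M M' hM hM' K ρ T hK hT P p p' hP1 h1.le h3.le w v hw hv hw2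
    hv2 (fun i => by
      rw [← hl']
      exact (hly' i).trans hy1) (fun j => by
      rw [← hl]
      exact (hly j).trans hy1) α hEE
  rw [← hl', ← hl', ← hl, ← hl] at hG2
  have hG1' : ∀ g ∈ G, |(g.1.1 : ℝ)| * l' 0 ≤ 8 ∧ |(g.1.2 : ℝ)| * l' 1 ≤ 8 ∧
      |(g.2.1 : ℝ)| * l 0 ≤ 8 ∧ |(g.2.2 : ℝ)| * l 1 ≤ 8 := by
    intro g hg
    rw [hl', hl', hl, hl]
    exact hG1 g hg
  obtain ⟨Q0, hQ0⟩ : ∃ Q0 : ℝ, Q0 = Ci * 10 ^ 108 * T ^ 36 := ⟨_, rfl⟩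
  have hQ0pos : 0 < Q0 := by
    rw [hQ0]
    positivity
  have hone := fun m : Fin 2 => mn_one Ci T E α hCi hT hE2 hiv w v l' l hl'pos hlpos hly' hly G
    hG1' hG2 m (fun g hg => by
      rw [hl']
      exact hG3 g hg m)
  rw [← hQ0] at hone
  choose q hq1 hq2 hq3 using hone
  obtain ⟨D, hD⟩ : ∃ D : ℝ, D = Q0 * (Q0 * (10 ^ 10 * T ^ 2)) := ⟨_, rfl⟩
  have hDpos : 0 < D := by
    rw [hD]
    positivity
  have hDle : D ≤ E ^ 2 * T ^ 74 := by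
    have e1 : (Ci * 10 ^ 113) ^ 2 ≤ E ^ 2 := by
      apply pow_le_pow_left₀ (by positivity)
      refine le_trans ?_ hE2
      apply mul_le_mul_of_nonneg_left _ (by linarith)
      norm_num
    calc D = (Ci * 10 ^ 113) ^ 2 * T ^ 74 := by
          rw [hD, hQ0]
          ring
      _ ≤ E ^ 2 * T ^ 74 := mul_le_mul_of_nonneg_right e1 (by positivity)
  have hT74 : T ^ 74 ≤ T ^ 200 := pow_le_pow_right₀ hT (by norm_num)
  have hDC : ∀ k : ℝ, 0 ≤ k → k ≤ 51200 → k * D ≤ E ^ 5 * T ^ 200 / E := by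
    intro k hk0 hk
    rw [le_div_iff₀ hE0]
    have e4 : E ^ 4 ≤ E ^ 5 := pow_le_pow_right₀ (by linarith) (by norm_num)
    calc k * D * E ≤ E * (E ^ 2 * T ^ 74) * E := by
          have := mul_le_mul (hk.trans hE51) hDle hDpos.le hE0.le
          exact mul_le_mul_of_nonneg_right this hE0.le
      _ = E ^ 4 * T ^ 74 := by ring
      _ ≤ E ^ 5 * T ^ 200 := mul_le_mul e4 hT74 (by positivity) (by positivity)
  have hCE : E ^ 5 * T ^ 200 / E ≤ E ^ 5 * T ^ 200 := by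
    apply div_le_self (by positivity)
    linarith
  have hdz : ∀ i j m, dz (((q 0 * q 1 : ℕ) : ℝ) * α * Ph (w i) (v j) (w m)) ≤
      D * (l' i * l j * l' m) := by
    intro i j m
    have hΛ : 0 ≤ l' i * l j * l' m := by
      have := (hl'pos i).le
      have := (hlpos j).le
      have := (hl'pos m).le
      positivity
    have key : ∀ m m' : Fin 2, ∀ Λ : ℝ, 0 ≤ Λ →
        dz (q m * (α * Ph (w i) (v j) (w m))) ≤ Q0 * (10 ^ 10 * T ^ 2) * Λ →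
        dz ((q m' : ℝ) * (q m * (α * Ph (w i) (v j) (w m)))) ≤ D * Λ := by
      intro m m' Λ hΛ h
      have e1 := dz_mul (q m' : ℤ) (q m * (α * Ph (w i) (v j) (w m)))
      rw [Int.cast_natCast, abs_of_nonneg (Nat.cast_nonneg _)] at e1
      refine e1.trans ?_
      calc (q m' : ℝ) * dz (q m * (α * Ph (w i) (v j) (w m)))
          ≤ Q0 * (Q0 * (10 ^ 10 * T ^ 2) * Λ) :=
            mul_le_mul (hq2 m') h (dz_nonneg _) hQ0pos.le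
        _ = D * Λ := by
            rw [hD]
            ring
    fin_cases m
    · have h := key 0 1 _ hΛ (hq3 0 i j)
      have e : ((q 0 * q 1 : ℕ) : ℝ) * α * Ph (w i) (v j) (w 0) =
          (q 1 : ℝ) * (q 0 * (α * Ph (w i) (v j) (w 0))) := by
        push_cast
        ring
      simp only [Fin.zero_eta] at h ⊢
      rw [e]
      exact h
    · have h := key 1 0 _ hΛ (hq3 1 i j)
      have e : ((q 0 * q 1 : ℕ) : ℝ) * α * Ph (w i) (v j) (w 1) =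
          (q 0 : ℝ) * (q 1 * (α * Ph (w i) (v j) (w 1))) := by
        push_cast
        ring
      simp only [Fin.mk_one] at h ⊢
      rw [e]
      exact h
  have h2' : p' ≤ 2 * p := by omega
  have h3' : p ≤ 2 * p' := by omega
  have hup : ∀ i j m, |(Ph (w i) (v j) (w m) : ℝ)| ≤ 600 * (K / p') * (l' i * l j * l' m) := by
    intro i j m
    rw [hl', hl, hl']
    exact phu K M ρ p p' hp.pos hM0 hK hKM hρ hρ3 h2' _ _ _
  have hlo : ∃ i m, K / p' / 200 * (l' i * l 0 * l' m) ≤ |(Ph (w i) (v 0) (w m) : ℝ)| := by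
    obtain ⟨i, m, h⟩ := phl K M ρ p p' hp.pos hM0 hK hKM hρ hρ3 h2' h3' w hw hw2 (v 0)
    refine ⟨i, m, ?_⟩
    rw [hl', hl, hl']
    linarith
  have hsmall : 2 * D * (600 * (K / p')) * ((l' 0 * l' 1) ^ 2 * (l 0 * l 1)) < 1 := by
    have e1 : l' 0 * l' 1 ≤ 2 * M / K := by
      rw [hl', hl']
      refine hw2.trans (le_of_eq ?_)
      field_simp
    have e2 : l 0 * l 1 ≤ 2 * M * p * p' / K := by
      rw [hl, hl]
      refine hv2.trans (le_of_eq ?_)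
      field_simp
    have e3 : 0 ≤ l' 0 * l' 1 := (mul_pos (hl'pos 0) (hl'pos 1)).le
    have e4 : 0 ≤ l 0 * l 1 := (mul_pos (hlpos 0) (hlpos 1)).le
    have e5 : (l' 0 * l' 1) ^ 2 * (l 0 * l 1) ≤ (2 * M / K) ^ 2 * (2 * M * p * p' / K) :=
      mul_le_mul (pow_le_pow_left₀ e3 e1 2) e2 e4 (by positivity)
    have e6 : 2 * D * (600 * (K / p')) * ((l' 0 * l' 1) ^ 2 * (l 0 * l 1)) ≤
        9600 * D * (p * (M : ℝ) ^ 3) / K ^ 2 := by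
      refine (mul_le_mul_of_nonneg_left e5 (by positivity)).trans (le_of_eq ?_)
      field_simp
      ring
    refine lt_of_le_of_lt e6 ?_
    rw [div_lt_one (by positivity)]
    have e7 : (p : ℝ) ≤ 2 * P ^ 5 := by
      have : (P : ℝ) ≤ P ^ 5 := by
        calc (P : ℝ) = P ^ 1 := (pow_one _).symm
          _ ≤ P ^ 5 := pow_le_pow_right₀ hP1' (by norm_num)
      linarith
    calc 9600 * D * (p * (M : ℝ) ^ 3) ≤ 9600 * D * (2 * P ^ 5 * (M : ℝ) ^ 3) := by gcongr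
      _ = 19200 * D * ((P : ℝ) ^ 5 * (M : ℝ) ^ 3) := by ring
      _ ≤ E ^ 5 * T ^ 200 / E * ((P : ℝ) ^ 5 * (M : ℝ) ^ 3) :=
          mul_le_mul_of_nonneg_right (hDC 19200 (by norm_num) (by norm_num)) (by positivity)
      _ < E ^ 5 * T ^ 200 * ((P : ℝ) ^ 5 * (M : ℝ) ^ 3) := by
          apply mul_lt_mul_of_pos_right _ (by positivity)
          apply div_lt_self (by positivity)
          linarith
      _ ≤ K ^ 2 := hbig
  obtain ⟨a, ha⟩ := unq w v hw hv l' l (((q 0 * q 1 : ℕ) : ℝ) * α) D (600 * (K / p'))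
    (K / p' / 200) hl'pos hlpos (by
      rw [hl', hl']
      exact hw01) (by
      rw [hl, hl]
      exact hv01) hDpos.le (by positivity) (by positivity) hdz hup hlo hsmall
  refine ⟨6 * (q 0 * q 1), ?_, ?_, a, ?_⟩
  · have := Nat.mul_pos (hq1 0) (hq1 1)
    omega
  · have e1 : (q 0 : ℝ) * q 1 ≤ Q0 * Q0 := mul_le_mul (hq2 0) (hq2 1) (Nat.cast_nonneg _) hQ0pos.le
    have e2 : 6 * (Q0 * Q0) ≤ 6 * D := by
      have e3 : 1 ≤ 10 ^ 10 * T ^ 2 := by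
        have : 1 ≤ T ^ 2 := one_le_pow₀ hT
        nlinarith
      have e4 : Q0 * Q0 * 1 ≤ Q0 * Q0 * (10 ^ 10 * T ^ 2) :=
        mul_le_mul_of_nonneg_left e3 (by positivity)
      rw [hD]
      linarith
    have e3 := hDC 6 (by norm_num) (by norm_num)
    push_cast
    linarith
  · have e1 : ((6 * (q 0 * q 1) : ℕ) : ℝ) * α - a = 6 * (((q 0 * q 1 : ℕ) : ℝ) * α) - a := by
      push_cast
      ring
    rw [e1]
    refine ha.trans ?_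
    have e2 : 6 * D / (K / p' / 200) = 1200 * D * p' / K := by
      field_simp
      ring
    rw [e2]
    apply div_le_div_of_nonneg_right _ hK.le
    calc 1200 * D * p' ≤ 1200 * D * (2 * P) := mul_le_mul_of_nonneg_left hp'P (by positivity)
      _ = 2400 * D * P := by ring
      _ ≤ E ^ 5 * T ^ 200 * P := by
          apply mul_le_mul_of_nonneg_right _ hP0.le
          exact (hDC 2400 (by norm_num) (by norm_num)).trans hCE

end Pool.Agent.H96.EB
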