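import Pool.Agent.H96.EB.Trv
import Pool.Agent.H96.EB.Def2

/-!
# [H96 EB MUL] Multiplicities

PROOF. `mul`: expand the square: `Σ_{(m,p),(m',p')} #{b ∈ B : b ∈ E m p, b ∈ E m' p'} <= e * #{pairs for which some b lies in both}`. For such a pair with `p = p'`: `|m^3 - m'^3| < K`, so `3M^2 |m-m'| < K`: at most `1 + 2K/(3M^2)` values `m'`; in total at most
`card PP * (M'-M) * (1 + 2K/(3M^2)) <= 2PM + 2PK/M <= 4 P^2 K/M` (`M^2 <= PK`, `1 <= P`). For `p ≠ p'`, with `ρ^3 = p'/p`: `(m,m') ∈ Rg M M' (K/M^2) ρ` (as in `Ide`: `|p' m^3 - p m'^3| = |p k' - p' k| < max(p,p') K`, so `|ρ^3 m^3 - m'^3| < 2K`, `ρ^2m^2 + ρmm' + m'^2 >= 2M^2`), at most `578 K/M`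
(`rg_card`), in total `<= P^2 * 578 K/M`. Sum `<= 1000 P^2 K/M`.
`mul_sum`: `Σ_m Σ_p Σ_{b ∈ E} f b = Σ_{b ∈ B} f b * (Σ_m Σ_p 1[b ∈ E m p])`, Cauchy and `mul`.
-/

namespace Pool.Agent.H96.EB

open Finset

private theorem pair_diag (K M M' : ℕ) (hM : 1 ≤ M) (hM' : M' ≤ 2 * M + 1)
    (R : ℤ × ℤ → Prop) [DecidablePred R]
    (hR : ∀ z ∈ (Ioc (M : ℤ) M') ×ˢ (Ioc (M : ℤ) M'), R z → |z.1 ^ 3 - z.2 ^ 3| < K) :
    ((((Ioc (M : ℤ) M') ×ˢ (Ioc (M : ℤ) M')).filter R).card : ℝ) ≤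
      2 * M + 4 / 3 * ((K : ℝ) / M) := by
  set L : ℕ := K / (3 * M ^ 2) with hL
  have hinj : (((Ioc (M : ℤ) M') ×ˢ (Ioc (M : ℤ) M')).filter R).card ≤
      ((Ioc (M : ℤ) M') ×ˢ (Icc (-(L : ℤ)) L)).card := by
    refine Finset.card_le_card_of_injOn (fun z => (z.1, z.2 - z.1)) ?_ ?_
    · intro z hz
      rw [Finset.mem_coe, Finset.mem_filter] at hz
      obtain ⟨hz1, hz2⟩ := hz
      have h3 := hR z hz1 hz2
      rw [Finset.mem_product, Finset.mem_Ioc, Finset.mem_Ioc] at hz1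
      obtain ⟨⟨a1, a2⟩, ⟨b1, b2⟩⟩ := hz1
      have hM0 : (1 : ℤ) ≤ M := by exact_mod_cast hM
      have hq : 3 * (M : ℤ) ^ 2 ≤ z.1 ^ 2 + z.1 * z.2 + z.2 ^ 2 := by nlinarith
      have hd : |z.2 - z.1| * (3 * (M : ℤ) ^ 2) ≤ K := by
        have e : z.1 ^ 3 - z.2 ^ 3 = -((z.2 - z.1) * (z.1 ^ 2 + z.1 * z.2 + z.2 ^ 2)) := by ring
        rw [e, abs_neg, abs_mul, abs_of_nonneg (a := z.1 ^ 2 + z.1 * z.2 + z.2 ^ 2)
          (le_trans (by positivity) hq)] at h3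
        exact (mul_le_mul_of_nonneg_left hq (abs_nonneg _)).trans h3.le
      have hd' : (z.2 - z.1).natAbs * (3 * M ^ 2) ≤ K := by
        have : (((z.2 - z.1).natAbs : ℕ) : ℤ) * (3 * (M : ℤ) ^ 2) ≤ K := by
          rw [Int.natCast_natAbs]; exact hd
        exact_mod_cast this
      have hl : (z.2 - z.1).natAbs ≤ L := by
        rw [hL, Nat.le_div_iff_mul_le (by positivity)]
        exact hd'
      simp only [Finset.coe_product, Set.mem_prod, Finset.mem_coe, Finset.mem_Ioc, Finset.mem_Icc]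
      refine ⟨⟨a1, a2⟩, ?_, ?_⟩ <;> omega
    · intro z _ z' _ hzz
      simp only [Prod.mk.injEq] at hzz
      ext
      · exact hzz.1
      · have := hzz.1
        have := hzz.2
        omega
  have hcard : ((Ioc (M : ℤ) M') ×ˢ (Icc (-(L : ℤ)) L)).card ≤ (2 * M) * (2 * L + 1) := by
    rw [Finset.card_product, Int.card_Ioc, Int.card_Icc]
    refine Nat.mul_le_mul ?_ ?_ <;> omega
  have hLr : (L : ℝ) ≤ K / (3 * (M : ℝ) ^ 2) := by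
    have := @Nat.cast_div_le ℝ _ _ _ K (3 * M ^ 2)
    push_cast at this
    exact this
  have hM0 : (0 : ℝ) < M := by exact_mod_cast hM
  calc ((((Ioc (M : ℤ) M') ×ˢ (Ioc (M : ℤ) M')).filter R).card : ℝ)
      ≤ ((2 * M * (2 * L + 1) : ℕ) : ℝ) := by exact_mod_cast hinj.trans hcard
    _ = 2 * M + 4 * M * (L : ℝ) := by push_cast; ring
    _ ≤ 2 * M + 4 * M * (K / (3 * (M : ℝ) ^ 2)) := by gcongr
    _ = 2 * M + 4 / 3 * ((K : ℝ) / M) := by field_simp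

private theorem pair_strip (K M M' P : ℕ) (hM : 1 ≤ M) (hM' : M' ≤ 2 * M + 1) (hK : 1 ≤ K)
    (hKM : K ≤ 8 * M ^ 3) (hbig : 1600 * (P : ℝ) * (M : ℝ) ^ 3 ≤ (K : ℝ) ^ 2) (p p' : ℕ)
    (hp : p.Prime) (hp' : p'.Prime) (hne : p ≠ p') (h1 : P < p) (h2 : p ≤ 2 * P) (h3 : P < p')
    (h4 : p' ≤ 2 * P) (R : ℤ × ℤ → Prop) [DecidablePred R]
    (hR : ∀ z ∈ (Ioc (M : ℤ) M') ×ˢ (Ioc (M : ℤ) M'), R z → ∃ b : ℤ,
      (z.1 ^ 3 < p * b ∧ p * b ≤ z.1 ^ 3 + K) ∧ (z.2 ^ 3 < p' * b ∧ p' * b ≤ z.2 ^ 3 + K)) :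
    ((((Ioc (M : ℤ) M') ×ˢ (Ioc (M : ℤ) M')).filter R).card : ℝ) ≤ 578 * K / M := by
  have hp0 : (0 : ℝ) < p := by exact_mod_cast hp.pos
  have hp'0 : (0 : ℝ) < p' := by exact_mod_cast hp'.pos
  have hq0 : (0 : ℝ) < (p' : ℝ) / p := by positivity
  set ρ : ℝ := ((p' : ℝ) / p) ^ ((1 : ℝ) / 3) with hρdef
  have hρ : 0 < ρ := Real.rpow_pos_of_pos hq0 _
  have hρc : ρ ^ 3 = (p' : ℝ) / p := by
    rw [hρdef, ← Real.rpow_natCast, ← Real.rpow_mul hq0.le]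
    norm_num
  have hρ3 : ρ ^ 3 * p = p' := by rw [hρc]; field_simp
  have hM0 : (0 : ℝ) < M := by exact_mod_cast hM
  have hK0 : (0 : ℝ) < K := by exact_mod_cast hK
  refine le_trans ?_ (rg_card M M' hM hM' K ρ P p p' hp hp' hne hK0 (by exact_mod_cast hKM) hρ hρ3
    h1 h2 h3 h4 hbig)
  have hρ34 : 3 / 4 ≤ ρ := by
    by_contra hc
    push Not at hc
    have h5 : ρ ^ 3 < (3 / 4) ^ 3 := pow_lt_pow_left₀ hc hρ.le (by norm_num)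
    rw [hρc, div_lt_iff₀ hp0] at h5
    have h6 : (p : ℝ) ≤ 2 * P := by exact_mod_cast h2
    have h7 : (P : ℝ) < p' := by exact_mod_cast h3
    nlinarith
  have hsub : (((Ioc (M : ℤ) M') ×ˢ (Ioc (M : ℤ) M')).filter R) ⊆
      Rg M M' ((K : ℝ) / (M : ℝ) ^ 2) ρ := by
    intro z hz
    rw [Finset.mem_filter] at hz
    obtain ⟨hz1, hz2⟩ := hz
    obtain ⟨b, ⟨c1, c2⟩, ⟨c3, c4⟩⟩ := hR z hz1 hz2
    unfold Rg
    rw [Finset.mem_filter]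
    refine ⟨hz1, ?_⟩
    rw [Finset.mem_product, Finset.mem_Ioc, Finset.mem_Ioc] at hz1
    obtain ⟨⟨a1, a2⟩, ⟨b1, b2⟩⟩ := hz1
    have r1 : (z.1 : ℝ) ^ 3 < p * b := by exact_mod_cast c1
    have r2 : (p : ℝ) * b ≤ (z.1 : ℝ) ^ 3 + K := by exact_mod_cast c2
    have r3 : (z.2 : ℝ) ^ 3 < p' * b := by exact_mod_cast c3
    have r4 : (p' : ℝ) * b ≤ (z.2 : ℝ) ^ 3 + K := by exact_mod_cast c4
    have m1 : (M : ℝ) < z.1 := by exact_mod_cast a1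
    have m2 : (M : ℝ) < z.2 := by exact_mod_cast b1
    have q1 : (p' : ℝ) < 2 * p := by
      have : p' < 2 * p := by omega
      exact_mod_cast this
    have q2 : (p : ℝ) < 2 * p' := by
      have : p < 2 * p' := by omega
      exact_mod_cast this
    -- |p' m^3 - p m'^3| < 2 p K
    have hup : (p' : ℝ) * z.1 ^ 3 - p * z.2 ^ 3 ≤ 2 * p * K := by nlinarith
    have hlo : -(2 * p * K) ≤ (p' : ℝ) * z.1 ^ 3 - p * z.2 ^ 3 := by nlinarith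
    set x : ℝ := (z.1 : ℝ) with hx
    set y : ℝ := (z.2 : ℝ) with hy
    have hfac : p * ((ρ * x - y) * (ρ ^ 2 * x ^ 2 + ρ * x * y + y ^ 2)) = p' * x ^ 3 - p * y ^ 3 := by
      rw [← hρ3]; ring
    have hS : 2 * (M : ℝ) ^ 2 ≤ ρ ^ 2 * x ^ 2 + ρ * x * y + y ^ 2 := by
      have s1 : (3 / 4) * (M : ℝ) ≤ ρ * x := mul_le_mul hρ34 m1.le hM0.le hρ.le
      have s2 : ((3 / 4) * (M : ℝ)) ^ 2 ≤ (ρ * x) ^ 2 := pow_le_pow_left₀ (by positivity) s1 2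
      have hx0 : 0 ≤ ρ * x := le_trans (by positivity) s1
      have s3 : ((3 / 4) * (M : ℝ)) * M ≤ (ρ * x) * y := mul_le_mul s1 m2.le hM0.le hx0
      have s4 : (M : ℝ) ^ 2 ≤ y ^ 2 := pow_le_pow_left₀ hM0.le m2.le 2
      nlinarith
    have hM2 : 0 < 2 * (M : ℝ) ^ 2 := by positivity
    have hSpos : 0 < ρ ^ 2 * x ^ 2 + ρ * x * y + y ^ 2 := lt_of_lt_of_le hM2 hS
    have habs : |ρ * x - y| * (2 * (M : ℝ) ^ 2) ≤ 2 * K := by
      have t1 : |(ρ * x - y) * (ρ ^ 2 * x ^ 2 + ρ * x * y + y ^ 2)| ≤ 2 * K := by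
        have t2 : |(p : ℝ) * ((ρ * x - y) * (ρ ^ 2 * x ^ 2 + ρ * x * y + y ^ 2))| ≤ 2 * p * K := by
          rw [hfac]; exact abs_le.mpr ⟨hlo, hup⟩
        rw [abs_mul, abs_of_pos hp0] at t2
        have t3 : (p : ℝ) * |(ρ * x - y) * (ρ ^ 2 * x ^ 2 + ρ * x * y + y ^ 2)| ≤ p * (2 * K) := by
          linarith
        exact le_of_mul_le_mul_left t3 hp0
      rw [abs_mul, abs_of_pos hSpos] at t1
      exact (mul_le_mul_of_nonneg_left hS (abs_nonneg _)).trans t1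
    rw [abs_sub_comm, le_div_iff₀ (by positivity)]
    linarith
  exact_mod_cast Finset.card_le_card hsub

theorem mul (K M M' P : ℕ) (PP : Finset ℕ) (hM : 1 ≤ M) (hM' : M' ≤ 2 * M + 1) (hK : 1 ≤ K)
    (hKM : K ≤ 8 * M ^ 3) (hP : 1 ≤ P) (hPP : ∀ p ∈ PP, p.Prime ∧ P < p ∧ p ≤ 2 * P)
    (hbig : 1600 * (P : ℝ) * (M : ℝ) ^ 3 ≤ (K : ℝ) ^ 2) (hMP : (M : ℝ) ^ 2 ≤ P * K)
    (E : ℤ → ℕ → Finset ℤ) (e : ℝ) (he0 : 0 ≤ e)
    (hE : ∀ m ∈ Ioc (M : ℤ) M', ∀ p ∈ PP, ∀ b ∈ E m p, m ^ 3 < p * b ∧ p * b ≤ m ^ 3 + K)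
    (he : ∀ m ∈ Ioc (M : ℤ) M', ∀ p ∈ PP, ((E m p).card : ℝ) ≤ e) (B : Finset ℤ) :
    ∑ b ∈ B, (∑ m ∈ Ioc (M : ℤ) M', ∑ p ∈ PP, if b ∈ E m p then (1 : ℝ) else 0) ^ 2 ≤
      1000 * e * ((P : ℝ) ^ 2 * K / M) := by
  classical
  have hM0 : (0 : ℝ) < M := by exact_mod_cast hM
  have hK0 : (0 : ℝ) < K := by exact_mod_cast hK
  have hP1 : (1 : ℝ) ≤ P := by exact_mod_cast hP
  set I := Ioc (M : ℤ) M' with hI
  have step1 : ∀ b, (∑ m ∈ I, ∑ p ∈ PP, if b ∈ E m p then (1 : ℝ) else 0) ^ 2 =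
      ∑ p ∈ PP, ∑ p' ∈ PP, ∑ z ∈ I ×ˢ I,
        (if b ∈ E z.1 p then (1 : ℝ) else 0) * (if b ∈ E z.2 p' then (1 : ℝ) else 0) := by
    intro b
    rw [Finset.sum_comm, sq, Finset.sum_mul_sum]
    refine Finset.sum_congr rfl fun p _ => Finset.sum_congr rfl fun p' _ => ?_
    rw [Finset.sum_mul_sum, Finset.sum_product]
  have step2 : ∑ b ∈ B, (∑ m ∈ I, ∑ p ∈ PP, if b ∈ E m p then (1 : ℝ) else 0) ^ 2 =
      ∑ p ∈ PP, ∑ p' ∈ PP, ∑ z ∈ I ×ˢ I, ∑ b ∈ B,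
        (if b ∈ E z.1 p then (1 : ℝ) else 0) * (if b ∈ E z.2 p' then (1 : ℝ) else 0) := by
    rw [Finset.sum_congr rfl fun b _ => step1 b, Finset.sum_comm]
    refine Finset.sum_congr rfl fun p _ => ?_
    rw [Finset.sum_comm]
    refine Finset.sum_congr rfl fun p' _ => ?_
    rw [Finset.sum_comm]
  have step3 : ∀ p ∈ PP, ∀ p' ∈ PP, ∑ z ∈ I ×ˢ I, ∑ b ∈ B,
        (if b ∈ E z.1 p then (1 : ℝ) else 0) * (if b ∈ E z.2 p' then (1 : ℝ) else 0) ≤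
      e * (578 * K / M + if p = p' then 2 * M + 4 / 3 * ((K : ℝ) / M) else 0) := by
    intro p hp p' hp'
    have h1 : ∀ z ∈ I ×ˢ I, ∑ b ∈ B,
        (if b ∈ E z.1 p then (1 : ℝ) else 0) * (if b ∈ E z.2 p' then (1 : ℝ) else 0) ≤
        if (∃ b, b ∈ E z.1 p ∧ b ∈ E z.2 p') then e else 0 := by
      intro z hz
      rw [Finset.mem_product] at hz
      by_cases hb : ∃ b, b ∈ E z.1 p ∧ b ∈ E z.2 p'
      · rw [if_pos hb]
        calc ∑ b ∈ B, (if b ∈ E z.1 p then (1 : ℝ) else 0) * (if b ∈ E z.2 p' then (1 : ℝ) else 0)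
            ≤ ∑ b ∈ B, (if b ∈ E z.1 p then (1 : ℝ) else 0) := by
              refine Finset.sum_le_sum fun b _ => ?_
              split_ifs <;> norm_num
          _ = ((B.filter (fun b => b ∈ E z.1 p)).card : ℝ) := by
              rw [Finset.sum_boole]
          _ ≤ ((E z.1 p).card : ℝ) := by
              have : B.filter (fun b => b ∈ E z.1 p) ⊆ E z.1 p := by
                intro b hb
                exact (Finset.mem_filter.mp hb).2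
              exact_mod_cast Finset.card_le_card this
          _ ≤ e := he z.1 hz.1 p hp
      · rw [if_neg hb]
        refine le_of_eq (Finset.sum_eq_zero fun b _ => ?_)
        by_cases hb1 : b ∈ E z.1 p
        · have hb2 : b ∉ E z.2 p' := fun h => hb ⟨b, hb1, h⟩
          rw [if_neg hb2, mul_zero]
        · rw [if_neg hb1, zero_mul]
    refine (Finset.sum_le_sum h1).trans ?_
    rw [← Finset.sum_filter, Finset.sum_const, nsmul_eq_mul, mul_comm]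
    refine mul_le_mul_of_nonneg_left ?_ he0
    have hR : ∀ z ∈ I ×ˢ I, (∃ b, b ∈ E z.1 p ∧ b ∈ E z.2 p') → ∃ b : ℤ,
        (z.1 ^ 3 < p * b ∧ p * b ≤ z.1 ^ 3 + K) ∧ (z.2 ^ 3 < p' * b ∧ p' * b ≤ z.2 ^ 3 + K) := by
      rintro z hz ⟨b, hb1, hb2⟩
      rw [Finset.mem_product] at hz
      exact ⟨b, hE z.1 hz.1 p hp b hb1, hE z.2 hz.2 p' hp' b hb2⟩
    by_cases hpp : p = p'
    · rw [if_pos hpp]
      have h2 := pair_diag K M M' hM hM' (fun z => ∃ b, b ∈ E z.1 p ∧ b ∈ E z.2 p') (by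
        intro z hz hz2
        obtain ⟨b, ⟨c1, c2⟩, ⟨c3, c4⟩⟩ := hR z hz hz2
        rw [← hpp] at c3 c4
        rw [abs_lt]
        constructor <;> omega)
      refine h2.trans ?_
      have : (0 : ℝ) ≤ 578 * K / M := by positivity
      linarith
    · rw [if_neg hpp, add_zero]
      obtain ⟨a1, a2, a3⟩ := hPP p hp
      obtain ⟨b1, b2, b3⟩ := hPP p' hp'
      exact pair_strip K M M' P hM hM' hK hKM hbig p p' a1 b1 hpp a2 a3 b2 b3 _ hR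
  rw [step2]
  refine (Finset.sum_le_sum fun p hp => Finset.sum_le_sum fun p' hp' => step3 p hp p' hp').trans ?_
  have hcP : (PP.card : ℝ) ≤ P := by
    have : PP ⊆ Ioc P (2 * P) := by
      intro p hp
      obtain ⟨-, h1, h2⟩ := hPP p hp
      exact Finset.mem_Ioc.mpr ⟨h1, h2⟩
    have h := Finset.card_le_card this
    rw [Nat.card_Ioc] at h
    have h' : PP.card ≤ P := by omega
    exact_mod_cast h'
  have hsum : ∑ p ∈ PP, ∑ p' ∈ PP,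
      e * (578 * K / M + if p = p' then 2 * M + 4 / 3 * ((K : ℝ) / M) else 0) =
      e * ((PP.card : ℝ) ^ 2 * (578 * K / M) + PP.card * (2 * M + 4 / 3 * ((K : ℝ) / M))) := by
    have h1 : ∀ p ∈ PP, ∑ p' ∈ PP,
        e * (578 * K / M + if p = p' then 2 * M + 4 / 3 * ((K : ℝ) / M) else 0) =
        e * ((PP.card : ℝ) * (578 * K / M) + (2 * M + 4 / 3 * ((K : ℝ) / M))) := by
      intro p hp
      rw [← Finset.mul_sum, Finset.sum_add_distrib, Finset.sum_const, nsmul_eq_mul,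
        Finset.sum_ite_eq, if_pos hp]
    rw [Finset.sum_congr rfl h1, Finset.sum_const, nsmul_eq_mul]
    ring
  rw [hsum]
  have hfin : (PP.card : ℝ) ^ 2 * (578 * K / M) + PP.card * (2 * M + 4 / 3 * ((K : ℝ) / M)) ≤
      1000 * ((P : ℝ) ^ 2 * K / M) := by
    have hKM0 : 0 ≤ (K : ℝ) / M := by positivity
    have hc0 : (0 : ℝ) ≤ PP.card := by positivity
    have hc2 : (PP.card : ℝ) ^ 2 ≤ (P : ℝ) ^ 2 := pow_le_pow_left₀ hc0 hcP 2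
    have e1 : (PP.card : ℝ) ^ 2 * (578 * K / M) ≤ (P : ℝ) ^ 2 * (578 * K / M) :=
      mul_le_mul_of_nonneg_right hc2 (by positivity)
    have e2 : PP.card * (2 * M + 4 / 3 * ((K : ℝ) / M)) ≤ P * (2 * M + 4 / 3 * ((K : ℝ) / M)) :=
      mul_le_mul_of_nonneg_right hcP (by positivity)
    have e3 : (M : ℝ) ≤ P * (K / M) := by
      rw [← mul_div_assoc, le_div_iff₀ hM0]
      nlinarith
    have e4 : (P : ℝ) * M ≤ (P : ℝ) ^ 2 * (K / M) := by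
      calc (P : ℝ) * M ≤ P * (P * (K / M)) := mul_le_mul_of_nonneg_left e3 (by positivity)
        _ = (P : ℝ) ^ 2 * (K / M) := by ring
    have e5 : (P : ℝ) * (K / M) ≤ (P : ℝ) ^ 2 * (K / M) := by
      refine mul_le_mul_of_nonneg_right ?_ hKM0
      nlinarith
    have e6 : 0 ≤ (P : ℝ) ^ 2 * (K / M) := by positivity
    have e7 : (P : ℝ) ^ 2 * (578 * K / M) = 578 * ((P : ℝ) ^ 2 * (K / M)) := by ring
    have e8 : (P : ℝ) ^ 2 * K / M = (P : ℝ) ^ 2 * (K / M) := by ring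
    rw [e8]
    rw [e7] at e1
    have e9 : P * (2 * M + 4 / 3 * ((K : ℝ) / M)) = 2 * (P * M) + 4 / 3 * (P * ((K : ℝ) / M)) := by
      ring
    rw [e9] at e2
    linarith
  calc e * ((PP.card : ℝ) ^ 2 * (578 * K / M) + PP.card * (2 * M + 4 / 3 * ((K : ℝ) / M)))
      ≤ e * (1000 * ((P : ℝ) ^ 2 * K / M)) := mul_le_mul_of_nonneg_left hfin he0
    _ = 1000 * e * ((P : ℝ) ^ 2 * K / M) := by ring

theorem mul_sum (K M M' P : ℕ) (PP : Finset ℕ) (hM : 1 ≤ M) (hM' : M' ≤ 2 * M + 1) (hK : 1 ≤ K)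
    (hKM : K ≤ 8 * M ^ 3) (hP : 1 ≤ P) (hPP : ∀ p ∈ PP, p.Prime ∧ P < p ∧ p ≤ 2 * P)
    (hbig : 1600 * (P : ℝ) * (M : ℝ) ^ 3 ≤ (K : ℝ) ^ 2) (hMP : (M : ℝ) ^ 2 ≤ P * K)
    (E : ℤ → ℕ → Finset ℤ) (e : ℝ) (he0 : 0 ≤ e)
    (hE : ∀ m ∈ Ioc (M : ℤ) M', ∀ p ∈ PP, ∀ b ∈ E m p, m ^ 3 < p * b ∧ p * b ≤ m ^ 3 + K)
    (he : ∀ m ∈ Ioc (M : ℤ) M', ∀ p ∈ PP, ((E m p).card : ℝ) ≤ e) (B : Finset ℤ)
    (hB : ∀ m ∈ Ioc (M : ℤ) M', ∀ p ∈ PP, E m p ⊆ B) (f : ℤ → ℝ) (hf : ∀ b, 0 ≤ f b) :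
    ∑ m ∈ Ioc (M : ℤ) M', ∑ p ∈ PP, ∑ b ∈ E m p, f b ≤
      Real.sqrt (∑ b ∈ B, f b ^ 2) * Real.sqrt (1000 * e * ((P : ℝ) ^ 2 * K / M)) := by
  have h1 : ∀ m ∈ Ioc (M : ℤ) M', ∀ p ∈ PP, ∑ b ∈ E m p, f b =
      ∑ b ∈ B, f b * (if b ∈ E m p then (1 : ℝ) else 0) := by
    intro m hm p hp
    rw [← Finset.sum_subset (hB m hm p hp)]
    · exact Finset.sum_congr rfl fun b hb => by rw [if_pos hb, mul_one]
    · intro b _ hb
      rw [if_neg hb, mul_zero]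
  have h2 : ∑ m ∈ Ioc (M : ℤ) M', ∑ p ∈ PP, ∑ b ∈ E m p, f b =
      ∑ b ∈ B, f b * (∑ m ∈ Ioc (M : ℤ) M', ∑ p ∈ PP, if b ∈ E m p then (1 : ℝ) else 0) := by
    calc ∑ m ∈ Ioc (M : ℤ) M', ∑ p ∈ PP, ∑ b ∈ E m p, f b
        = ∑ m ∈ Ioc (M : ℤ) M', ∑ p ∈ PP, ∑ b ∈ B, f b * (if b ∈ E m p then (1 : ℝ) else 0) :=
          Finset.sum_congr rfl fun m hm => Finset.sum_congr rfl fun p hp => h1 m hm p hp
      _ = ∑ m ∈ Ioc (M : ℤ) M', ∑ b ∈ B, ∑ p ∈ PP, f b * (if b ∈ E m p then (1 : ℝ) else 0) :=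
          Finset.sum_congr rfl fun m _ => Finset.sum_comm
      _ = ∑ b ∈ B, ∑ m ∈ Ioc (M : ℤ) M', ∑ p ∈ PP, f b * (if b ∈ E m p then (1 : ℝ) else 0) :=
          Finset.sum_comm
      _ = _ := by
          refine Finset.sum_congr rfl fun b _ => ?_
          rw [Finset.mul_sum]
          refine Finset.sum_congr rfl fun m _ => ?_
          rw [Finset.mul_sum]
  rw [h2]
  refine (Real.sum_mul_le_sqrt_mul_sqrt B f _).trans ?_
  refine mul_le_mul_of_nonneg_left ?_ (Real.sqrt_nonneg _)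
  exact Real.sqrt_le_sqrt (mul K M M' P PP hM hM' hK hKM hP hPP hbig hMP E e he0 hE he B)

end Pool.Agent.H96.EB
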