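import Pool.Agent.H96.EB.Defs

/-!
# [H96 EB RC1] Recurrence: many small values of `a λ`

PROOF. `dz x = |x - round x|` is the distance to the nearest integer: `dz x <= |x - n|` for all integers `n` (`round_le`), `dz (x+y) <= dz x + dz y`, `dz (-x) = dz x`. `J = card S`.
(1) `τ N >= 24A/τ >= 2`, so `J >= 2`. The elements of `S` lie in `[-AN, AN]`; cut this into consecutive pieces of length `4A/τ`... precisely: two different elements have difference `q` with `1 <= q <= 4A/τ`: if all gaps of consecutive elements were `> 4A/τ`, then `2AN >= (J-1) 4A/τ >= (J/2) 4A/τ >= 2AN`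
(strict: contradiction). (Or pigeonhole: map `a ↦ ⌊(a + AN)/(4A/τ)⌋`, at most `τ N/2 + 1 < J` values, as `τ N/2 + 1 <= τN <= J` needs only `τN >= 2`; use `4A/τ` and strictness as convenient.) So `dz (q λ) <= 2δ`.
(2) Let `n = round (q λ)`, `η = q λ - n`, `|η| <= 2δ <= 1/16`. If `η = 0`: done. A residue class mod `q` contains `J' >= τ N/q` elements of `S`; write them `a = a0 + q x`, the `x` distinct integers in an interval of length `2AN/q`. `a λ = a0 λ + x η + x n`, so `a0 λ + x η` is within `δ` of an integer `t`.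
All these `t` lie in an interval of length `2AN|η|/q + 2δ`, so there are at most `2AN|η|/q + 2δ + 1` of them; for each `t` the `x` lie in an interval of length `2δ/|η|`, at most `2δ/|η| + 1` of them. So
`τN/q <= (2AN|η|/q + 3/2)(2δ/|η| + 1) = 4ANδ/q + 3δ/|η| + 2AN|η|/q + 3/2 <= 8ANδ/q + 3δ/|η| + 3/2` (`|η| <= 2δ`). `8ANδ/q <= τN/(4q)` (`δ <= τ/(32A)`), `3/2 <= τN/(4q)` (`N >= 24A/τ^2 >= 6q/τ`). So `3δ/|η| >= τN/(2q)`, `|η| <= 6qδ/(τN) <= 24Aδ/(τ^2 N)`.
-/

namespace Pool.Agent.H96.EB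

theorem dz_nonneg (x : ℝ) : 0 ≤ dz x := abs_nonneg _

theorem dz_le (x : ℝ) (n : ℤ) : dz x ≤ |x - n| := round_le x n

theorem dz_half (x : ℝ) : dz x ≤ 1 / 2 := abs_sub_round x

theorem dz_add (x y : ℝ) : dz (x + y) ≤ dz x + dz y := by
  refine (dz_le (x + y) (round x + round y)).trans ?_
  have e : x + y - ((round x + round y : ℤ) : ℝ) = (x - round x) + (y - round y) := by
    push_cast
    ring
  rw [e]
  exact abs_add_le _ _

theorem dz_neg_le (x : ℝ) : dz (-x) ≤ dz x := by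
  refine (dz_le (-x) (-round x)).trans ?_
  have e : -x - ((-round x : ℤ) : ℝ) = -(x - round x) := by
    push_cast
    ring
  rw [e, abs_neg]
  exact le_refl _

theorem dz_neg (x : ℝ) : dz (-x) = dz x := by
  refine le_antisymm (dz_neg_le x) ?_
  have := dz_neg_le (-x)
  rwa [neg_neg] at this

theorem dz_mul (n : ℤ) (x : ℝ) : dz (n * x) ≤ |(n : ℝ)| * dz x := by
  refine (dz_le (n * x) (n * round x)).trans ?_
  have e : (n : ℝ) * x - ((n * round x : ℤ) : ℝ) = n * (x - round x) := by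
    push_cast
    ring
  rw [e, abs_mul]
  exact le_refl _

theorem rc_int (T : Finset ℤ) (L : ℝ) (hL : 0 ≤ L) (h : ∀ u ∈ T, ∀ v ∈ T, (u : ℝ) - v ≤ L) :
    (T.card : ℝ) ≤ L + 1 := by
  rcases T.eq_empty_or_nonempty with rfl | hT
  · simp
    linarith
  · have h1 := h _ (T.max'_mem hT) _ (T.min'_mem hT)
    have hsub : T ⊆ Finset.Icc (T.min' hT) (T.max' hT) := fun x hx =>
      Finset.mem_Icc.mpr ⟨T.min'_le x hx, T.le_max' x hx⟩
    have hc := Finset.card_le_card hsub
    rw [Int.card_Icc] at hc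
    have hle : T.min' hT ≤ T.max' hT := T.min'_le _ (T.max'_mem hT)
    have h2 : ((T.max' hT + 1 - T.min' hT).toNat : ℤ) = T.max' hT + 1 - T.min' hT := by omega
    have h3 : ((T.max' hT + 1 - T.min' hT).toNat : ℝ) = T.max' hT + 1 - T.min' hT := by
      exact_mod_cast h2
    have h4 : (T.card : ℝ) ≤ ((T.max' hT + 1 - T.min' hT).toNat : ℝ) := by exact_mod_cast hc
    linarith

theorem rc_cls (q : ℕ) (hq : 1 ≤ q) (lam δ η : ℝ) (n : ℤ) (hη : q * lam = n + η) (hη0 : η ≠ 0)
    (W : ℝ) (hW : 0 ≤ W) (hδ : 0 ≤ δ) (S : Finset ℤ) (hS : ∀ a ∈ S, ∀ b ∈ S, |(a : ℝ) - b| ≤ W)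
    (hd : ∀ a ∈ S, ∀ b ∈ S, (q : ℤ) ∣ a - b) (h : ∀ a ∈ S, dz (a * lam) ≤ δ) :
    (S.card : ℝ) ≤ (2 * δ / |η| + 1) * (W / q * |η| + 2 * δ + 1) := by
  classical
  have hη1 : 0 < |η| := abs_pos.mpr hη0
  have hq0 : (0 : ℝ) < q := by exact_mod_cast hq
  have hqz : (q : ℤ) ≠ 0 := by
    have : q ≠ 0 := by omega
    exact_mod_cast this
  rcases S.eq_empty_or_nonempty with rfl | ⟨a0, ha0⟩
  · simp
    positivity
  set X : ℤ → ℤ := fun a => (a - a0) / q with hX
  have hXe : ∀ a ∈ S, (q : ℤ) * X a = a - a0 := fun a ha =>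
    Int.mul_ediv_cancel' (hd a ha a0 ha0)
  have hXr : ∀ a ∈ S, (q : ℝ) * (X a : ℝ) = a - a0 := by
    intro a ha
    exact_mod_cast hXe a ha
  set t : ℤ → ℤ := fun a => round ((a : ℝ) * lam) - X a * n with ht
  have ht1 : ∀ a ∈ S, |(a0 : ℝ) * lam + X a * η - t a| ≤ δ := by
    intro a ha
    have h1 := h a ha
    unfold dz at h1
    have e : (a0 : ℝ) * lam + X a * η - t a = a * lam - round ((a : ℝ) * lam) := by
      have e1 : (a : ℝ) = a0 + q * X a := by
        rw [hXr a ha]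
        ring
      rw [ht]
      push_cast
      have e2 : (a : ℝ) * lam = a0 * lam + X a * (q * lam) := by
        rw [e1]
        ring
      have e3 : (a : ℝ) * lam = a0 * lam + X a * (n + η) := by rw [e2, hη]
      linarith
    rw [e]
    exact h1
  have hXd : ∀ a ∈ S, ∀ b ∈ S, |(X a : ℝ) - X b| ≤ W / q := by
    intro a ha b hb
    rw [le_div_iff₀ hq0]
    have e : |(X a : ℝ) - X b| * q = |(a : ℝ) - b| := by
      have e0 : |(X a : ℝ) - X b| * q = |((X a : ℝ) - X b) * q| := by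
        rw [abs_mul, abs_of_pos hq0]
      rw [e0]
      congr 1
      have e1 := hXr a ha
      have e2 := hXr b hb
      linarith
    rw [e]
    exact hS a ha b hb
  have himg : ((S.image t).card : ℝ) ≤ W / q * |η| + 2 * δ + 1 := by
    apply rc_int
    · positivity
    · intro u hu v hv
      obtain ⟨a, ha, rfl⟩ := Finset.mem_image.mp hu
      obtain ⟨b, hb, rfl⟩ := Finset.mem_image.mp hv
      have h1 := abs_le.mp (ht1 a ha)
      have h2 := abs_le.mp (ht1 b hb)
      have h3 : |((X a : ℝ) - X b) * η| ≤ W / q * |η| := by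
        rw [abs_mul]
        exact mul_le_mul_of_nonneg_right (hXd a ha b hb) hη1.le
      have h4 := abs_le.mp h3
      have e : ((X a : ℝ) - X b) * η = X a * η - X b * η := by ring
      rw [e] at h4
      linarith [h1.1, h1.2, h2.1, h2.2, h4.1, h4.2]
  have hfib : ∀ b ∈ S.image t, ({a ∈ S | t a = b} : Finset ℤ).card ≤ ⌊2 * δ / |η| + 1⌋₊ := by
    intro b hb
    apply Nat.le_floor
    have hinj : Set.InjOn X (({a ∈ S | t a = b} : Finset ℤ) : Set ℤ) := by
      intro a ha c hc hac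
      have ha' := (Finset.mem_filter.mp ha).1
      have hc' := (Finset.mem_filter.mp hc).1
      have e1 := hXe a ha'
      have e2 := hXe c hc'
      rw [hac] at e1
      omega
    rw [← Finset.card_image_of_injOn hinj]
    apply rc_int
    · positivity
    · intro u hu v hv
      obtain ⟨a, ha, rfl⟩ := Finset.mem_image.mp hu
      obtain ⟨c, hc, rfl⟩ := Finset.mem_image.mp hv
      obtain ⟨ha1, ha2⟩ := Finset.mem_filter.mp ha
      obtain ⟨hc1, hc2⟩ := Finset.mem_filter.mp hc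
      have h1 := abs_le.mp (ht1 a ha1)
      have h2 := abs_le.mp (ht1 c hc1)
      rw [ha2] at h1
      rw [hc2] at h2
      have h3 : |((X a : ℝ) - X c) * η| ≤ 2 * δ := by
        rw [abs_le]
        have e : ((X a : ℝ) - X c) * η = X a * η - X c * η := by ring
        rw [e]
        constructor <;> linarith [h1.1, h1.2, h2.1, h2.2]
      rw [abs_mul] at h3
      have h4 : |(X a : ℝ) - X c| ≤ 2 * δ / |η| := by
        rw [le_div_iff₀ hη1]
        exact h3
      exact (le_abs_self _).trans h4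
  have hmain := Finset.card_le_mul_card_image S _ hfib
  have hmain2 : (S.card : ℝ) ≤ (⌊2 * δ / |η| + 1⌋₊ : ℝ) * ((S.image t).card : ℝ) := by
    exact_mod_cast hmain
  have hfl : (⌊2 * δ / |η| + 1⌋₊ : ℝ) ≤ 2 * δ / |η| + 1 := Nat.floor_le (by positivity)
  calc (S.card : ℝ) ≤ (⌊2 * δ / |η| + 1⌋₊ : ℝ) * ((S.image t).card : ℝ) := hmain2
    _ ≤ (2 * δ / |η| + 1) * (W / q * |η| + 2 * δ + 1) := by
        apply mul_le_mul hfl himg (Nat.cast_nonneg _) (by positivity)

theorem rc1_step (A τ N δ lam : ℝ) (hA : 1 ≤ A) (hτ : 0 < τ) (hN2 : 2 < τ * N)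
    (S : Finset ℤ) (hS : ∀ a ∈ S, |(a : ℝ)| ≤ A * N)
    (hcard : τ * N ≤ S.card) (h : ∀ a ∈ S, dz (a * lam) ≤ δ) :
    ∃ q : ℕ, 1 ≤ q ∧ (q : ℝ) ≤ 4 * A / τ ∧ dz (q * lam) ≤ 2 * δ := by
  classical
  have hd : 0 < 4 * A / τ := by positivity
  set f : ℤ → ℤ := fun a => ⌊((a : ℝ) + A * N) / (4 * A / τ)⌋ with hf
  have hmap : ∀ a ∈ S, f a ∈ Finset.Icc (0 : ℤ) ⌊τ * N / 2⌋ := by
    intro a ha
    have h1 := abs_le.mp (hS a ha)
    rw [Finset.mem_Icc]
    constructor
    · apply Int.floor_nonneg.mpr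
      apply div_nonneg _ hd.le
      linarith [h1.1]
    · apply Int.floor_le_floor
      rw [div_le_iff₀ hd]
      have : τ * N / 2 * (4 * A / τ) = 2 * (A * N) := by
        field_simp
        ring
      rw [this]
      linarith [h1.2]
  have hc : (Finset.Icc (0 : ℤ) ⌊τ * N / 2⌋).card < S.card := by
    have h0 : (0 : ℤ) ≤ ⌊τ * N / 2⌋ := Int.floor_nonneg.mpr (by linarith)
    rw [Int.card_Icc]
    have e : ((⌊τ * N / 2⌋ + 1 - 0).toNat : ℤ) = ⌊τ * N / 2⌋ + 1 := by omega
    have e2 : ((⌊τ * N / 2⌋ + 1 - 0).toNat : ℝ) = ⌊τ * N / 2⌋ + 1 := by exact_mod_cast e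
    have h2 : (⌊τ * N / 2⌋ : ℝ) ≤ τ * N / 2 := Int.floor_le _
    have : ((⌊τ * N / 2⌋ + 1 - 0).toNat : ℝ) < S.card := by
      rw [e2]
      linarith
    exact_mod_cast this
  obtain ⟨a, ha, b, hb, hab, hfab⟩ := Finset.exists_ne_map_eq_of_card_lt_of_maps_to hc hmap
  have key : ∀ a b : ℤ, a ∈ S → b ∈ S → b < a → f a = f b →
      ∃ q : ℕ, 1 ≤ q ∧ (q : ℝ) ≤ 4 * A / τ ∧ dz (q * lam) ≤ 2 * δ := by
    intro a b ha hb hlt he
    refine ⟨(a - b).toNat, by omega, ?_, ?_⟩
    · have e : ((a - b).toNat : ℤ) = a - b := by omega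
      have e2 : ((a - b).toNat : ℝ) = a - b := by exact_mod_cast e
      rw [e2]
      have h1 := Int.abs_sub_lt_one_of_floor_eq_floor he
      have h2 := (abs_lt.mp h1).2
      have e3 : ((a : ℝ) + A * N) / (4 * A / τ) - ((b : ℝ) + A * N) / (4 * A / τ) =
          ((a : ℝ) - b) / (4 * A / τ) := by ring
      rw [e3, div_lt_iff₀ hd] at h2
      linarith
    · have e : ((a - b).toNat : ℤ) = a - b := by omega
      have e2 : ((a - b).toNat : ℝ) = a - b := by exact_mod_cast e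
      rw [e2]
      have e3 : ((a : ℝ) - b) * lam = a * lam + -(b * lam) := by ring
      rw [e3]
      refine (dz_add _ _).trans ?_
      rw [dz_neg]
      have := h a ha
      have := h b hb
      linarith
  rcases lt_or_gt_of_ne hab with hlt | hlt
  · exact key b a hb ha hlt hfab.symm
  · exact key a b ha hb hlt hfab

theorem rc1 (A τ N δ lam : ℝ) (hA : 1 ≤ A) (hτ : 0 < τ) (hτ1 : τ ≤ 1) (hN : 24 * A / τ ^ 2 ≤ N)
    (hδ : 0 ≤ δ) (hδ1 : δ ≤ τ / (32 * A)) (S : Finset ℤ) (hS : ∀ a ∈ S, |(a : ℝ)| ≤ A * N)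
    (hcard : τ * N ≤ S.card) (h : ∀ a ∈ S, dz (a * lam) ≤ δ) :
    ∃ q : ℕ, 1 ≤ q ∧ (q : ℝ) ≤ 4 * A / τ ∧ dz (q * lam) ≤ 24 * A * δ / (τ ^ 2 * N) := by
  classical
  have hA0 : 0 < A := by linarith
  have hN0 : 0 < N := lt_of_lt_of_le (by positivity) hN
  have hτN : 24 * A / τ ≤ τ * N := by
    rw [div_le_iff₀ (by positivity)] at hN
    rw [div_le_iff₀ hτ]
    nlinarith
  have hτN2 : 24 ≤ τ * N := by
    refine le_trans ?_ hτN
    rw [le_div_iff₀ hτ]
    nlinarith
  obtain ⟨q, hq1, hq2, hq3⟩ := rc1_step A τ N δ lam hA hτ (by linarith) S hS hcard h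
  refine ⟨q, hq1, hq2, ?_⟩
  have hq0 : (0 : ℝ) < q := by exact_mod_cast hq1
  set η : ℝ := q * lam - round ((q : ℝ) * lam) with hη
  have hdz : dz (q * lam) = |η| := rfl
  rw [hdz] at hq3 ⊢
  by_cases hη0 : η = 0
  · rw [hη0, abs_zero]
    positivity
  have hB : 0 < |η| := abs_pos.mpr hη0
  have hδ32 : δ ≤ 1 / 32 := by
    refine hδ1.trans ?_
    rw [div_le_div_iff₀ (by positivity) (by norm_num)]
    nlinarith
  have hcls : ∀ r ∈ Finset.range q, ((S.filter (fun a => a % (q : ℤ) = (r : ℤ))).card : ℝ) ≤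
      (2 * δ / |η| + 1) * (2 * (A * N) / q * |η| + 2 * δ + 1) := by
    intro r _
    apply rc_cls q hq1 lam δ η (round ((q : ℝ) * lam)) (by rw [hη]; ring) hη0 (2 * (A * N))
      (by positivity) hδ
    · intro a ha b hb
      have h1 := hS a (Finset.mem_filter.mp ha).1
      have h2 := hS b (Finset.mem_filter.mp hb).1
      refine (abs_sub _ _).trans ?_
      linarith
    · intro a ha b hb
      have h1 := (Finset.mem_filter.mp ha).2
      have h2 := (Finset.mem_filter.mp hb).2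
      exact Int.ModEq.dvd (h2.trans h1.symm)
    · intro a ha
      exact h a (Finset.mem_filter.mp ha).1
  have hsum : (S.card : ℝ) ≤ q * ((2 * δ / |η| + 1) * (2 * (A * N) / q * |η| + 2 * δ + 1)) := by
    have hmaps : ∀ a ∈ S, (a % (q : ℤ)).toNat ∈ Finset.range q := by
      intro a _
      have hqz : (0 : ℤ) < q := by exact_mod_cast hq1
      have h1 := Int.emod_nonneg a hqz.ne'
      have h2 := Int.emod_lt_of_pos a hqz
      rw [Finset.mem_range]
      omega
    have e := Finset.card_eq_sum_card_fiberwise hmaps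
    have e2 : (S.card : ℝ) = ∑ r ∈ Finset.range q,
        ((S.filter (fun a => (a % (q : ℤ)).toNat = r)).card : ℝ) := by
      exact_mod_cast e
    rw [e2]
    calc ∑ r ∈ Finset.range q, ((S.filter (fun a => (a % (q : ℤ)).toNat = r)).card : ℝ)
        ≤ ∑ r ∈ Finset.range q, ((2 * δ / |η| + 1) * (2 * (A * N) / q * |η| + 2 * δ + 1)) := by
          apply Finset.sum_le_sum
          intro r hr
          refine le_trans ?_ (hcls r hr)
          have : S.filter (fun a => (a % (q : ℤ)).toNat = r) =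
              S.filter (fun a => a % (q : ℤ) = (r : ℤ)) := by
            apply Finset.filter_congr
            intro a _
            have hqz : (0 : ℤ) < q := by exact_mod_cast hq1
            have h1 := Int.emod_nonneg a hqz.ne'
            omega
          rw [this]
      _ = q * ((2 * δ / |η| + 1) * (2 * (A * N) / q * |η| + 2 * δ + 1)) := by
          rw [Finset.sum_const, Finset.card_range, nsmul_eq_mul]
  set B : ℝ := |η| with hBdef
  -- the final inequality
  have e3 : q * ((2 * δ / B + 1) * (2 * (A * N) / q * B + 2 * δ + 1)) =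
      4 * (A * N) * δ + 2 * (A * N) * B + q * (2 * δ + 1) * (2 * δ / B) + q * (2 * δ + 1) := by
    field_simp
    ring
  rw [e3] at hsum
  have f1 : 2 * (A * N) * B ≤ 4 * (A * N) * δ := by
    have : 0 ≤ A * N := by positivity
    nlinarith
  have f2 : 8 * (A * N) * δ ≤ τ * N / 4 := by
    have h1 : 32 * A * δ ≤ τ := by
      rw [le_div_iff₀ (by positivity)] at hδ1
      linarith
    nlinarith
  have f3 : (q : ℝ) * (2 * δ + 1) ≤ q * (3 / 2) := by
    apply mul_le_mul_of_nonneg_left _ hq0.le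
    linarith
  have f4 : (q : ℝ) * (3 / 2) ≤ τ * N / 4 := by
    have : 6 * (q : ℝ) ≤ 24 * A / τ := by
      have : 24 * A / τ = 6 * (4 * A / τ) := by ring
      rw [this]
      linarith
    linarith
  have f5 : (q : ℝ) * (2 * δ + 1) * (2 * δ / B) ≤ q * (3 / 2) * (2 * δ / B) := by
    apply mul_le_mul_of_nonneg_right f3
    positivity
  have f6 : τ * N / 2 ≤ 3 * q * δ / B := by
    have : (q : ℝ) * (3 / 2) * (2 * δ / B) = 3 * q * δ / B := by ring
    linarith
  rw [le_div_iff₀ hB] at f6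
  rw [le_div_iff₀ (by positivity)]
  have f7 : (q : ℝ) * τ ≤ 4 * A := by
    rwa [le_div_iff₀ hτ] at hq2
  calc B * (τ ^ 2 * N) = 2 * τ * (τ * N / 2 * B) := by ring
    _ ≤ 2 * τ * (3 * q * δ) := mul_le_mul_of_nonneg_left f6 (by positivity)
    _ = 6 * δ * (q * τ) := by ring
    _ ≤ 6 * δ * (4 * A) := mul_le_mul_of_nonneg_left f7 (by positivity)
    _ = 24 * A * δ := by ring

end Pool.Agent.H96.EB
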