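import Pool.Agent.H96.EB.Rc1

/-!
# [H96 EB RC2] Recurrence in two variables

PROOF. At most `2 A N2 + 1 <= 3 A N2` values of `a.2`; so one of them has a fibre with at least `τ N1/(3A)` values of `a.1`. Fix one of these, `a0`; the differences `a.1 - a0` form a set of at least `τ N1/(3A)` integers of absolute value `<= 2A N1` with `dz ((a.1 - a0) λ1) <= 2δ` (`dz_add`, `dz_neg`).
`rc1` with `(2A, τ/(3A), N1, 2δ)`: `24 * 2A * 9A^2/τ^2 = 432 A^3/τ^2 <= N1`; `2δ <= τ/(3A * 64A)` since `δ <= τ/(384 A^2)`. It gives `q1 <= 8A * 3A/τ = 24A^2/τ`, `dz (q1 λ1) <= 48A * 2δ * 9A^2/(τ^2 N1) = 864 A^3 δ/(τ^2 N1)`.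
The same for `λ2`: `q2`. `q = q1 q2 <= 576 A^4/τ^2`, `dz (q λ1) <= q2 dz(q1 λ1) <= 20736 A^5 δ/(τ^3 N1)` (`dz_mul`), the same for `λ2`.
-/

namespace Pool.Agent.H96.EB

private theorem rc2_one (A τ N1 N2 δ lam1 lam2 : ℝ) (hA : 1 ≤ A) (hτ : 0 < τ) (hτ1 : τ ≤ 1)
    (hN1 : 432 * A ^ 3 / τ ^ 2 ≤ N1) (hN2 : 432 * A ^ 3 / τ ^ 2 ≤ N2) (hδ : 0 ≤ δ)
    (hδ1 : δ ≤ τ / (384 * A ^ 2)) (S : Finset (ℤ × ℤ)) (hS1 : ∀ a ∈ S, |(a.1 : ℝ)| ≤ A * N1)
    (hS2 : ∀ a ∈ S, |(a.2 : ℝ)| ≤ A * N2) (hcard : τ * (N1 * N2) ≤ S.card)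
    (h : ∀ a ∈ S, dz (a.1 * lam1 + a.2 * lam2) ≤ δ) :
    ∃ q : ℕ, 1 ≤ q ∧ (q : ℝ) ≤ 24 * A ^ 2 / τ ∧
      dz (q * lam1) ≤ 864 * A ^ 3 * δ / (τ ^ 2 * N1) := by
  have hA0 : 0 < A := by linarith
  have hbase : (1 : ℝ) ≤ 432 * A ^ 3 / τ ^ 2 := by
    rw [le_div_iff₀ (by positivity)]
    have h1 : τ ^ 2 ≤ 1 := pow_le_one₀ hτ.le hτ1
    have h2 : (1 : ℝ) ≤ A ^ 3 := one_le_pow₀ hA
    linarith
  have hN1' : 1 ≤ N1 := hbase.trans hN1
  have hN2' : 1 ≤ N2 := hbase.trans hN2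
  have hN10 : 0 < N1 := by linarith
  have hN20 : 0 < N2 := by linarith
  have hcpos : (0 : ℝ) < S.card := lt_of_lt_of_le (by positivity) hcard
  have hSne : S.Nonempty := by
    rw [← Finset.card_pos]
    exact_mod_cast hcpos
  set T : Finset ℤ := Finset.Icc (-⌊A * N2⌋) ⌊A * N2⌋ with hT
  have hmap : ∀ a ∈ S, a.2 ∈ T := by
    intro a ha
    have h1 := abs_le.1 (hS2 a ha)
    rw [hT, Finset.mem_Icc]
    refine ⟨?_, Int.le_floor.2 h1.2⟩
    rw [neg_le]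
    apply Int.le_floor.2
    push_cast
    linarith [h1.1]
  have hTne : T.Nonempty := by
    obtain ⟨a, ha⟩ := hSne
    exact ⟨a.2, hmap a ha⟩
  have hfl : (0 : ℤ) ≤ ⌊A * N2⌋ := Int.floor_nonneg.2 (by positivity)
  have hTc : (T.card : ℝ) ≤ 3 * A * N2 := by
    have h1 : (T.card : ℤ) = 2 * ⌊A * N2⌋ + 1 := by
      rw [hT, Int.card_Icc, Int.toNat_of_nonneg (by linarith)]
      ring
    have h2 : (T.card : ℝ) = 2 * (⌊A * N2⌋ : ℝ) + 1 := by exact_mod_cast h1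
    have h3 : (⌊A * N2⌋ : ℝ) ≤ A * N2 := Int.floor_le _
    have h4 : 1 ≤ A * N2 := by nlinarith
    rw [h2]
    linarith
  have hb : T.card • (τ * N1 / (3 * A)) ≤ (S.card : ℝ) := by
    rw [nsmul_eq_mul]
    have h1 : (T.card : ℝ) * (τ * N1 / (3 * A)) ≤ 3 * A * N2 * (τ * N1 / (3 * A)) :=
      mul_le_mul_of_nonneg_right hTc (by positivity)
    have h2 : 3 * A * N2 * (τ * N1 / (3 * A)) = τ * (N1 * N2) := by
      field_simp
    linarith
  obtain ⟨b, hbT, hbF⟩ := Finset.exists_le_card_fiber_of_nsmul_le_card_of_maps_to hmap hTne hb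
  set F := S.filter (fun a => a.2 = b) with hF
  have hFpos : (0 : ℝ) < F.card := lt_of_lt_of_le (by positivity) hbF
  have hFne : F.Nonempty := by
    rw [← Finset.card_pos]
    exact_mod_cast hFpos
  obtain ⟨a0, ha0⟩ := hFne
  have ha0' := Finset.mem_filter.1 ha0
  set D := F.image (fun a => a.1 - a0.1) with hD
  have hDc : D.card = F.card := by
    rw [hD]
    apply Finset.card_image_of_injOn
    intro x hx y hy hxy
    have hx' := Finset.mem_filter.1 (Finset.mem_coe.1 hx)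
    have hy' := Finset.mem_filter.1 (Finset.mem_coe.1 hy)
    have h1 : x.1 - a0.1 = y.1 - a0.1 := hxy
    exact Prod.ext (by linarith) (by rw [hx'.2, hy'.2])
  have hq := rc1 (2 * A) (τ / (3 * A)) N1 (2 * δ) lam1 (by linarith) (by positivity)
    (by
      rw [div_le_one (by positivity)]
      linarith)
    (by
      have h1 : 24 * (2 * A) / (τ / (3 * A)) ^ 2 = 432 * A ^ 3 / τ ^ 2 := by
        field_simp
        ring
      rw [h1]
      exact hN1)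
    (by linarith)
    (by
      have h1 : τ / (3 * A) / (32 * (2 * A)) = 2 * (τ / (384 * A ^ 2)) := by
        field_simp
        ring
      rw [h1]
      linarith)
    D
    (by
      intro d hd
      obtain ⟨a, ha, rfl⟩ := Finset.mem_image.1 hd
      have h1 := hS1 a (Finset.mem_filter.1 ha).1
      have h2 := hS1 a0 ha0'.1
      push_cast
      have h3 := abs_sub (a.1 : ℝ) (a0.1 : ℝ)
      linarith)
    (by
      rw [hDc]
      have h1 : τ / (3 * A) * N1 = τ * N1 / (3 * A) := by ring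
      rw [h1]
      exact hbF)
    (by
      intro d hd
      obtain ⟨a, ha, rfl⟩ := Finset.mem_image.1 hd
      have ha' := Finset.mem_filter.1 ha
      have h1 := h a ha'.1
      have h2 := h a0 ha0'.1
      rw [ha'.2] at h1
      rw [ha0'.2] at h2
      have h3 := dz_add ((a.1 : ℝ) * lam1 + b * lam2) (-((a0.1 : ℝ) * lam1 + b * lam2))
      rw [dz_neg] at h3
      have h4 : (a.1 : ℝ) * lam1 + b * lam2 + -((a0.1 : ℝ) * lam1 + b * lam2) =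
          ((a.1 - a0.1 : ℤ) : ℝ) * lam1 := by
        push_cast
        ring
      rw [h4] at h3
      linarith)
  obtain ⟨q, hq1, hq2, hq3⟩ := hq
  refine ⟨q, hq1, ?_, ?_⟩
  · have h1 : 4 * (2 * A) / (τ / (3 * A)) = 24 * A ^ 2 / τ := by
      field_simp
      ring
    rw [← h1]
    exact hq2
  · have h1 : 24 * (2 * A) * (2 * δ) / ((τ / (3 * A)) ^ 2 * N1) =
        864 * A ^ 3 * δ / (τ ^ 2 * N1) := by
      field_simp
      ring
    rw [← h1]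
    exact hq3

theorem rc2 (A τ N1 N2 δ lam1 lam2 : ℝ) (hA : 1 ≤ A) (hτ : 0 < τ) (hτ1 : τ ≤ 1)
    (hN1 : 432 * A ^ 3 / τ ^ 2 ≤ N1) (hN2 : 432 * A ^ 3 / τ ^ 2 ≤ N2) (hδ : 0 ≤ δ)
    (hδ1 : δ ≤ τ / (384 * A ^ 2)) (S : Finset (ℤ × ℤ)) (hS1 : ∀ a ∈ S, |(a.1 : ℝ)| ≤ A * N1)
    (hS2 : ∀ a ∈ S, |(a.2 : ℝ)| ≤ A * N2) (hcard : τ * (N1 * N2) ≤ S.card)
    (h : ∀ a ∈ S, dz (a.1 * lam1 + a.2 * lam2) ≤ δ) :
    ∃ q : ℕ, 1 ≤ q ∧ (q : ℝ) ≤ 576 * A ^ 4 / τ ^ 2 ∧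
      dz (q * lam1) ≤ 20736 * A ^ 5 * δ / (τ ^ 3 * N1) ∧
      dz (q * lam2) ≤ 20736 * A ^ 5 * δ / (τ ^ 3 * N2) := by
  have hA0 : 0 < A := by linarith
  have hbase : (0 : ℝ) < 432 * A ^ 3 / τ ^ 2 := by positivity
  have hN10 : 0 < N1 := lt_of_lt_of_le hbase hN1
  have hN20 : 0 < N2 := lt_of_lt_of_le hbase hN2
  obtain ⟨q1, a1, b1, c1⟩ :=
    rc2_one A τ N1 N2 δ lam1 lam2 hA hτ hτ1 hN1 hN2 hδ hδ1 S hS1 hS2 hcard h
  have hinj : Function.Injective (Prod.swap : ℤ × ℤ → ℤ × ℤ) := Prod.swap_injective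
  obtain ⟨q2, a2, b2, c2⟩ :=
    rc2_one A τ N2 N1 δ lam2 lam1 hA hτ hτ1 hN2 hN1 hδ hδ1 (S.image Prod.swap)
      (by
        intro a ha
        obtain ⟨s, hs, rfl⟩ := Finset.mem_image.1 ha
        exact hS2 s hs)
      (by
        intro a ha
        obtain ⟨s, hs, rfl⟩ := Finset.mem_image.1 ha
        exact hS1 s hs)
      (by
        rw [Finset.card_image_of_injective _ hinj, mul_comm N2 N1]
        exact hcard)
      (by
        intro a ha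
        obtain ⟨s, hs, rfl⟩ := Finset.mem_image.1 ha
        have h1 := h s hs
        rw [add_comm]
        exact h1)
  refine ⟨q1 * q2, Nat.one_le_iff_ne_zero.2 (Nat.mul_ne_zero (by omega) (by omega)), ?_, ?_, ?_⟩
  · push_cast
    have h1 : (q1 : ℝ) * q2 ≤ 24 * A ^ 2 / τ * (24 * A ^ 2 / τ) :=
      mul_le_mul b1 b2 (Nat.cast_nonneg _) (by positivity)
    have h2 : 24 * A ^ 2 / τ * (24 * A ^ 2 / τ) = 576 * A ^ 4 / τ ^ 2 := by
      field_simp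
      ring
    linarith
  · have h1 := dz_mul (q2 : ℤ) ((q1 : ℝ) * lam1)
    have h2 : ((q1 * q2 : ℕ) : ℝ) * lam1 = ((q2 : ℤ) : ℝ) * ((q1 : ℝ) * lam1) := by
      push_cast
      ring
    rw [h2]
    have h3 : |((q2 : ℤ) : ℝ)| = (q2 : ℝ) := by
      rw [Int.cast_natCast]
      exact abs_of_nonneg (Nat.cast_nonneg _)
    rw [h3] at h1
    have h4 : (q2 : ℝ) * dz ((q1 : ℝ) * lam1) ≤
        24 * A ^ 2 / τ * (864 * A ^ 3 * δ / (τ ^ 2 * N1)) :=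
      mul_le_mul b2 c1 (dz_nonneg _) (by positivity)
    have h5 : 24 * A ^ 2 / τ * (864 * A ^ 3 * δ / (τ ^ 2 * N1)) =
        20736 * A ^ 5 * δ / (τ ^ 3 * N1) := by
      field_simp
      ring
    linarith
  · have h1 := dz_mul (q1 : ℤ) ((q2 : ℝ) * lam2)
    have h2 : ((q1 * q2 : ℕ) : ℝ) * lam2 = ((q1 : ℤ) : ℝ) * ((q2 : ℝ) * lam2) := by
      push_cast
      ring
    rw [h2]
    have h3 : |((q1 : ℤ) : ℝ)| = (q1 : ℝ) := by
      rw [Int.cast_natCast]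
      exact abs_of_nonneg (Nat.cast_nonneg _)
    rw [h3] at h1
    have h4 : (q1 : ℝ) * dz ((q2 : ℝ) * lam2) ≤
        24 * A ^ 2 / τ * (864 * A ^ 3 * δ / (τ ^ 2 * N2)) :=
      mul_le_mul b1 c2 (dz_nonneg _) (by positivity)
    have h5 : 24 * A ^ 2 / τ * (864 * A ^ 3 * δ / (τ ^ 2 * N2)) =
        20736 * A ^ 5 * δ / (τ ^ 3 * N2) := by
      field_simp
      ring
    linarith

end Pool.Agent.H96.EB
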