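import Pool.Agent.H96.EB.Mn
import Pool.Agent.H96.EB.Ide
import Pool.Agent.H96.EB.Ibd
import Pool.Agent.H96.EB.Par
import Pool.Agent.H96.EB.Dia

/-!
# [H96 EB SGM] The sum of the squares

PROOF. `C`, `c` of `mn` (enlarge `C` so that `C >= 51200`), `Q0 = C T^c`. `Σ_b (Σ_p Gp)^2 = Σ_p Σ_b Gp^2 + Σ_{p ≠ p'} Σ_b Gp Gp'`. First sum: `dia`. For `p ≠ p'` let `ρ = (p'/p)^(1/3)` (`Real.rpow`; `ρ^3 p = p'`). `ide`, `ibd`: `|Σ_b Gp Gp'| <= (3/N) Σ_j sqrt EE sqrt(Aa p) sqrt(Aa p')` at `α = j/N`.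
If `j/N ∉ MJ Q0 P K` then `EE <= (K/(MP))^2/T` (`mn`), `sqrt EE <= (K/(MP))/sqrt T`; by Cauchy and `par1` (`(1/N) Σ_j sqrt(Aa p) sqrt(Aa p') <= VV`) these `j` contribute `<= 3 (K/(MP)) VV/sqrt T`.
If `j/N ∈ MJ`: `EE <= 10^6 (K/(MP))^2` (`ee_triv`; `51200 P^5 M^3 <= K^2`), contribution `<= 3000 (K/(MP)) sqrt(Jp p) sqrt(Jp p')` by Cauchy. Sum over `p ≠ p'`: `card PP <= P` (`PP ⊆ (P,2P]`), `P^2 * 3 (K/(MP)) VV/sqrt T = 3 (KP/M) VV/sqrt T` and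
`Σ_{p,p'} sqrt Jp sqrt Jp' = (Σ sqrt Jp)^2 <= P Σ_p Jp`.
-/

namespace Pool.Agent.H96.EB

open Finset

private theorem sgm_aa (K : ℕ) (g : ℤ → ℝ) (p : ℕ) (α : ℝ) : 0 ≤ Aa K g p α := by
  unfold Aa
  positivity

private theorem sgm_jp (K : ℕ) (g : ℤ → ℝ) (Q0 P : ℝ) (N p : ℕ) (S : Finset ℕ)
    (hS : ∀ j, j ∈ S ↔ j < N ∧ (j : ℝ) / N ∈ MJ Q0 P K) :
    Jp K g Q0 P N p = (1 / (N : ℝ)) * ∑ j ∈ S, Aa K g p ((j : ℝ) / N) := by
  classical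
  unfold Jp
  congr 1
  symm
  apply Finset.sum_bij (fun (j : ℕ) _ => (j : ℝ))
  · intro j hj
    rw [hS] at hj
    simp only [Finset.mem_filter, Finset.bind_def, Finset.pure_def, Finset.mem_sup,
      Finset.mem_singleton, Finset.mem_range]
    exact ⟨⟨j, hj.1, rfl⟩, hj.2⟩
  · intro i _ j _ h
    exact_mod_cast h
  · intro x hx
    simp only [Finset.mem_filter, Finset.bind_def, Finset.pure_def, Finset.mem_sup,
      Finset.mem_singleton, Finset.mem_range] at hx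
    obtain ⟨⟨j, hj, rfl⟩, h2⟩ := hx
    exact ⟨j, (hS j).2 ⟨hj, h2⟩, rfl⟩
  · intro j _
    rfl

/-- Cauchy for sums of products of square roots -/
private theorem sgm_cs {ι : Type*} (s : Finset ι) (f g : ι → ℝ) (hf : ∀ i, 0 ≤ f i)
    (hg : ∀ i, 0 ≤ g i) : ∑ i ∈ s, Real.sqrt (f i) * Real.sqrt (g i) ≤
      Real.sqrt (∑ i ∈ s, f i) * Real.sqrt (∑ i ∈ s, g i) := by
  have h := Finset.sum_mul_sq_le_sq_mul_sq s (fun i => Real.sqrt (f i)) (fun i => Real.sqrt (g i))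
  simp only [Real.sq_sqrt (hf _), Real.sq_sqrt (hg _)] at h
  rw [← Real.sqrt_mul (Finset.sum_nonneg fun i _ => hf i)]
  exact Real.le_sqrt_of_sq_le h

private theorem sgm_pair (C : ℝ) (c : ℕ) (hC : 51200 ≤ C)
    (hmn : ∀ (M M' P p p' : ℕ) (K ρ T α : ℝ), 1 ≤ M →
    M' ≤ 2 * M + 1 → p.Prime → p'.Prime → p ≠ p' → P < p → p ≤ 2 * P → P < p' → p' ≤ 2 * P →
    0 < ρ → ρ ^ 3 * p = p' → 1 ≤ T → 0 < K → K ≤ 8 * (M : ℝ) ^ 3 →
    C * T ^ c * ((P : ℝ) ^ 5 * (M : ℝ) ^ 3) ≤ K ^ 2 →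
    (K / (M * P)) ^ 2 / T < EE M M' (K / M ^ 2) ρ p p' α →
    ∃ q : ℕ, 1 ≤ q ∧ (q : ℝ) ≤ C * T ^ c ∧ ∃ a : ℤ, |q * α - a| ≤ C * T ^ c * P / K)
    (K M M' P N : ℕ) (T : ℝ) (g : ℤ → ℝ) (hM : 1 ≤ M) (hM' : M' ≤ 2 * M + 1) (hK : 1 ≤ K)
    (hKM : K ≤ 8 * M ^ 3) (hP : 1 ≤ P) (hN : 40 * M ^ 3 ≤ N) (hT : 1 ≤ T)
    (hbig : C * T ^ c * ((P : ℝ) ^ 5 * (M : ℝ) ^ 3) ≤ (K : ℝ) ^ 2)
    (p p' : ℕ) (hp : p.Prime) (hp' : p'.Prime) (hne : p ≠ p') (h1 : P < p) (h2 : p ≤ 2 * P)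
    (h3 : P < p') (h4 : p' ≤ 2 * P) :
    ∑ b ∈ Icc (1 : ℤ) N, Gp K M M' g p b * Gp K M M' g p' b ≤
      3 * ((K : ℝ) / (M * P)) / Real.sqrt T * VV K g + 3000 * ((K : ℝ) / (M * P)) *
        (Real.sqrt (Jp K g (C * T ^ c) P N p) * Real.sqrt (Jp K g (C * T ^ c) P N p')) := by
  classical
  have hM0 : (0 : ℝ) < M := by exact_mod_cast hM
  have hP0 : (0 : ℝ) < P := by exact_mod_cast hP
  have hK0 : (0 : ℝ) < K := by exact_mod_cast hK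
  have hT0 : 0 < T := by linarith
  have hp0 : (0 : ℝ) < p := by exact_mod_cast hp.pos
  have hp'0 : (0 : ℝ) < p' := by exact_mod_cast hp'.pos
  have hKN : K ≤ N := by omega
  have hN1 : 1 ≤ N := le_trans hK hKN
  have hN0 : (0 : ℝ) < N := by exact_mod_cast hN1
  obtain ⟨ρ, hρ, hρ3⟩ : ∃ ρ : ℝ, 0 < ρ ∧ ρ ^ 3 * p = p' := by
    refine ⟨((p' : ℝ) / p) ^ (((3 : ℕ) : ℝ)⁻¹), by positivity, ?_⟩
    rw [Real.rpow_inv_natCast_pow (by positivity) (by norm_num)]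
    field_simp
  have hKM' : (K : ℝ) ≤ 8 * (M : ℝ) ^ 3 := by exact_mod_cast hKM
  have hT1 : 1 ≤ T ^ c := one_le_pow₀ hT
  have hC0 : 0 < C := by linarith
  have hbig2 : 51200 * (P : ℝ) ^ 5 * (M : ℝ) ^ 3 ≤ (K : ℝ) ^ 2 := by
    refine le_trans ?_ hbig
    rw [mul_assoc]
    apply mul_le_mul_of_nonneg_right _ (by positivity)
    nlinarith
  set W : ℝ := (K : ℝ) / (M * P) with hW
  have hW0 : 0 < W := by positivity
  set Q := C * T ^ c with hQ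
  set A : ℕ → ℝ := fun j => Real.sqrt (Aa K g p ((j : ℝ) / N)) with hA
  set B : ℕ → ℝ := fun j => Real.sqrt (Aa K g p' ((j : ℝ) / N)) with hB
  have hA0 : ∀ j, 0 ≤ A j := fun j => Real.sqrt_nonneg _
  have hB0 : ∀ j, 0 ≤ B j := fun j => Real.sqrt_nonneg _
  -- step 1
  have e1 := ide K M M' P N p p' ρ g hM hM' hK hKM hp hp' h1 h2 h3 h4 hρ hρ3 hN
  have e2 : ∑ b ∈ Icc (1 : ℤ) N, Gp K M M' g p b * Gp K M M' g p' b ≤
      (1 / (N : ℝ)) * ∑ j ∈ range N, 3 * Real.sqrt (EE M M' ((K : ℝ) / (M : ℝ) ^ 2) ρ p p'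
        ((j : ℝ) / N)) * A j * B j := by
    refine (le_abs_self _).trans ?_
    rw [← Real.norm_eq_abs, ← Complex.norm_real, e1, norm_mul]
    have e3 : ‖(1 / (N : ℂ))‖ = 1 / (N : ℝ) := by
      rw [norm_div, norm_one, Complex.norm_natCast]
    rw [e3]
    apply mul_le_mul_of_nonneg_left _ (by positivity)
    refine (norm_sum_le _ _).trans (Finset.sum_le_sum fun j _ => ?_)
    exact ibd K M M' p p' _ ρ g hp hp' _
  -- step 2
  have e4 : ∀ j : ℕ, Real.sqrt (EE M M' ((K : ℝ) / (M : ℝ) ^ 2) ρ p p' ((j : ℝ) / N)) ≤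
      W / Real.sqrt T + (if (j : ℝ) / N ∈ MJ Q P K then 1000 * W else 0) := by
    intro j
    by_cases hj : (j : ℝ) / N ∈ MJ Q P K
    · rw [if_pos hj]
      have h5 := ee_triv M M' hM hM' K ρ P p p' hp hp' hne hK0 hKM' hρ hρ3 h1 h2 h3 h4 hbig2
        ((j : ℝ) / N)
      have h6 : Real.sqrt (EE M M' ((K : ℝ) / (M : ℝ) ^ 2) ρ p p' ((j : ℝ) / N)) ≤ 1000 * W := by
        apply Real.sqrt_le_iff.2 ⟨by positivity, ?_⟩
        refine h5.trans (le_of_eq ?_)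
        rw [hW]
        ring
      have h7 : 0 ≤ W / Real.sqrt T := by positivity
      linarith
    · rw [if_neg hj, add_zero]
      have h5 : EE M M' ((K : ℝ) / (M : ℝ) ^ 2) ρ p p' ((j : ℝ) / N) ≤ W ^ 2 / T := by
        by_contra hc
        rw [not_le] at hc
        obtain ⟨q, hq1, hq2, a, ha⟩ := hmn M M' P p p' K ρ T ((j : ℝ) / N) hM hM' hp hp' hne h1 h2
          h3 h4 hρ hρ3 hT hK0 hKM' hbig hc
        exact hj ⟨q, hq1, hq2, a, ha⟩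
      apply Real.sqrt_le_iff.2 ⟨by positivity, ?_⟩
      rw [div_pow, Real.sq_sqrt hT0.le]
      exact h5
  -- step 3
  have e5 : ∑ j ∈ range N, A j * B j ≤ N * VV K g := by
    refine (sgm_cs (range N) _ _ (fun j => sgm_aa K g p _) (fun j => sgm_aa K g p' _)).trans ?_
    have f1 := par1 K N p g hp.one_lt.le hN1 hKN
    have f2 := par1 K N p' g hp'.one_lt.le hN1 hKN
    have f3 : ∑ j ∈ range N, Aa K g p ((j : ℝ) / N) = N * VV K g := by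
      rw [← f1]
      field_simp
    have f4 : ∑ j ∈ range N, Aa K g p' ((j : ℝ) / N) = N * VV K g := by
      rw [← f2]
      field_simp
    rw [f3, f4, Real.mul_self_sqrt]
    have : 0 ≤ VV K g := by
      unfold VV
      positivity
    positivity
  have e6 : ∑ j ∈ (range N).filter (fun j : ℕ => (j : ℝ) / N ∈ MJ Q P K), A j * B j ≤
      N * (Real.sqrt (Jp K g Q P N p) * Real.sqrt (Jp K g Q P N p')) := by
    refine (sgm_cs _ _ _ (fun j => sgm_aa K g p _) (fun j => sgm_aa K g p' _)).trans ?_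
    have f3 : ∀ r : ℕ, ∑ j ∈ (range N).filter (fun j : ℕ => (j : ℝ) / N ∈ MJ Q P K),
        Aa K g r ((j : ℝ) / N) = N * Jp K g Q P N r := by
      intro r
      rw [sgm_jp K g Q P N r ((range N).filter (fun j : ℕ => (j : ℝ) / N ∈ MJ Q P K))
        (fun j => by rw [mem_filter, mem_range]), ← mul_assoc, mul_one_div_cancel hN0.ne', one_mul]
    rw [f3, f3, Real.sqrt_mul hN0.le, Real.sqrt_mul hN0.le]
    have f5 := Real.mul_self_sqrt hN0.le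
    apply le_of_eq
    calc Real.sqrt N * Real.sqrt (Jp K g Q P N p) * (Real.sqrt N * Real.sqrt (Jp K g Q P N p'))
        = (Real.sqrt N * Real.sqrt N) *
          (Real.sqrt (Jp K g Q P N p) * Real.sqrt (Jp K g Q P N p')) := by ring
      _ = _ := by rw [f5]
  refine e2.trans ?_
  have e7 : ∑ j ∈ range N, 3 * Real.sqrt (EE M M' ((K : ℝ) / (M : ℝ) ^ 2) ρ p p'
        ((j : ℝ) / N)) * A j * B j ≤ 3 * (W / Real.sqrt T) * ∑ j ∈ range N, A j * B j +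
        3000 * W * ∑ j ∈ (range N).filter (fun j : ℕ => (j : ℝ) / N ∈ MJ Q P K), A j * B j := by
    rw [Finset.sum_filter, Finset.mul_sum, Finset.mul_sum, ← Finset.sum_add_distrib]
    apply Finset.sum_le_sum
    intro j _
    have h8 := e4 j
    have h9 : 0 ≤ A j * B j := mul_nonneg (hA0 j) (hB0 j)
    split_ifs at h8 ⊢ with hj
    · nlinarith [mul_le_mul_of_nonneg_right h8 h9]
    · nlinarith [mul_le_mul_of_nonneg_right h8 h9]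
  have e8 : (1 / (N : ℝ)) * ∑ j ∈ range N, 3 * Real.sqrt (EE M M' ((K : ℝ) / (M : ℝ) ^ 2) ρ p p'
        ((j : ℝ) / N)) * A j * B j ≤ (1 / (N : ℝ)) * (3 * (W / Real.sqrt T) * (N * VV K g) +
        3000 * W * (N * (Real.sqrt (Jp K g Q P N p) * Real.sqrt (Jp K g Q P N p')))) := by
    apply mul_le_mul_of_nonneg_left _ (by positivity)
    refine e7.trans ?_
    gcongr
  refine e8.trans (le_of_eq ?_)
  field_simp

theorem sgm : ∃ (C : ℝ) (c : ℕ), 1 ≤ C ∧ ∀ (K M M' P N : ℕ) (T : ℝ) (PP : Finset ℕ) (g : ℤ → ℝ),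
    1 ≤ M → M' ≤ 2 * M + 1 → 1 ≤ K → K ≤ 8 * M ^ 3 → 1 ≤ P → 40 * M ^ 3 ≤ N → 1 ≤ T →
    (∀ p ∈ PP, p.Prime ∧ P < p ∧ p ≤ 2 * P) →
    C * T ^ c * ((P : ℝ) ^ 5 * (M : ℝ) ^ 3) ≤ (K : ℝ) ^ 2 →
    ∑ b ∈ Icc (1 : ℤ) N, (∑ p ∈ PP, Gp K M M' g p b) ^ 2 ≤
      (8 * M * Real.log (40 * (M : ℝ) ^ 3) * (1 + (K : ℝ) / (M : ℝ) ^ 2) +
        3 * ((K : ℝ) * P / M) / Real.sqrt T) * VV K g +
      3000 * ((K : ℝ) / M) * ∑ p ∈ PP, Jp K g (C * T ^ c) P N p := by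
  obtain ⟨C0, c, hC0, hmn0⟩ := mn
  obtain ⟨C, hC, hCC⟩ : ∃ C : ℝ, 51200 ≤ C ∧ C0 ≤ C :=
    ⟨max C0 51200, le_max_right _ _, le_max_left _ _⟩
  refine ⟨C, c, le_trans hC0 hCC, ?_⟩
  have hmn : ∀ (M M' P p p' : ℕ) (K ρ T α : ℝ), 1 ≤ M →
    M' ≤ 2 * M + 1 → p.Prime → p'.Prime → p ≠ p' → P < p → p ≤ 2 * P → P < p' → p' ≤ 2 * P →
    0 < ρ → ρ ^ 3 * p = p' → 1 ≤ T → 0 < K → K ≤ 8 * (M : ℝ) ^ 3 →
    C * T ^ c * ((P : ℝ) ^ 5 * (M : ℝ) ^ 3) ≤ K ^ 2 →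
    (K / (M * P)) ^ 2 / T < EE M M' (K / M ^ 2) ρ p p' α →
    ∃ q : ℕ, 1 ≤ q ∧ (q : ℝ) ≤ C * T ^ c ∧ ∃ a : ℤ, |q * α - a| ≤ C * T ^ c * P / K := by
    intro M M' P p p' K ρ T α h1 h2 h3 h4 h5 h6 h7 h8 h9 h10 h11 h12 h13 h14 h15 h16
    have hT0 : 0 ≤ T ^ c := by positivity
    have hle : C0 * T ^ c ≤ C * T ^ c := mul_le_mul_of_nonneg_right hCC hT0
    obtain ⟨q, hq1, hq2, a, ha⟩ := hmn0 M M' P p p' K ρ T α h1 h2 h3 h4 h5 h6 h7 h8 h9 h10 h11 h12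
      h13 h14 (le_trans (mul_le_mul_of_nonneg_right hle (by positivity)) h15) h16
    refine ⟨q, hq1, hq2.trans hle, a, ha.trans ?_⟩
    gcongr
  intro K M M' P N T PP g hM hM' hK hKM hP hN hT hPP hbig
  have hM0 : (0 : ℝ) < M := by exact_mod_cast hM
  have hP0 : (0 : ℝ) < P := by exact_mod_cast hP
  have hK0 : (0 : ℝ) < K := by exact_mod_cast hK
  have hT0 : 0 < T := by linarith
  have hV0 : 0 ≤ VV K g := by
    unfold VV
    positivity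
  have hcard : (PP.card : ℝ) ≤ P := by
    have : PP.card ≤ P := by
      have h1 : PP ⊆ Ioc P (2 * P) := by
        intro p hp
        obtain ⟨_, h2, h3⟩ := hPP p hp
        exact mem_Ioc.2 ⟨h2, h3⟩
      have h2 := Finset.card_le_card h1
      rw [Nat.card_Ioc] at h2
      omega
    exact_mod_cast this
  set W : ℝ := (K : ℝ) / (M * P) with hW
  have hW0 : 0 < W := by positivity
  set J : ℕ → ℝ := fun p => Jp K g (C * T ^ c) P N p with hJ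
  have hJ0 : ∀ p, 0 ≤ J p := by
    intro p
    simp only [hJ, Jp]
    exact mul_nonneg (by positivity) (Finset.sum_nonneg fun j _ => sgm_aa K g p _)
  have hd := dia K M M' N PP g hM hM' hKM (fun p hp => (hPP p hp).1)
  have e1 : ∑ b ∈ Icc (1 : ℤ) N, (∑ p ∈ PP, Gp K M M' g p b) ^ 2 =
      ∑ p ∈ PP, ∑ p' ∈ PP, ∑ b ∈ Icc (1 : ℤ) N, Gp K M M' g p b * Gp K M M' g p' b := by
    calc ∑ b ∈ Icc (1 : ℤ) N, (∑ p ∈ PP, Gp K M M' g p b) ^ 2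
        = ∑ b ∈ Icc (1 : ℤ) N, ∑ p ∈ PP, ∑ p' ∈ PP, Gp K M M' g p b * Gp K M M' g p' b := by
          apply Finset.sum_congr rfl
          intro b _
          rw [sq, Finset.sum_mul_sum]
      _ = _ := by
          rw [Finset.sum_comm]
          apply Finset.sum_congr rfl
          intro p _
          rw [Finset.sum_comm]
  have e2 : ∀ p ∈ PP, ∀ p' ∈ PP, ∑ b ∈ Icc (1 : ℤ) N, Gp K M M' g p b * Gp K M M' g p' b ≤
      (if p = p' then ∑ b ∈ Icc (1 : ℤ) N, (Gp K M M' g p b) ^ 2 else 0) +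
      (3 * W / Real.sqrt T * VV K g + 3000 * W * (Real.sqrt (J p) * Real.sqrt (J p'))) := by
    intro p hp p' hp'
    obtain ⟨a1, a2, a3⟩ := hPP p hp
    obtain ⟨b1, b2, b3⟩ := hPP p' hp'
    by_cases hne : p = p'
    · subst hne
      rw [if_pos rfl]
      have h1 : 0 ≤ 3 * W / Real.sqrt T * VV K g + 3000 * W * (Real.sqrt (J p) * Real.sqrt (J p)) := by
        positivity
      have h2 : ∑ b ∈ Icc (1 : ℤ) N, Gp K M M' g p b * Gp K M M' g p b =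
          ∑ b ∈ Icc (1 : ℤ) N, (Gp K M M' g p b) ^ 2 :=
        Finset.sum_congr rfl fun b _ => (sq _).symm
      linarith
    · rw [if_neg hne, zero_add]
      exact sgm_pair C c hC hmn K M M' P N T g hM hM' hK hKM hP hN hT hbig p p' a1 b1 hne a2 a3 b2
        b3
  have e3 : ∑ p ∈ PP, ∑ p' ∈ PP, ∑ b ∈ Icc (1 : ℤ) N, Gp K M M' g p b * Gp K M M' g p' b ≤
      ∑ p ∈ PP, ∑ b ∈ Icc (1 : ℤ) N, (Gp K M M' g p b) ^ 2 +
      ((PP.card : ℝ) ^ 2 * (3 * W / Real.sqrt T * VV K g) +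
        3000 * W * (∑ p ∈ PP, Real.sqrt (J p)) ^ 2) := by
    refine (Finset.sum_le_sum fun p hp => Finset.sum_le_sum fun p' hp' => e2 p hp p' hp').trans
      (le_of_eq ?_)
    simp only [Finset.sum_add_distrib, Finset.sum_const, nsmul_eq_mul, Finset.sum_ite_eq]
    rw [sq (∑ p ∈ PP, Real.sqrt (J p)), Finset.sum_mul_sum]
    simp only [Finset.mul_sum]
    have h1 : ∑ x ∈ PP, (if x ∈ PP then ∑ b ∈ Icc (1 : ℤ) N, (Gp K M M' g x b) ^ 2 else 0) =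
        ∑ x ∈ PP, ∑ b ∈ Icc (1 : ℤ) N, (Gp K M M' g x b) ^ 2 :=
      Finset.sum_congr rfl fun x hx => if_pos hx
    rw [h1]
    ring
  have e4 : (∑ p ∈ PP, Real.sqrt (J p)) ^ 2 ≤ P * ∑ p ∈ PP, J p := by
    have h1 := sq_sum_le_card_mul_sum_sq (s := PP) (f := fun p => Real.sqrt (J p))
    simp only [Real.sq_sqrt (hJ0 _)] at h1
    refine h1.trans ?_
    exact mul_le_mul_of_nonneg_right hcard (Finset.sum_nonneg fun p _ => hJ0 p)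
  rw [e1]
  refine e3.trans ?_
  have e5 : (PP.card : ℝ) ^ 2 * (3 * W / Real.sqrt T * VV K g) ≤
      (P : ℝ) ^ 2 * (3 * W / Real.sqrt T * VV K g) := by
    gcongr
  have e6 : 3000 * W * (∑ p ∈ PP, Real.sqrt (J p)) ^ 2 ≤ 3000 * W * (P * ∑ p ∈ PP, J p) := by
    gcongr
  have e7 : (P : ℝ) ^ 2 * (3 * W / Real.sqrt T * VV K g) =
      3 * ((K : ℝ) * P / M) / Real.sqrt T * VV K g := by
    rw [hW]
    field_simp
  have e8 : 3000 * W * (P * ∑ p ∈ PP, J p) = 3000 * ((K : ℝ) / M) * ∑ p ∈ PP, J p := by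
    rw [hW]
    field_simp
  rw [add_mul]
  linarith

end Pool.Agent.H96.EB
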