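import Pool.Agent.H96.EB.Red
import Pool.Agent.H96.EB.Bas
import Pool.Agent.H96.EB.Lio
import Pool.Agent.H96.EB.Dif
import Pool.Agent.H96.EB.Lin

/-!
# [H96 EB TRV] Reduced bases with small second minima; trivial bounds

PROOF. `basis1`: `red` with `X = M`, `Y = K/M^2`, `θ = ρ`: `w 0 = v1`, `w 1 = v2`. `w 0 ≠ 0`, so `1 <= 100 K p l1^3`, `l1 = nu1 (w 0)` (`lio1`); `l1 l2 <= 2M/K`. So `l2^3 <= 8 M^3/(K^3 l1^3) <= 8 M^3/K^3 * 100 K p <= 1600 P M^3/K^2` (`p <= 2P`).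
`basis2`: `red` with `X = M/p`, `Y = K/(M^2 p')`, `θ = ρ p/p'`: `l1 l2 <= 2 M p p'/K <= 8 M P^2/K`, `p' <= 100 K l1^3` (`lio2`), so `l2^3 <= 512 M^3 P^6/(K^3 l1^3) <= 512 M^3 P^6 * 100 K/(K^3 p') <= 51200 M^3 P^5/K^2` (`P < p'`).
`rg_card`: with `basis1`, `l1 <= l2 <= 1`. Fix `z0 ∈ R` (if `R` is empty: trivial); `z ↦ z - z0` is injective into `{nu1 <= 2}` (`rg_diff`), so card `<= (16/l1 + 1)(16/l2 + 1) <= 289/(l1 l2)` (`bas_fin`) and `1/(l1 l2) <= 2 K/M` (`bas_lo`): `<= 578 K/M`.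
`ee_triv`: `dif0` with `Hs` = the set of `bas_fin` for `basis2` and `t = 2`: card `<= 289/(l1 l2) <= 289 * 2 * (M/p)(K/(M^2 p')) <= 578 K/(M P^2)`; times `rg_card`: `<= 578^2 (K/(MP))^2 <= 10^6 (K/(MP))^2`.
-/

namespace Pool.Agent.H96.EB

open Finset

theorem ne_of_det {u v : ℤ × ℤ} (h : u.1 * v.2 - u.2 * v.1 = 1) : u ≠ 0 := by
  rintro rfl
  simp at h

theorem basis1 (K M ρ : ℝ) (P p p' : ℕ) (hp : p.Prime) (hp' : p'.Prime) (hne : p ≠ p')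
    (hM : 0 < M) (hK : 0 < K) (hKM : K ≤ 8 * M ^ 3) (hρ : 0 < ρ) (hρ3 : ρ ^ 3 * p = p')
    (h1 : P < p) (h2 : p ≤ 2 * P) (h3 : P < p') (h4 : p' ≤ 2 * P) :
    ∃ w : Fin 2 → ℤ × ℤ, (w 0).1 * (w 1).2 - (w 0).2 * (w 1).1 = 1 ∧
      nu1 K M ρ (w 0) ≤ nu1 K M ρ (w 1) ∧
      nu1 K M ρ (w 0) * nu1 K M ρ (w 1) ≤ 2 / (M * (K / M ^ 2)) ∧
      (nu1 K M ρ (w 1)) ^ 3 ≤ 1600 * P * M ^ 3 / K ^ 2 := by
  obtain ⟨v1, v2, hdet, -, h12, hpr⟩ := red M (K / M ^ 2) ρ hM (by positivity)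
  refine ⟨![v1, v2], by simpa using hdet, by simpa [nu1] using h12, by simpa [nu1] using hpr, ?_⟩
  have hv1 : v1 ≠ 0 := ne_of_det hdet
  have hl := lio1 K M ρ p p' hp hp' hne hM hK hKM hρ hρ3 (by omega) v1 hv1
  have hpos : 0 < nu1 K M ρ v1 := gau_pos _ _ _ hM (by positivity) v1 hv1
  have hn2 : 0 ≤ nu1 K M ρ v2 := gau_nonneg _ _ _ hM v2
  have hpr' : nu1 K M ρ v1 * nu1 K M ρ v2 ≤ 2 * M / K := by
    have : 2 / (M * (K / M ^ 2)) = 2 * M / K := by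
      field_simp
    rw [← this]
    exact hpr
  have hpP : (p : ℝ) ≤ 2 * P := by exact_mod_cast h2
  set a := nu1 K M ρ v1 with ha
  set b := nu1 K M ρ v2 with hb
  have hab : (a * b) ^ 3 ≤ (2 * M / K) ^ 3 := pow_le_pow_left₀ (by positivity) hpr' 3
  show b ^ 3 ≤ _
  have hb3 : b ^ 3 ≤ (100 * K * p) * (a * b) ^ 3 := by
    have : 1 * b ^ 3 ≤ (100 * K * p * a ^ 3) * b ^ 3 :=
      mul_le_mul_of_nonneg_right hl (by positivity)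
    calc b ^ 3 = 1 * b ^ 3 := by ring
      _ ≤ (100 * K * p * a ^ 3) * b ^ 3 := this
      _ = (100 * K * p) * (a * b) ^ 3 := by ring
  calc b ^ 3 ≤ (100 * K * p) * (a * b) ^ 3 := hb3
    _ ≤ (100 * K * (2 * P)) * (2 * M / K) ^ 3 := by gcongr
    _ = 1600 * P * M ^ 3 / K ^ 2 := by field_simp; ring

theorem basis2 (K M ρ : ℝ) (P p p' : ℕ) (hp : p.Prime) (hp' : p'.Prime) (hne : p ≠ p')
    (hM : 0 < M) (hK : 0 < K) (hKM : K ≤ 8 * M ^ 3) (hρ : 0 < ρ) (hρ3 : ρ ^ 3 * p = p')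
    (h1 : P < p) (h2 : p ≤ 2 * P) (h3 : P < p') (h4 : p' ≤ 2 * P) :
    ∃ v : Fin 2 → ℤ × ℤ, (v 0).1 * (v 1).2 - (v 0).2 * (v 1).1 = 1 ∧
      nu2 K M ρ p p' (v 0) ≤ nu2 K M ρ p p' (v 1) ∧
      nu2 K M ρ p p' (v 0) * nu2 K M ρ p p' (v 1) ≤ 2 / ((M / p) * (K / (M ^ 2 * p'))) ∧
      (nu2 K M ρ p p' (v 1)) ^ 3 ≤ 51200 * P ^ 5 * M ^ 3 / K ^ 2 := by
  have hp0 : (0 : ℝ) < p := by exact_mod_cast hp.pos
  have hp'0 : (0 : ℝ) < p' := by exact_mod_cast hp'.pos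
  obtain ⟨v1, v2, hdet, -, h12, hpr⟩ := red (M / p) (K / (M ^ 2 * p')) (ρ * p / p')
    (by positivity) (by positivity)
  refine ⟨![v1, v2], by simpa using hdet, by simpa [nu2] using h12, by simpa [nu2] using hpr, ?_⟩
  have hv1 : v1 ≠ 0 := ne_of_det hdet
  have hl := lio2 K M ρ p p' hp hp' hne hM hK hKM hρ hρ3 (by omega) v1 hv1
  have hpos : 0 < nu2 K M ρ p p' v1 := gau_pos _ _ _ (by positivity) (by positivity) v1 hv1
  have hn2 : 0 ≤ nu2 K M ρ p p' v2 := gau_nonneg _ _ _ (by positivity) v2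
  have hpP : (p : ℝ) ≤ 2 * P := by exact_mod_cast h2
  have hpP' : (p' : ℝ) ≤ 2 * P := by exact_mod_cast h4
  have hPp' : (P : ℝ) ≤ p' := by exact_mod_cast h3.le
  have hP0 : (0 : ℝ) < P := by
    have : 0 < P := by
      have := hp.two_le
      omega
    exact_mod_cast this
  have hpr' : nu2 K M ρ p p' v1 * nu2 K M ρ p p' v2 ≤ 8 * M * P ^ 2 / K := by
    have h5 : 2 / ((M / p) * (K / (M ^ 2 * p'))) = 2 * M * p * p' / K := by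
      field_simp
    have h6 : nu2 K M ρ p p' v1 * nu2 K M ρ p p' v2 ≤ 2 * M * p * p' / K := by
      rw [← h5]
      exact hpr
    refine h6.trans ?_
    have h7 : 2 * M * p * p' ≤ 8 * M * (P : ℝ) ^ 2 := by
      calc 2 * M * p * p' ≤ 2 * M * (2 * P) * (2 * P) := by gcongr
        _ = 8 * M * (P : ℝ) ^ 2 := by ring
    gcongr
  set a := nu2 K M ρ p p' v1 with ha
  set b := nu2 K M ρ p p' v2 with hb
  have hab : (a * b) ^ 3 ≤ (8 * M * P ^ 2 / K) ^ 3 := pow_le_pow_left₀ (by positivity) hpr' 3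
  show b ^ 3 ≤ _
  have hb3 : P * b ^ 3 ≤ (100 * K) * (a * b) ^ 3 := by
    calc P * b ^ 3 ≤ (100 * K * a ^ 3) * b ^ 3 :=
          mul_le_mul_of_nonneg_right (hPp'.trans hl) (by positivity)
      _ = (100 * K) * (a * b) ^ 3 := by ring
  have h8 : P * b ^ 3 ≤ P * (51200 * P ^ 5 * M ^ 3 / K ^ 2) := by
    calc P * b ^ 3 ≤ (100 * K) * (a * b) ^ 3 := hb3
      _ ≤ (100 * K) * (8 * M * P ^ 2 / K) ^ 3 := by gcongr
      _ = P * (51200 * P ^ 5 * M ^ 3 / K ^ 2) := by field_simp; ring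
  exact le_of_mul_le_mul_left h8 hP0

/-- the count for a basis with `l1 <= l2 <= 1` -/
theorem fin_card (X Y θ : ℝ) (hX : 0 < X) (hY : 0 < Y) (v1 v2 : ℤ × ℤ)
    (hdet : v1.1 * v2.2 - v1.2 * v2.1 = 1) (h12 : gau X Y θ v1 ≤ gau X Y θ v2)
    (hl : gau X Y θ v1 * gau X Y θ v2 ≤ 2 / (X * Y)) (h2 : gau X Y θ v2 ≤ 1) :
    ∃ S : Finset (ℤ × ℤ), (∀ v, v ∈ S ↔ gau X Y θ v ≤ 2) ∧ (S.card : ℝ) ≤ 578 * (X * Y) := by
  obtain ⟨S, hS, hc⟩ := bas_fin X Y θ hX hY v1 v2 hdet hl 2 (by norm_num)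
  refine ⟨S, hS, hc.trans ?_⟩
  have hlo := bas_lo X Y θ hX hY v1 v2 hdet
  have ha : 0 < gau X Y θ v1 := gau_pos _ _ _ hX hY v1 (ne_of_det hdet)
  set a := gau X Y θ v1
  set b := gau X Y θ v2
  have hb : 0 < b := ha.trans_le h12
  have ha1 : a ≤ 1 := h12.trans h2
  have e1 : 8 * 2 / a + 1 ≤ 17 / a := by
    rw [div_add_one ha.ne']
    gcongr
    linarith
  have e2 : 8 * 2 / b + 1 ≤ 17 / b := by
    rw [div_add_one hb.ne']
    gcongr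
    linarith
  calc (8 * 2 / a + 1) * (8 * 2 / b + 1) ≤ (17 / a) * (17 / b) := by gcongr
    _ = 289 / (a * b) := by field_simp; norm_num
    _ ≤ 578 * (X * Y) := by
        rw [div_le_iff₀ (by positivity)]
        nlinarith

theorem rg_card (M M' : ℕ) (hM : 1 ≤ M) (hM' : M' ≤ 2 * M + 1) (K ρ : ℝ) (P p p' : ℕ)
    (hp : p.Prime) (hp' : p'.Prime) (hne : p ≠ p') (hK : 0 < K) (hKM : K ≤ 8 * (M : ℝ) ^ 3)
    (hρ : 0 < ρ) (hρ3 : ρ ^ 3 * p = p') (h1 : P < p) (h2 : p ≤ 2 * P) (h3 : P < p')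
    (h4 : p' ≤ 2 * P) (hbig : 1600 * P * (M : ℝ) ^ 3 ≤ K ^ 2) :
    ((Rg M M' (K / M ^ 2) ρ).card : ℝ) ≤ 578 * K / M := by
  have hM0 : (0 : ℝ) < M := by exact_mod_cast hM
  obtain ⟨w, hdet, h12, hpr, hl2⟩ := basis1 K M ρ P p p' hp hp' hne hM0 hK hKM hρ hρ3 h1 h2 h3 h4
  have hn : 0 ≤ nu1 K M ρ (w 1) := gau_nonneg _ _ _ hM0 _
  have hle1 : nu1 K M ρ (w 1) ≤ 1 := by
    have : (nu1 K M ρ (w 1)) ^ 3 ≤ 1 ^ 3 := by
      refine hl2.trans ?_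
      rw [one_pow, div_le_one (by positivity)]
      exact hbig
    exact le_of_pow_le_pow_left₀ (by norm_num) (by norm_num) this
  obtain ⟨S, hS, hc⟩ := fin_card (M : ℝ) (K / M ^ 2) ρ hM0 (by positivity) (w 0) (w 1) hdet h12 hpr hle1
  have hXY : 578 * ((M : ℝ) * (K / M ^ 2)) = 578 * K / M := by
    field_simp
  rw [← hXY]
  refine le_trans ?_ hc
  rcases (Rg M M' (K / M ^ 2) ρ).eq_empty_or_nonempty with h0 | ⟨z0, hz0⟩
  · rw [h0]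
    simp
  · have : (Rg M M' (K / M ^ 2) ρ).card ≤ S.card := by
      refine Finset.card_le_card_of_injOn (fun z => z - z0) ?_ ?_
      · intro z hz
        exact (hS _).2 (rg_diff M M' hM hM' K ρ hK z z0 hz hz0)
      · intro z _ z' _ h
        exact sub_left_injective h
    exact_mod_cast this

theorem ee_triv (M M' : ℕ) (hM : 1 ≤ M) (hM' : M' ≤ 2 * M + 1) (K ρ : ℝ) (P p p' : ℕ)
    (hp : p.Prime) (hp' : p'.Prime) (hne : p ≠ p') (hK : 0 < K) (hKM : K ≤ 8 * (M : ℝ) ^ 3)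
    (hρ : 0 < ρ) (hρ3 : ρ ^ 3 * p = p') (h1 : P < p) (h2 : p ≤ 2 * P) (h3 : P < p')
    (h4 : p' ≤ 2 * P) (hbig : 51200 * (P : ℝ) ^ 5 * (M : ℝ) ^ 3 ≤ K ^ 2) (α : ℝ) :
    EE M M' (K / M ^ 2) ρ p p' α ≤ 10 ^ 6 * (K / (M * P)) ^ 2 := by
  have hM0 : (0 : ℝ) < M := by exact_mod_cast hM
  have hp0 : (0 : ℝ) < p := by exact_mod_cast hp.pos
  have hp'0 : (0 : ℝ) < p' := by exact_mod_cast hp'.pos
  have hP1 : 1 ≤ P := by
    have := hp.two_le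
    omega
  have hP1' : (1 : ℝ) ≤ P := by exact_mod_cast hP1
  have hP0 : (0 : ℝ) < P := by linarith
  have hbig1 : 1600 * P * (M : ℝ) ^ 3 ≤ K ^ 2 := by
    refine le_trans ?_ hbig
    have : (P : ℝ) ≤ P ^ 5 := by
      calc (P : ℝ) = P ^ 1 := by ring
        _ ≤ P ^ 5 := pow_le_pow_right₀ hP1' (by norm_num)
    have h5 : 1600 * (P : ℝ) ≤ 51200 * P ^ 5 := by
      have : (0 : ℝ) ≤ P ^ 5 := by positivity
      linarith
    gcongr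
  have hR := rg_card M M' hM hM' K ρ P p p' hp hp' hne hK hKM hρ hρ3 h1 h2 h3 h4 hbig1
  obtain ⟨w, hdet, h12, hpr, hl2⟩ := basis2 K M ρ P p p' hp hp' hne hM0 hK hKM hρ hρ3 h1 h2 h3 h4
  have hn : 0 ≤ nu2 K M ρ p p' (w 1) := gau_nonneg _ _ _ (by positivity) _
  have hle1 : nu2 K M ρ p p' (w 1) ≤ 1 := by
    have : (nu2 K M ρ p p' (w 1)) ^ 3 ≤ 1 ^ 3 := by
      refine hl2.trans ?_
      rw [one_pow, div_le_one (by positivity)]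
      exact hbig
    exact le_of_pow_le_pow_left₀ (by norm_num) (by norm_num) this
  obtain ⟨S, hS, hc⟩ := fin_card ((M : ℝ) / p) (K / ((M : ℝ) ^ 2 * p')) (ρ * p / p')
    (by positivity) (by positivity) (w 0) (w 1) hdet h12 hpr hle1
  have hc' : (S.card : ℝ) ≤ 578 * K / (M * P ^ 2) := by
    refine hc.trans ?_
    have hXY : 578 * ((M : ℝ) / p * (K / (M ^ 2 * p'))) = 578 * K / (M * (p * p')) := by
      field_simp
    rw [hXY]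
    have hPP : (P : ℝ) ^ 2 ≤ p * p' := by
      have e1 : (P : ℝ) ≤ p := by exact_mod_cast h1.le
      have e2 : (P : ℝ) ≤ p' := by exact_mod_cast h3.le
      calc (P : ℝ) ^ 2 = P * P := by ring
        _ ≤ p * p' := by gcongr
    gcongr
  have hd := dif0 M M' hM hM' K ρ hK p p' hp.one_lt.le hp'.one_lt.le α S (fun h hh => (hS h).2 hh)
  have hR0 : (0 : ℝ) ≤ (Rg M M' (K / M ^ 2) ρ).card := by positivity
  calc EE M M' (K / M ^ 2) ρ p p' α ≤ S.card * (Rg M M' (K / M ^ 2) ρ).card := hd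
    _ ≤ (578 * K / (M * P ^ 2)) * (578 * K / M) := by gcongr
    _ = 334084 * (K / (M * P)) ^ 2 := by field_simp; norm_num
    _ ≤ 10 ^ 6 * (K / (M * P)) ^ 2 := by
        have : 0 ≤ (K / (M * P)) ^ 2 := by positivity
        nlinarith

end Pool.Agent.H96.EB
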